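import Pool.Agent.W_MP_5f6b2a_lc.Basic

/-!
The hard instances are projections of instances of `p-WSAT(C_{t+2,d})`.
-/

namespace Pool.Agent.W_MP_5f6b2a_lc

namespace Source

/-! ### Sorting a finite type by rank -/

theorem exists_equiv_rank {Nd : Type} [Fintype Nd] (rk : Nd → ℕ) {n : ℕ}
    (hn : Fintype.card Nd = n) : ∃ e : Nd ≃ Fin n, ∀ a b, rk a < rk b → e a < e b := by
  classical
  let f : Nd ≃ Fin n := Fintype.equivFinOfCardEq hn
  let j : Nd → ℕ ×ₗ Fin n := fun a => toLex (rk a, f a)
  have hj : Function.Injective j := by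
    intro a b h
    have := congrArg (fun z => (ofLex z).2) h
    exact f.injective this
  let _ : LinearOrder Nd := LinearOrder.lift' j hj
  let e := Fintype.orderIsoFinOfCardEq Nd hn
  refine ⟨e.symm.toEquiv, fun a b h => ?_⟩
  have : a < b := by
    change j a < j b
    exact Prod.Lex.lt_iff.2 (Or.inl h)
  exact e.symm.lt_iff_lt.2 this

/-! ### Circuits on a finite type of nodes -/

section Abstract

variable {Nd : Type} [Fintype Nd] {N : ℕ} (e : Nd ≃ Fin (N + 1)) (kd : Nd → Kind)
  (wr : Nd → Nd → Bool)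

/-- The circuit on `Fin (N + 1)` coming from node kinds and wires on the type `Nd`. -/
def mkC : Circuit N where
  kind g := kd (e.symm g)
  wire h g := wr (e.symm h) (e.symm g)

theorem mkC_fanIn (n : Nd) :
    (mkC e kd wr).fanIn (e n) = (Finset.univ.filter fun m => wr m n = true).card := by
  unfold Circuit.fanIn mkC
  refine Finset.card_bij' (fun g _ => e.symm g) (fun m _ => e m) ?_ ?_ ?_ ?_
  · intro g hg
    simpa using hg
  · intro m hm
    simpa using hm
  · intro g _
    simp
  · intro m _
    simp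

theorem mkC_correct (rk : Nd → ℕ) (he : ∀ a b, rk a < rk b → e a < e b)
    (H1 : ∀ m n, wr m n = true → rk m < rk n)
    (H2 : ∀ n, kd n = Kind.input → ∀ m, wr m n = false)
    (H3 : ∀ n, kd n = Kind.neg → ∃ m₀, ∀ m, wr m n = true ↔ m = m₀)
    (H4 : ∀ n, (kd n = Kind.conj ∨ kd n = Kind.disj) → ∃ m, wr m n = true) :
    (mkC e kd wr).Correct := by
  refine ⟨?_, ?_, ?_, ?_⟩
  · intro h g hw
    have := he _ _ (H1 _ _ hw)
    simpa using this
  · intro g hg
    obtain ⟨n, rfl⟩ := e.surjective g
    rw [mkC_fanIn]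
    have hn : kd n = Kind.input := by simpa [mkC] using hg
    rw [Finset.card_eq_zero, Finset.filter_eq_empty_iff]
    intro m _
    simp [H2 n hn m]
  · intro g hg
    obtain ⟨n, rfl⟩ := e.surjective g
    rw [mkC_fanIn]
    have hn : kd n = Kind.neg := by simpa [mkC] using hg
    obtain ⟨m₀, hm₀⟩ := H3 n hn
    rw [Finset.card_eq_one]
    refine ⟨m₀, ?_⟩
    ext m
    simp [hm₀]
  · intro g hg
    obtain ⟨n, rfl⟩ := e.surjective g
    rw [mkC_fanIn]
    have hn : kd n = Kind.conj ∨ kd n = Kind.disj := by simpa [mkC] using hg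
    obtain ⟨m, hm⟩ := H4 n hn
    exact Finset.card_pos.2 ⟨m, by simp [hm]⟩

theorem mkC_small (n : Nd) (m₁ m₂ : Nd) (h : ∀ m, wr m n = true → m = m₁ ∨ m = m₂) :
    ¬ (mkC e kd wr).Large (e n) := by
  classical
  rintro ⟨-, h2⟩
  rw [mkC_fanIn] at h2
  have : (Finset.univ.filter fun m => wr m n = true) ⊆ {m₁, m₂} := by
    intro m hm
    have := h m (by simpa using hm)
    simpa using this
  have := (Finset.card_le_card this).trans Finset.card_le_two
  omega

omit [Fintype Nd] in
theorem mkC_isValuation (v : Fin (N + 1) → Bool) :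
    (mkC e kd wr).IsValuation v ↔ ∀ n, match kd n with
      | Kind.input => True
      | Kind.neg => (v (e n) = true ↔ ∃ m, wr m n = true ∧ v (e m) = false)
      | Kind.conj => (v (e n) = true ↔ ∀ m, wr m n = true → v (e m) = true)
      | Kind.disj => (v (e n) = true ↔ ∃ m, wr m n = true ∧ v (e m) = true) := by
  unfold Circuit.IsValuation
  rw [e.forall_congr_left]
  refine forall_congr' fun n => ?_
  unfold mkC
  simp only
  cases kd (e.symm n) with
  | input => rfl
  | neg =>
    simp only [Equiv.apply_symm_apply]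
    rw [e.symm.exists_congr_left]
    simp
  | conj =>
    simp only [Equiv.apply_symm_apply]
    rw [e.symm.forall_congr_left]
    simp
  | disj =>
    simp only [Equiv.apply_symm_apply]
    rw [e.symm.exists_congr_left]
    simp

end Abstract

/-! ### Paths and valuations in arbitrary circuits -/

open Classical in
theorem path_bound {N : ℕ} (C : Circuit N) (rk φ : Fin (N + 1) → ℕ)
    (h1 : ∀ h g, C.wire h g = true → rk h < rk g)
    (h2 : ∀ h g, C.wire h g = true → C.Large g → φ h + 1 ≤ φ g)
    (h3 : ∀ h g, C.wire h g = true → φ h ≤ φ g) (p : List (Fin (N + 1))) :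
    ∀ (g₀ gl : Fin (N + 1)), (g₀ :: p).IsChain (fun h g => C.wire h g = true) →
      (g₀ :: p).getLast? = some gl →
      rk g₀ + p.length ≤ rk gl ∧ φ g₀ + (p.filter fun g => decide (C.Large g)).length ≤ φ gl := by
  induction p with
  | nil =>
    intro g₀ gl _ hl
    simp at hl
    subst hl
    simp
  | cons g₁ p ih =>
    intro g₀ gl hc hl
    rw [List.isChain_cons_cons] at hc
    have hl' : (g₁ :: p).getLast? = some gl := by
      rw [← hl, List.getLast?_cons_cons]
    obtain ⟨i1, i2⟩ := ih g₁ gl hc.2 hl'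
    have a1 := h1 _ _ hc.1
    have a3 := h3 _ _ hc.1
    refine ⟨by simp only [List.length_cons]; omega, ?_⟩
    by_cases hL : C.Large g₁
    · have a2 := h2 _ _ hc.1 hL
      rw [List.filter_cons_of_pos (by simpa using hL)]
      simp only [List.length_cons]
      omega
    · rw [List.filter_cons_of_neg (by simpa using hL)]
      omega

theorem inClass_of {N : ℕ} (C : Circuit N) (hC : C.Correct) (rk φ : Fin (N + 1) → ℕ)
    (h1 : ∀ h g, C.wire h g = true → rk h < rk g)
    (h2 : ∀ h g, C.wire h g = true → C.Large g → φ h + 1 ≤ φ g)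
    (h3 : ∀ h g, C.wire h g = true → φ h ≤ φ g) {t d : ℕ}
    (hd : rk (Fin.last N) ≤ d) (ht : φ (Fin.last N) ≤ t) : C.InClass t d := by
  classical
  refine ⟨hC, fun p hp => ?_⟩
  obtain ⟨hc, ⟨g, hg, hk⟩, hl⟩ := hp
  cases p with
  | nil => simp at hg
  | cons g₀ p =>
    simp only [List.head?_cons, Option.some.injEq] at hg
    subst hg
    obtain ⟨i1, i2⟩ := path_bound C rk φ h1 h2 h3 p g₀ _ hc hl
    have hg0 : ¬ C.Large g₀ := by
      rintro ⟨h, -⟩
      rw [hk] at h
      rcases h with h | h <;> cases h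
    rw [List.filter_cons_of_neg (by simpa using hg0)]
    simp only [List.length_cons]
    constructor
    · omega
    · convert (show (List.filter (fun g => decide (C.Large g)) p).length ≤ t by omega) using 2

theorem exists_valuation {N : ℕ} (C : Circuit N)
    (hC : ∀ h g, C.wire h g = true → h < g) (s : Fin (N + 1) → Bool) :
    ∃ v, C.IsValuation v ∧ ∀ g, C.kind g = Kind.input → v g = s g := by
  classical
  let F : (g : Fin (N + 1)) → ((h : Fin (N + 1)) → h < g → Bool) → Bool := fun g ih =>
    match C.kind g with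
    | Kind.input => s g
    | Kind.neg => decide (∃ h, ∃ hw : C.wire h g = true, ih h (hC h g hw) = false)
    | Kind.conj => decide (∀ h, ∀ hw : C.wire h g = true, ih h (hC h g hw) = true)
    | Kind.disj => decide (∃ h, ∃ hw : C.wire h g = true, ih h (hC h g hw) = true)
  let v : Fin (N + 1) → Bool := fun g => (wellFounded_lt).fix F g
  have hv : ∀ g, v g = F g (fun h _ => v h) := fun g => WellFounded.fix_eq _ _ _
  refine ⟨v, fun g => ?_, fun g hg => ?_⟩
  · have h := hv g
    revert h
    simp only [F]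
    cases C.kind g with
    | input => intro _; trivial
    | neg => intro h; simp only [h, decide_eq_true_eq, exists_prop]
    | conj => intro h; simp only [h, decide_eq_true_eq]
    | disj => intro h; simp only [h, decide_eq_true_eq, exists_prop]
  · rw [hv g]
    simp only [F, hg]

/-! ### The encoding of circuits by strings -/

/-- The two bits of a kind. -/
def bits : Kind → Bool × Bool
  | Kind.input => (true, true)
  | Kind.neg => (true, false)
  | Kind.conj => (false, true)
  | Kind.disj => (false, false)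

theorem kindOf_bits (k : Kind) : kindOf (bits k).1 (bits k).2 = k := by
  cases k <;> rfl

/-- The string encoding a circuit. -/
def encode {N : ℕ} (C : Circuit N) : Fin ((N + 1) * (N + 3)) → Bool := fun i =>
  Fin.cases (motive := fun _ => Bool) (bits (C.kind (finProdFinEquiv.symm i).1)).1
    (fun j => Fin.cases (motive := fun _ => Bool) (bits (C.kind (finProdFinEquiv.symm i).1)).2
      (fun h => C.wire h (finProdFinEquiv.symm i).1) j) (finProdFinEquiv.symm i).2

theorem decode_encode {N : ℕ} (C : Circuit N) : decode N (encode C) = C := by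
  have h1 : ∀ g, (decode N (encode C)).kind g = C.kind g := by
    intro g
    change kindOf (encode C (finProdFinEquiv (g, 0))) (encode C (finProdFinEquiv (g, 1))) = _
    have a : encode C (finProdFinEquiv (g, 0)) = (bits (C.kind g)).1 := by
      simp [encode]
    have b : encode C (finProdFinEquiv (g, 1)) = (bits (C.kind g)).2 := by
      have : (1 : Fin (N + 3)) = Fin.succ 0 := rfl
      simp only [encode, Equiv.symm_apply_apply, this, Fin.cases_succ, Fin.cases_zero]
    rw [a, b, kindOf_bits]
  have h2 : ∀ h g, (decode N (encode C)).wire h g = C.wire h g := by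
    intro h g
    change encode C (finProdFinEquiv (g, h.succ.succ)) = _
    simp only [encode, Equiv.symm_apply_apply, Fin.cases_succ]
  cases C with
  | mk kind wire =>
    have e1 : (decode N (encode ⟨kind, wire⟩)).kind = kind := funext h1
    have e2 : (decode N (encode ⟨kind, wire⟩)).wire = wire := funext fun h => funext fun g => h2 h g
    generalize decode N (encode ⟨kind, wire⟩) = D at e1 e2
    cases D
    simp only at e1 e2
    rw [e1, e2]

theorem pWSAT_encode {N t d : ℕ} (C : Circuit N) (k : ℕ) :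
    pWSAT t d ((N + 1) * (N + 3)) (encode C) k ↔
      C.InClass t d ∧ ∃ v, C.IsValuation v ∧ v (Fin.last N) = true ∧ C.weight v = k := by
  constructor
  · rintro ⟨N', h, h'⟩
    have hN : N' = N := by
      rcases lt_trichotomy N' N with hlt | heq | hgt
      · exfalso
        nlinarith
      · exact heq
      · exfalso
        nlinarith
    subst hN
    have : encode C ∘ Fin.cast h = encode C := by
      funext i
      simp
    rw [this, decode_encode] at h'
    exact h'
  · intro h'
    refine ⟨N, rfl, ?_⟩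
    have : encode C ∘ Fin.cast (rfl : (N + 1) * (N + 3) = (N + 1) * (N + 3)) = encode C := by
      funext i
      simp
    rw [this, decode_encode]
    exact h'

/-! ### The circuit -/

/-- The nodes of the circuit. -/
inductive Nd (V J T : Type)
  | inp (v : V)
  | ng (v : V)
  | ff
  | tt
  | pair (v v' : V)
  | clq
  | leaf (l : J)
  | nleaf (l : J)
  | gate (s : T)
  | out

/-- The nodes as a sum. -/
def ndEquiv (V J T : Type) :
    Nd V J T ≃ (V ⊕ V) ⊕ (V × V) ⊕ (J ⊕ J) ⊕ T ⊕ Fin 4 where
  toFun
    | Nd.inp v => Sum.inl (Sum.inl v)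
    | Nd.ng v => Sum.inl (Sum.inr v)
    | Nd.pair v v' => Sum.inr (Sum.inl (v, v'))
    | Nd.leaf l => Sum.inr (Sum.inr (Sum.inl (Sum.inl l)))
    | Nd.nleaf l => Sum.inr (Sum.inr (Sum.inl (Sum.inr l)))
    | Nd.gate s => Sum.inr (Sum.inr (Sum.inr (Sum.inl s)))
    | Nd.ff => Sum.inr (Sum.inr (Sum.inr (Sum.inr 0)))
    | Nd.tt => Sum.inr (Sum.inr (Sum.inr (Sum.inr 1)))
    | Nd.clq => Sum.inr (Sum.inr (Sum.inr (Sum.inr 2)))
    | Nd.out => Sum.inr (Sum.inr (Sum.inr (Sum.inr 3)))
  invFun
    | Sum.inl (Sum.inl v) => Nd.inp v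
    | Sum.inl (Sum.inr v) => Nd.ng v
    | Sum.inr (Sum.inl p) => Nd.pair p.1 p.2
    | Sum.inr (Sum.inr (Sum.inl (Sum.inl l))) => Nd.leaf l
    | Sum.inr (Sum.inr (Sum.inl (Sum.inr l))) => Nd.nleaf l
    | Sum.inr (Sum.inr (Sum.inr (Sum.inl s))) => Nd.gate s
    | Sum.inr (Sum.inr (Sum.inr (Sum.inr 0))) => Nd.ff
    | Sum.inr (Sum.inr (Sum.inr (Sum.inr 1))) => Nd.tt
    | Sum.inr (Sum.inr (Sum.inr (Sum.inr 2))) => Nd.clq
    | Sum.inr (Sum.inr (Sum.inr (Sum.inr 3))) => Nd.out
  left_inv := by
    intro n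
    cases n <;> rfl
  right_inv := by
    rintro ((v | v) | p | (l | l) | s | i)
    · rfl
    · rfl
    · rfl
    · rfl
    · rfl
    · rfl
    · fin_cases i <;> rfl

noncomputable instance (V J T : Type) [Fintype V] [Fintype J] [Fintype T] :
    Fintype (Nd V J T) := Fintype.ofEquiv _ (ndEquiv V J T).symm

theorem card_Nd (V J T : Type) [Fintype V] [Fintype J] [Fintype T] :
    Fintype.card (Nd V J T) = Fintype.card V + Fintype.card V +
      (Fintype.card V * Fintype.card V + (Fintype.card J + Fintype.card J +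
        (Fintype.card T + 4))) := by
  rw [Fintype.card_congr (ndEquiv V J T)]
  simp only [Fintype.card_sum, Fintype.card_prod, Fintype.card_fin]

/-- The gates of the tree. -/
abbrev TN (a t : ℕ) : Type := Σ i : Fin (t + 1), P a i

section Concrete

variable (a t : ℕ) {V β : Type}

/-- Kinds. -/
def kd : Nd V (P a t × β) (TN a t) → Kind
  | Nd.inp _ => Kind.input
  | Nd.ng _ => Kind.neg
  | Nd.ff => Kind.conj
  | Nd.tt => Kind.neg
  | Nd.pair _ _ => Kind.disj
  | Nd.clq => Kind.conj
  | Nd.leaf _ => Kind.disj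
  | Nd.nleaf _ => Kind.neg
  | Nd.gate s => if Even (s.1 : ℕ) then Kind.conj else Kind.disj
  | Nd.out => Kind.conj

/-- Ranks. -/
def rk : Nd V (P a t × β) (TN a t) → ℕ
  | Nd.inp _ => 0
  | Nd.ng _ => 1
  | Nd.ff => 2
  | Nd.tt => 3
  | Nd.pair _ _ => 2
  | Nd.clq => 4
  | Nd.leaf _ => 3
  | Nd.nleaf _ => 4
  | Nd.gate s => 5 + (t - s.1)
  | Nd.out => 6 + t

/-- Bound for the number of large gates on a path from an input to the node. -/
def ph : Nd V (P a t × β) (TN a t) → ℕ
  | Nd.inp _ => 0
  | Nd.ng _ => 0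
  | Nd.ff => 0
  | Nd.tt => 0
  | Nd.pair _ _ => 0
  | Nd.clq => 1
  | Nd.leaf _ => 1
  | Nd.nleaf _ => 1
  | Nd.gate s => t - s.1 + 2
  | Nd.out => t + 2

/-- The gate of the bottom level. -/
def bot (p : P a t) : TN a t := ⟨Fin.last t, p⟩

/-- The root of the tree. -/
def root : TN a t := ⟨⟨0, Nat.succ_pos t⟩, ()⟩

/-- The children of a gate. -/
def child (s s' : TN a t) : Prop :=
  ∃ (h : (s.1 : ℕ) + 1 < t + 1) (u : Fin (bfan a s.1) × Fin (a ^ 2)),
    s' = ⟨⟨(s.1 : ℕ) + 1, h⟩, (s.2, u)⟩

open Classical in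
/-- Wires: `wr m n` tells whether `m` feeds `n`. -/
noncomputable def wr (v₀ : V) (x : EdgeVar V (P a t × β) → Bool) :
    Nd V (P a t × β) (TN a t) → Nd V (P a t × β) (TN a t) → Bool
  | Nd.inp w, Nd.ng v => decide (w = v)
  | Nd.inp w, Nd.ff => decide (w = v₀)
  | Nd.ng w, Nd.ff => decide (w = v₀)
  | Nd.ff, Nd.tt => true
  | Nd.ng w, Nd.pair v v' => decide (w = v ∨ w = v')
  | Nd.pair v v', Nd.clq => decide (v ≠ v' ∧ x (Sum.inl (v, v')) = false)
  | Nd.tt, Nd.clq => true
  | Nd.inp v, Nd.leaf l => decide (x (Sum.inr (v, l)) = false)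
  | Nd.ff, Nd.leaf _ => true
  | Nd.leaf l', Nd.nleaf l => decide (l' = l)
  | Nd.leaf l, Nd.gate s => decide (Even t ∧ s = bot a t l.1)
  | Nd.nleaf l, Nd.gate s => decide (¬ Even t ∧ s = bot a t l.1)
  | Nd.gate s', Nd.gate s => decide (child a t s s')
  | Nd.clq, Nd.out => true
  | Nd.gate s, Nd.out => decide (s = root a t)
  | _, _ => false

/-- The gates that may be large. -/
def big : Nd V (P a t × β) (TN a t) → Prop
  | Nd.clq => True
  | Nd.leaf _ => True
  | Nd.gate _ => True
  | _ => False

theorem wr_mono (v₀ : V) (x : EdgeVar V (P a t × β) → Bool) (m n : Nd V (P a t × β) (TN a t))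
    (h : wr a t v₀ x m n = true) :
    rk a t m < rk a t n ∧ ph a t m ≤ ph a t n ∧ (big a t n → ph a t m + 1 ≤ ph a t n) := by
  cases n with
  | inp v => cases m <;> simp [wr] at h
  | ng v => cases m <;> simp [wr] at h <;> simp [rk, ph, big]
  | ff => cases m <;> simp [wr] at h <;> simp [rk, ph, big]
  | tt => cases m <;> simp [wr] at h <;> simp [rk, ph, big]
  | pair v v' => cases m <;> simp [wr] at h <;> simp [rk, ph, big]
  | clq => cases m <;> simp [wr] at h <;> simp [rk, ph, big]
  | leaf l => cases m <;> simp [wr] at h <;> simp [rk, ph, big]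
  | nleaf l => cases m <;> simp [wr] at h <;> simp [rk, ph, big]
  | gate s =>
    cases m <;> simp [wr] at h
    case leaf l =>
      obtain ⟨-, rfl⟩ := h
      simp [rk, ph, big, bot]
    case nleaf l =>
      obtain ⟨-, rfl⟩ := h
      simp [rk, ph, big, bot]
    case gate s' =>
      obtain ⟨h, u, rfl⟩ := h
      simp only [rk, ph, big, forall_const]
      omega
  | out =>
    cases m <;> simp [wr] at h
    case clq =>
      simp only [rk, ph, big, false_imp_iff, and_true]
      omega
    case gate s =>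
      subst h
      simp only [rk, ph, big, root, false_imp_iff, and_true]
      omega

theorem wr_input (v₀ : V) (x : EdgeVar V (P a t × β) → Bool) (n : Nd V (P a t × β) (TN a t))
    (h : kd a t n = Kind.input) (m) : wr a t v₀ x m n = false := by
  cases n <;> simp [kd] at h
  case inp v => cases m <;> simp [wr]
  case gate s => split_ifs at h

theorem wr_neg (v₀ : V) (x : EdgeVar V (P a t × β) → Bool) (n : Nd V (P a t × β) (TN a t))
    (h : kd a t n = Kind.neg) : ∃ m₀, ∀ m, wr a t v₀ x m n = true ↔ m = m₀ := by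
  cases n <;> simp [kd] at h
  case ng v =>
    refine ⟨Nd.inp v, fun m => ?_⟩
    cases m <;> simp [wr]
  case tt =>
    refine ⟨Nd.ff, fun m => ?_⟩
    cases m <;> simp [wr]
  case nleaf l =>
    refine ⟨Nd.leaf l, fun m => ?_⟩
    cases m <;> simp [wr]
  case gate s => split_ifs at h

theorem gate_cases (s : TN a t) : (∃ p, s = bot a t p) ∨ (s.1 : ℕ) + 1 < t + 1 := by
  obtain ⟨⟨i, hi⟩, p⟩ := s
  by_cases h : i = t
  · subst h
    exact Or.inl ⟨p, rfl⟩
  · right
    simp only
    omega

theorem wr_pos [Nonempty β] (ha : 2 ≤ a) (v₀ : V) (x : EdgeVar V (P a t × β) → Bool)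
    (n : Nd V (P a t × β) (TN a t))
    (h : kd a t n = Kind.conj ∨ kd a t n = Kind.disj) : ∃ m, wr a t v₀ x m n = true := by
  cases n <;> simp [kd] at h
  case ff => exact ⟨Nd.inp v₀, by simp [wr]⟩
  case pair v v' => exact ⟨Nd.ng v, by simp [wr]⟩
  case clq => exact ⟨Nd.tt, by simp [wr]⟩
  case leaf l => exact ⟨Nd.ff, by simp [wr]⟩
  case out => exact ⟨Nd.clq, by simp [wr]⟩
  case gate s =>
    rcases gate_cases a t s with ⟨p, rfl⟩ | hs
    · by_cases ht : Even t
      · exact ⟨Nd.leaf (p, Classical.arbitrary β), by simp [wr, ht]⟩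
      · exact ⟨Nd.nleaf (p, Classical.arbitrary β), by simp [wr, ht]⟩
    · have h1 : 0 < bfan a s.1 := by
        unfold bfan
        positivity
      have h2 : 0 < a ^ 2 := by positivity
      refine ⟨Nd.gate ⟨⟨(s.1 : ℕ) + 1, hs⟩, (s.2, (⟨0, h1⟩, ⟨0, h2⟩))⟩, ?_⟩
      simp only [wr, decide_eq_true_eq]
      exact ⟨hs, _, rfl⟩

theorem wr_small (v₀ : V) (x : EdgeVar V (P a t × β) → Bool)
    (n : Nd V (P a t × β) (TN a t)) (hn : ¬ big a t n) :
    ∃ m₁ m₂, ∀ m, wr a t v₀ x m n = true → m = m₁ ∨ m = m₂ := by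
  cases n with
  | inp v =>
    refine ⟨Nd.tt, Nd.tt, fun m => ?_⟩
    cases m <;> simp [wr]
  | ng v =>
    refine ⟨Nd.inp v, Nd.inp v, fun m => ?_⟩
    cases m <;> simp [wr]
  | ff =>
    refine ⟨Nd.inp v₀, Nd.ng v₀, fun m => ?_⟩
    cases m <;> simp [wr]
  | tt =>
    refine ⟨Nd.ff, Nd.ff, fun m => ?_⟩
    cases m <;> simp [wr]
  | pair v v' =>
    refine ⟨Nd.ng v, Nd.ng v', fun m => ?_⟩
    cases m <;> simp [wr]
  | nleaf l =>
    refine ⟨Nd.leaf l, Nd.leaf l, fun m => ?_⟩
    cases m <;> simp [wr]
  | out =>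
    refine ⟨Nd.clq, Nd.gate (root a t), fun m => ?_⟩
    cases m <;> simp [wr]
  | clq => simp [big] at hn
  | leaf l => simp [big] at hn
  | gate s => simp [big] at hn

/-! ### Semantics -/

/-- A valuation on the nodes. -/
def IsVal (v₀ : V) (x : EdgeVar V (P a t × β) → Bool) (w : Nd V (P a t × β) (TN a t) → Bool) :
    Prop :=
  ∀ n, match kd a t n with
      | Kind.input => True
      | Kind.neg => (w n = true ↔ ∃ m, wr a t v₀ x m n = true ∧ w m = false)
      | Kind.conj => (w n = true ↔ ∀ m, wr a t v₀ x m n = true → w m = true)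
      | Kind.disj => (w n = true ↔ ∃ m, wr a t v₀ x m n = true ∧ w m = true)

variable {a t}

section Sem

variable {v₀ : V} {x : EdgeVar V (P a t × β) → Bool} {w : Nd V (P a t × β) (TN a t) → Bool}
  (hw : IsVal a t v₀ x w)

include hw

theorem val_ng (v : V) : w (Nd.ng v) = true ↔ w (Nd.inp v) = false := by
  have h := hw (Nd.ng v)
  simp only [kd] at h
  rw [h]
  constructor
  · rintro ⟨m, hm, hm'⟩
    cases m <;> simp [wr] at hm
    subst hm
    exact hm'
  · intro h'
    exact ⟨Nd.inp v, by simp [wr], h'⟩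

theorem val_ff : w Nd.ff = false := by
  have h := hw Nd.ff
  simp only [kd] at h
  by_contra hc
  have hc' : w Nd.ff = true := by simpa using hc
  have h1 := h.1 hc' (Nd.inp v₀) (by simp [wr])
  have h2 := h.1 hc' (Nd.ng v₀) (by simp [wr])
  rw [val_ng hw, h1] at h2
  cases h2

theorem val_tt : w Nd.tt = true := by
  have h := hw Nd.tt
  simp only [kd] at h
  exact h.2 ⟨Nd.ff, by simp [wr], val_ff hw⟩

theorem val_pair (v v' : V) :
    w (Nd.pair v v') = true ↔ w (Nd.inp v) = false ∨ w (Nd.inp v') = false := by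
  have h := hw (Nd.pair v v')
  simp only [kd] at h
  rw [h]
  constructor
  · rintro ⟨m, hm, hm'⟩
    cases m <;> simp [wr] at hm
    rcases hm with rfl | rfl
    · exact Or.inl ((val_ng hw _).1 hm')
    · exact Or.inr ((val_ng hw _).1 hm')
  · rintro (h' | h')
    · exact ⟨Nd.ng v, by simp [wr], (val_ng hw _).2 h'⟩
    · exact ⟨Nd.ng v', by simp [wr], (val_ng hw _).2 h'⟩

theorem val_clq :
    w Nd.clq = true ↔ ∀ v v', w (Nd.inp v) = true → w (Nd.inp v') = true → v ≠ v' →
      x (Sum.inl (v, v')) = true := by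
  have h := hw Nd.clq
  simp only [kd] at h
  rw [h]
  constructor
  · intro h' v v' hv hv' hne
    by_contra hc
    have hc' : x (Sum.inl (v, v')) = false := by simpa using hc
    have := h' (Nd.pair v v') (by simp [wr, hne, hc'])
    rw [val_pair hw, hv, hv'] at this
    simp at this
  · intro h' m hm
    cases m <;> simp [wr] at hm
    case tt => exact val_tt hw
    case pair v v' =>
      rw [val_pair hw]
      by_contra hc
      push Not at hc
      have := h' v v' (by simpa using hc.1) (by simpa using hc.2) hm.1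
      rw [hm.2] at this
      cases this

theorem val_leaf (l : P a t × β) :
    w (Nd.leaf l) = true ↔ ∃ v, w (Nd.inp v) = true ∧ x (Sum.inr (v, l)) = false := by
  have h := hw (Nd.leaf l)
  simp only [kd] at h
  rw [h]
  constructor
  · rintro ⟨m, hm, hm'⟩
    cases m <;> simp [wr] at hm
    case inp v => exact ⟨v, hm', hm⟩
    case ff =>
      rw [val_ff hw] at hm'
      cases hm'
  · rintro ⟨v, h1, h2⟩
    exact ⟨Nd.inp v, by simp [wr, h2], h1⟩

theorem val_nleaf (l : P a t × β) :
    w (Nd.nleaf l) = true ↔ ∀ v, w (Nd.inp v) = true → x (Sum.inr (v, l)) = true := by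
  have h := hw (Nd.nleaf l)
  simp only [kd] at h
  rw [h]
  constructor
  · rintro ⟨m, hm, hm'⟩ v hv
    cases m <;> simp [wr] at hm
    subst hm
    by_contra hc
    have := (val_leaf hw _).2 ⟨v, hv, by simpa using hc⟩
    rw [hm'] at this
    cases this
  · intro h'
    refine ⟨Nd.leaf l, by simp [wr], ?_⟩
    by_contra hc
    have hc' : w (Nd.leaf l) = true := by simpa using hc
    obtain ⟨v, h1, h2⟩ := (val_leaf hw _).1 hc'
    rw [h' v h1] at h2
    cases h2

theorem val_bot (p : P a t) :
    w (Nd.gate (bot a t p)) = true ↔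
      if Even t then ∀ u, w (Nd.leaf (p, u)) = true else ∃ u, w (Nd.nleaf (p, u)) = true := by
  have h := hw (Nd.gate (bot a t p))
  have hb : ((bot a t p).1 : ℕ) = t := rfl
  have hch : ∀ s', ¬ child a t (bot a t p) s' := by
    rintro s' ⟨h, -⟩
    rw [hb] at h
    omega
  have hinj : ∀ q, bot a t p = bot a t q ↔ p = q := by
    intro q
    constructor
    · intro h
      unfold bot at h
      simpa using h
    · rintro rfl
      rfl
  simp only [kd, hb] at h
  by_cases ht : Even t
  · simp only [ht, if_true] at h ⊢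
    rw [h]
    constructor
    · intro h' u
      exact h' _ (by simp [wr, ht])
    · intro h' m hm
      cases m <;> simp [wr, ht, hch, hinj] at hm
      case leaf l =>
        obtain ⟨q, u⟩ := l
        simp only at hm
        subst hm
        exact h' u
  · simp only [ht, if_false] at h ⊢
    rw [h]
    constructor
    · rintro ⟨m, hm, hm'⟩
      cases m <;> simp [wr, ht, hch, hinj] at hm
      case nleaf l =>
        obtain ⟨q, u⟩ := l
        simp only at hm
        subst hm
        exact ⟨u, hm'⟩
    · rintro ⟨u, hu⟩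
      exact ⟨Nd.nleaf (p, u), by simp [wr, ht], hu⟩

theorem val_gate (i : ℕ) (hi : i + 1 < t + 1) (p : P a i) :
    w (Nd.gate ⟨⟨i, by omega⟩, p⟩) = true ↔
      if Even i then ∀ u : Fin (bfan a i) × Fin (a ^ 2), w (Nd.gate ⟨⟨i + 1, hi⟩, (p, u)⟩) = true
      else ∃ u : Fin (bfan a i) × Fin (a ^ 2), w (Nd.gate ⟨⟨i + 1, hi⟩, (p, u)⟩) = true := by
  have hi' : i < t + 1 := by omega
  have h := hw (Nd.gate ⟨⟨i, hi'⟩, p⟩)
  have hnb : ∀ q, (⟨⟨i, hi'⟩, p⟩ : TN a t) ≠ bot a t q := by
    intro q hq
    have := congrArg (fun s : TN a t => (s.1 : ℕ)) hq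
    simp only [bot, Fin.val_last] at this
    omega
  simp only [kd] at h
  by_cases ht : Even i
  · simp only [ht, if_true] at h ⊢
    rw [h]
    constructor
    · intro h' u
      exact h' _ (by simp only [wr, decide_eq_true_eq]; exact ⟨hi, u, rfl⟩)
    · intro h' m hm
      cases m <;> simp [wr, hnb] at hm
      case gate s =>
        obtain ⟨_, u, rfl⟩ := hm
        exact h' u
  · simp only [ht, if_false] at h ⊢
    rw [h]
    constructor
    · rintro ⟨m, hm, hm'⟩
      cases m <;> simp [wr, hnb] at hm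
      case gate s =>
        obtain ⟨_, u, rfl⟩ := hm
        exact ⟨u, hm'⟩
    · rintro ⟨u, hu⟩
      exact ⟨_, by simp only [wr, decide_eq_true_eq]; exact ⟨hi, u, rfl⟩, hu⟩

theorem val_out : w Nd.out = true ↔ w Nd.clq = true ∧ w (Nd.gate (root a t)) = true := by
  have h := hw Nd.out
  simp only [kd] at h
  rw [h]
  constructor
  · intro h'
    exact ⟨h' _ (by simp [wr]), h' _ (by simp [wr])⟩
  · rintro ⟨h1, h2⟩ m hm
    cases m <;> simp [wr] at hm
    case clq => exact h1
    case gate s =>
      subst hm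
      exact h2

theorem val_tree (i : ℕ) (hi : i < t + 1) :
    treeP a i (fun p => w (Nd.gate ⟨⟨i, hi⟩, p⟩) = true) ↔ w (Nd.gate (root a t)) = true := by
  induction i with
  | zero => rfl
  | succ i ih =>
    rw [← ih (by omega)]
    change treeP a i _ ↔ _
    have : (fun p : P a i => if Even i then
        ∀ u : Fin (bfan a i) × Fin (a ^ 2), w (Nd.gate ⟨⟨i + 1, hi⟩, (p, u)⟩) = true
        else ∃ u : Fin (bfan a i) × Fin (a ^ 2), w (Nd.gate ⟨⟨i + 1, hi⟩, (p, u)⟩) = true) =
        fun p => w (Nd.gate ⟨⟨i, by omega⟩, p⟩) = true := by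
      funext p
      exact propext (val_gate hw i hi p).symm
    rw [← this]

theorem val_root : w (Nd.gate (root a t)) = true ↔
    treeB a t fun l : P a t × β =>
      ((∀ v, w (Nd.inp v) = true → x (Sum.inr (v, l)) = true) ↔ ¬ Even t) := by
  rw [← val_tree hw t (by omega)]
  unfold treeB
  have : (fun p : P a t => w (Nd.gate ⟨⟨t, by omega⟩, p⟩) = true) = fun p =>
      if Even t then ∀ u : β, ((∀ v, w (Nd.inp v) = true → x (Sum.inr (v, (p, u))) = true) ↔
        ¬ Even t)
      else ∃ u : β, ((∀ v, w (Nd.inp v) = true → x (Sum.inr (v, (p, u))) = true) ↔ ¬ Even t) := by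
    funext p
    apply propext
    have h1 := val_bot hw p
    change w (Nd.gate ⟨⟨t, _⟩, p⟩) = true ↔ _ at h1
    refine h1.trans ?_
    by_cases ht : Even t
    · simp only [ht, if_true, not_true, iff_false]
      refine forall_congr' fun u => ?_
      rw [val_leaf hw]
      push Not
      refine exists_congr fun v => and_congr_right fun _ => ?_
      simp
    · simp only [ht, if_false, not_false_eq_true, iff_true]
      refine exists_congr fun u => ?_
      rw [val_nleaf hw]
  rw [this]

theorem val_final : w Nd.out = true ↔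
    (∀ v v', w (Nd.inp v) = true → w (Nd.inp v') = true → v ≠ v' → x (Sum.inl (v, v')) = true) ∧
    treeB a t fun l : P a t × β =>
      ((∀ v, w (Nd.inp v) = true → x (Sum.inr (v, l)) = true) ↔ ¬ Even t) := by
  rw [val_out hw, val_clq hw, val_root hw]

end Sem

/-! ### Sizes -/

theorem card_P_mono (ha : 2 ≤ a) {i j : ℕ} (h : i ≤ j) :
    Fintype.card (P a i) ≤ Fintype.card (P a j) := by
  induction h with
  | refl => exact le_rfl
  | step h ih =>
    rename_i m
    refine ih.trans ?_
    have h1 : 0 < bfan a m := by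
      unfold bfan
      positivity
    have h2 : 0 < a ^ 2 := by positivity
    have h3 : Fintype.card (P a (m + 1)) = Fintype.card (P a m) * (bfan a m * a ^ 2) := by
      have : Fintype.card (P a (m + 1)) =
        Fintype.card (P a m × (Fin (bfan a m) × Fin (a ^ 2))) := rfl
      rw [this]
      simp only [Fintype.card_prod, Fintype.card_fin]
    rw [h3]
    exact Nat.le_mul_of_pos_right _ (Nat.mul_pos h1 h2)

theorem card_TN (ha : 2 ≤ a) : Fintype.card (TN a t) ≤ (t + 1) * Fintype.card (P a t) := by
  unfold TN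
  rw [Fintype.card_sigma]
  refine (Finset.sum_le_card_nsmul _ _ (Fintype.card (P a t)) ?_).trans ?_
  · intro i _
    exact card_P_mono ha (by omega)
  · simp

theorem wr_proj (v₀ : V) (m n : Nd V (P a t × β) (TN a t)) :
    (∃ b, ∀ x, wr a t v₀ x m n = b) ∨ ∃ e b, ∀ x, (wr a t v₀ x m n = true ↔ x e = b) := by
  cases m with
  | inp w =>
    cases n with
    | leaf l =>
      right
      exact ⟨Sum.inr (w, l), false, fun x => by simp [wr]⟩
    | _ => exact Or.inl ⟨_, fun x => rfl⟩
  | pair v v' =>
    cases n with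
    | clq =>
      by_cases h : v = v'
      · exact Or.inl ⟨false, fun x => by simp [wr, h]⟩
      · exact Or.inr ⟨Sum.inl (v, v'), false, fun x => by simp [wr, h]⟩
    | _ => exact Or.inl ⟨_, fun x => rfl⟩
  | ff =>
    cases n with
    | _ => exact Or.inl ⟨_, fun x => rfl⟩
  | ng _ =>
    cases n with
    | _ => exact Or.inl ⟨_, fun x => rfl⟩
  | tt =>
    cases n with
    | _ => exact Or.inl ⟨_, fun x => rfl⟩
  | clq =>
    cases n with
    | _ => exact Or.inl ⟨_, fun x => rfl⟩
  | leaf _ =>
    cases n with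
    | _ => exact Or.inl ⟨_, fun x => rfl⟩
  | nleaf _ =>
    cases n with
    | _ => exact Or.inl ⟨_, fun x => rfl⟩
  | gate _ =>
    cases n with
    | _ => exact Or.inl ⟨_, fun x => rfl⟩
  | out =>
    cases n with
    | _ => exact Or.inl ⟨_, fun x => rfl⟩

theorem rk_lt_out (n : Nd V (P a t × β) (TN a t)) (h : n ≠ Nd.out) :
    rk a t n < rk a t (Nd.out : Nd V (P a t × β) (TN a t)) := by
  cases n with
  | out => exact absurd rfl h
  | _ =>
    simp only [rk]
    omega

end Concrete

end Source

open Source in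
/-- The hard instances are projections of instances of `p-WSAT(C_{t+2,d₀})`. -/
theorem source_instance (t : ℕ) : ∃ d₀ K : ℕ, 1 ≤ d₀ ∧ ∀ (a k : ℕ) (_ : 2 ≤ a) (V β : Type) [Fintype V]
    [DecidableEq V] [Nonempty V] [Fintype β] [DecidableEq β] [Nonempty β],
    ∃ (N : ℕ) (inst : (EdgeVar V (P a t × β) → Bool) → Fin ((N + 1) * (N + 3)) → Bool),
      N + 1 ≤ K * (Fintype.card V + Fintype.card (P a t × β) + 1) ^ 2 ∧
      (∀ i, (∃ b, ∀ x, inst x i = b) ∨ ∃ e b, ∀ x, (inst x i = true ↔ x e = b)) ∧
      ∀ x, pWSAT (t + 2) d₀ ((N + 1) * (N + 3)) (inst x) k ↔ Src a t k x := by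
  refine ⟨6 + t, t + 10, by omega, fun a k ha V β _ _ _ _ _ _ => ?_⟩
  let v₀ : V := Classical.arbitrary V
  obtain ⟨N, hN⟩ : ∃ N, Fintype.card (Nd V (P a t × β) (TN a t)) = N + 1 := by
    refine ⟨Fintype.card (Nd V (P a t × β) (TN a t)) - 1, ?_⟩
    have := card_Nd V (P a t × β) (TN a t)
    omega
  obtain ⟨e, he⟩ := exists_equiv_rank (rk a t (V := V) (β := β)) hN
  have heo : e Nd.out = Fin.last N := by
    by_contra hne
    have h1 : e.symm (Fin.last N) ≠ Nd.out := by
      intro h
      apply hne
      rw [← h, Equiv.apply_symm_apply]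
    have h2 := he _ _ (rk_lt_out _ h1)
    rw [Equiv.apply_symm_apply] at h2
    exact absurd h2 (not_lt.2 (Fin.le_last _))
  have hsy : e.symm (Fin.last N) = Nd.out := by
    rw [← heo, Equiv.symm_apply_apply]
  let C : (EdgeVar V (P a t × β) → Bool) → Circuit N := fun x => mkC e (kd a t) (wr a t v₀ x)
  refine ⟨N, fun x => encode (C x), ?_, ?_, ?_⟩
  · rw [← hN, card_Nd]
    have h1 := card_TN (a := a) (t := t) ha
    have h2 : Fintype.card (P a t) ≤ Fintype.card (P a t × β) := by
      rw [Fintype.card_prod]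
      exact Nat.le_mul_of_pos_right _ Fintype.card_pos
    generalize Fintype.card (P a t × β) = J at *
    generalize Fintype.card (P a t) = p at *
    generalize Fintype.card (TN a t) = T at *
    generalize Fintype.card V = n at *
    have h3 : T ≤ (t + 1) * J := h1.trans (Nat.mul_le_mul_left _ h2)
    have hs : n + J + 1 ≤ (n + J + 1) ^ 2 := Nat.le_self_pow (by norm_num) _
    have h4 : (t + 1) * J ≤ (t + 1) * (n + J + 1) ^ 2 := Nat.mul_le_mul_left _ (by omega)
    have h5 : n * n ≤ (n + J + 1) ^ 2 := by nlinarith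
    have h6 : (t + 10) * (n + J + 1) ^ 2 = (t + 1) * (n + J + 1) ^ 2 + 9 * (n + J + 1) ^ 2 := by
      ring
    rw [h6]
    omega
  · intro i
    obtain ⟨⟨g, j⟩, rfl⟩ := finProdFinEquiv.surjective i
    refine Fin.cases ?_ (fun j => Fin.cases ?_ (fun h => ?_) j) j
    · left
      exact ⟨(bits (kd a t (e.symm g))).1, fun x => by simp [encode, C, mkC]⟩
    · left
      refine ⟨(bits (kd a t (e.symm g))).2, fun x => ?_⟩
      simp only [encode, Equiv.symm_apply_apply, Fin.cases_succ, Fin.cases_zero, C, mkC]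
    · have := wr_proj (a := a) (t := t) v₀ (e.symm h) (e.symm g)
      simpa only [encode, Equiv.symm_apply_apply, Fin.cases_succ, C, mkC] using this
  · intro x
    have hcor : (C x).Correct := mkC_correct e _ _ (rk a t) he
      (fun m n h => (wr_mono a t v₀ x m n h).1) (fun n h m => wr_input a t v₀ x n h m)
      (fun n h => wr_neg a t v₀ x n h) (fun n h => wr_pos a t ha v₀ x n h)
    have hwt : ∀ v : Fin (N + 1) → Bool, (C x).weight v =
        (Finset.univ.filter fun u : V => v (e (Nd.inp u)) = true).card := by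
      intro v
      unfold Circuit.weight
      symm
      refine Finset.card_bij (fun u _ => e (Nd.inp u)) ?_ ?_ ?_
      · intro u hu
        simp only [Finset.mem_filter, Finset.mem_univ, true_and] at hu ⊢
        exact ⟨by simp [C, mkC, kd], hu⟩
      · intro u _ u' _ h
        have := e.injective h
        simpa using this
      · intro g hg
        simp only [Finset.mem_filter, Finset.mem_univ, true_and] at hg
        obtain ⟨h1, h2⟩ := hg
        have h3 : kd a t (e.symm g) = Kind.input := h1
        cases hn : e.symm g <;> rw [hn] at h3 <;> simp [kd] at h3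
        case inp u =>
          have : e (Nd.inp u) = g := by rw [← hn, Equiv.apply_symm_apply]
          exact ⟨u, by simp [this, h2], this⟩
        case gate s => split_ifs at h3
    have hval : ∀ v : Fin (N + 1) → Bool, (C x).IsValuation v → IsVal a t v₀ x fun n => v (e n) := by
      intro v hv
      exact (mkC_isValuation e (kd a t) (wr a t v₀ x) v).1 hv
    rw [pWSAT_encode]
    constructor
    · rintro ⟨-, v, hv, hout, hw⟩
      rw [← heo] at hout
      have hf := (val_final (hval v hv)).1 hout
      refine ⟨Finset.univ.filter fun u : V => v (e (Nd.inp u)) = true, ?_, ?_, ?_⟩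
      · rw [← hwt, hw]
      · intro u hu u' hu' hne
        exact hf.1 u u' (by simpa using hu) (by simpa using hu') hne
      · simpa only [Finset.mem_filter, Finset.mem_univ, true_and] using hf.2
    · rintro ⟨S, hS, hcl, htr⟩
      refine ⟨?_, ?_⟩
      · refine inClass_of (C x) hcor (fun g => rk a t (e.symm g)) (fun g => ph a t (e.symm g))
          (fun h g hw => (wr_mono a t v₀ x _ _ hw).1) ?_
          (fun h g hw => (wr_mono a t v₀ x _ _ hw).2.1) ?_ ?_
        · intro h g hw hL
          refine (wr_mono a t v₀ x _ _ hw).2.2 ?_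
          by_contra hb
          obtain ⟨m₁, m₂, hm⟩ := wr_small a t v₀ x _ hb
          refine mkC_small e (kd a t) (wr a t v₀ x) (e.symm g) m₁ m₂ hm ?_
          rw [Equiv.apply_symm_apply]
          exact hL
        · simp only [hsy, rk]
          exact le_rfl
        · simp only [hsy, ph]
          exact le_rfl
      · obtain ⟨v, hv, hvs⟩ := exists_valuation (C x) hcor.1
          (fun g => match e.symm g with
            | Nd.inp u => decide (u ∈ S)
            | _ => false)
        have hin : ∀ u : V, v (e (Nd.inp u)) = decide (u ∈ S) := by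
          intro u
          rw [hvs (e (Nd.inp u)) (by simp [C, mkC, kd])]
          simp
        refine ⟨v, hv, ?_, ?_⟩
        · rw [← heo]
          refine (val_final (hval v hv)).2 ⟨?_, ?_⟩
          · intro u u' hu hu' hne
            simp only [hin, decide_eq_true_eq] at hu hu'
            exact hcl u hu u' hu' hne
          · simpa only [hin, decide_eq_true_eq] using htr
        · rw [hwt, ← hS]
          congr 1
          ext u
          simp [hin]

end Pool.Agent.W_MP_5f6b2a_lc
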