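import Pool.Agent.W_MP_5f6b2a_lc.ACTools

/-!
Validity of circuits is in AC0, and `W t ⊆ W (t + 1)`.
-/

set_option autoImplicit false

namespace Pool.Agent.W_MP_5f6b2a_lc

namespace ValidAux

variable {N : ℕ}

/-! ### Combinatorics of paths -/

theorem one_le_fanIn_iff (C : Circuit N) (g : Fin (N + 1)) :
    1 ≤ C.fanIn g ↔ ∃ h, C.wire h g = true := by
  unfold Circuit.fanIn
  rw [Nat.one_le_iff_ne_zero, Finset.card_ne_zero]
  constructor
  · rintro ⟨h, hh⟩
    exact ⟨h, by simpa using hh⟩
  · rintro ⟨h, hh⟩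
    exact ⟨h, by simpa using hh⟩

theorem fanIn_eq_zero_iff (C : Circuit N) (g : Fin (N + 1)) :
    C.fanIn g = 0 ↔ ∀ h, ¬ C.wire h g = true := by
  have := one_le_fanIn_iff C g
  rw [← not_iff_not, ← ne_eq, ← Nat.one_le_iff_ne_zero, this]
  push Not
  rfl

theorem fanIn_eq_one_iff (C : Circuit N) (g : Fin (N + 1)) :
    C.fanIn g = 1 ↔ (∃ h, C.wire h g = true) ∧
      ∀ p : Fin (N + 1) × Fin (N + 1), C.wire p.1 g = true → C.wire p.2 g = true → p.1 = p.2 := by
  unfold Circuit.fanIn
  rw [Finset.card_eq_one]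
  constructor
  · rintro ⟨a, ha⟩
    have key : ∀ h, C.wire h g = true ↔ h = a := by
      intro h
      have : h ∈ Finset.univ.filter (fun h => C.wire h g = true) ↔ h ∈ ({a} : Finset _) := by
        rw [ha]
      simpa using this
    refine ⟨⟨a, (key a).2 rfl⟩, ?_⟩
    rintro ⟨p, q⟩ h1 h2
    exact ((key _).1 h1).trans ((key _).1 h2).symm
  · rintro ⟨⟨a, ha⟩, h⟩
    refine ⟨a, ?_⟩
    ext b
    simp only [Finset.mem_filter, Finset.mem_univ, true_and, Finset.mem_singleton]
    constructor
    · intro hb
      exact h (b, a) hb ha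
    · rintro rfl
      exact ha

theorem two_lt_fanIn_iff (C : Circuit N) (g : Fin (N + 1)) :
    2 < C.fanIn g ↔ ∃ p : Fin (N + 1) × Fin (N + 1) × Fin (N + 1),
      (p.1 ≠ p.2.1 ∧ p.1 ≠ p.2.2 ∧ p.2.1 ≠ p.2.2) ∧
      (C.wire p.1 g = true ∧ (C.wire p.2.1 g = true ∧ C.wire p.2.2 g = true)) := by
  unfold Circuit.fanIn
  rw [Finset.two_lt_card_iff]
  constructor
  · rintro ⟨a, b, c, ha, hb, hc, hab, hac, hbc⟩
    exact ⟨(a, b, c), ⟨hab, hac, hbc⟩, by simpa using ha, by simpa using hb, by simpa using hc⟩
  · rintro ⟨⟨a, b, c⟩, ⟨hab, hac, hbc⟩, ha, hb, hc⟩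
    exact ⟨a, b, c, by simpa using ha, by simpa using hb, by simpa using hc, hab, hac, hbc⟩

/-- In a correct circuit every node is the end of a chain starting at an input node. -/
theorem exists_chain (C : Circuit N) (hC : C.Correct) (g : Fin (N + 1)) :
    ∃ q : List (Fin (N + 1)), (q ++ [g]).IsChain (fun h g => C.wire h g = true) ∧
      ∃ a, (q ++ [g]).head? = some a ∧ C.kind a = Kind.input := by
  induction hg : g.1 using Nat.strong_induction_on generalizing g with
  | _ n ih =>
    by_cases hk : C.kind g = Kind.input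
    · exact ⟨[], by simp, g, by simp, hk⟩
    · have hf : 1 ≤ C.fanIn g := by
        cases hkg : C.kind g with
        | input => exact absurd hkg hk
        | neg => exact (hC.2.2.1 g hkg).ge
        | conj => exact hC.2.2.2 g (Or.inl hkg)
        | disj => exact hC.2.2.2 g (Or.inr hkg)
      obtain ⟨h, hh⟩ := (one_le_fanIn_iff C g).1 hf
      have hlt : h.1 < n := by
        rw [← hg]
        exact hC.1 h g hh
      obtain ⟨q, hq, a, ha, hka⟩ := ih h.1 hlt h rfl
      refine ⟨q ++ [h], ?_, a, ?_, hka⟩
      · exact hq.append_overlap (l₃ := [g]) (by simpa using hh) (by simp)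
      · rw [List.head?_append, ha]
        simp

theorem inClass_iff (C : Circuit N) (t d : ℕ) :
    C.InClass t d ↔ C.Correct ∧
      (∀ v : List.Vector (Fin (N + 1)) (d + 2),
        ¬ (v.1.IsChain (fun h g => C.wire h g = true) ∧ v.1.getLast? = some (Fin.last N))) ∧
      ∀ (m : Fin (d + 1)) (v : List.Vector (Fin (N + 1)) (m + 1)), C.IsPath v.1 →
        (v.1.filter fun g => @decide (C.Large g) (Classical.propDecidable _)).length ≤ t := by
  classical
  constructor
  · rintro ⟨hC, hp⟩
    refine ⟨hC, ?_, ?_⟩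
    · rintro ⟨v, hv⟩ ⟨hch, hl⟩
      cases v with
      | nil => simp at hv
      | cons g v =>
        obtain ⟨q, hq, a, ha, hka⟩ := exists_chain C hC g
        have hpath : C.IsPath (q ++ g :: v) := by
          refine ⟨?_, ⟨a, ?_, hka⟩, ?_⟩
          · have := hq.append_overlap (l₃ := v) (by simpa using hch) (by simp)
            simpa using this
          · cases q with
            | nil => simpa using ha
            | cons b q => simpa using ha
          · rw [List.getLast?_append]
            simp only at hl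
            rw [hl]
            simp
        have := (hp _ hpath).1
        simp only [List.length_append, List.length_cons] at this hv
        omega
    · intro m v hv
      have := (hp _ hv).2
      convert this
  · rintro ⟨hC, h1, h2⟩
    refine ⟨hC, fun p hp => ?_⟩
    have hlen : p.length ≤ d + 1 := by
      by_contra hlen
      push Not at hlen
      refine h1 ⟨p.drop (p.length - (d + 2)), ?_⟩ ⟨hp.1.drop _, ?_⟩
      · rw [List.length_drop]
        omega
      · have hne : ¬ (p.length ≤ p.length - (d + 2)) := by omega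
        rw [List.getLast?_drop, if_neg hne]
        exact hp.2.2
    refine ⟨hlen, ?_⟩
    have hpos : 0 < p.length := by
      cases p with
      | nil =>
        obtain ⟨g, hg, _⟩ := hp.2.1
        simp at hg
      | cons a p => simp
    have hm : p.length - 1 < d + 1 := by omega
    have := h2 ⟨p.length - 1, hm⟩ ⟨p, by simp; omega⟩ hp
    convert this

/-! ### AC bounds -/

section Bounds

variable {s : ℕ}

theorem wire_AC (h g : Fin (N + 1)) :
    AC s 0 (fun x : Fin ((N + 1) * (N + 3)) → Bool => (decode N x).wire h g = true) :=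
  AC.lit _ true

theorem kind_AC (hs : 2 ≤ s) (g : Fin (N + 1)) (k : Kind) :
    AC s 1 (fun x : Fin ((N + 1) * (N + 3)) → Bool => (decode N x).kind g = k) := by
  have key : ∀ b1 b2 : Bool, AC s 1 (fun x : Fin ((N + 1) * (N + 3)) → Bool =>
      x (finProdFinEquiv (g, 0)) = b1 ∧ x (finProdFinEquiv (g, 1)) = b2) := fun b1 b2 =>
    AC.and hs (AC.lit _ b1) (AC.lit _ b2)
  cases k with
  | input =>
    refine (key true true).congr fun x => ?_
    unfold decode
    cases h1 : x (finProdFinEquiv (g, 0)) <;> cases h2 : x (finProdFinEquiv (g, 1)) <;>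
      simp [h1, h2, kindOf]
  | neg =>
    refine (key true false).congr fun x => ?_
    unfold decode
    cases h1 : x (finProdFinEquiv (g, 0)) <;> cases h2 : x (finProdFinEquiv (g, 1)) <;>
      simp [h1, h2, kindOf]
  | conj =>
    refine (key false true).congr fun x => ?_
    unfold decode
    cases h1 : x (finProdFinEquiv (g, 0)) <;> cases h2 : x (finProdFinEquiv (g, 1)) <;>
      simp [h1, h2, kindOf]
  | disj =>
    refine (key false false).congr fun x => ?_
    unfold decode
    cases h1 : x (finProdFinEquiv (g, 0)) <;> cases h2 : x (finProdFinEquiv (g, 1)) <;>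
      simp [h1, h2, kindOf]

theorem gate_AC (hs : 2 ≤ s) (g : Fin (N + 1)) :
    AC s 2 (fun x : Fin ((N + 1) * (N + 3)) → Bool =>
      (decode N x).kind g = Kind.conj ∨ (decode N x).kind g = Kind.disj) :=
  AC.or hs (kind_AC hs g _) (kind_AC hs g _)

theorem large_AC (hs : 2 ≤ s) (hs3 : (N + 1) ^ 3 ≤ s) (g : Fin (N + 1)) :
    AC s 4 (fun x : Fin ((N + 1) * (N + 3)) → Bool => (decode N x).Large g) := by
  have h1 : AC s 3 (fun x : Fin ((N + 1) * (N + 3)) → Bool => 2 < (decode N x).fanIn g) := by
    refine (AC.exists_fintype (ι := Fin (N + 1) × Fin (N + 1) × Fin (N + 1)) (d := 2)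
      (g := fun p x => (p.1 ≠ p.2.1 ∧ p.1 ≠ p.2.2 ∧ p.2.1 ≠ p.2.2) ∧
        ((decode N x).wire p.1 g = true ∧ ((decode N x).wire p.2.1 g = true ∧
          (decode N x).wire p.2.2 g = true))) ?_ ?_).congr ?_
    · simp only [Fintype.card_prod, Fintype.card_fin]
      calc (N + 1) * ((N + 1) * (N + 1)) = (N + 1) ^ 3 := by ring
        _ ≤ s := hs3
    · intro p
      refine AC.const_and _ (by norm_num) ?_
      exact AC.and hs (AC.succ (by omega) (wire_AC _ _)) (AC.and hs (wire_AC _ _) (wire_AC _ _))
    · intro x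
      exact (two_lt_fanIn_iff _ _).symm
  exact AC.and hs (AC.succ (by omega) (gate_AC hs g)) h1

theorem correct_AC (hs : 2 ≤ s) (hs3 : (N + 1) ^ 3 ≤ s) :
    AC s 8 (fun x : Fin ((N + 1) * (N + 3)) → Bool => (decode N x).Correct) := by
  have h1s : 1 ≤ s := by omega
  have hN1 : N + 1 ≤ s := le_trans (by nlinarith [Nat.zero_le N, sq_nonneg N]) hs3
  have hN2 : (N + 1) * (N + 1) ≤ s := le_trans (by nlinarith [Nat.zero_le N, sq_nonneg N]) hs3
  -- wires go up
  have a1 : AC s 2 (fun x : Fin ((N + 1) * (N + 3)) → Bool =>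
      ∀ h g, (decode N x).wire h g = true → h < g) := by
    refine (AC.forall_fintype (ι := Fin (N + 1) × Fin (N + 1)) (d := 1)
      (g := fun p x => (decode N x).wire p.1 p.2 = true → p.1 < p.2) ?_ ?_).congr ?_
    · simpa using hN2
    · intro p
      by_cases hp : p.1 < p.2
      · exact (AC.const_succ True 0).congr fun x => by simp [hp]
      · exact (AC.succ h1s (wire_AC p.1 p.2).not).congr fun x => by simp [hp]
    · intro x
      exact ⟨fun h a b => h (a, b), fun h p => h p.1 p.2⟩
  -- existence of an incoming wire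
  have ex : ∀ g, AC s 1 (fun x : Fin ((N + 1) * (N + 3)) → Bool =>
      ∃ h, (decode N x).wire h g = true) := fun g =>
    AC.exists_fintype (by simpa using hN1) fun h => wire_AC h g
  have a2 : AC s 3 (fun x : Fin ((N + 1) * (N + 3)) → Bool =>
      ∀ g, (decode N x).kind g = Kind.input → (decode N x).fanIn g = 0) := by
    refine AC.forall_fintype (by simpa using hN1) fun g => ?_
    refine AC.imp hs (kind_AC hs g _) ?_
    exact (ex g).not.congr fun x => by
      rw [fanIn_eq_zero_iff]
      push Not
      rfl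
  have a3 : AC s 5 (fun x : Fin ((N + 1) * (N + 3)) → Bool =>
      ∀ g, (decode N x).kind g = Kind.neg → (decode N x).fanIn g = 1) := by
    refine AC.forall_fintype (by simpa using hN1) fun g => ?_
    refine AC.imp hs (AC.mono_depth h1s (by norm_num : 1 ≤ 3) (kind_AC hs g _)) ?_
    have hu : AC s 2 (fun x : Fin ((N + 1) * (N + 3)) → Bool =>
        ∀ p : Fin (N + 1) × Fin (N + 1), (decode N x).wire p.1 g = true →
          (decode N x).wire p.2 g = true → p.1 = p.2) := by
      refine AC.forall_fintype (by simpa using hN2) fun p => ?_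
      by_cases hp : p.1 = p.2
      · exact (AC.const_succ True 0).congr fun x => by simp [hp]
      · exact (AC.and hs (wire_AC p.1 g) (wire_AC p.2 g)).not.congr fun x => by simp [hp]
    exact (AC.and hs (AC.succ h1s (ex g)) hu).congr fun x => (fanIn_eq_one_iff _ _).symm
  have a4 : AC s 4 (fun x : Fin ((N + 1) * (N + 3)) → Bool =>
      ∀ g, ((decode N x).kind g = Kind.conj ∨ (decode N x).kind g = Kind.disj) →
        1 ≤ (decode N x).fanIn g) := by
    refine AC.forall_fintype (by simpa using hN1) fun g => ?_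
    refine AC.imp hs (gate_AC hs g) ?_
    exact (AC.succ h1s (ex g)).congr fun x => (one_le_fanIn_iff _ _).symm
  exact AC.and hs (AC.mono_depth h1s (by norm_num) a1)
    (AC.and hs (AC.mono_depth h1s (by norm_num) a2)
      (AC.and hs a3 (AC.mono_depth h1s (by norm_num) a4)))

theorem isChain_AC (hs : 2 ≤ s) (l : List (Fin (N + 1))) :
    AC s (l.length + 1) (fun x : Fin ((N + 1) * (N + 3)) → Bool =>
      l.IsChain (fun h g => (decode N x).wire h g = true)) := by
  induction l with
  | nil => exact (AC.const_succ True 0).congr fun x => by simp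
  | cons a l ih =>
    cases l with
    | nil => exact (AC.const_succ True _).congr fun x => by simp
    | cons b l =>
      refine (AC.and hs (AC.mono_depth (by omega) (Nat.zero_le _) (wire_AC a b)) ih).congr
        fun x => ?_
      rw [List.isChain_cons_cons]

theorem isPath_AC (hs : 2 ≤ s) (l : List (Fin (N + 1))) :
    AC s (l.length + 3) (fun x : Fin ((N + 1) * (N + 3)) → Bool => (decode N x).IsPath l) := by
  have h1 : AC s 1 (fun x : Fin ((N + 1) * (N + 3)) → Bool =>
      ∃ g, l.head? = some g ∧ (decode N x).kind g = Kind.input) := by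
    cases l with
    | nil => exact (AC.const_succ False 0).congr fun x => by simp
    | cons a l => exact (kind_AC hs a Kind.input).congr fun x => by simp
  refine AC.and hs (AC.succ (by omega) (isChain_AC hs l)) ?_
  refine (AC.const_and (l.getLast? = some (Fin.last N)) (by omega) (AC.mono_depth (by omega)
    (by omega) h1)).congr fun x => ?_
  exact and_comm

theorem filter_AC (hs : 2 ≤ s) (hs3 : (N + 1) ^ 3 ≤ s) (l : List (Fin (N + 1))) (t : ℕ) :
    AC s (2 * l.length + 4) (fun x : Fin ((N + 1) * (N + 3)) → Bool =>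
      (l.filter fun g => @decide ((decode N x).Large g) (Classical.propDecidable _)).length ≤ t) := by
  classical
  induction l generalizing t with
  | nil => exact (AC.const True (by omega)).congr fun x => by simp
  | cons a l ih =>
    have h1s : 1 ≤ s := by omega
    have hL := AC.mono_depth h1s (by omega : 4 ≤ 2 * l.length + 4) (large_AC hs hs3 a)
    have hT : AC s (2 * l.length + 4) (fun x : Fin ((N + 1) * (N + 3)) → Bool =>
        (l.filter fun g => @decide ((decode N x).Large g) (Classical.propDecidable _)).length + 1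
          ≤ t) := by
      cases t with
      | zero => exact (AC.const False (by omega)).congr fun x => by simp
      | succ t => exact (ih t).congr fun x => by simp
    refine (AC.or hs (AC.and hs hL hT) (AC.and hs hL.not (ih t))).congr fun x => ?_
    by_cases hx : (decode N x).Large a
    · simp [hx]
    · simp [hx]

theorem inClass_AC_aux (t d : ℕ) (hs : 2 ≤ s) (hs3 : (N + 1) ^ 3 ≤ s)
    (hsd : (N + 1) ^ (d + 2) ≤ s) (hd : d + 1 ≤ s) :
    AC s (2 * d + 16) (fun x : Fin ((N + 1) * (N + 3)) → Bool => (decode N x).InClass t d) := by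
  have h1s : 1 ≤ s := by omega
  have hv : ∀ m ≤ d + 2, (N + 1) ^ m ≤ s := fun m hm =>
    (Nat.pow_le_pow_right (by omega) hm).trans hsd
  have b1 : AC s (d + 4) (fun x : Fin ((N + 1) * (N + 3)) → Bool =>
      ∀ v : List.Vector (Fin (N + 1)) (d + 2),
        ¬ (v.1.IsChain (fun h g => (decode N x).wire h g = true) ∧
          v.1.getLast? = some (Fin.last N))) := by
    refine AC.forall_fintype ?_ fun v => ?_
    · rw [card_vector]
      simpa using hsd
    · refine AC.not ?_
      have := isChain_AC (s := s) hs v.1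
      rw [v.2] at this
      exact (AC.const_and (v.1.getLast? = some (Fin.last N)) (by omega) this).congr fun x =>
        and_comm
  have b2 : AC s (2 * d + 10) (fun x : Fin ((N + 1) * (N + 3)) → Bool =>
      ∀ (m : Fin (d + 1)) (v : List.Vector (Fin (N + 1)) (m + 1)), (decode N x).IsPath v.1 →
        (v.1.filter fun g => @decide ((decode N x).Large g)
          (Classical.propDecidable _)).length ≤ t) := by
    refine AC.forall_fintype (by simpa using hd) fun m => ?_
    refine AC.forall_fintype ?_ fun v => ?_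
    · rw [card_vector]
      simpa using hv _ (by omega)
    · have hm := m.2
      have hl := v.2
      refine AC.imp hs (AC.mono_depth h1s ?_ (isPath_AC hs v.1))
        (AC.mono_depth h1s ?_ (filter_AC hs hs3 v.1 t))
      · omega
      · omega
  refine (AC.and hs (AC.mono_depth h1s ?_ (correct_AC hs hs3)) (AC.and hs
    (AC.mono_depth h1s ?_ b1) (AC.mono_depth h1s (?_ : _ ≤ 2 * d + 14) b2))).congr
      fun x => (inClass_iff _ _ _).symm
  · omega
  · omega
  · omega

end Bounds

end ValidAux

open ValidAux in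
/-- Membership in `C_{t,d}` is decided by polynomial size constant depth formulas. -/
theorem inClass_AC (t d : ℕ) : ∃ c : ℕ, ∀ N : ℕ,
    AC ((N + 2) ^ c) c (fun x : Fin ((N + 1) * (N + 3)) → Bool => (decode N x).InClass t d) := by
  refine ⟨2 * d + 16, fun N => ?_⟩
  have hle : ∀ m ≤ 2 * d + 16, (N + 2) ^ m ≤ (N + 2) ^ (2 * d + 16) := fun m hm =>
    Nat.pow_le_pow_right (by omega) hm
  refine inClass_AC_aux t d ?_ ?_ ?_ ?_
  · exact le_trans (by simp) (hle 1 (by omega))
  · exact (Nat.pow_le_pow_left (by omega) 3).trans (hle 3 (by omega))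
  · exact (Nat.pow_le_pow_left (by omega) _).trans (hle _ (by omega))
  · have h2 : d + 1 ≤ 2 ^ (d + 1) := Nat.lt_two_pow_self.le
    exact h2.trans ((Nat.pow_le_pow_left (by omega) _).trans (hle _ (by omega)))

namespace ValidAux

theorem N_unique {N N' : ℕ} (h : (N + 1) * (N + 3) = (N' + 1) * (N' + 3)) : N = N' := by
  rcases lt_trichotomy N N' with hlt | heq | hlt
  · exfalso
    have : (N + 1) * (N + 3) < (N' + 1) * (N' + 3) := by
      apply Nat.mul_lt_mul'' <;> omega
    omega
  · exact heq
  · exfalso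
    have : (N' + 1) * (N' + 3) < (N + 1) * (N + 3) := by
      apply Nat.mul_lt_mul'' <;> omega
    omega

theorem pWSAT_iff (t d N : ℕ) (x : Fin ((N + 1) * (N + 3)) → Bool) (k : ℕ) :
    pWSAT t d ((N + 1) * (N + 3)) x k ↔ (decode N x).InClass t d ∧
      ∃ v, (decode N x).IsValuation v ∧ v (Fin.last N) = true ∧ (decode N x).weight v = k := by
  constructor
  · rintro ⟨N', h, h1, h2⟩
    obtain rfl := N_unique h
    exact ⟨h1, h2⟩
  · rintro ⟨h1, h2⟩
    exact ⟨N, rfl, h1, h2⟩

theorem not_correct_false (N : ℕ) : ¬ (decode N fun _ => false).Correct := by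
  rintro ⟨_, _, _, h4⟩
  have := h4 0 (Or.inr rfl)
  rw [one_le_fanIn_iff] at this
  obtain ⟨h, hh⟩ := this
  simp [decode] at hh

theorem inClass_mono {N t d : ℕ} {C : Circuit N} (h : C.InClass t d) : C.InClass (t + 1) d :=
  ⟨h.1, fun p hp => ⟨(h.2 p hp).1, (h.2 p hp).2.trans (Nat.le_succ t)⟩⟩

end ValidAux

open ValidAux in
theorem W_subset (t : ℕ) : W t ⊆ W (t + 1) := by
  classical
  rintro Q ⟨d, hd, c, f, g, hred⟩
  obtain ⟨c0, hc0⟩ := inClass_AC t d
  refine ⟨d, hd, c * (c0 + 1) + c + c0 + 1, fun k => (f k + 2) ^ (c0 + 1), g, fun k n => ?_⟩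
  obtain ⟨n', R, κ, hn', hκ, hR, hκ', hQ⟩ := hred k n
  set S := (f k + 2) ^ (c0 + 1) * (n + 1) ^ (c * (c0 + 1) + c + c0 + 1) with hS
  have hpow1 : 1 ≤ (n + 1) ^ (c * (c0 + 1) + c + c0 + 1) := Nat.one_le_pow _ _ (by omega)
  have hS2 : 2 ≤ S := by
    have h1 : 2 ≤ (f k + 2) ^ (c0 + 1) := by
      calc 2 ≤ f k + 2 := by omega
        _ = (f k + 2) ^ 1 := (pow_one _).symm
        _ ≤ _ := Nat.pow_le_pow_right (by omega) (by omega)
    calc 2 = 2 * 1 := rfl
      _ ≤ S := Nat.mul_le_mul h1 hpow1
  have hS1 : 1 ≤ S := by omega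
  have hSf : f k * (n + 1) ^ c ≤ S := by
    apply Nat.mul_le_mul
    · calc f k ≤ f k + 2 := by omega
        _ = (f k + 2) ^ 1 := (pow_one _).symm
        _ ≤ _ := Nat.pow_le_pow_right (by omega) (by omega)
    · exact Nat.pow_le_pow_right (by omega) (by nlinarith [Nat.zero_le c, Nat.zero_le c0])
  have hSc : (f k * (n + 1) ^ c) ^ c0 ≤ S := by
    rw [mul_pow, ← pow_mul]
    apply Nat.mul_le_mul
    · calc f k ^ c0 ≤ (f k + 2) ^ c0 := Nat.pow_le_pow_left (by omega) _
        _ ≤ _ := Nat.pow_le_pow_right (by omega) (by omega)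
    · exact Nat.pow_le_pow_right (by omega) (by nlinarith [Nat.zero_le c, Nat.zero_le c0])
  have hcc : c ≤ c * (c0 + 1) + c + c0 + 1 := by omega
  have hκ'' : ∀ j, AC S (c * (c0 + 1) + c + c0 + 1) fun x => κ x = j := fun j =>
    AC.mono hS1 hSf hcc (hκ' j)
  by_cases hN : ∃ N, (N + 1) * (N + 3) = n'
  · obtain ⟨N, rfl⟩ := hN
    refine ⟨(N + 1) * (N + 3), fun x i => R x i && decide ((decode N (R x)).InClass t d), κ,
      hn'.trans hSf, hκ, fun i => ?_, hκ'', fun x => ?_⟩
    · have h1 := AC.comp (φ := R) hR (hc0 N)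
      have hN2 : (N + 2) ^ c0 ≤ S := by
        refine (Nat.pow_le_pow_left ?_ c0).trans hSc
        refine le_trans ?_ hn'
        nlinarith [Nat.zero_le N]
      have h2 : AC S (c + c0) fun x => (decode N (R x)).InClass t d :=
        h1.mono_size (max_le hN2 hSf)
      have h3 : AC S (c + c0) fun x => R x i = true :=
        AC.mono hS1 hSf (by omega) (hR i)
      refine ((AC.and hS2 h3 h2).mono_depth hS1 ?_).congr fun x => ?_
      · nlinarith [Nat.zero_le c, Nat.zero_le c0]
      · simp
    · rw [hQ, pWSAT_iff, pWSAT_iff]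
      beta_reduce
      by_cases hx : (decode N (R x)).InClass t d
      · have : (fun i => R x i && decide ((decode N (R x)).InClass t d)) = R x := by
          funext i
          simp [hx]
        rw [this]
        exact ⟨fun h => ⟨inClass_mono h.1, h.2⟩, fun h => ⟨hx, h.2⟩⟩
      · have : (fun i => R x i && decide ((decode N (R x)).InClass t d)) = fun _ => false := by
          funext i
          simp [hx]
        rw [this]
        exact ⟨fun h => absurd h.1 hx, fun h => absurd h.1.1 (not_correct_false N)⟩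
  · refine ⟨n', R, κ, hn'.trans hSf, hκ, fun i => AC.mono hS1 hSf hcc (hR i), hκ'',
      fun x => ?_⟩
    rw [hQ]
    constructor
    · rintro ⟨N, h, _⟩
      exact absurd ⟨N, h⟩ hN
    · rintro ⟨N, h, _⟩
      exact absurd ⟨N, h⟩ hN

end Pool.Agent.W_MP_5f6b2a_lc
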