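import Pool.Agent.W_MP_5f6b2a_lc.StageC
import Pool.Agent.W_MP_5f6b2a_lc.Source
import Pool.Agent.W_MP_5f6b2a_lc.Valid

/-!
Levelled formulas: closure properties used in the assembly.
-/

namespace Pool.Agent.W_MP_5f6b2a_lc.Asm

open Pool.Agent.W_MP_5f6b2a_lc

variable {Z Z' : Type} {𝓑 𝓑' : (Z → Prop) → Prop} {M M' : ℕ}

theorem lv_mono (hB : ∀ f, 𝓑 f → 𝓑' f) (hM : M ≤ M') : ∀ (t : ℕ) (b : Bool) (f : Z → Prop),
    Lv 𝓑 M t b f → Lv 𝓑' M' t b f
  | 0, _, f, h => hB f h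
  | t + 1, true, _, ⟨m, g, hm, hg, hf⟩ =>
    ⟨m, g, hm.trans hM, fun i => lv_mono hB hM t false (g i) (hg i), hf⟩
  | t + 1, false, _, ⟨m, g, hm, hg, hf⟩ =>
    ⟨m, g, hm.trans hM, fun i => lv_mono hB hM t true (g i) (hg i), hf⟩

theorem lv_comp {𝓑 : (Z → Prop) → Prop} {𝓒 : (Z' → Prop) → Prop} (φ : Z' → Z)
    (hB : ∀ f, 𝓑 f → 𝓒 fun z => f (φ z)) : ∀ (t : ℕ) (b : Bool) (f : Z → Prop),
    Lv 𝓑 M t b f → Lv 𝓒 M t b fun z => f (φ z)
  | 0, _, f, h => hB f h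
  | t + 1, true, _, ⟨m, g, hm, hg, hf⟩ =>
    ⟨m, fun i z => g i (φ z), hm, fun i => lv_comp φ hB t false (g i) (hg i), fun z => hf (φ z)⟩
  | t + 1, false, _, ⟨m, g, hm, hg, hf⟩ =>
    ⟨m, fun i z => g i (φ z), hm, fun i => lv_comp φ hB t true (g i) (hg i), fun z => hf (φ z)⟩

theorem lv_base (hM : 1 ≤ M) : ∀ (t : ℕ) (b : Bool) (f : Z → Prop), 𝓑 f → Lv 𝓑 M t b f
  | 0, _, _, h => h
  | t + 1, true, f, h => ⟨1, fun _ => f, hM, fun _ => lv_base hM t false f h, fun z => by simp⟩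
  | t + 1, false, f, h => ⟨1, fun _ => f, hM, fun _ => lv_base hM t true f h, fun z => by simp⟩

theorem lv_and {A : Z → Prop} (hB : ∀ f, 𝓑 f → 𝓑' f) (hA : 𝓑' A)
    (hBA : ∀ f, 𝓑 f → 𝓑' fun z => A z ∧ f z) : ∀ (t : ℕ) (b : Bool) (f : Z → Prop),
    Lv 𝓑 M t b f → Lv 𝓑' (M + 1) t b fun z => A z ∧ f z
  | 0, _, f, h => hBA f h
  | t + 1, true, f, ⟨m, g, hm, hg, hf⟩ =>
    ⟨m + 1, Fin.cons A g, by omega, fun i => by
      refine Fin.cases ?_ (fun i => ?_) i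
      · exact lv_base (by omega) t false A hA
      · exact lv_mono hB (by omega) t false (g i) (hg i), fun z => by
      show A z ∧ f z ↔ _
      rw [hf]
      exact (Fin.forall_fin_succ (P := fun i : Fin (m + 1) =>
        (Fin.cons A g : Fin (m + 1) → Z → Prop) i z)).symm⟩
  | t + 1, false, f, ⟨m, g, hm, hg, hf⟩ =>
    ⟨m, fun i z => A z ∧ g i z, by omega, fun i => lv_and hB hA hBA t true (g i) (hg i),
      fun z => by
        show A z ∧ f z ↔ _
        rw [hf]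
        simp⟩

theorem lv_exists {J : ℕ} {t : ℕ} (f : Fin J → Z → Prop) (hf : ∀ j, Lv 𝓑 M (t + 1) false (f j)) :
    Lv 𝓑 (J * M) (t + 1) false fun z => ∃ j, f j z := by
  choose m g hm hg hf' using hf
  let e := Fintype.equivFin (Σ j, Fin (m j))
  refine ⟨_, fun i => g (e.symm i).1 (e.symm i).2, ?_, fun i => ?_, fun z => ?_⟩
  · rw [Fintype.card_sigma]
    simp only [Fintype.card_fin]
    refine (Finset.sum_le_sum fun j _ => hm j).trans ?_
    simp
  · have hJ : 1 ≤ J := by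
      have := (e.symm i).1.2
      omega
    exact lv_mono (fun _ h => h) (Nat.le_mul_of_pos_left M hJ) _ _ _ (hg _ _)
  · constructor
    · rintro ⟨j, hj⟩
      obtain ⟨i, hi⟩ := (hf' j z).1 hj
      refine ⟨e ⟨j, i⟩, ?_⟩
      show g (e.symm (e ⟨j, i⟩)).1 (e.symm (e ⟨j, i⟩)).2 z
      rw [Equiv.symm_apply_apply]
      exact hi
    · rintro ⟨i, hi⟩
      exact ⟨_, (hf' _ z).2 ⟨_, hi⟩⟩

theorem lv_false (t : ℕ) : Lv 𝓑 M (t + 1) false fun _ => False :=
  ⟨0, fun i => i.elim0, Nat.zero_le _, fun i => i.elim0, fun z => by simp⟩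

theorem junta_mono {ι : Type} [Nonempty ι] {A : ι → Z → Prop} {D D' : ℕ} (hD : D ≤ D')
    (f : Z → Prop) (h : Junta A D f) : Junta A D' f := by
  obtain ⟨ξ, β, h⟩ := h
  classical
  let i0 : ι := Classical.arbitrary ι
  refine ⟨fun j => if hj : j.1 < D then ξ ⟨j.1, hj⟩ else i0, fun u => β fun i =>
    u ⟨i.1, i.2.trans_le hD⟩, fun z => ?_⟩
  rw [h]
  have : (fun i : Fin D => A (ξ i) z) = fun i : Fin D =>
      A (if hj : i.1 < D then ξ ⟨i.1, hj⟩ else i0) z := by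
    funext i
    rw [dif_pos i.2]
  rw [this]

theorem dtle_and {X : Type} {m n : ℕ} {f g : (X → Bool) → Prop} (hf : DTle m f)
    (hg : DTle n g) : DTle (m + n) fun z => f z ∧ g z := by
  obtain ⟨T, hT1, hT2⟩ := hf
  obtain ⟨S, hS1, hS2⟩ := hg
  refine ⟨T.graft fun b => if b = true then S else DTree.leaf false, ?_, fun z => ?_⟩
  · refine (DTree.depth_graft (n := n) (fun b => ?_) T).trans (by omega)
    cases b
    · simp [DTree.depth]
    · simpa using hS1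
  · show _ ↔ f z ∧ g z
    rw [DTree.eval_graft, ← hT2, ← hS2]
    cases T.eval z <;> simp [DTree.eval]

/-- The assembly: no reduction. -/
theorem no_reduction
    (depth_hierarchy : ∀ t e D : ℕ, ∃ a₀ : ℕ, ∀ a, a₀ ≤ a →
      ¬ Lv (DTle D) (a ^ e) (t + 1) false
        (fun z : P a t × Fin (bfan a t) → Bool => treeB a t fun l => z l = true))
    (upper_bound : ∀ t d : ℕ, 1 ≤ t → ∃ c₁ : ℕ, ∀ k : ℕ, ∃ e D : ℕ, ∀ N : ℕ,
      ∃ A : Fin ((N + 2) ^ c₁) → (Fin ((N + 1) * (N + 3)) → Bool) → Prop,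
        (∀ i, AC ((N + 2) ^ c₁) c₁ (A i)) ∧
        Lv (Junta A D) ((N + 2) ^ e) t false (fun x => pWSAT t d ((N + 1) * (N + 3)) x k))
    (t : ℕ) : ∃ d₀, 1 ≤ d₀ ∧
      ∀ d', ¬ ParaAC0Reducible (pWSAT (t + 2) d₀) (pWSAT (t + 1) d') := by
  obtain ⟨d₀, K, hd₀, hsrc⟩ := source_instance t
  refine ⟨d₀, hd₀, fun d' hred => ?_⟩
  obtain ⟨c, f, g, hR⟩ := hred
  obtain ⟨c₁, hup⟩ := upper_bound (t + 1) d' (by omega)
  set d := 1 + (c + c₁) with hd
  set κ := kap t d with hκ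
  set E := 4 * κ * c + 2 with hE
  set c' := E * c₁ + E + 2 with hc'
  obtain ⟨ND, k, h, π₀, hk, hh, hC⟩ := stageC t d c'
  choose e D hup' using hup
  set J := g k + 1 with hJ
  set e₁ := (Finset.range J).sup e with he₁
  set D₁ := (Finset.range J).sup D with hD₁
  obtain ⟨a₀, ha₀⟩ := depth_hierarchy t (E * e₁ + 2) (D₁ * ND + ND)
  set C0 := f k * (4 * K ^ 2 * (k + 2) ^ 4) ^ c with hC0
  set π := π₀ + a₀ + C0 + 2 * J + 2 with hπ
  have hC' := hC π (by omega)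
  set a := π ^ h with ha
  have hπa : π ≤ a := Nat.le_self_pow (Nat.pos_iff_ne_zero.1 hh) π
  have ha2 : 2 ≤ a := by omega
  have haJ : 2 * J ≤ a := by omega
  have haC : C0 ≤ a := by omega
  have haa : a₀ ≤ a := by omega
  clear_value a
  have ha1 : 1 ≤ a := by omega
  have : NeZero k := ⟨by omega⟩
  have : NeZero (a ^ κ) := ⟨(pow_pos (by omega) _).ne'⟩
  have : NeZero (a ^ (d + 1)) := ⟨(pow_pos (by omega) _).ne'⟩
  have : NeZero (bfan a t) := ⟨(pow_pos (by omega) _).ne'⟩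
  have hVne : Nonempty (Fin k × Fin (a ^ κ)) := ⟨(0, 0)⟩
  have hβne : Nonempty (Fin (bfan a t) × Fin (a ^ (d + 1))) := ⟨(0, 0)⟩
  obtain ⟨N, inst, hN, hproj, hinst⟩ := hsrc a k ha2 (Fin k × Fin (a ^ κ))
    (Fin (bfan a t) × Fin (a ^ (d + 1)))
  obtain ⟨n', R, κf, hn', hκf, hRAC, hκAC, hRed⟩ := hR k ((N + 1) * (N + 3))
  set s2 := f k * ((N + 1) * (N + 3) + 1) ^ c with hs2
  -- size of the source instance
  have hs2a : s2 + 1 ≤ a ^ E := by
    have hcV : Fintype.card (Fin k × Fin (a ^ κ)) = k * a ^ κ := by simp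
    have hcJ : Fintype.card (P a t × (Fin (bfan a t) × Fin (a ^ (d + 1)))) = a ^ κ :=
      card_leaves a t d
    rw [hcV, hcJ] at hN
    have h1 : 1 ≤ a ^ κ := Nat.one_le_pow _ _ (by omega)
    have h2 : N + 1 ≤ K * ((k + 2) * a ^ κ) ^ 2 := by
      refine hN.trans (Nat.mul_le_mul_left _ (Nat.pow_le_pow_left ?_ 2))
      nlinarith
    have h3 : (N + 1) * (N + 3) + 1 ≤ 4 * (N + 1) ^ 2 := by nlinarith
    have h4 : 4 * (N + 1) ^ 2 ≤ 4 * K ^ 2 * (k + 2) ^ 4 * a ^ (4 * κ) := by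
      have h5 := Nat.pow_le_pow_left h2 2
      have h6 : (K * ((k + 2) * a ^ κ) ^ 2) ^ 2 = K ^ 2 * (k + 2) ^ 4 * a ^ (4 * κ) := by
        rw [mul_comm 4 κ, pow_mul]; ring
      rw [h6] at h5
      calc 4 * (N + 1) ^ 2 ≤ 4 * (K ^ 2 * (k + 2) ^ 4 * a ^ (4 * κ)) := Nat.mul_le_mul_left _ h5
        _ = _ := by ring
    have h5 : s2 ≤ C0 * a ^ (4 * κ * c) := by
      rw [hs2, hC0, mul_assoc, pow_mul a (4 * κ) c, ← mul_pow]
      exact Nat.mul_le_mul_left _ (Nat.pow_le_pow_left (h3.trans h4) c)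
    have h6 : s2 ≤ a ^ (4 * κ * c + 1) := by
      refine h5.trans ?_
      rw [pow_succ, mul_comm]
      exact Nat.mul_le_mul_left _ haC
    have h7 : 1 ≤ a ^ (4 * κ * c + 1) := Nat.one_le_pow _ _ (by omega)
    calc s2 + 1 ≤ 2 * a ^ (4 * κ * c + 1) := by omega
      _ ≤ a * a ^ (4 * κ * c + 1) := Nat.mul_le_mul_right _ ha2
      _ = a ^ E := by rw [hE, pow_succ a (4 * κ * c + 1), mul_comm]
  by_cases hN' : ∃ N', (N' + 1) * (N' + 3) = n'
  swap
  · -- the target has no instances of this length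
    refine ha₀ a haa ?_
    obtain ⟨sub, -, hsub⟩ := hC' Empty 0 (by simp) (Nat.zero_le _) (fun i => i.elim)
      (fun i => i.elim)
    have hF : (fun z : P a t × Fin (bfan a t) → Bool => treeB a t fun l => z l = true) =
        fun _ => False := by
      funext z
      apply propext
      rw [← hsub, ← hinst, hRed]
      constructor
      · rintro ⟨N', h, -⟩
        exact hN' ⟨N', h⟩
      · exact False.elim
    rw [hF]
    exact lv_false t
  obtain ⟨N', rfl⟩ := hN'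
  have hN'a : N' + 2 ≤ a ^ E := by
    have : N' + 2 ≤ (N' + 1) * (N' + 3) + 1 := by nlinarith
    omega
  choose A hA1 hA2 using fun j : ℕ => hup' j N'
  have hs1a : (N' + 2) ^ c₁ ≤ a ^ (E * c₁) := by
    rw [pow_mul]
    exact Nat.pow_le_pow_left hN'a c₁
  set s := max ((N' + 2) ^ c₁) s2 with hs
  have hs1' : 1 ≤ ((N' + 2) ^ c₁) := Nat.one_le_pow _ _ (by omega)
  have hsa : s ≤ a ^ c' := by
    have h1 : a ^ (E * c₁) ≤ a ^ c' := Nat.pow_le_pow_right ha1 (by omega)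
    have h2 : a ^ E ≤ a ^ c' := Nat.pow_le_pow_right ha1 (by omega)
    omega
  have hs0 : 1 ≤ s := hs1'.trans (le_max_left _ _)
  have hcard : Fintype.card ((Fin J × Fin ((N' + 2) ^ c₁)) ⊕ Fin J) ≤ a ^ c' := by
    rw [Fintype.card_sum, Fintype.card_prod, Fintype.card_fin, Fintype.card_fin]
    have h1 : J * ((N' + 2) ^ c₁) + J ≤ 2 * J * ((N' + 2) ^ c₁) := by
      have h2 : J ≤ J * ((N' + 2) ^ c₁) := Nat.le_mul_of_pos_right J hs1'
      calc J * ((N' + 2) ^ c₁) + J ≤ J * ((N' + 2) ^ c₁) + J * ((N' + 2) ^ c₁) := Nat.add_le_add_left h2 _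
        _ = 2 * J * ((N' + 2) ^ c₁) := by ring
    refine h1.trans ((Nat.mul_le_mul haJ hs1a).trans ?_)
    rw [mul_comm, ← pow_succ]
    exact Nat.pow_le_pow_right ha1 (by omega)
  set F : (Fin J × Fin ((N' + 2) ^ c₁)) ⊕ Fin J →
      (EdgeVar (Fin k × Fin (a ^ κ)) (Leaves a t (a ^ (d + 1))) → Bool) → Prop := fun i x =>
    match i with
    | Sum.inl e => A e.1 e.2 (R (inst x))
    | Sum.inr j => κf (inst x) = j.1 with hF
  have hFAC : ∀ i, AC s d (F i) := by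
    rintro (e | j)
    · have h1 : AC s (c + c₁) fun x => A e.1 e.2 (R x) := AC.comp (φ := R) hRAC (hA1 e.1 e.2)
      exact AC.comp_proj (φ := inst) hs0 hproj h1
    · have h1 : AC s (c + c₁) fun x => κf x = j.1 :=
        (hκAC j.1).mono hs0 (le_max_right _ _) (by omega)
      exact AC.comp_proj (φ := inst) hs0 hproj h1
  obtain ⟨sub, hsub1, hsub2⟩ := hC' _ s hcard hsa F hFAC
  refine ha₀ a haa ?_
  have hform : (fun z : P a t × Fin (bfan a t) → Bool => treeB a t fun l => z l = true) =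
      fun z => ∃ j : Fin J, κf (inst (sub z)) = j.1 ∧
        pWSAT (t + 1) d' ((N' + 1) * (N' + 3)) (R (inst (sub z))) j.1 := by
    funext z
    apply propext
    rw [← hsub2, ← hinst, hRed]
    constructor
    · intro h
      exact ⟨⟨κf (inst (sub z)), Nat.lt_succ_of_le (hκf _)⟩, rfl, h⟩
    · rintro ⟨j, h1, h2⟩
      rw [h1]; exact h2
  rw [hform]
  have hj : ∀ j : Fin J, Lv (DTle (X := P a t × Fin (bfan a t)) (D₁ * ND + ND))
      ((a ^ (E * e₁)) + 1) (t + 1) false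
      (fun z => κf (inst (sub z)) = j.1 ∧
        pWSAT (t + 1) d' ((N' + 1) * (N' + 3)) (R (inst (sub z))) j.1) := by
    intro j
    refine lv_and (𝓑 := DTle (D₁ * ND)) (fun f hf => hf.mono (by omega)) ?_ ?_ (t + 1) false _ ?_
    · exact (hsub1 (Sum.inr j)).mono (by omega)
    · intro f hf
      exact (dtle_and hf (hsub1 (Sum.inr j))).congr fun z => and_comm
    · have hje : e j.1 ≤ e₁ := Finset.le_sup (f := e) (Finset.mem_range.2 j.2)
      have hjD : D j.1 ≤ D₁ := Finset.le_sup (f := D) (Finset.mem_range.2 j.2)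
      have h1 := lv_comp (𝓒 := DTle (X := P a t × Fin (bfan a t)) (D₁ * ND))
        (fun z => R (inst (sub z))) ?_ (t + 1) false _ (hA2 j.1)
      · refine lv_mono (fun _ h => h) ?_ _ _ _ h1
        rw [pow_mul]
        exact (Nat.pow_le_pow_left hN'a _).trans (Nat.pow_le_pow_right
          (Nat.one_le_pow _ _ (by omega)) hje)
      · rintro f' ⟨ξ, β, hβ⟩
        have h2 := DTle.juntas (D j.1) (fun i z => A j.1 (ξ i) (R (inst (sub z))))
          (fun i => hsub1 (Sum.inl (j, ξ i))) β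
        exact (h2.mono (Nat.mul_le_mul_right _ hjD)).congr fun z => (hβ _).symm
  have hex := lv_exists _ hj
  refine lv_mono (fun _ h => h) ?_ _ _ _ hex
  have h1 : 1 ≤ a ^ (E * e₁) := Nat.one_le_pow _ _ (by omega)
  calc J * (a ^ (E * e₁) + 1) ≤ J * (a ^ (E * e₁) + a ^ (E * e₁)) :=
        Nat.mul_le_mul_left _ (Nat.add_le_add_left h1 _)
    _ = 2 * J * a ^ (E * e₁) := by ring
    _ ≤ a * a ^ (E * e₁) := Nat.mul_le_mul_right _ haJ
    _ ≤ a ^ (E * e₁ + 2) := by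
      rw [mul_comm, ← pow_succ]
      exact Nat.pow_le_pow_right ha1 (by omega)

/-- Every problem reduces to itself. -/
theorem reducible_refl (Q : ParamProblem) : ParaAC0Reducible Q Q := by
  refine ⟨1, fun _ => 1, fun k => k, fun k n => ⟨n, id, fun _ => k, ?_, fun _ => le_rfl, ?_, ?_,
    fun x => Iff.rfl⟩⟩
  · simp
  · intro i
    exact AC.succ (by simp) (AC.lit i true)
  · intro j
    exact AC.const_succ _ 0

end Pool.Agent.W_MP_5f6b2a_lc.Asm
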