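import Pool.Agent.W_MP_5f6b2a_lc.Stage

/-!
The depth hierarchy for alternating trees over shallow decision trees, by block restrictions.
-/

namespace Pool.Agent.W_MP_5f6b2a_lc

open Finset

/-! ### Levelled formulas -/

theorem Lv.comp {Z Z' : Type} {A : (Z → Prop) → Prop} {A' : (Z' → Prop) → Prop} (φ : Z' → Z)
    (h : ∀ f, A f → A' fun z => f (φ z)) {M : ℕ} : ∀ (s : ℕ) (b : Bool) (f : Z → Prop),
    Lv A M s b f → Lv A' M s b fun z => f (φ z) := by
  intro s
  induction s with
  | zero => intro b f hf; exact h f hf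
  | succ s ih =>
    intro b f hf
    cases b with
    | true =>
      obtain ⟨m, g, hm, hg, hfg⟩ := hf
      exact ⟨m, fun i z => g i (φ z), hm, fun i => ih _ _ (hg i), fun z => hfg (φ z)⟩
    | false =>
      obtain ⟨m, g, hm, hg, hfg⟩ := hf
      exact ⟨m, fun i z => g i (φ z), hm, fun i => ih _ _ (hg i), fun z => hfg (φ z)⟩

theorem DTree.exists_path {X : Type} [DecidableEq X] (T : DTree X) (z : X → Bool) :
    ∃ S : Finset X, S.card ≤ T.depth ∧ ∀ z', (∀ x ∈ S, z' x = z x) → T.eval z' = T.eval z := by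
  induction T with
  | leaf b => exact ⟨∅, by simp, fun z' _ => rfl⟩
  | node x l r ihl ihr =>
    obtain ⟨Sl, hl1, hl2⟩ := ihl
    obtain ⟨Sr, hr1, hr2⟩ := ihr
    by_cases hx : z x = true
    · refine ⟨insert x Sr, ?_, ?_⟩
      · refine (Finset.card_insert_le _ _).trans ?_
        simp only [DTree.depth]; omega
      · intro z' hz'
        have h1 := hz' x (Finset.mem_insert_self _ _)
        have h2 := hr2 z' fun y hy => hz' y (Finset.mem_insert_of_mem hy)
        simp only [DTree.eval, h1, hx, if_true, h2]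
    · refine ⟨insert x Sl, ?_, ?_⟩
      · refine (Finset.card_insert_le _ _).trans ?_
        simp only [DTree.depth]; omega
      · intro z' hz'
        have h1 := hz' x (Finset.mem_insert_self _ _)
        have h2 := hl2 z' fun y hy => hz' y (Finset.mem_insert_of_mem hy)
        simp only [DTree.eval, h1, if_neg hx, h2]

/-! ### Block restrictions -/

section blocks

variable {I B : Type} [Fintype I] [DecidableEq I] [Fintype B] [DecidableEq B]

/-- Weight of the choice in one block. -/
noncomputable def w1 (B : Type) [Fintype B] (q : ℝ) (o : Option B × Bool) : ℝ :=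
  ((Fintype.card B : ℝ) + 1)⁻¹ * wB q o.2

theorem sum_w1 (q : ℝ) : ∑ o : Option B × Bool, w1 B q o = 1 := by
  rw [Fintype.sum_prod_type]
  have : ∀ x : Option B, ∑ y : Bool, w1 B q (x, y) = ((Fintype.card B : ℝ) + 1)⁻¹ := by
    intro x
    unfold w1
    rw [← Finset.mul_sum, sum_wB, mul_one]
  simp only [this]
  rw [Finset.sum_const, Finset.card_univ, Fintype.card_option, nsmul_eq_mul]
  push_cast
  field_simp

theorem w1_nonneg {q : ℝ} (hq0 : 0 ≤ q) (hq1 : q ≤ 1) (o : Option B × Bool) : 0 ≤ w1 B q o :=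
  mul_nonneg (by positivity) (wB_nonneg hq0 hq1 _)

/-- Weight of a block restriction. -/
noncomputable def bwt (q : ℝ) (ω : I → Option B × Bool) : ℝ := ∏ i, w1 B q (ω i)

theorem bwt_nonneg {q : ℝ} (hq0 : 0 ≤ q) (hq1 : q ≤ 1) (ω : I → Option B × Bool) :
    0 ≤ bwt q ω := Finset.prod_nonneg fun _ _ => w1_nonneg hq0 hq1 _

theorem wsum_bwt (q : ℝ) (S : I → Finset (Option B × Bool)) :
    wsum (bwt q) (fun ω : I → Option B × Bool => ∀ i, ω i ∈ S i) =
      ∏ i, ∑ o ∈ S i, w1 B q o := by
  rw [← sum_prod_piFinset S fun _ o => w1 B q o]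
  unfold wsum
  refine Finset.sum_congr ?_ fun _ _ => rfl
  ext ω
  simp [Fintype.mem_piFinset]

theorem sum_bwt (q : ℝ) : ∑ ω : I → Option B × Bool, bwt q ω = 1 := by
  have h := wsum_bwt (I := I) (B := B) q fun _ => univ
  simp only [Finset.mem_univ, implies_true, sum_w1, Finset.prod_const_one] at h
  unfold wsum at h
  simpa using h

/-- The block restriction. -/
def brho (ν : Bool) (ω : I → Option B × Bool) : I × B → Option Bool := fun p =>
  if (ω p.1).1 = some p.2 then (if (ω p.1).2 = true then none else some (!ν)) else some ν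

theorem brho_none {ν : Bool} {ω : I → Option B × Bool} {p : I × B} :
    brho ν ω p = none ↔ ω p.1 = (some p.2, true) := by
  unfold brho
  constructor
  · intro h
    split_ifs at h with h1 h2
    exact Prod.ext h1 h2
  · intro h
    simp [h]

open Classical in
/-- The kill operation. -/
noncomputable def bkill (ν : Bool) (ω : I → Option B × Bool) (A : Finset (I × B))
    (σ : I × B → Bool) : I → Option B × Bool := fun i =>
  if h : ∃ x, (i, x) ∈ A then
    (if σ (i, Classical.choose h) = ν then (none, false) else (some (Classical.choose h), false))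
  else ω i

theorem bkill_of_mem {ν : Bool} {ω : I → Option B × Bool} {A : Finset (I × B)}
    {σ : I × B → Bool} (hA : ∀ p ∈ A, brho ν ω p = none) {i : I} {x : B} (hx : (i, x) ∈ A) :
    bkill ν ω A σ i = if σ (i, x) = ν then (none, false) else (some x, false) := by
  have h : ∃ x, (i, x) ∈ A := ⟨x, hx⟩
  have h1 : Classical.choose h = x := by
    have h2 := brho_none.1 (hA _ (Classical.choose_spec h))
    have h3 := brho_none.1 (hA _ hx)
    simp only at h2 h3
    rw [h2] at h3
    simpa using h3
  unfold bkill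
  rw [dif_pos h, h1]

theorem bkill_of_not {ν : Bool} {ω : I → Option B × Bool} {A : Finset (I × B)}
    {σ : I × B → Bool} {i : I} (hi : ¬ ∃ x, (i, x) ∈ A) : bkill ν ω A σ i = ω i := by
  unfold bkill
  rw [dif_neg hi]

theorem bkill_K2 (ν : Bool) (ω : I → Option B × Bool) (A : Finset (I × B)) (σ : I × B → Bool)
    (hA : ∀ p ∈ A, brho ν ω p = none) (p : I × B) (hp : p ∈ A) :
    brho ν (bkill ν ω A σ) p = some (σ p) := by
  obtain ⟨i, x⟩ := p
  unfold brho
  simp only
  rw [bkill_of_mem hA hp]
  split_ifs with h1 h2 h3 h4 <;> simp_all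
  cases ν <;> cases h : σ (i, x) <;> simp_all

theorem bkill_K1 (ν : Bool) (ω : I → Option B × Bool) (A : Finset (I × B)) (σ : I × B → Bool)
    (hA : ∀ p ∈ A, brho ν ω p = none) (p : I × B) (b : Bool) (h : brho ν ω p = some b) :
    brho ν (bkill ν ω A σ) p = some b := by
  obtain ⟨i, y⟩ := p
  by_cases hi : ∃ x, (i, x) ∈ A
  · obtain ⟨x, hx⟩ := hi
    have h1 := brho_none.1 (hA _ hx)
    simp only at h1
    have hyx : y ≠ x := by
      rintro rfl
      rw [hA _ hx] at h
      simp at h
    unfold brho at h ⊢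
    simp only at h ⊢
    rw [bkill_of_mem hA hx]
    rw [h1] at h
    simp only [Option.some.injEq, hyx.symm, if_false] at h
    split_ifs with h2 h3 <;> simp_all
  · unfold brho at h ⊢
    simp only at h ⊢
    rw [bkill_of_not hi]
    exact h

theorem bkill_K4 {q : ℝ} (hq0 : 0 < q) (hq1 : q ≤ 1 / 2) (ν : Bool) (N : ℕ)
    (A : Finset (I × B)) (ω' : I → Option B × Bool) (hN : N < A.card) :
    wsum (bwt q) (fun ω => (∀ p ∈ A, brho ν ω p = none) ∧ ∃ σ, bkill ν ω A σ = ω') ≤
      (2 * q) ^ (N + 1) * bwt q ω' := by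
  have hq1' : q ≤ 1 := by linarith
  have hnn : 0 ≤ bwt q ω' := bwt_nonneg hq0.le hq1' ω'
  by_cases hex : ∃ ω : I → Option B × Bool, (∀ p ∈ A, brho ν ω p = none) ∧
      ∃ σ, bkill ν ω A σ = ω'
  swap
  · rw [wsum_false fun ω hω => hex ⟨ω, hω⟩]
    positivity
  obtain ⟨ω0, h0A, σ0, h0⟩ := hex
  have huniq : ∀ ω : I → Option B × Bool, ((∀ p ∈ A, brho ν ω p = none) ∧
      ∃ σ, bkill ν ω A σ = ω') → ω ∈ ({ω0} : Finset (I → Option B × Bool)) := by
    rintro ω ⟨h1, σ, h2⟩
    rw [Finset.mem_singleton]
    funext i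
    by_cases hi : ∃ x, (i, x) ∈ A
    · obtain ⟨x, hx⟩ := hi
      have h3 := brho_none.1 (h1 _ hx)
      have h4 := brho_none.1 (h0A _ hx)
      simp only at h3 h4
      rw [h3, h4]
    · have h3 : bkill ν ω A σ i = ω i := bkill_of_not hi
      have h4 : bkill ν ω0 A σ0 i = ω0 i := bkill_of_not hi
      rw [h2] at h3
      rw [h0] at h4
      rw [← h3, ← h4]
  refine (wsum_le_sum (bwt_nonneg hq0.le hq1') _ huniq).trans ?_
  rw [Finset.sum_singleton]
  -- the blocks meeting `A`
  set J : Finset I := A.image Prod.fst with hJ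
  have hJcard : J.card = A.card := by
    rw [hJ]
    refine Finset.card_image_of_injOn ?_
    rintro ⟨i, x⟩ hx ⟨j, y⟩ hy hij
    simp only at hij
    subst hij
    have h3 := brho_none.1 (h0A _ hx)
    have h4 := brho_none.1 (h0A _ hy)
    simp only at h3 h4
    rw [h3] at h4
    simp only [Prod.mk.injEq, Option.some.injEq, and_true] at h4
    rw [h4]
  have hprod : bwt q ω0 ≤ (2 * q) ^ J.card * bwt q ω' := by
    have : (2 * q) ^ J.card = ∏ i, if i ∈ J then 2 * q else 1 := by
      rw [Finset.prod_ite_mem, Finset.univ_inter, Finset.prod_const]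
    rw [this]
    unfold bwt
    rw [← Finset.prod_mul_distrib]
    refine Finset.prod_le_prod (fun i _ => w1_nonneg hq0.le hq1' _) fun i _ => ?_
    split_ifs with hi
    · rw [hJ, Finset.mem_image] at hi
      obtain ⟨⟨i', x⟩, hx, rfl⟩ := hi
      simp only
      have h3 := brho_none.1 (h0A _ hx)
      simp only at h3
      have h4 : (ω' i').2 = false := by
        rw [← h0, bkill_of_mem h0A hx]
        split_ifs <;> rfl
      rw [h3]
      unfold w1
      simp only [h4, wB, if_true]
      have h5 : (0 : ℝ) < ((Fintype.card B : ℝ) + 1)⁻¹ := by positivity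
      simp only [Bool.false_eq_true, if_false]
      have h6 : q ≤ 2 * q * (1 - q) := by nlinarith
      calc ((Fintype.card B : ℝ) + 1)⁻¹ * q ≤ ((Fintype.card B : ℝ) + 1)⁻¹ * (2 * q * (1 - q)) :=
            mul_le_mul_of_nonneg_left h6 h5.le
        _ = _ := by ring
    · have h4 : ω' i = ω0 i := by
        rw [← h0]
        refine bkill_of_not ?_
        rintro ⟨x, hx⟩
        exact hi (Finset.mem_image.2 ⟨(i, x), hx, rfl⟩)
      rw [h4, one_mul]
  refine hprod.trans (mul_le_mul_of_nonneg_right ?_ hnn)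
  rw [hJcard]
  exact pow_le_pow_of_le_one (by linarith) (by linarith) hN

/-- Level-one gates become shallow decision trees. -/
theorem block_gate {q : ℝ} (hq0 : 0 < q) (hq1 : q ≤ 1 / 2) (ν : Bool) (N D M : ℕ) (b : Bool)
    (f : (I × B → Bool) → Prop) (hf : Lv (DTle D) M 1 b f) :
    wsum (bwt q) (fun ω : I → Option B × Bool => ¬ DTle N fun z => f (fill (brho ν ω) z)) ≤
      (3 ^ D) ^ (N + 1) * (2 * q) ^ (N + 1) := by
  have hq1' : q ≤ 1 := by linarith
  have key : ∀ (m : ℕ) (g : Fin m → (I × B → Bool) → Prop), (∀ i, DTle D (g i)) →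
      wsum (bwt q) (fun ω : I → Option B × Bool =>
        ¬ DTle N fun z => ∃ i, g i (fill (brho ν ω) z)) ≤
      (3 ^ D) ^ (N + 1) * (2 * q) ^ (N + 1) := by
    intro m g hg
    obtain ⟨F, hF1, hF2⟩ := exists_dnf g hg
    have h0 := switching' (Ω := I → Option B × Bool) (X := I × B) D N (bwt q)
      (bwt_nonneg hq0.le hq1') (brho ν) (fun _ => F) (fun _ => hF1) (bkill ν)
      (fun ω A σ hA p b h => bkill_K1 ν ω A σ hA p b h)
      (fun ω A σ hA p hp => bkill_K2 ν ω A σ hA p hp)
      (fun _ _ _ _ => rfl) ((2 * q) ^ (N + 1)) (by positivity)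
      (fun A ω' h1 _ => bkill_K4 hq0 hq1 ν N A ω' h1)
    rw [sum_bwt, mul_one] at h0
    refine le_trans (le_of_eq ?_) h0
    refine wsum_congr fun ω => ?_
    rw [not_iff_not]
    constructor
    · intro h
      exact h.congr fun z => (hF2 _).symm
    · intro h
      exact h.congr fun z => hF2 _
  cases b with
  | false =>
    obtain ⟨m, g, -, hg, hfg⟩ := hf
    refine le_trans (le_of_eq ?_) (key m g hg)
    refine wsum_congr fun ω => ?_
    rw [not_iff_not]
    constructor
    · intro h
      exact h.congr fun z => hfg _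
    · intro h
      exact h.congr fun z => (hfg _).symm
  | true =>
    obtain ⟨m, g, -, hg, hfg⟩ := hf
    refine le_trans (le_of_eq ?_) (key m (fun i z => ¬ g i z) fun i => (hg i).not)
    refine wsum_congr fun ω => ?_
    rw [not_iff_not]
    constructor
    · intro h
      exact h.not.congr fun z => by rw [hfg]; exact not_forall
    · intro h
      exact h.not.congr fun z => by rw [hfg]; simp

/-- The formula loses one level. -/
theorem block_levels {q : ℝ} (hq0 : 0 < q) (hq1 : q ≤ 1 / 2) (ν : Bool) (N D M : ℕ) :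
    ∀ (s : ℕ) (b : Bool) (f : (I × B → Bool) → Prop), Lv (DTle D) M (s + 1) b f →
    wsum (bwt q) (fun ω : I → Option B × Bool =>
      ¬ Lv (DTle N) M s b fun z => f (fill (brho ν ω) z)) ≤
      (M : ℝ) ^ s * ((3 ^ D) ^ (N + 1) * (2 * q) ^ (N + 1)) := by
  have hq1' : q ≤ 1 := by linarith
  intro s
  induction s with
  | zero =>
    intro b f hf
    rw [pow_zero, one_mul]
    refine le_trans (le_of_eq ?_) (block_gate hq0 hq1 ν N D M b f hf)
    rfl
  | succ s ih =>
    have step : ∀ (b : Bool) (m : ℕ) (g : Fin m → (I × B → Bool) → Prop) (_ : m ≤ M)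
        (_ : ∀ i, Lv (DTle D) M (s + 1) b (g i)),
        wsum (bwt q) (fun ω : I → Option B × Bool =>
          ∃ i, ¬ Lv (DTle N) M s b fun z => g i (fill (brho ν ω) z)) ≤
        (M : ℝ) ^ (s + 1) * ((3 ^ D) ^ (N + 1) * (2 * q) ^ (N + 1)) := by
      intro b m g hm hg
      refine (wsum_exists (bwt_nonneg hq0.le hq1') _).trans ?_
      refine (Finset.sum_le_sum fun i _ => ih b (g i) (hg i)).trans ?_
      rw [Finset.sum_const, Finset.card_univ, Fintype.card_fin, nsmul_eq_mul]
      have h1 : (m : ℝ) ≤ M := by exact_mod_cast hm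
      calc (m : ℝ) * ((M : ℝ) ^ s * ((3 ^ D) ^ (N + 1) * (2 * q) ^ (N + 1)))
          ≤ (M : ℝ) * ((M : ℝ) ^ s * ((3 ^ D) ^ (N + 1) * (2 * q) ^ (N + 1))) :=
            mul_le_mul_of_nonneg_right h1 (by positivity)
        _ = _ := by ring
    intro b f hf
    cases b with
    | false =>
      obtain ⟨m, g, hm, hg, hfg⟩ := hf
      refine le_trans (wsum_mono (bwt_nonneg hq0.le hq1') ?_) (step true m g hm hg)
      intro ω hω
      by_contra hcon
      push Not at hcon
      exact hω ⟨m, fun i z => g i (fill (brho ν ω) z), hm, hcon, fun z => hfg _⟩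
    | true =>
      obtain ⟨m, g, hm, hg, hfg⟩ := hf
      refine le_trans (wsum_mono (bwt_nonneg hq0.le hq1') ?_) (step false m g hm hg)
      intro ω hω
      by_contra hcon
      push Not at hcon
      exact hω ⟨m, fun i z => g i (fill (brho ν ω) z), hm, hcon, fun z => hfg _⟩

/-- Some block has no special position. -/
theorem wsum_none {q : ℝ} (hq0 : 0 ≤ q) (hq1 : q ≤ 1) :
    wsum (bwt q) (fun ω : I → Option B × Bool => ∃ i, (ω i).1 = none) ≤
      (Fintype.card I : ℝ) * ((Fintype.card B : ℝ) + 1)⁻¹ := by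
  refine (wsum_exists (bwt_nonneg hq0 hq1) _).trans ?_
  have h : ∀ i : I, wsum (bwt q) (fun ω : I → Option B × Bool => (ω i).1 = none) =
      ((Fintype.card B : ℝ) + 1)⁻¹ := by
    intro i
    have h1 := wsum_bwt (I := I) (B := B) q
      fun j => if j = i then univ.filter (fun o => o.1 = none) else univ
    have h2 : ∀ ω : I → Option B × Bool, (ω i).1 = none ↔
        ∀ j, ω j ∈ (if j = i then univ.filter (fun o => o.1 = none) else univ :
          Finset (Option B × Bool)) := by
      intro ω
      constructor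
      · intro h j
        split_ifs with hj
        · subst hj; simpa using h
        · exact mem_univ _
      · intro h
        have := h i
        simpa using this
    rw [wsum_congr h2, h1, Finset.prod_eq_single i]
    · rw [if_pos rfl]
      have h3 : (univ.filter (fun o : Option B × Bool => o.1 = none)) =
          {((none : Option B), true), (none, false)} := by
        ext ⟨o, b⟩
        cases b <;> simp
      rw [h3, Finset.sum_pair (by simp)]
      simp only [w1, wB]
      simp
      ring
    · intro j _ hj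
      rw [if_neg hj, sum_w1]
    · intro h; exact absurd (mem_univ _) h
  simp only [h]
  rw [Finset.sum_const, Finset.card_univ, nsmul_eq_mul]

/-- All blocks of a given set are dead. -/
theorem wsum_dead {q : ℝ} (J : Finset I) :
    wsum (bwt q) (fun ω : I → Option B × Bool => ∀ i ∈ J, (ω i).2 = false) =
      (1 - q) ^ J.card := by
  have h1 := wsum_bwt (I := I) (B := B) q
    fun j => if j ∈ J then univ.filter (fun o => o.2 = false) else univ
  have h2 : ∀ ω : I → Option B × Bool, (∀ i ∈ J, (ω i).2 = false) ↔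
      ∀ j, ω j ∈ (if j ∈ J then univ.filter (fun o => o.2 = false) else univ :
        Finset (Option B × Bool)) := by
    intro ω
    constructor
    · intro h j
      split_ifs with hj
      · simpa using h j hj
      · exact mem_univ _
    · intro h i hi
      have := h i
      simpa [hi] using this
  rw [wsum_congr h2, h1]
  have h3 : ∑ o ∈ univ.filter (fun o : Option B × Bool => o.2 = false), w1 B q o = 1 - q := by
    have h4 : (univ.filter (fun o : Option B × Bool => o.2 = false)) =
        (univ : Finset (Option B)) ×ˢ {false} := by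
      ext ⟨o, b⟩
      cases b <;> simp
    rw [h4, Finset.sum_product]
    simp only [Finset.sum_singleton, w1, wB, Bool.false_eq_true, if_false]
    rw [Finset.sum_const, Finset.card_univ, Fintype.card_option, nsmul_eq_mul]
    push_cast
    field_simp
  have h4 : ∀ j : I, ∑ o ∈ (if j ∈ J then univ.filter (fun o => o.2 = false) else univ :
        Finset (Option B × Bool)), w1 B q o = if j ∈ J then 1 - q else 1 := by
    intro j
    split_ifs
    · exact h3
    · exact sum_w1 q
  simp only [h4]
  rw [Finset.prod_ite_mem, Finset.univ_inter, Finset.prod_const]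

end blocks

/-! ### The trees -/

theorem card_P (a t : ℕ) : Fintype.card (P a t) = a ^ (3 * (2 ^ t - 1)) := by
  induction t with
  | zero => simp [P]
  | succ t ih =>
    have h : Fintype.card (P a (t + 1)) =
        Fintype.card (P a t × (Fin (bfan a t) × Fin (a ^ 2))) := rfl
    rw [h, Fintype.card_prod, Fintype.card_prod, Fintype.card_fin, Fintype.card_fin, ih, bfan,
      ← pow_add, ← pow_add]
    congr 1
    have : 1 ≤ 2 ^ t := Nat.one_le_two_pow
    rw [pow_succ]
    omega

theorem bfan_eq (a t : ℕ) : bfan a t = a * Fintype.card (P a t) := by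
  rw [card_P, bfan, pow_succ, mul_comm]

/-- Neutral value of the bottom gates of the tree with `t + 2` levels. -/
def neu (t : ℕ) : Bool := decide (Even (t + 1))

/-- Parent in level `t`, child index and multiplicity index of a node of level `t + 1`. -/
def parts {a t : ℕ} (i : P a (t + 1)) : P a t × (Fin (bfan a t) × Fin (a ^ 2)) := i

/-- The substitution after the restriction. -/
def phi {a t : ℕ} (γ : P a t × Fin (bfan a t) → Fin (a ^ 2))
    (y : P a t × Fin (bfan a t) → Bool) : P a (t + 1) × Fin (bfan a (t + 1)) → Bool := fun l =>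
  if (parts l.1).2.2 = γ ((parts l.1).1, (parts l.1).2.1) then
    y ((parts l.1).1, (parts l.1).2.1) else !(neu t)

theorem gate_value {a t : ℕ} (ω : P a (t + 1) → Option (Fin (bfan a (t + 1))) × Bool)
    (pos : P a (t + 1) → Fin (bfan a (t + 1))) (hpos : ∀ i, (ω i).1 = some (pos i))
    (γ : P a t × Fin (bfan a t) → Fin (a ^ 2))
    (hγ : ∀ i : P a (t + 1), (parts i).2.2 = γ ((parts i).1, (parts i).2.1) → (ω i).2 = true)
    (y : P a t × Fin (bfan a t) → Bool) (i : P a (t + 1)) :
    (if Even (t + 1) then ∀ v, fill (brho (neu t) ω) (phi γ y) (i, v) = true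
      else ∃ v, fill (brho (neu t) ω) (phi γ y) (i, v) = true) ↔
    (if (parts i).2.2 = γ ((parts i).1, (parts i).2.1) then
      y ((parts i).1, (parts i).2.1) else !(neu t)) = true := by
  have h1 : ∀ v, v ≠ pos i → fill (brho (neu t) ω) (phi γ y) (i, v) = neu t := by
    intro v hv
    have : brho (neu t) ω (i, v) = some (neu t) := by
      unfold brho
      simp only
      rw [if_neg]
      rw [hpos i]
      intro h
      exact hv (Option.some.inj h).symm
    simp [fill, this]
  have h2 : fill (brho (neu t) ω) (phi γ y) (i, pos i) =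
      if (parts i).2.2 = γ ((parts i).1, (parts i).2.1) then
        y ((parts i).1, (parts i).2.1) else !(neu t) := by
    by_cases hl : (ω i).2 = true
    · have : brho (neu t) ω (i, pos i) = none := by
        unfold brho
        simp only
        rw [if_pos (hpos i), if_pos hl]
      simp [fill, this, phi]
    · have : brho (neu t) ω (i, pos i) = some (!(neu t)) := by
        unfold brho
        simp only
        rw [if_pos (hpos i), if_neg hl]
      rw [if_neg (fun h => hl (hγ i h))]
      simp [fill, this]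
  by_cases ht : Even (t + 1)
  · have hν : neu t = true := by simp [neu, ht]
    rw [if_pos ht]
    constructor
    · intro h
      rw [← h2]; exact h (pos i)
    · intro h v
      by_cases hv : v = pos i
      · rw [hv, h2]; exact h
      · rw [h1 v hv, hν]
  · have hν : neu t = false := by simp [neu, ht]
    rw [if_neg ht]
    constructor
    · rintro ⟨v, h⟩
      by_cases hv : v = pos i
      · rw [hv, h2] at h; exact h
      · rw [h1 v hv, hν] at h
        exact absurd h (by simp)
    · intro h
      exact ⟨pos i, by rw [h2]; exact h⟩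

theorem tree_value {a t : ℕ} (ω : P a (t + 1) → Option (Fin (bfan a (t + 1))) × Bool)
    (pos : P a (t + 1) → Fin (bfan a (t + 1))) (hpos : ∀ i, (ω i).1 = some (pos i))
    (γ : P a t × Fin (bfan a t) → Fin (a ^ 2))
    (hγ : ∀ i : P a (t + 1), (parts i).2.2 = γ ((parts i).1, (parts i).2.1) → (ω i).2 = true)
    (y : P a t × Fin (bfan a t) → Bool) :
    treeB a (t + 1) (fun l => fill (brho (neu t) ω) (phi γ y) l = true) ↔
      treeB a t fun l => y l = true := by
  have h0 : treeB a (t + 1) (fun l => fill (brho (neu t) ω) (phi γ y) l = true) =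
      treeP a t (fun p => if Even t then ∀ u : Fin (bfan a t) × Fin (a ^ 2),
          (if Even (t + 1) then ∀ v, fill (brho (neu t) ω) (phi γ y) ((p, u), v) = true
            else ∃ v, fill (brho (neu t) ω) (phi γ y) ((p, u), v) = true)
        else ∃ u : Fin (bfan a t) × Fin (a ^ 2),
          (if Even (t + 1) then ∀ v, fill (brho (neu t) ω) (phi γ y) ((p, u), v) = true
            else ∃ v, fill (brho (neu t) ω) (phi γ y) ((p, u), v) = true)) := rfl
  rw [h0]
  unfold treeB
  have h1 : ∀ z z' : P a t → Prop, (∀ p, z p ↔ z' p) → (treeP a t z ↔ treeP a t z') := by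
    intro z z' h
    have : z = z' := funext fun p => propext (h p)
    rw [this]
  apply h1
  intro p
  have h2 : ∀ u : Fin (bfan a t) × Fin (a ^ 2),
      (if Even (t + 1) then ∀ v, fill (brho (neu t) ω) (phi γ y) ((p, u), v) = true
        else ∃ v, fill (brho (neu t) ω) (phi γ y) ((p, u), v) = true) ↔
      (if u.2 = γ (p, u.1) then y (p, u.1) else !(neu t)) = true := fun u =>
    gate_value ω pos hpos γ hγ y (p, u)
  simp only [h2]
  by_cases ht : Even t
  · have hν : neu t = false := by simp [neu, Nat.even_add_one, ht]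
    rw [if_pos ht, if_pos ht, hν]
    constructor
    · intro h u
      have := h (u, γ (p, u))
      simpa using this
    · rintro h ⟨u, c⟩
      simp only
      split_ifs
      · exact h u
      · rfl
  · have hν : neu t = true := by simp [neu, Nat.even_add_one, ht]
    rw [if_neg ht, if_neg ht, hν]
    constructor
    · rintro ⟨⟨u, c⟩, h⟩
      simp only at h
      split_ifs at h with hc
      · exact ⟨u, h⟩
      · exact absurd h (by simp)
    · rintro ⟨u, h⟩
      exact ⟨(u, γ (p, u)), by simpa using h⟩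

/-- Numerical facts for large `a`. -/
theorem large_a (c K : ℕ) : ∃ a₀ : ℕ, 4 ≤ a₀ ∧ ∀ a : ℕ, a₀ ≤ a →
    (4 * K : ℝ) ≤ a ∧ (a : ℝ) ^ c * (1 - 1 / (a : ℝ)) ^ (a ^ 2) ≤ 1 / 4 := by
  have h1 := (Real.tendsto_pow_mul_exp_neg_atTop_nhds_zero c).comp
    tendsto_natCast_atTop_atTop
  have h2 := h1.eventually (gt_mem_nhds (show (0 : ℝ) < 1 / 4 by norm_num))
  obtain ⟨a₁, ha₁⟩ := Filter.eventually_atTop.1 h2
  refine ⟨max a₁ (max 4 (4 * K)), by simp, fun a ha => ?_⟩
  have ha1 : a₁ ≤ a := le_trans (le_max_left _ _) ha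
  have ha4 : 4 ≤ a := le_trans (le_trans (le_max_left _ _) (le_max_right _ _)) ha
  have haK : 4 * K ≤ a := le_trans (le_trans (le_max_right _ _) (le_max_right _ _)) ha
  refine ⟨by exact_mod_cast haK, ?_⟩
  have h3 := (ha₁ a ha1).le
  simp only [Function.comp] at h3
  refine le_trans ?_ h3
  have hapos : (0 : ℝ) < a := by exact_mod_cast (by omega : 0 < a)
  refine mul_le_mul_of_nonneg_left ?_ (by positivity)
  have h4 : (1 - 1 / (a : ℝ)) ≤ Real.exp (-(1 / (a : ℝ))) := Real.one_sub_le_exp_neg _
  have h5 : (0 : ℝ) ≤ 1 - 1 / (a : ℝ) := by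
    rw [sub_nonneg, div_le_one hapos]
    exact_mod_cast (by omega : 1 ≤ a)
  calc (1 - 1 / (a : ℝ)) ^ (a ^ 2) ≤ Real.exp (-(1 / (a : ℝ))) ^ (a ^ 2) :=
        pow_le_pow_left₀ h5 h4 _
    _ = Real.exp (-(a : ℝ)) := by
        rw [← Real.exp_nat_mul]
        congr 1
        push_cast
        field_simp

theorem depth_step (t e D : ℕ) (ih : ∀ D', ∃ a₀ : ℕ, ∀ a, a₀ ≤ a →
      ¬ Lv (DTle D') (a ^ e) (t + 1) false
        (fun z : P a t × Fin (bfan a t) → Bool => treeB a t fun l => z l = true)) :
    ∃ a₀ : ℕ, ∀ a, a₀ ≤ a → ¬ Lv (DTle D) (a ^ e) (t + 2) false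
      (fun z : P a (t + 1) × Fin (bfan a (t + 1)) → Bool =>
        treeB a (t + 1) fun l => z l = true) := by
  obtain ⟨a₁, ha₁⟩ := ih (e * (t + 1))
  obtain ⟨a₂, ha₂4, ha₂⟩ := large_a (3 * (2 ^ t - 1) + (3 * (2 ^ t - 1) + 1))
    ((2 * 3 ^ D) ^ (e * (t + 1) + 1))
  refine ⟨max a₁ a₂, fun a ha hLv => ?_⟩
  have haa₁ : a₁ ≤ a := le_trans (le_max_left _ _) ha
  have haa₂ : a₂ ≤ a := le_trans (le_max_right _ _) ha
  have ha4 : 4 ≤ a := ha₂4.trans haa₂
  obtain ⟨hK, hE⟩ := ha₂ a haa₂
  have hapos : (0 : ℝ) < a := by exact_mod_cast (by omega : 0 < a)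
  have ha4' : (4 : ℝ) ≤ a := by exact_mod_cast ha4
  set q : ℝ := 1 / (a : ℝ) with hq
  have hq0 : 0 < q := by positivity
  have hq1 : q ≤ 1 / 2 := by
    rw [hq, div_le_div_iff₀ hapos (by norm_num)]
    linarith
  have hq1' : q ≤ 1 := by linarith
  set N : ℕ := e * (t + 1) with hN
  -- the three bad events
  have hnn : ∀ ω : P a (t + 1) → Option (Fin (bfan a (t + 1))) × Bool, 0 ≤ bwt q ω :=
    bwt_nonneg hq0.le hq1'
  have b1 := block_levels hq0 hq1 (neu t) N D (a ^ e) (t + 1) false _ hLv
  have b2 := wsum_none (I := P a (t + 1)) (B := Fin (bfan a (t + 1))) hq0.le hq1'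
  have b3 : wsum (bwt q) (fun ω : P a (t + 1) → Option (Fin (bfan a (t + 1))) × Bool =>
      ∃ pu : P a t × Fin (bfan a t), ∀ c : Fin (a ^ 2),
        (ω ((pu.1, (pu.2, c)) : P a t × (Fin (bfan a t) × Fin (a ^ 2)))).2 = false) ≤
      1 / 4 := by
    refine (wsum_exists hnn _).trans ?_
    have h1 : ∀ pu : P a t × Fin (bfan a t),
        wsum (bwt q) (fun ω : P a (t + 1) → Option (Fin (bfan a (t + 1))) × Bool =>
          ∀ c : Fin (a ^ 2),
            (ω ((pu.1, (pu.2, c)) : P a t × (Fin (bfan a t) × Fin (a ^ 2)))).2 = false) =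
        (1 - q) ^ (a ^ 2) := by
      intro pu
      let emb : Fin (a ^ 2) → P a (t + 1) := fun c =>
        ((pu.1, (pu.2, c)) : P a t × (Fin (bfan a t) × Fin (a ^ 2)))
      have hemb : Function.Injective emb := by
        intro c c' h
        have : ((pu.1, (pu.2, c)) : P a t × (Fin (bfan a t) × Fin (a ^ 2))) =
          (pu.1, (pu.2, c')) := h
        simpa using this
      have h2 := wsum_dead (B := Fin (bfan a (t + 1))) (q := q) (univ.image emb)
      rw [Finset.card_image_of_injective _ hemb, Finset.card_univ, Fintype.card_fin] at h2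
      rw [← h2]
      refine wsum_congr fun ω => ?_
      simp [emb]
    simp only [h1]
    rw [Finset.sum_const, Finset.card_univ, Fintype.card_prod, Fintype.card_fin, card_P, bfan,
      ← pow_add, nsmul_eq_mul]
    push_cast
    exact hE
  have b1' : (((a ^ e : ℕ) : ℝ)) ^ (t + 1) * ((3 ^ D) ^ (N + 1) * (2 * q) ^ (N + 1)) ≤ 1 / 4 := by
    have h1 : (((a ^ e : ℕ) : ℝ)) ^ (t + 1) * ((3 ^ D) ^ (N + 1) * (2 * q) ^ (N + 1)) =
        ((2 * 3 ^ D) ^ (N + 1)) / a := by
      rw [hq, hN]
      push_cast
      rw [← pow_mul, mul_div_assoc', mul_one, div_pow, mul_pow, pow_succ (a : ℝ)]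
      field_simp
    rw [h1, div_le_div_iff₀ hapos (by norm_num)]
    push_cast at hK
    linarith
  have b2' : (Fintype.card (P a (t + 1)) : ℝ) *
      ((Fintype.card (Fin (bfan a (t + 1))) : ℝ) + 1)⁻¹ ≤ 1 / 4 := by
    rw [Fintype.card_fin, bfan_eq]
    push_cast
    rw [← div_eq_mul_inv, div_le_div_iff₀ (by positivity) (by norm_num)]
    have : (0 : ℝ) ≤ Fintype.card (P a (t + 1)) := Nat.cast_nonneg _
    nlinarith
  have hlt : wsum (bwt q) (fun ω : P a (t + 1) → Option (Fin (bfan a (t + 1))) × Bool =>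
      ((¬ Lv (DTle N) (a ^ e) (t + 1) false fun z =>
        treeB a (t + 1) fun l => fill (brho (neu t) ω) z l = true) ∨
      (∃ i, (ω i).1 = none)) ∨
      ∃ pu : P a t × Fin (bfan a t), ∀ c : Fin (a ^ 2),
        (ω ((pu.1, (pu.2, c)) : P a t × (Fin (bfan a t) × Fin (a ^ 2)))).2 = false) <
      ∑ ω : P a (t + 1) → Option (Fin (bfan a (t + 1))) × Bool, bwt q ω := by
    rw [sum_bwt]
    have h1 := wsum_or hnn (E := fun ω => (¬ Lv (DTle N) (a ^ e) (t + 1) false fun z =>
        treeB a (t + 1) fun l => fill (brho (neu t) ω) z l = true) ∨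
      (∃ i, (ω i).1 = none)) (E' := fun ω => ∃ pu : P a t × Fin (bfan a t), ∀ c : Fin (a ^ 2),
        (ω ((pu.1, (pu.2, c)) : P a t × (Fin (bfan a t) × Fin (a ^ 2)))).2 = false)
    have h2 := wsum_or hnn (E := fun ω => (¬ Lv (DTle N) (a ^ e) (t + 1) false fun z =>
        treeB a (t + 1) fun l => fill (brho (neu t) ω) z l = true))
      (E' := fun ω => ∃ i, (ω i).1 = none)
    refine lt_of_le_of_lt (h1.trans (add_le_add (h2.trans (add_le_add (b1.trans b1')
      (b2.trans b2'))) b3)) (by norm_num)
  obtain ⟨ω, hω⟩ := exists_not_of_wsum_lt hlt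
  push Not at hω
  obtain ⟨⟨hω1, hω2⟩, hω3⟩ := hω
  have hpos : ∀ i, ∃ v, (ω i).1 = some v := fun i => Option.ne_none_iff_exists'.1 (hω2 i)
  choose pos hpos using hpos
  have hγ : ∀ pu : P a t × Fin (bfan a t), ∃ c : Fin (a ^ 2),
      (ω ((pu.1, (pu.2, c)) : P a t × (Fin (bfan a t) × Fin (a ^ 2)))).2 = true := by
    intro pu
    obtain ⟨c, hc⟩ := hω3 pu
    exact ⟨c, by simpa using hc⟩
  choose γ hγ using hγ
  refine ha₁ a haa₁ ?_
  have h5 := Lv.comp (A' := DTle (X := P a t × Fin (bfan a t)) N) (phi γ) (fun f hf => by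
    refine DTle.subst hf ?_
    intro l
    unfold phi
    split_ifs with hl
    · exact Or.inr ⟨_, true, fun z => Iff.rfl⟩
    · exact Or.inl ⟨_, fun z => rfl⟩) (t + 1) false _ hω1
  have h6 : (fun z : P a t × Fin (bfan a t) → Bool => treeB a (t + 1) fun l =>
      fill (brho (neu t) ω) (phi γ z) l = true) = fun z => treeB a t fun l => z l = true := by
    funext y
    refine propext (tree_value ω pos hpos γ ?_ y)
    rintro ⟨p, u, c⟩ hc
    have hc' : c = γ (p, u) := hc
    subst hc'
    exact hγ (p, u)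
  rw [← h6]
  exact h5

theorem depth_hierarchy (t e D : ℕ) : ∃ a₀ : ℕ, ∀ a, a₀ ≤ a →
    ¬ Lv (DTle D) (a ^ e) (t + 1) false
      (fun z : P a t × Fin (bfan a t) → Bool => treeB a t fun l => z l = true) := by
  induction t generalizing D with
  | zero =>
    refine ⟨D + 1, fun a ha hLv => ?_⟩
    obtain ⟨m, g, -, hg, hfg⟩ := hLv
    have hb : bfan a 0 = a := by simp [bfan]
    have h0 : ∀ z : P a 0 × Fin (bfan a 0) → Bool, (treeB a 0 fun l => z l = true) ↔
        ∀ u, z ((), u) = true := by
      intro z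
      have : (treeB a 0 fun l => z l = true) = if Even 0 then ∀ u, z ((), u) = true
        else ∃ u, z ((), u) = true := rfl
      rw [this, if_pos (by simp)]
    obtain ⟨i, hi⟩ := (hfg fun _ => true).1 ((h0 _).2 fun _ => rfl)
    obtain ⟨T, hT1, hT2⟩ := hg i
    obtain ⟨S, hS1, hS2⟩ := T.exists_path fun _ => true
    -- a variable which is not queried
    have hex : ∃ u : Fin (bfan a 0), (((), u) : P a 0 × Fin (bfan a 0)) ∉ S := by
      by_contra hcon
      push Not at hcon
      have h1 : (univ.image fun u : Fin (bfan a 0) => (((), u) : P a 0 × Fin (bfan a 0))) ⊆ S := by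
        intro x hx
        rw [Finset.mem_image] at hx
        obtain ⟨u, -, rfl⟩ := hx
        exact hcon u
      have h2 := Finset.card_le_card h1
      rw [Finset.card_image_of_injective, Finset.card_univ, Fintype.card_fin] at h2
      · have h3 : S.card ≤ D := hS1.trans hT1
        omega
      · intro u u' h
        have : (((), u) : Unit × Fin (bfan a 0)) = ((), u') := h
        simpa using this
    obtain ⟨u, hu⟩ := hex
    have h1 := hS2 (Function.update (fun _ => true) ((), u) false) (by
      intro x hx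
      rw [Function.update_of_ne]
      rintro rfl
      exact hu hx)
    have h2 : T.eval (Function.update (fun _ => true) ((), u) false) = true := by
      rw [h1]; exact (hT2 _).2 hi
    have h3 := (h0 _).1 ((hfg _).2 ⟨i, (hT2 _).1 h2⟩) u
    simp at h3
  | succ t ih => exact depth_step t e D fun D' => ih D'

end Pool.Agent.W_MP_5f6b2a_lc
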