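import Pool.Agent.W_MP_5f6b2a_lc.UpperLv

/-!
Upper bound for the slices of `p-WSAT(C_{t,d})`.
-/

set_option autoImplicit false
set_option linter.unusedSectionVars false

namespace Pool.Agent.W_MP_5f6b2a_lc

namespace Upper

open ValidAux

/-! ### Monotonicity in the fuel -/

variable {N : ℕ} {C : Circuit N}

theorem wle_mono {l l' j : ℕ} {g : Fin (N + 1)} (hl : l ≤ l') (h : wle C l j g) :
    wle C l' j g := by
  induction l generalizing j g l' with
  | zero =>
    cases l' with
    | zero => exact h
    | succ l' => exact Or.inl h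
  | succ l ih =>
    obtain ⟨l', rfl⟩ := Nat.exists_eq_add_of_le' (by omega : 1 ≤ l')
    rcases h with h | ⟨h1, h2, h3⟩ | ⟨h1, h3⟩
    · exact Or.inl h
    · exact Or.inr (Or.inl ⟨h1, h2, fun h hw => ih (by omega) (h3 h hw)⟩)
    · exact Or.inr (Or.inr ⟨h1, fun h hw => ih (by omega) (h3 h hw)⟩)

theorem wle_weft_mono {l j j' : ℕ} {g : Fin (N + 1)} (hj : j ≤ j') (h : wle C l j g) :
    wle C l j' g := by
  induction l generalizing j j' g with
  | zero => exact h
  | succ l ih =>
    rcases h with h | ⟨h1, h2, h3⟩ | ⟨h1, h3⟩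
    · exact Or.inl h
    · exact Or.inr (Or.inl ⟨h1, by omega, fun h hw => ih (by omega) (h3 h hw)⟩)
    · exact Or.inr (Or.inr ⟨h1, fun h hw => ih hj (h3 h hw)⟩)

theorem evl_input {S : Fin (N + 1) → Prop} {l : ℕ} {g : Fin (N + 1)}
    (hg : C.kind g = Kind.input) : evl C S l g ↔ S g := by
  cases l with
  | zero => simp [evl, hg]
  | succ l => simp [evl, hg]

theorem wle_child {l j : ℕ} {g : Fin (N + 1)} (hg : C.kind g ≠ Kind.input)
    (h : wle C (l + 1) j g) {h' : Fin (N + 1)} (hw : C.wire h' g = true) : wle C l j h' := by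
  rcases h with h | ⟨h1, h2, h3⟩ | ⟨h1, h3⟩
  · exact absurd h hg
  · exact wle_weft_mono (by omega) (h3 h' hw)
  · exact h3 h' hw

theorem evl_mono {S : Fin (N + 1) → Prop} {l l' j : ℕ} {g : Fin (N + 1)} (hl : l ≤ l')
    (h : wle C l j g) : evl C S l' g ↔ evl C S l g := by
  induction l generalizing g l' with
  | zero => rw [evl_input h, evl_input h]
  | succ l ih =>
    by_cases hk : C.kind g = Kind.input
    · rw [evl_input hk, evl_input hk]
    · obtain ⟨l', rfl⟩ := Nat.exists_eq_add_of_le' (by omega : 1 ≤ l')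
      have H2 : ∀ h', C.wire h' g = true → (evl C S l' h' ↔ evl C S l h') := fun h' hw =>
        ih (by omega) (wle_child hk h hw)
      have e1 : (∃ h', C.wire h' g = true ∧ ¬ evl C S l' h') ↔
          (∃ h', C.wire h' g = true ∧ ¬ evl C S l h') :=
        exists_congr fun h' => and_congr_right fun hw => not_congr (H2 h' hw)
      have e2 : (∀ h', C.wire h' g = true → evl C S l' h') ↔
          (∀ h', C.wire h' g = true → evl C S l h') :=
        forall_congr' fun h' => imp_congr_right fun hw => H2 h' hw
      have e3 : (∃ h', C.wire h' g = true ∧ evl C S l' h') ↔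
          (∃ h', C.wire h' g = true ∧ evl C S l h') :=
        exists_congr fun h' => and_congr_right fun hw => H2 h' hw
      simp only [evl]
      rw [e1, e2, e3]

theorem evl_step {S : Fin (N + 1) → Prop} {l d j : ℕ} {g : Fin (N + 1)} (hl : l + 1 ≤ d)
    (h : wle C (l + 1) j g) : evl C S d g ↔ (C.kind g = Kind.input ∧ S g) ∨
      (C.kind g = Kind.neg ∧ ∃ h, C.wire h g = true ∧ ¬ evl C S d h) ∨
      (C.kind g = Kind.conj ∧ ∀ h, C.wire h g = true → evl C S d h) ∨
      (C.kind g = Kind.disj ∧ ∃ h, C.wire h g = true ∧ evl C S d h) := by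
  by_cases hk : C.kind g = Kind.input
  · rw [evl_input hk]
    simp [hk]
  · rw [evl_mono hl h]
    have H2 : ∀ h', C.wire h' g = true → (evl C S l h' ↔ evl C S d h') := fun h' hw =>
      (evl_mono (by omega) (wle_child hk h hw)).symm
    have e1 : (∃ h', C.wire h' g = true ∧ ¬ evl C S l h') ↔
        (∃ h', C.wire h' g = true ∧ ¬ evl C S d h') :=
      exists_congr fun h' => and_congr_right fun hw => not_congr (H2 h' hw)
    have e2 : (∀ h', C.wire h' g = true → evl C S l h') ↔
        (∀ h', C.wire h' g = true → evl C S d h') :=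
      forall_congr' fun h' => imp_congr_right fun hw => H2 h' hw
    have e3 : (∃ h', C.wire h' g = true ∧ evl C S l h') ↔
        (∃ h', C.wire h' g = true ∧ evl C S d h') :=
      exists_congr fun h' => and_congr_right fun hw => H2 h' hw
    simp only [evl]
    rw [e1, e2, e3]

/-! ### The output node -/

open Classical in
theorem wle_of_suffix {t d : ℕ} (hC : C.InClass t d) : ∀ (l : ℕ) (g : Fin (N + 1))
    (q : List (Fin (N + 1))), (g :: q).IsChain (fun h g => C.wire h g = true) →
    (g :: q).getLast? = some (Fin.last N) → (g :: q).length + l = d + 1 →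
    wle C l (t - (q.filter fun g => decide (C.Large g)).length) g := by
  intro l
  induction l with
  | zero =>
    intro g q hch hlast hlen
    by_contra hk
    simp only [wle] at hk
    obtain ⟨h, hw⟩ := children_exists hC.1 hk
    obtain ⟨p, hp, a, ha, hka⟩ := exists_chain C hC.1 h
    have hpath : C.IsPath (p ++ h :: g :: q) := by
      refine ⟨?_, ⟨a, ?_, hka⟩, ?_⟩
      · have := hp.append_overlap (l₃ := g :: q) (by simpa using ⟨hw, hch⟩) (by simp)
        simpa using this
      · cases p with
        | nil => simpa using ha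
        | cons b p => simpa using ha
      · rw [List.getLast?_append]
        simp only [List.getLast?_cons_cons]
        rw [hlast]
        simp
    have := (hC.2 _ hpath).1
    simp only [List.length_append, List.length_cons] at this hlen
    omega
  | succ l ih =>
    intro g q hch hlast hlen
    by_cases hk : C.kind g = Kind.input
    · exact Or.inl hk
    · have hchild : ∀ h, C.wire h g = true →
          wle C l (t - ((g :: q).filter fun g => decide (C.Large g)).length) h := by
        intro h hw
        refine ih h (g :: q) ?_ ?_ ?_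
        · simpa using ⟨hw, hch⟩
        · simpa using hlast
        · simp only [List.length_cons] at hlen ⊢
          omega
      by_cases hL : C.Large g
      · refine Or.inr (Or.inl ⟨hL, ?_, ?_⟩)
        · obtain ⟨p, hp, a, ha, hka⟩ := exists_chain C hC.1 g
          have hpath : C.IsPath (p ++ g :: q) := by
            refine ⟨?_, ⟨a, ?_, hka⟩, ?_⟩
            · have := hp.append_overlap (l₃ := q) (by simpa using hch) (by simp)
              simpa using this
            · cases p with
              | nil => simpa using ha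
              | cons b p => simpa using ha
            · rw [List.getLast?_append, hlast]
              simp
          have := (hC.2 _ hpath).2
          rw [List.filter_append, List.filter_cons_of_pos (by simpa using hL)] at this
          simp only [List.length_append, List.length_cons] at this
          omega
        · intro h hw
          have := hchild h hw
          rw [List.filter_cons_of_pos (by simpa using hL)] at this
          simp only [List.length_cons] at this
          rw [Nat.sub_sub]
          exact this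
      · refine Or.inr (Or.inr ⟨hL, ?_⟩)
        intro h hw
        have := hchild h hw
        rw [List.filter_cons_of_neg (by simpa using hL)] at this
        exact this

theorem wle_last {t d : ℕ} (hC : C.InClass t d) : wle C d t (Fin.last N) := by
  classical
  have := wle_of_suffix hC d (Fin.last N) [] (by simp) (by simp) (by simp; omega)
  simpa using this

theorem slice_iff (t d N : ℕ) (x : Str N) (k : ℕ) :
    pWSAT t d ((N + 1) * (N + 3)) x k ↔ ∃ s : Fin k → Fin (N + 1), Function.Injective s ∧
      (decode N x).InClass t d ∧ (∀ i, (decode N x).kind (s i) = Kind.input) ∧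
      evl (decode N x) (fun i => ∃ j, s j = i) d (Fin.last N) := by
  classical
  rw [pWSAT_iff]
  constructor
  · rintro ⟨hC, v, hv, hlast, hw⟩
    unfold Circuit.weight at hw
    let e := Finset.equivFinOfCardEq hw
    have hmem : ∀ i : Fin k, (decode N x).kind (e.symm i).1 = Kind.input ∧ v (e.symm i).1 = true :=
      fun i => by
        have := (e.symm i).2
        rw [Finset.mem_filter] at this
        exact this.2
    refine ⟨fun i => (e.symm i).1, ?_, hC, fun i => (hmem i).1, ?_⟩
    · intro i j hij
      exact e.symm.injective (Subtype.ext hij)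
    · rw [evl_valuation hv ?_ (wle_last hC)]
      · exact hlast
      · intro g hg
        constructor
        · rintro ⟨j, rfl⟩
          exact (hmem j).2
        · intro hvg
          exact ⟨e ⟨g, by simp [hg, hvg]⟩, by simp⟩
  · rintro ⟨s, hs, hC, hin, hev⟩
    obtain ⟨v, hv, hv'⟩ := Source.exists_valuation (decode N x) hC.1.1 fun i => decide (∃ j, s j = i)
    have hS : ∀ g, (decode N x).kind g = Kind.input → ((∃ j, s j = g) ↔ v g = true) := by
      intro g hg
      rw [hv' g hg]
      simp
    refine ⟨hC, v, hv, (evl_valuation hv hS (wle_last hC)).1 hev, ?_⟩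
    unfold Circuit.weight
    have : (Finset.univ.filter fun g => (decode N x).kind g = Kind.input ∧ v g = true) =
        Finset.univ.image s := by
      ext g
      simp only [Finset.mem_filter, Finset.mem_univ, true_and, Finset.mem_image]
      constructor
      · rintro ⟨h1, h2⟩
        exact (hS g h1).2 h2
      · rintro ⟨j, rfl⟩
        exact ⟨hin j, (hS _ (hin j)).1 ⟨j, rfl⟩⟩
    rw [this, Finset.card_image_of_injective _ hs]
    simp

/-! ### The atoms -/

abbrev Idx2 (N : ℕ) (ι : Type) : Type :=
  (ι × Fin (N + 1)) ⊕ (Unit ⊕ (((Bool × Bool) × Fin (N + 1)) ⊕ (Fin (N + 1) ⊕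
    ((Bool × Fin (N + 1) × Fin (N + 1)) ⊕ ((Fin (N + 1) × Fin (N + 1)) ⊕ Fin (N + 1))))))

def atoms2 (t d N : ℕ) {ι : Type} (A : ι → Fin (N + 1) × Str N → Prop) :
    Idx2 N ι → Str N → Prop
  | Sum.inl p, x => A p.1 (p.2, x)
  | Sum.inr (Sum.inl _), x => (decode N x).InClass t d
  | Sum.inr (Sum.inr (Sum.inl p)), x => (decode N x).kind p.2 = kindOf p.1.1 p.1.2
  | Sum.inr (Sum.inr (Sum.inr (Sum.inl g))), x => (decode N x).Large g
  | Sum.inr (Sum.inr (Sum.inr (Sum.inr (Sum.inl p)))), x => IsCh (decode N x) p.1 p.2.1 p.2.2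
  | Sum.inr (Sum.inr (Sum.inr (Sum.inr (Sum.inr (Sum.inl p))))), x =>
      (decode N x).wire p.1 p.2 = true
  | Sum.inr (Sum.inr (Sum.inr (Sum.inr (Sum.inr (Sum.inr g))))), x =>
      ∃ h, (decode N x).wire h g = true

theorem card_idx2 (N c : ℕ) (ι : Type) [Fintype ι] (h : Fintype.card ι ≤ (N + 2) ^ c) :
    Fintype.card (Idx2 N ι) ≤ (N + 2) ^ (c + 8) := by
  simp only [Fintype.card_sum, Fintype.card_prod, Fintype.card_fin, Fintype.card_bool,
    Fintype.card_unit]
  have hpos : 1 ≤ (N + 2) ^ c := Nat.one_le_pow _ _ (by omega)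
  set a := (N + 2) ^ c with ha
  have e : (N + 2) ^ (c + 8) = a * (N + 2) ^ 8 := by rw [pow_add]
  rw [e]
  have h1 : Fintype.card ι * (N + 1) + (1 + (2 * 2 * (N + 1) + (N + 1 +
      (2 * ((N + 1) * (N + 1)) + ((N + 1) * (N + 1) + (N + 1)))))) ≤
      a * ((N + 1) + (1 + (2 * 2 * (N + 1) + (N + 1 +
      (2 * ((N + 1) * (N + 1)) + ((N + 1) * (N + 1) + (N + 1))))))) := by
    have h2 : Fintype.card ι * (N + 1) ≤ a * (N + 1) := Nat.mul_le_mul_right _ h
    generalize (1 + (2 * 2 * (N + 1) + (N + 1 +
      (2 * ((N + 1) * (N + 1)) + ((N + 1) * (N + 1) + (N + 1)))))) = w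
    calc Fintype.card ι * (N + 1) + w ≤ a * (N + 1) + a * w :=
          Nat.add_le_add h2 (Nat.le_mul_of_pos_left _ hpos)
      _ = a * (N + 1 + w) := by ring
  refine h1.trans (Nat.mul_le_mul_left _ ?_)
  have h3 : (N + 2) ^ 8 = (N + 2) ^ 2 * (N + 2) ^ 6 := by ring
  have h4 : 2 ^ 6 ≤ (N + 2) ^ 6 := Nat.pow_le_pow_left (by omega) 6
  rw [h3]
  calc (N + 1) + (1 + (2 * 2 * (N + 1) + (N + 1 +
      (2 * ((N + 1) * (N + 1)) + ((N + 1) * (N + 1) + (N + 1)))))) ≤ (N + 2) ^ 2 * 2 ^ 6 := by
        nlinarith [Nat.zero_le N, sq_nonneg N]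
    _ ≤ _ := Nat.mul_le_mul_left _ h4

theorem atoms2_AC (t d N c c' : ℕ) {ι : Type} (A : ι → Fin (N + 1) × Str N → Prop)
    (hA : ∀ i g, AC ((N + 2) ^ c) c fun x => A i (g, x))
    (hc' : AC ((N + 2) ^ c') c' fun x : Str N => (decode N x).InClass t d) (i : Idx2 N ι) :
    AC ((N + 2) ^ (c + c' + 20)) (c + c' + 20) (atoms2 t d N A i) := by
  set s := (N + 2) ^ (c + c' + 20) with hsdef
  have hpw : ∀ m ≤ c + c' + 20, (N + 2) ^ m ≤ s := fun m hm =>
    Nat.pow_le_pow_right (by omega) hm
  have hs : 2 ≤ s := le_trans (by rw [pow_one]; omega : 2 ≤ (N + 2) ^ 1) (hpw 1 (by omega))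
  have hN : N + 1 ≤ s := le_trans (by rw [pow_one]; omega : N + 1 ≤ (N + 2) ^ 1)
    (hpw 1 (by omega))
  have hs3 : (N + 1) ^ 3 ≤ s := le_trans (Nat.pow_le_pow_left (by omega : N + 1 ≤ N + 2) 3)
    (hpw 3 (by omega))
  have h1s : 1 ≤ s := by omega
  rcases i with p | u | p | g | p | p | g
  · exact AC.mono h1s (hpw c (by omega)) (by omega) (hA p.1 p.2)
  · exact AC.mono h1s (hpw c' (by omega)) (by omega) hc'
  · exact AC.mono_depth h1s (by omega) (kind_AC hs p.2 _)
  · exact AC.mono_depth h1s (by omega) (large_AC hs hs3 g)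
  · exact AC.mono_depth h1s (by omega) (isCh_AC hs hN _ _ _)
  · exact AC.mono_depth h1s (by omega) (wire_AC _ _)
  · have : AC s 1 (fun x : Str N => ∃ h, (decode N x).wire h g = true) :=
      AC.exists_fintype (by simpa using hN) fun h => wire_AC h g
    exact AC.mono_depth h1s (by omega) this

theorem exists_surj (ι : Type) [Fintype ι] [Nonempty ι] {m : ℕ} (h : Fintype.card ι ≤ m) :
    ∃ f : Fin m → ι, Function.Surjective f := by
  classical
  obtain ⟨i₀⟩ := ‹Nonempty ι›
  refine ⟨fun j => if hj : j.1 < Fintype.card ι then (Fintype.equivFin ι).symm ⟨j.1, hj⟩ else i₀,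
    fun i => ⟨⟨(Fintype.equivFin ι i).1, lt_of_lt_of_le (Fintype.equivFin ι i).2 h⟩, ?_⟩⟩
  simp

/-! ### Both-sided families -/

section Both

variable {ι : ℕ → Type} [hne : ∀ N, Nonempty (ι N)] (𝔸 : ∀ N, ι N → Str N → Prop)

def Both (j : ℕ) {α : ℕ → Type} (F : ∀ N, α N → Str N → Prop) : Prop :=
  ∀ b, PL 𝔸 j b F

variable {𝔸} {j : ℕ} {α : ℕ → Type} {F G : ∀ N, α N → Str N → Prop}

theorem Both.congr (h : Both 𝔸 j F) (hFG : ∀ N p x, F N p x ↔ G N p x) : Both 𝔸 j G :=
  fun b => (h b).congr hFG

theorem Both.not (h : Both 𝔸 j F) : Both 𝔸 j fun N p x => ¬ F N p x := by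
  intro b
  simpa using (h (!b)).not

theorem Both.and (hF : Both 𝔸 j F) (hG : Both 𝔸 j G) :
    Both 𝔸 j fun N p x => F N p x ∧ G N p x := fun b => (hF b).and (hG b)

theorem Both.or (hF : Both 𝔸 j F) (hG : Both 𝔸 j G) :
    Both 𝔸 j fun N p x => F N p x ∨ G N p x := fun b => (hF b).or (hG b)

theorem Both.of_junta (D : ℕ) (h : ∀ N p, Junta (𝔸 N) D (F N p)) : Both 𝔸 j F :=
  fun _ => PL.of_junta D h

theorem Both.of_atom (a : ∀ N, α N → ι N) (h : ∀ N p x, F N p x ↔ 𝔸 N (a N p) x) :
    Both 𝔸 j F := Both.of_junta 1 fun N p => (Junta.atom (a N p)).congr fun x => (h N p x).symm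

theorem Both.of_const (a : ∀ N, α N → Prop) (h : ∀ N p x, F N p x ↔ a N p) :
    Both 𝔸 j F := Both.of_junta 0 fun N p => (Junta.const (a N p)).congr fun x => (h N p x).symm

theorem Both.pull {α' : ℕ → Type} (φ : ∀ N, α' N → α N) (h : Both 𝔸 j F) :
    Both 𝔸 j fun N p => F N (φ N p) := fun b => (h b).pull φ

theorem Both.of_PL (b : Bool) (h : PL 𝔸 j b F) : Both 𝔸 (j + 1) F := by
  intro b'
  by_cases hb : b' = b
  · subst hb
    exact h.lift
  · have : b' = !b := by cases b <;> cases b' <;> simp_all
    subst this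
    exact h.lift'

/-- Following a pointer. -/
theorem Both.ptr (c : Bool) {F : ∀ N, α N × Fin (N + 1) → Str N → Prop}
    (p : ∀ N, α N → Fin (N + 1))
    (chA : ∀ N, Bool × Fin (N + 1) × Fin (N + 1) → ι N)
    (hch : ∀ N q x, IsCh (decode N x) q.1 q.2.1 q.2.2 ↔ 𝔸 N (chA N q) x)
    (wA : ∀ N, Fin (N + 1) → ι N)
    (hw : ∀ N q x, (∃ h, (decode N x).wire h q = true) ↔ 𝔸 N (wA N q) x)
    (h : Both 𝔸 (j + 1) F) :
    Both 𝔸 (j + 1) fun N a x => ∃ h, IsCh (decode N x) c h (p N a) ∧ F N (a, h) x := by
  have hcard : ∀ N, Fintype.card (Fin (N + 1)) ≤ (N + 2) ^ 1 := fun N => by simp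
  have hc : Both 𝔸 (j + 1) (α := fun N => α N × Fin (N + 1))
      fun N q x => IsCh (decode N x) c q.2 (p N q.1) :=
    Both.of_atom (fun N q => chA N (c, q.2, p N q.1)) fun N q x => hch N (c, q.2, p N q.1) x
  intro b
  cases b
  · exact PL.ex 1 hcard ((hc false).and (h false))
  · have h1 : PL 𝔸 (j + 1) true (α := fun N => α N × Fin (N + 1))
        fun N q x => ¬ IsCh (decode N x) c q.2 (p N q.1) ∨ F N q x := (hc.not true).or (h true)
    have h2 := PL.all (β := fun N => Fin (N + 1)) 1 hcard h1
    have h3 : PL 𝔸 (j + 1) true (α := α) fun N a x => ∃ h, (decode N x).wire h (p N a) = true :=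
      (Both.of_atom (fun N a => wA N (p N a)) fun N a x => hw N (p N a) x) true
    refine (h3.and h2).congr fun N a x => ?_
    constructor
    · rintro ⟨hex, hall⟩
      obtain ⟨h, hh⟩ := isCh_exists c hex
      exact ⟨h, hh, (hall h).resolve_left (not_not.2 hh)⟩
    · rintro ⟨h, hh, hF⟩
      refine ⟨⟨h, hh.1⟩, fun h' => ?_⟩
      by_cases hh' : IsCh (decode N x) c h' (p N a)
      · rw [isCh_unique hh' hh]
        exact Or.inr hF
      · exact Or.inl hh'

end Both

/-! ### The main induction -/

section Main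

variable {t d k : ℕ} {ι : ℕ → Type} [hne : ∀ N, Nonempty (ι N)]
  (A : ∀ N, ι N → Fin (N + 1) × Str N → Prop)

theorem main_induction (Dk : ℕ)
    (HJ : ∀ N (s : Fin k → Fin (N + 1)), ∃ f, Junta (A N) Dk f ∧
        ∀ g x, (decode N x).Correct → wle (decode N x) d 1 g →
          (evl (decode N x) (fun i => ∃ j, s j = i) d g ↔ f (g, x))) (j : ℕ) :
    ∀ l, l ≤ d → ∃ F : ∀ N, (Fin k → Fin (N + 1)) × Fin (N + 1) → Str N → Prop,
      Both (fun N => atoms2 t d N (A N)) (j + 1) F ∧
      ∀ N g s x, (decode N x).Correct → wle (decode N x) l (j + 1) g →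
        (evl (decode N x) (fun i => ∃ j, s j = i) d g ↔ F N (s, g) x) := by
  induction j with
  | zero =>
    intro l hl
    choose f hfJ hf using HJ
    refine ⟨fun N p x => f N p.1 (p.2, x), ?_, ?_⟩
    · refine Both.of_junta Dk fun N p => ?_
      exact Junta.map (A' := atoms2 t d N (A N)) (fun i => Sum.inl (i, p.2))
        (fun x => (p.2, x)) (fun i x => Iff.rfl) (hfJ N p.1)
    · intro N g s x hC hg
      exact hf N s g x hC (wle_mono hl hg)
  | succ j ih =>
    intro l
    induction l with
    | zero =>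
      intro _
      refine ⟨fun N p x => ∃ i, p.1 i = p.2, Both.of_const (fun N p => ∃ i, p.1 i = p.2)
        fun _ _ _ => Iff.rfl, ?_⟩
      intro N g s x hC hg
      exact evl_input hg
    | succ l ihl =>
      intro hl
      obtain ⟨V, hV, hV'⟩ := ihl (by omega)
      obtain ⟨V₀, hV₀, hV₀'⟩ := ih l (by omega)
      -- notation for the atoms
      let 𝔸 : ∀ N, Idx2 N (ι N) → Str N → Prop := fun N => atoms2 t d N (A N)
      have hkd : ∀ b1 b2, Both 𝔸 (j + 1 + 1) (α := fun N => (Fin k → Fin (N + 1)) × Fin (N + 1))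
          fun N p x => (decode N x).kind p.2 = kindOf b1 b2 := fun b1 b2 =>
        Both.of_atom (fun N p => Sum.inr (Sum.inr (Sum.inl ((b1, b2), p.2)))) fun _ _ _ => Iff.rfl
      have hlg : Both 𝔸 (j + 1 + 1) (α := fun N => (Fin k → Fin (N + 1)) × Fin (N + 1))
          fun N p x => (decode N x).Large p.2 :=
        Both.of_atom (fun N p => Sum.inr (Sum.inr (Sum.inr (Sum.inl p.2)))) fun _ _ _ => Iff.rfl
      have hptr : ∀ c, Both 𝔸 (j + 1 + 1) (α := fun N => (Fin k → Fin (N + 1)) × Fin (N + 1))
          fun N p x => ∃ h, IsCh (decode N x) c h p.2 ∧ V N (p.1, h) x := by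
        intro c
        exact Both.ptr (𝔸 := 𝔸) (α := fun N => (Fin k → Fin (N + 1)) × Fin (N + 1)) c
          (F := fun N q x => V N (q.1.1, q.2) x) (fun N p => p.2)
          (fun N q => Sum.inr (Sum.inr (Sum.inr (Sum.inr (Sum.inl q)))))
          (fun _ _ _ => Iff.rfl)
          (fun N q => Sum.inr (Sum.inr (Sum.inr (Sum.inr (Sum.inr (Sum.inr q))))))
          (fun _ _ _ => Iff.rfl)
          (hV.pull (α' := fun N => ((Fin k → Fin (N + 1)) × Fin (N + 1)) × Fin (N + 1))
            fun N q => (q.1.1, q.2))
      have hcard : ∀ N, Fintype.card (Fin (N + 1)) ≤ (N + 2) ^ 1 := fun N => by simp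
      have hwr : Both 𝔸 (j + 1) (α := fun N => ((Fin k → Fin (N + 1)) × Fin (N + 1)) × Fin (N + 1))
          fun N q x => (decode N x).wire q.2 q.1.2 = true :=
        Both.of_atom (fun N q => Sum.inr (Sum.inr (Sum.inr (Sum.inr (Sum.inr (Sum.inl
          (q.2, q.1.2))))))) fun _ _ _ => Iff.rfl
      have hV₀p : Both 𝔸 (j + 1)
          (α := fun N => ((Fin k → Fin (N + 1)) × Fin (N + 1)) × Fin (N + 1))
          fun N q x => V₀ N (q.1.1, q.2) x :=
        hV₀.pull (α' := fun N => ((Fin k → Fin (N + 1)) × Fin (N + 1)) × Fin (N + 1))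
          fun N q => (q.1.1, q.2)
      have hall : Both 𝔸 (j + 1 + 1) (α := fun N => (Fin k → Fin (N + 1)) × Fin (N + 1))
          fun N p x => ∀ h, ¬ (decode N x).wire h p.2 = true ∨ V₀ N (p.1, h) x :=
        Both.of_PL true (PL.all (β := fun N => Fin (N + 1)) 1 hcard ((hwr.not.or hV₀p) true))
      have hex : Both 𝔸 (j + 1 + 1) (α := fun N => (Fin k → Fin (N + 1)) × Fin (N + 1))
          fun N p x => ∃ h, (decode N x).wire h p.2 = true ∧ V₀ N (p.1, h) x :=
        Both.of_PL false (PL.ex (β := fun N => Fin (N + 1)) 1 hcard ((hwr.and hV₀p) false))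
      have hconst : Both 𝔸 (j + 1 + 1) (α := fun N => (Fin k → Fin (N + 1)) × Fin (N + 1))
          fun N p x => ∃ i, p.1 i = p.2 :=
        Both.of_const (fun N p => ∃ i, p.1 i = p.2) fun _ _ _ => Iff.rfl
      refine ⟨_, Both.or ((hkd true true).and hconst) (Both.or
        ((hkd true false).and (hptr false).not) (Both.or
        (hlg.not.and ((hkd false true).and ((hptr false).and (hptr true)))) (Both.or
        (hlg.not.and ((hkd false false).and ((hptr false).or (hptr true)))) (Both.or
        (hlg.and ((hkd false true).and hall)) (hlg.and ((hkd false false).and hex)))))), ?_⟩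
      intro N g s x hC hg
      simp only [kindOf]
      rw [evl_step hl hg]
      by_cases hk : (decode N x).kind g = Kind.input
      · simp only [hk, true_and, reduceCtorEq, false_and, or_false, and_false]
      · rcases hg with h1 | ⟨hL, _, h1⟩ | ⟨hL, h1⟩
        · exact absurd h1 hk
        · -- large gate
          have e : ∀ h, (decode N x).wire h g = true →
              (evl (decode N x) (fun i => ∃ j, s j = i) d h ↔ V₀ N (s, h) x) := fun h hw =>
            hV₀' N h s x hC (h1 h hw)
          rcases hL.1 with hkc | hkc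
          · simp only [hkc, true_and, reduceCtorEq, false_and, or_false, and_false,
              false_or, hL, not_true]
            refine forall_congr' fun h => ?_
            by_cases hw : (decode N x).wire h g = true
            · simp [hw, e h hw]
            · simp [hw]
          · simp only [hkc, true_and, reduceCtorEq, false_and, and_false,
              false_or, hL, not_true]
            exact exists_congr fun h => and_congr_right fun hw => e h hw
        · -- small gate
          have hch := children_exists hC hk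
          obtain ⟨h₀, H₀⟩ := isCh_exists false hch
          obtain ⟨h₁, H₁⟩ := isCh_exists true hch
          have e0 := hV' N h₀ s x hC (h1 h₀ H₀.1)
          have e1 := hV' N h₁ s x hC (h1 h₁ H₁.1)
          have p0 : (∃ h, IsCh (decode N x) false h g ∧ V N (s, h) x) ↔ V N (s, h₀) x := by
            constructor
            · rintro ⟨h, hh, hv⟩
              rwa [← isCh_unique hh H₀]
            · intro hv
              exact ⟨h₀, H₀, hv⟩
          have p1 : (∃ h, IsCh (decode N x) true h g ∧ V N (s, h) x) ↔ V N (s, h₁) x := by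
            constructor
            · rintro ⟨h, hh, hv⟩
              rwa [← isCh_unique hh H₁]
            · intro hv
              exact ⟨h₁, H₁, hv⟩
          rw [p0, p1, ← e0, ← e1]
          have two := small_two hC hL H₀ H₁
          cases hkg : (decode N x).kind g with
          | input => exact absurd hkg hk
          | neg =>
            have hone := (fanIn_eq_one_iff _ g).1 (hC.2.2.1 g hkg)
            simp only [true_and, reduceCtorEq, false_and, or_false, and_false,
              false_or]
            constructor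
            · rintro ⟨h, hw, hn⟩
              have := hone.2 (h, h₀) hw H₀.1
              simp only at this
              rwa [← this]
            · intro hn
              exact ⟨h₀, H₀.1, hn⟩
          | conj =>
            simp only [true_and, reduceCtorEq, false_and, or_false, and_false,
              false_or, hL, not_false_eq_true]
            constructor
            · intro h
              exact ⟨h h₀ H₀.1, h h₁ H₁.1⟩
            · rintro ⟨a0, a1⟩ h hw
              rcases two h hw with rfl | rfl
              · exact a0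
              · exact a1
          | disj =>
            simp only [true_and, reduceCtorEq, false_and, or_false, and_false,
              false_or, hL, not_false_eq_true]
            constructor
            · rintro ⟨h, hw, ha⟩
              rcases two h hw with rfl | rfl
              · exact Or.inl ha
              · exact Or.inr ha
            · rintro (a0 | a1)
              · exact ⟨h₀, H₀.1, a0⟩
              · exact ⟨h₁, H₁.1, a1⟩

end Main

end Upper

open Upper ValidAux in
/-- The slices of `p-WSAT(C_{t,d})` are given by levelled formulas with `t` levels, top gate OR,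
over juntas of AC functions whose size and depth do not depend on the parameter. -/
theorem upper_bound (t d : ℕ) (ht : 1 ≤ t) : ∃ c₁ : ℕ, ∀ k : ℕ, ∃ e D : ℕ, ∀ N : ℕ,
    ∃ A : Fin ((N + 2) ^ c₁) → (Fin ((N + 1) * (N + 3)) → Bool) → Prop,
      (∀ i, AC ((N + 2) ^ c₁) c₁ (A i)) ∧
      Lv (Junta A D) ((N + 2) ^ e) t false (fun x => pWSAT t d ((N + 1) * (N + 3)) x k) := by
  classical
  obtain ⟨c, Df, H⟩ := UB d
  choose ι hι hne A hcard hAC HJ using H
  obtain ⟨c', hc'⟩ := inClass_AC t d
  refine ⟨c + c' + 20, fun k => ?_⟩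
  obtain ⟨j, rfl⟩ := Nat.exists_eq_add_of_le' ht
  obtain ⟨F, hF, hF'⟩ := main_induction (t := j + 1) (d := d) (k := k) A (Df k)
    (fun N s => HJ N k s) j d le_rfl
  let 𝔸 : ∀ N, Idx2 N (ι N) → Str N → Prop := fun N => atoms2 (j + 1) d N (A N)
  -- the slice
  have hslice : PL 𝔸 (j + 1) false (α := fun _ => Unit) fun N _ x =>
      ∃ s : Fin k → Fin (N + 1), Function.Injective s ∧
        (decode N x).InClass (j + 1) d ∧ (∀ i, (decode N x).kind (s i) = Kind.input) ∧
        F N (s, Fin.last N) x := by
    have h1 : Both 𝔸 (j + 1) (α := fun N => Unit × (Fin k → Fin (N + 1)))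
        fun N q x => Function.Injective q.2 :=
      Both.of_const (fun N q => Function.Injective q.2) fun _ _ _ => Iff.rfl
    have h2 : Both 𝔸 (j + 1) (α := fun N => Unit × (Fin k → Fin (N + 1)))
        fun N q x => (decode N x).InClass (j + 1) d :=
      Both.of_atom (fun N q => Sum.inr (Sum.inl ())) fun _ _ _ => Iff.rfl
    have h3 : Both 𝔸 (j + 1) (α := fun N => Unit × (Fin k → Fin (N + 1)))
        fun N q x => ∀ i, (decode N x).kind (q.2 i) = Kind.input :=
      Both.of_junta (Fintype.card (Fin k) * 1) fun N q =>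
        Junta.forall_fintype fun i =>
          (Junta.atom (A := 𝔸 N) (Sum.inr (Sum.inr (Sum.inl ((true, true), q.2 i))))).congr
            fun x => Iff.rfl
    have h4 : Both 𝔸 (j + 1) (α := fun N => Unit × (Fin k → Fin (N + 1)))
        fun N q x => F N (q.2, Fin.last N) x :=
      hF.pull (α' := fun N => Unit × (Fin k → Fin (N + 1))) fun N q => (q.2, Fin.last N)
    have := (h1.and (h2.and (h3.and h4))) false
    refine PL.ex (β := fun N => Fin k → Fin (N + 1)) k (fun N => ?_) this
    simp only [Fintype.card_fun, Fintype.card_fin]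
    exact Nat.pow_le_pow_left (by omega) _
  obtain ⟨e, D, hPL⟩ := hslice
  refine ⟨e, D, fun N => ?_⟩
  have hcardI : Fintype.card (Idx2 N (ι N)) ≤ (N + 2) ^ (c + c' + 20) :=
    (card_idx2 N c (ι N) (hcard N)).trans (Nat.pow_le_pow_right (by omega) (by omega))
  obtain ⟨φ, hφ⟩ := exists_surj (Idx2 N (ι N)) hcardI
  choose ψ hψ using hφ
  refine ⟨fun i => 𝔸 N (φ i), fun i => ?_, ?_⟩
  · exact atoms2_AC (j + 1) d N c c' (A N) (hAC N) (hc' N) (φ i)
  · have h1 := hPL N ()
    have h2 : Lv (Junta (fun i => 𝔸 N (φ i)) D) ((N + 2) ^ e) (j + 1) false _ :=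
      Lv.mono (fun f hf => Junta.map (A' := fun i => 𝔸 N (φ i)) ψ id
        (fun i z => by simp only [hψ, id]) hf) le_rfl h1
    refine h2.congr fun x => ?_
    rw [slice_iff]
    refine exists_congr fun s => and_congr_right fun _ => and_congr_right fun hC =>
      and_congr_right fun _ => ?_
    exact (hF' N (Fin.last N) s x hC.1 (wle_last hC)).symm

end Pool.Agent.W_MP_5f6b2a_lc
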