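import Pool.Agent.W_MP_5f6b2a_lc.Basic

/-!
Closure properties of the classes `AC s d`.
-/

namespace Pool.Agent.W_MP_5f6b2a_lc

namespace AC

variable {X : Type} {s s' d d' : ℕ} {f g : (X → Bool) → Prop}

theorem congr (h : AC s d f) (hfg : ∀ z, f z ↔ g z) : AC s d g := by
  have : f = g := funext fun z => propext (hfg z)
  exact this ▸ h

theorem mono_size (hs : s ≤ s') (h : AC s d f) : AC s' d f := by
  induction h with
  | lit x b => exact AC.lit x b
  | all m hm g _ ih => exact AC.all m (hm.trans hs) g ih
  | ex m hm g _ ih => exact AC.ex m (hm.trans hs) g ih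

theorem succ (hs : 1 ≤ s) (h : AC s d f) : AC s (d + 1) f :=
  (AC.all 1 hs (fun _ => f) (fun _ => h)).congr fun z => by simp

theorem mono_depth (hs : 1 ≤ s) (hd : d ≤ d') (h : AC s d f) : AC s d' f := by
  induction hd with
  | refl => exact h
  | step _ ih => exact succ hs ih

theorem mono (hs1 : 1 ≤ s') (hs : s ≤ s') (hd : d ≤ d') (h : AC s d f) : AC s' d' f :=
  mono_depth hs1 hd (mono_size hs h)

theorem not (h : AC s d f) : AC s d fun z => ¬ f z := by
  induction h with
  | lit x b => exact (AC.lit x (!b)).congr fun z => by cases b <;> cases h : z x <;> simp [h]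
  | all m hm g _ ih => exact (AC.ex m hm _ ih).congr fun z => by simp
  | ex m hm g _ ih => exact (AC.all m hm _ ih).congr fun z => by simp

theorem forall_fintype {ι : Type*} [Fintype ι] {g : ι → (X → Bool) → Prop}
    (hc : Fintype.card ι ≤ s) (hg : ∀ i, AC s d (g i)) : AC s (d + 1) fun z => ∀ i, g i z := by
  let e := Fintype.equivFin ι
  refine (AC.all _ hc (fun j => g (e.symm j)) fun j => hg _).congr fun z => ?_
  exact ⟨fun h i => by simpa using h (e i), fun h j => h _⟩

theorem exists_fintype {ι : Type*} [Fintype ι] {g : ι → (X → Bool) → Prop}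
    (hc : Fintype.card ι ≤ s) (hg : ∀ i, AC s d (g i)) : AC s (d + 1) fun z => ∃ i, g i z := by
  let e := Fintype.equivFin ι
  refine (AC.ex _ hc (fun j => g (e.symm j)) fun j => hg _).congr fun z => ?_
  exact ⟨fun ⟨j, h⟩ => ⟨_, h⟩, fun ⟨i, h⟩ => ⟨e i, by simpa using h⟩⟩

theorem const_succ (b : Prop) (d : ℕ) : AC (X := X) s (d + 1) fun _ => b := by
  by_cases hb : b
  · exact (AC.all 0 (Nat.zero_le _) (fun _ _ => True) (fun i => i.elim0)).congr fun z => by
      simp [hb]
  · exact (AC.ex 0 (Nat.zero_le _) (fun _ _ => True) (fun i => i.elim0)).congr fun z => by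
      simp [hb]

theorem const (b : Prop) {d : ℕ} (hd : 1 ≤ d) : AC (X := X) s d fun _ => b := by
  obtain ⟨d, rfl⟩ := Nat.exists_eq_add_of_le' hd
  exact const_succ b d

theorem and (hs : 2 ≤ s) (hf : AC s d f) (hg : AC s d g) : AC s (d + 1) fun z => f z ∧ g z := by
  refine (forall_fintype (ι := Bool) (g := fun b => if b = true then f else g)
    (by simpa using hs) ?_).congr fun z => ?_
  · intro i
    cases i
    · simpa using hg
    · simpa using hf
  · constructor
    · intro h
      exact ⟨by simpa using h true, by simpa using h false⟩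
    · rintro ⟨h1, h2⟩ i
      cases i
      · simpa using h2
      · simpa using h1

theorem or (hs : 2 ≤ s) (hf : AC s d f) (hg : AC s d g) : AC s (d + 1) fun z => f z ∨ g z :=
  (and hs hf.not hg.not).not.congr fun z => by tauto

theorem imp (hs : 2 ≤ s) (hf : AC s d f) (hg : AC s d g) : AC s (d + 1) fun z => f z → g z :=
  (or hs hf.not hg).congr fun z => by tauto

theorem iff (hs : 2 ≤ s) (hf : AC s d f) (hg : AC s d g) : AC s (d + 2) fun z => (f z ↔ g z) :=
  (and hs (imp hs hf hg) (imp hs hg hf)).congr fun z => by tauto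

/-- guard by a constant -/
theorem const_and (b : Prop) (hd : 1 ≤ d) (hf : AC s d f) : AC s d fun z => b ∧ f z := by
  by_cases hb : b
  · exact hf.congr fun z => by simp [hb]
  · exact (const False hd).congr fun z => by simp [hb]

theorem const_imp (b : Prop) (hd : 1 ≤ d) (hf : AC s d f) : AC s d fun z => b → f z := by
  by_cases hb : b
  · exact hf.congr fun z => by simp [hb]
  · exact (const True hd).congr fun z => by simp [hb]

/-- A Boolean combination of finitely many functions. -/
theorem bool_comb {ι : Type} [Fintype ι] [DecidableEq ι] {g : ι → (X → Bool) → Prop}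
    (β : (ι → Prop) → Prop) (hs : 2 ^ Fintype.card ι ≤ s) (hs' : Fintype.card ι ≤ s)
    (hg : ∀ i, AC s d (g i)) : AC s (d + 2) fun z => β fun i => g i z := by
  classical
  refine (exists_fintype (ι := {A : Finset ι // β fun i => i ∈ A}) (d := d + 1)
    (g := fun A z => ∀ i, (g i z ↔ i ∈ A.1)) ?_ ?_).congr ?_
  · refine (Fintype.card_subtype_le _).trans ?_
    simpa using hs
  · intro A
    refine forall_fintype hs' fun i => ?_
    by_cases hi : i ∈ A.1
    · exact (hg i).congr fun z => by simp [hi]
    · exact (hg i).not.congr fun z => by simp [hi]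
  · intro z
    constructor
    · rintro ⟨⟨A, hA⟩, h⟩
      have : (fun i => g i z) = fun i => i ∈ A := funext fun i => propext (h i)
      rw [this]; exact hA
    · intro h
      refine ⟨⟨Finset.univ.filter fun i => g i z, ?_⟩, fun i => by simp⟩
      simpa using h

/-- Substitution of functions for variables. -/
theorem comp {Y : Type} {φ : (Y → Bool) → X → Bool}
    (hφ : ∀ x, AC s' d' fun z => φ z x = true) (h : AC s d f) :
    AC (max s s') (d' + d) fun z => f (φ z) := by
  induction h with
  | lit x b =>
    cases b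
    · exact ((hφ x).not.mono_size (le_max_right _ _)).congr fun z => by simp
    · exact ((hφ x).mono_size (le_max_right _ _)).congr fun z => by simp
  | all m hm g _ ih => exact AC.all m (hm.trans (le_max_left _ _)) (fun i z => g i (φ z)) ih
  | ex m hm g _ ih => exact AC.ex m (hm.trans (le_max_left _ _)) (fun i z => g i (φ z)) ih

/-- Substitution of literals and constants for variables. -/
theorem comp_proj {Y : Type} {φ : (Y → Bool) → X → Bool} (hs : 1 ≤ s)
    (hφ : ∀ x, (∃ b, ∀ z, φ z x = b) ∨ ∃ e b, ∀ z, (φ z x = true ↔ z e = b)) (h : AC s d f) :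
    AC s (1 + d) fun z => f (φ z) := by
  refine (comp (s' := 1) (d' := 1) (fun x => ?_) h).mono_size (by simpa using hs)
  rcases hφ x with ⟨b, hb⟩ | ⟨e, b, hb⟩
  · exact (const_succ (b = true) 0).congr fun z => by rw [hb]
  · exact (succ le_rfl (AC.lit e b)).congr fun z => (hb z).symm

end AC

end Pool.Agent.W_MP_5f6b2a_lc
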