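import Pool.Agent.W_MP_5f6b2a_lc.Basic

/-!
Decision trees: closure properties.
-/

namespace Pool.Agent.W_MP_5f6b2a_lc

variable {X Y : Type}

namespace DTle

theorem congr {D : ℕ} {f g : (X → Bool) → Prop} (h : DTle D f) (hfg : ∀ z, f z ↔ g z) :
    DTle D g := by
  obtain ⟨T, hT, h⟩ := h
  exact ⟨T, hT, fun z => (h z).trans (hfg z)⟩

theorem mono {D D' : ℕ} {f : (X → Bool) → Prop} (hD : D ≤ D') (h : DTle D f) : DTle D' f := by
  obtain ⟨T, hT, h⟩ := h
  exact ⟨T, hT.trans hD, h⟩

theorem const (b : Prop) (D : ℕ) : DTle D fun _ : X → Bool => b := by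
  classical
  exact ⟨DTree.leaf (decide b), Nat.zero_le _, fun z => by simp [DTree.eval]⟩

theorem var (x : X) : DTle 1 fun z : X → Bool => z x = true :=
  ⟨DTree.node x (DTree.leaf false) (DTree.leaf true), by simp [DTree.depth], fun z => by
    cases h : z x <;> simp [DTree.eval, h]⟩

theorem lit (x : X) (b : Bool) : DTle 1 fun z : X → Bool => z x = b := by
  cases b
  · exact ⟨DTree.node x (DTree.leaf true) (DTree.leaf false), by simp [DTree.depth], fun z => by
      cases h : z x <;> simp [DTree.eval, h]⟩
  · exact var x

end DTle

/-- The complement tree. -/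
def DTree.compl : DTree X → DTree X
  | leaf b => leaf !b
  | node x l r => node x l.compl r.compl

theorem DTree.depth_compl (T : DTree X) : T.compl.depth = T.depth := by
  induction T with
  | leaf b => rfl
  | node x l r ihl ihr => simp [DTree.compl, DTree.depth, ihl, ihr]

theorem DTree.eval_compl (T : DTree X) (z : X → Bool) : T.compl.eval z = !T.eval z := by
  induction T with
  | leaf b => rfl
  | node x l r ihl ihr =>
    simp only [DTree.compl, DTree.eval]
    split_ifs <;> assumption

theorem DTle.not {D : ℕ} {f : (X → Bool) → Prop} (h : DTle D f) : DTle D fun z => ¬ f z := by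
  obtain ⟨T, hT, h⟩ := h
  refine ⟨T.compl, by rwa [DTree.depth_compl], fun z => ?_⟩
  show _ ↔ ¬ f z
  rw [DTree.eval_compl, ← h z]
  simp

/-- Composition with a map each of whose coordinates is a constant or a variable, or more
generally depends on at most one variable. -/
theorem DTle.subst {D : ℕ} {f : (X → Bool) → Prop} (h : DTle D f) {φ : (Y → Bool) → X → Bool}
    (hφ : ∀ x, (∃ b, ∀ z, φ z x = b) ∨ ∃ y b, ∀ z, (φ z x = true ↔ z y = b)) :
    DTle D fun z => f (φ z) := by
  obtain ⟨T, hT, h⟩ := h
  suffices H : ∀ T : DTree X, ∃ T' : DTree Y, T'.depth ≤ T.depth ∧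
      ∀ z, T'.eval z = T.eval (φ z) by
    obtain ⟨T', h1, h2⟩ := H T
    exact ⟨T', h1.trans hT, fun z => by rw [h2, h]⟩
  intro T
  induction T with
  | leaf b => exact ⟨DTree.leaf b, le_rfl, fun z => rfl⟩
  | node x l r ihl ihr =>
    obtain ⟨l', hl1, hl2⟩ := ihl
    obtain ⟨r', hr1, hr2⟩ := ihr
    rcases hφ x with ⟨b, hb⟩ | ⟨y, b, hb⟩
    · cases b
      · exact ⟨l', by simp only [DTree.depth]; omega, fun z => by simp [DTree.eval, hb, hl2]⟩
      · exact ⟨r', by simp only [DTree.depth]; omega, fun z => by simp [DTree.eval, hb, hr2]⟩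
    · cases b
      · refine ⟨DTree.node y r' l', by simp only [DTree.depth]; omega, fun z => ?_⟩
        simp only [DTree.eval, hb, hl2, hr2]
        cases h : z y <;> simp
      · refine ⟨DTree.node y l' r', by simp only [DTree.depth]; omega, fun z => ?_⟩
        simp only [DTree.eval, hb, hl2, hr2]

/-- Query all variables of `β` first. -/
theorem DTle.query [DecidableEq X] {n : ℕ} (β : Finset X) : ∀ (g : (X → Bool) → Prop),
    (∀ π : X → Bool, ∃ h, DTle n h ∧ ∀ z, (∀ x ∈ β, z x = π x) → (h z ↔ g z)) →
    DTle (β.card + n) g := by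
  induction β using Finset.induction_on with
  | empty =>
    intro g H
    obtain ⟨h, h1, h2⟩ := H fun _ => false
    simpa using h1.congr fun z => h2 z (by simp)
  | insert x β hx ih =>
    intro g H
    have key : ∀ b : Bool, DTle (β.card + n) fun z => g (Function.update z x b) := by
      intro b
      apply ih
      intro π
      obtain ⟨h, h1, h2⟩ := H (Function.update π x b)
      refine ⟨fun z => h (Function.update z x b), h1.subst ?_, ?_⟩
      · intro y
        by_cases hy : y = x
        · subst hy
          exact Or.inl ⟨b, fun z => by simp⟩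
        · exact Or.inr ⟨y, true, fun z => by rw [Function.update_of_ne hy]⟩
      · intro z hz
        apply h2
        intro y hy
        by_cases hyx : y = x
        · subst hyx; simp
        · rw [Function.update_of_ne hyx, Function.update_of_ne hyx]
          exact hz y ((Finset.mem_insert.1 hy).resolve_left hyx)
    obtain ⟨l, hl1, hl2⟩ := key false
    obtain ⟨r, hr1, hr2⟩ := key true
    refine ⟨DTree.node x l r, ?_, fun z => ?_⟩
    · rw [Finset.card_insert_of_notMem hx]
      simp only [DTree.depth]; omega
    · simp only [DTree.eval]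
      have hz : ∀ b, z x = b → Function.update z x b = z := by
        rintro b rfl; exact Function.update_eq_self _ _
      split_ifs with h
      · rw [hr2]; simp only [hz true h]
      · rw [hl2]; simp only [hz false (by simpa using h)]

/-- A function depending on few variables. -/
theorem DTle.of_depends [DecidableEq X] (β : Finset X) (g : (X → Bool) → Prop)
    (hg : ∀ z z', (∀ x ∈ β, z x = z' x) → (g z ↔ g z')) : DTle β.card g := by
  refine DTle.query (n := 0) β g fun π => ⟨fun _ => g π, DTle.const _ _, fun z hz => ?_⟩
  exact hg _ _ fun x hx => (hz x hx).symm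

/-- Replace the leaves by trees. -/
def DTree.graft (F : Bool → DTree X) : DTree X → DTree X
  | leaf b => F b
  | node x l r => node x (l.graft F) (r.graft F)

theorem DTree.depth_graft {F : Bool → DTree X} {n : ℕ} (hF : ∀ b, (F b).depth ≤ n)
    (T : DTree X) : (T.graft F).depth ≤ T.depth + n := by
  induction T with
  | leaf b => simpa [DTree.graft, DTree.depth] using hF b
  | node x l r ihl ihr => simp only [DTree.graft, DTree.depth]; omega

theorem DTree.eval_graft (F : Bool → DTree X) (T : DTree X) (z : X → Bool) :
    (T.graft F).eval z = (F (T.eval z)).eval z := by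
  induction T with
  | leaf b => rfl
  | node x l r ihl ihr =>
    simp only [DTree.graft, DTree.eval]
    split_ifs <;> assumption

/-- Boolean combinations. -/
theorem DTle.juntas {n : ℕ} : ∀ (D : ℕ) (f : Fin D → (X → Bool) → Prop) (_ : ∀ i, DTle n (f i))
    (β : (Fin D → Prop) → Prop), DTle (D * n) fun z => β fun i => f i z := by
  intro D
  induction D with
  | zero =>
    intro f _ β
    simpa using (DTle.const (β fun i => i.elim0) 0).congr fun z => by
      rw [show (fun i : Fin 0 => f i z) = fun i => i.elim0 from funext fun i => i.elim0]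
  | succ D ih =>
    intro f hf β
    obtain ⟨T, hT1, hT2⟩ := hf 0
    have := fun b : Bool => ih (fun i => f i.succ) (fun i => hf _)
      (fun u => β (Fin.cons (b = true) u))
    choose F hF1 hF2 using this
    refine ⟨T.graft F, ?_, fun z => ?_⟩
    · refine (DTree.depth_graft hF1 T).trans ?_
      rw [Nat.add_mul, one_mul, add_comm]
      omega
    · rw [DTree.eval_graft, hF2]
      have : (Fin.cons (T.eval z = true) (fun i : Fin D => f i.succ z) : Fin (D + 1) → Prop) =
          fun i => f i z := by
        funext i
        refine Fin.cases ?_ (fun i => ?_) i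
        · simpa using propext (hT2 z)
        · simp
      show β (Fin.cons (T.eval z = true) fun i => f i.succ z) ↔ β fun i => f i z
      rw [this]

end Pool.Agent.W_MP_5f6b2a_lc
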