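import Pool.Agent.W_MP_5f6b2a_lc.Defs

/-!
Common tools for the separation of the W-hierarchy under para-AC0 reductions: decision trees,
restrictions, levelled formulas over a base class, alternating trees.
-/

namespace Pool.Agent.W_MP_5f6b2a_lc

/-! ### Decision trees -/

/-- Decision trees over the variables `X`: at `node x l r` go to `l` if `x` is false and to `r` if
`x` is true. -/
inductive DTree (X : Type)
  | leaf (b : Bool)
  | node (x : X) (l r : DTree X)

namespace DTree

variable {X : Type}

def eval : DTree X → (X → Bool) → Bool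
  | leaf b, _ => b
  | node x l r, z => if z x = true then r.eval z else l.eval z

def depth : DTree X → ℕ
  | leaf _ => 0
  | node _ l r => max l.depth r.depth + 1

end DTree

/-- `f` is computed by a decision tree of depth at most `D`. -/
def DTle {X : Type} (D : ℕ) (f : (X → Bool) → Prop) : Prop :=
  ∃ T : DTree X, T.depth ≤ D ∧ ∀ z, T.eval z = true ↔ f z

/-! ### Restrictions -/

/-- The assignment which equals `ρ` where `ρ` is defined and `z` elsewhere. -/
def fill {X : Type} (ρ : X → Option Bool) (z : X → Bool) : X → Bool := fun x => (ρ x).getD (z x)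

/-! ### Levelled formulas over a base class -/

/-- `Lv 𝓑 M t b f`: the predicate `f` is computed by a levelled formula with `t` levels of gates of
fan-in at most `M` over predicates of the class `𝓑`; the top gate is an AND if `b = true` and an
OR if `b = false`, and AND and OR levels alternate. -/
def Lv {Z : Type} (𝓑 : (Z → Prop) → Prop) (M : ℕ) : ℕ → Bool → (Z → Prop) → Prop
  | 0, _, f => 𝓑 f
  | t + 1, true, f => ∃ (m : ℕ) (g : Fin m → Z → Prop), m ≤ M ∧ (∀ i, Lv 𝓑 M t false (g i)) ∧
      ∀ z, f z ↔ ∀ i, g i z
  | t + 1, false, f => ∃ (m : ℕ) (g : Fin m → Z → Prop), m ≤ M ∧ (∀ i, Lv 𝓑 M t true (g i)) ∧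
      ∀ z, f z ↔ ∃ i, g i z

/-- The class of Boolean functions of at most `D` members (with repetition) of the family `A`. -/
def Junta {Z ι : Type} (A : ι → Z → Prop) (D : ℕ) (f : Z → Prop) : Prop :=
  ∃ (ξ : Fin D → ι) (β : (Fin D → Prop) → Prop), ∀ z, f z ↔ β fun i => A (ξ i) z

/-! ### Alternating trees -/

/-- Fan-in of level `t`. -/
def bfan (a t : ℕ) : ℕ := a ^ (3 * (2 ^ t - 1) + 1)

/-- Nodes at level `t`. -/
def P (a : ℕ) : ℕ → Type
  | 0 => Unit
  | t + 1 => P a t × (Fin (bfan a t) × Fin (a ^ 2))

instance instFintypeP (a : ℕ) : (t : ℕ) → Fintype (P a t)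
  | 0 => inferInstanceAs (Fintype Unit)
  | t + 1 => by
    have := instFintypeP a t
    exact inferInstanceAs (Fintype (P a t × (Fin (bfan a t) × Fin (a ^ 2))))

instance instDecidableEqP (a : ℕ) : (t : ℕ) → DecidableEq (P a t)
  | 0 => inferInstanceAs (DecidableEq Unit)
  | t + 1 => by
    have := instDecidableEqP a t
    exact inferInstanceAs (DecidableEq (P a t × (Fin (bfan a t) × Fin (a ^ 2))))

/-- The alternating tree with `t` levels (top gate AND) on the variables `P a t`. -/
def treeP (a : ℕ) : (t : ℕ) → (P a t → Prop) → Prop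
  | 0, z => z ()
  | t + 1, z => treeP a t fun p => if Even t then ∀ u, z (p, u) else ∃ u, z (p, u)

/-- The alternating tree with `t + 1` levels (top gate AND) whose bottom gates have fan-in
`|β|`. -/
def treeB (a t : ℕ) {β : Type} (z : P a t × β → Prop) : Prop :=
  treeP a t fun p => if Even t then ∀ u, z (p, u) else ∃ u, z (p, u)

/-! ### The hard problem -/

/-- The variables of the hard instances: ordered pairs of vertices and pairs (vertex, leaf). -/
abbrev EdgeVar (V J : Type) := (V × V) ⊕ (V × J)

/-- `Src a t k x`: the graph coded by `x` has a `k`-clique `S` such that the alternating tree with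
`t + 1` levels evaluates to true when the leaf `l` is given the truth value of the statement that
`l` is a common neighbour of `S` (if `t` is odd) or of its negation (if `t` is even). -/
def Src (a t k : ℕ) {V β : Type} (x : EdgeVar V (P a t × β) → Bool) : Prop :=
  ∃ S : Finset V, S.card = k ∧ (∀ v ∈ S, ∀ v' ∈ S, v ≠ v' → x (Sum.inl (v, v')) = true) ∧
    treeB a t fun l => ((∀ v ∈ S, x (Sum.inr (v, l)) = true) ↔ ¬ Even t)

end Pool.Agent.W_MP_5f6b2a_lc
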