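import Pool.Agent.W_MP_5f6b2a_lc.CDefs

/-!
Structures with labelled groups, their local symmetries, and the invariance of infinitary counting
logic.
-/

namespace Pool.Agent.W_MP_5f6b2a_lc.Count

open Logic Finset

/-- Elements: inputs of a sort, leaves in a group, and fixed elements. -/
inductive El (k : ℕ) (V J F : Type)
  | inp (v : Fin (k + 1)) (p : V)
  | leaf (j : J) (y : Fin k → ZMod 2)
  | fix (f : F)

/-- the label of a group -/
def bit {Ic Γ : Type} (b : Γ → Bool) : Ic ⊕ Γ → ZMod 2
  | .inl _ => 1
  | .inr γ => if b γ = true then 1 else 0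

section

variable {k : ℕ} {V Ic Γ F : Type} [AddCommGroup V]

/-- the group of an element -/
def gp {J : Type} : El k V J F → Option J
  | .leaf j _ => some j
  | _ => none

/-- the sort of an element -/
def so {J : Type} : El k V J F → Option (Fin (k + 1))
  | .inp v _ => some v
  | _ => none

/-- the shift by `z` -/
def th {J : Type} (φ : J → V →+ ZMod 2) (z : Fin (k + 1) → V) : El k V J F → El k V J F
  | .inp v p => .inp v (p + z v)
  | .leaf j y => .leaf j fun i => y i + φ j (z i.succ)
  | .fix f => .fix f

/-- the defect of the shift by `z` at the group `j` -/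
def mis (φ : Ic ⊕ Γ → V →+ ZMod 2) (b b' : Γ → Bool) (z : Fin (k + 1) → V) (j : Ic ⊕ Γ) : ZMod 2 :=
  ∑ v, φ j (z v) + bit b j + bit b' j

theorem add_self_zmod (x : ZMod 2) : x + x = 0 := CharTwo.add_self_eq_zero x

theorem gp_th {J : Type} (φ : J → V →+ ZMod 2) (z : Fin (k + 1) → V) (e : El k V J F) :
    gp (th φ z e) = gp e := by
  cases e <;> rfl

theorem so_th {J : Type} (φ : J → V →+ ZMod 2) (z : Fin (k + 1) → V) (e : El k V J F) :
    so (th φ z e) = so e := by
  cases e <;> rfl

theorem th_th {J : Type} (φ : J → V →+ ZMod 2) (h2 : ∀ x : V, x + x = 0) (z : Fin (k + 1) → V)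
    (e : El k V J F) : th φ z (th φ z e) = e := by
  cases e with
  | inp v p => simp [th, add_assoc, h2]
  | leaf j y => simp [th, add_assoc, add_self_zmod]
  | fix f => rfl

theorem th_zero {J : Type} (φ : J → V →+ ZMod 2) (e : El k V J F) : th φ 0 e = e := by
  cases e <;> simp [th]

theorem mis_symm (φ : Ic ⊕ Γ → V →+ ZMod 2) (b b' : Γ → Bool) (z : Fin (k + 1) → V)
    (j : Ic ⊕ Γ) : mis φ b' b z j = mis φ b b' z j := by
  unfold mis
  ring

/-- a shift at one sort -/
def sh (z : Fin (k + 1) → V) (v : Fin (k + 1)) (ζ : V) : Fin (k + 1) → V :=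
  Function.update z v (z v + ζ)

theorem sh_of_ne (z : Fin (k + 1) → V) {v w : Fin (k + 1)} (ζ : V) (h : w ≠ v) :
    sh z v ζ w = z w := by
  unfold sh
  rw [Function.update_of_ne h]

theorem mis_sh (φ : Ic ⊕ Γ → V →+ ZMod 2) (b b' : Γ → Bool) (z : Fin (k + 1) → V)
    (v : Fin (k + 1)) (ζ : V) (j : Ic ⊕ Γ) :
    mis φ b b' (sh z v ζ) j = mis φ b b' z j + φ j ζ := by
  have : ∀ w, φ j (sh z v ζ w) = φ j (z w) + if w = v then φ j ζ else 0 := by
    intro w
    by_cases h : w = v
    · subst h
      simp [sh]
    · simp [sh_of_ne z ζ h, h]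
  unfold mis
  simp only [this, sum_add_distrib, sum_ite_eq', mem_univ, if_true]
  ring

theorem th_sh {J : Type} (φ : J → V →+ ZMod 2) (z : Fin (k + 1) → V) (v : Fin (k + 1)) (ζ : V)
    (e : El k V J F) (h1 : so e ≠ some v) (h2 : ∀ j, gp e = some j → φ j ζ = 0) :
    th φ (sh z v ζ) e = th φ z e := by
  cases e with
  | inp w p =>
    have : w ≠ v := fun h => h1 (by rw [h]; rfl)
    simp [th, sh_of_ne z ζ this]
  | leaf j y =>
    have h3 := h2 j rfl
    simp only [th, El.leaf.injEq, true_and]
    funext i
    by_cases h : i.succ = v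
    · subst h
      simp [sh, h3]
    · rw [sh_of_ne z ζ h]
  | fix f => rfl

/-- the groups of an assignment -/
noncomputable def grp {J X : Type} [Fintype X] (a : X → Option (El k V J F)) : Finset J :=
  haveI := Classical.decEq J
  univ.biUnion fun x => ((a x).bind gp).toFinset

/-- the sorts of an assignment -/
noncomputable def sor {J X : Type} [Fintype X] (a : X → Option (El k V J F)) :
    Finset (Fin (k + 1)) :=
  univ.biUnion fun x => ((a x).bind so).toFinset

theorem mem_grp {J X : Type} [Fintype X] {a : X → Option (El k V J F)} {j : J} :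
    j ∈ grp a ↔ ∃ x e, a x = some e ∧ gp e = some j := by
  classical
  unfold grp
  simp [Option.bind_eq_some_iff]

theorem mem_sor {J X : Type} [Fintype X] {a : X → Option (El k V J F)} {v : Fin (k + 1)} :
    v ∈ sor a ↔ ∃ x e, a x = some e ∧ so e = some v := by
  unfold sor
  simp [Option.bind_eq_some_iff]

theorem card_toFinset_le {α : Type} (o : Option α) : o.toFinset.card ≤ 1 := by
  cases o <;> simp

theorem card_grp_le {J X : Type} [Fintype X] (a : X → Option (El k V J F)) :
    (grp a).card ≤ Fintype.card X := by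
  classical
  unfold grp
  refine card_biUnion_le.trans ?_
  refine (sum_le_sum fun x _ => card_toFinset_le _).trans ?_
  simp

theorem card_sor_le {J X : Type} [Fintype X] (a : X → Option (El k V J F)) :
    (sor a).card ≤ Fintype.card X := by
  unfold sor
  refine card_biUnion_le.trans ?_
  refine (sum_le_sum fun x _ => card_toFinset_le _).trans ?_
  simp

theorem card_biUnion_update {α X : Type} [Fintype X] [DecidableEq X] [DecidableEq α]
    (f : X → Finset α) (hf : ∀ x, (f x).card ≤ 1) (x : X) (hx : f x = ∅) :
    (univ.biUnion f).card + 1 ≤ Fintype.card X := by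
  have h1 : univ.biUnion f = (univ.erase x).biUnion f := by
    ext y
    simp only [mem_biUnion, mem_univ, true_and, mem_erase, ne_eq, and_true]
    constructor
    · rintro ⟨z, hz⟩
      refine ⟨z, ?_, hz⟩
      rintro rfl
      rw [hx] at hz
      simp at hz
    · rintro ⟨z, -, hz⟩
      exact ⟨z, hz⟩
  rw [h1]
  have h2 : ((univ.erase x).biUnion f).card ≤ (univ.erase x).card := by
    refine card_biUnion_le.trans ?_
    refine (sum_le_sum fun x _ => hf x).trans ?_
    simp
  rw [card_erase_of_mem (mem_univ _), card_univ] at h2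
  have : 0 < Fintype.card X := Fintype.card_pos_iff.2 ⟨x⟩
  omega

theorem card_grp_update {J X : Type} [Fintype X] [DecidableEq X] (a : X → Option (El k V J F))
    (x : X) : (grp (Function.update a x none)).card + 1 ≤ Fintype.card X := by
  classical
  unfold grp
  refine card_biUnion_update _ (fun y => card_toFinset_le _) x (by simp)

theorem card_sor_update {J X : Type} [Fintype X] [DecidableEq X] (a : X → Option (El k V J F))
    (x : X) : (sor (Function.update a x none)).card + 1 ≤ Fintype.card X := by
  classical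
  unfold sor
  refine card_biUnion_update _ (fun y => card_toFinset_le _) x (by simp)

/-- the shifted assignment -/
def tha {J X : Type} (φ : J → V →+ ZMod 2) (z : Fin (k + 1) → V) (a : X → Option (El k V J F)) :
    X → Option (El k V J F) := fun x => (a x).map (th φ z)

theorem grp_tha {J X : Type} [Fintype X] (φ : J → V →+ ZMod 2) (z : Fin (k + 1) → V)
    (a : X → Option (El k V J F)) : grp (tha φ z a) = grp a := by
  ext j
  rw [mem_grp, mem_grp]
  constructor
  · rintro ⟨x, e, h1, h2⟩
    obtain ⟨e', h3, rfl⟩ := Option.map_eq_some_iff.1 h1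
    exact ⟨x, e', h3, by rw [← h2, gp_th]⟩
  · rintro ⟨x, e, h1, h2⟩
    exact ⟨x, th φ z e, by simp [tha, h1], by rw [gp_th, h2]⟩

theorem sor_tha {J X : Type} [Fintype X] (φ : J → V →+ ZMod 2) (z : Fin (k + 1) → V)
    (a : X → Option (El k V J F)) : sor (tha φ z a) = sor a := by
  ext j
  rw [mem_sor, mem_sor]
  constructor
  · rintro ⟨x, e, h1, h2⟩
    obtain ⟨e', h3, rfl⟩ := Option.map_eq_some_iff.1 h1
    exact ⟨x, e', h3, by rw [← h2, so_th]⟩
  · rintro ⟨x, e, h1, h2⟩
    exact ⟨x, th φ z e, by simp [tha, h1], by rw [so_th, h2]⟩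

theorem tha_tha {J X : Type} (φ : J → V →+ ZMod 2) (h2 : ∀ x : V, x + x = 0)
    (z : Fin (k + 1) → V) (a : X → Option (El k V J F)) : tha φ z (tha φ z a) = a := by
  funext x
  unfold tha
  rcases a x with _ | e
  · rfl
  · simp [th_th φ h2]

theorem tha_zero {J X : Type} (φ : J → V →+ ZMod 2) (a : X → Option (El k V J F)) :
    tha φ 0 a = a := by
  funext x
  unfold tha
  rcases a x with _ | e
  · rfl
  · simp [th_zero φ]

theorem tha_sh {J X : Type} [Fintype X] (φ : J → V →+ ZMod 2) (z : Fin (k + 1) → V)
    (v : Fin (k + 1)) (ζ : V) (a : X → Option (El k V J F)) (h1 : v ∉ sor a)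
    (h2 : ∀ j ∈ grp a, φ j ζ = 0) : tha φ (sh z v ζ) a = tha φ z a := by
  funext x
  unfold tha
  rcases hx : a x with _ | e
  · rfl
  · simp only [Option.map_some, Option.some.injEq]
    refine th_sh φ z v ζ e (fun h => h1 (mem_sor.2 ⟨x, e, hx, h⟩)) fun j hj => ?_
    exact h2 j (mem_grp.2 ⟨x, e, hx, hj⟩)

theorem tha_update {J X : Type} [DecidableEq X] (φ : J → V →+ ZMod 2) (z : Fin (k + 1) → V)
    (a : X → Option (El k V J F)) (x : X) (o : Option (El k V J F)) :
    tha φ z (Function.update a x o) = Function.update (tha φ z a) x (o.map (th φ z)) := by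
  funext y
  unfold tha
  by_cases h : y = x
  · subst h
    simp
  · simp [Function.update_of_ne h]

end

/-- A family of structures on the same universe, indexed by the labellings, with local
symmetries. -/
structure Sys (k : ℕ) (V Ic Γ F : Type) [AddCommGroup V] (L : Voc) (N : ℕ) where
  φ : Ic ⊕ Γ → V →+ ZMod 2
  two : ∀ x : V, x + x = 0
  S : (Γ → Bool) → Str L (El k V (Ic ⊕ Γ) F)
  pat : ∀ T : Finset (Ic ⊕ Γ), T.card ≤ N → ∀ σ : Ic ⊕ Γ → ZMod 2, ∃ ζ, ∀ j ∈ T, φ j ζ = σ j
  inv : ∀ (b b' : Γ → Bool) (z : Fin (k + 1) → V) (r : L.R)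
    (x : Fin (L.ar r) → El k V (Ic ⊕ Γ) F),
    (∀ i j, gp (x i) = some j → mis φ b b' z j = 0) → (S b).rel r x →
    (S b').rel r fun i => th φ z (x i)

namespace Sys

variable {k : ℕ} {V Ic Γ F : Type} [AddCommGroup V] {L : Voc} {N : ℕ} (Y : Sys k V Ic Γ F L N)

theorem holds_inv {X : Type} [Fintype X] [DecidableEq X] (hk : Fintype.card X ≤ k + 1)
    (hN : Fintype.card X ≤ N) (ψ : CFml L X) :
    ∀ (b b' : Γ → Bool) (z : Fin (k + 1) → V) (a : X → Option (El k V (Ic ⊕ Γ) F)),
      (∀ j ∈ grp a, mis Y.φ b b' z j = 0) → ψ.Holds (Y.S b) a →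
      ψ.Holds (Y.S b') (tha Y.φ z a) := by
  classical
  induction ψ with
  | eq x y =>
    rintro b b' z a - ⟨e, h1, h2⟩
    exact ⟨th Y.φ z e, by simp [tha, h1], by simp [tha, h2]⟩
  | rel r x =>
    rintro b b' z a hz ⟨e, h1, h2⟩
    refine ⟨fun i => th Y.φ z (e i), fun i => by simp [tha, h1 i], ?_⟩
    exact Y.inv b b' z r e (fun i j hj => hz j (mem_grp.2 ⟨x i, e i, h1 i, hj⟩)) h2
  | neg ψ ih =>
    intro b b' z a hz hn hb
    apply hn
    have h1 := ih b' b z (tha Y.φ z a) (by
      intro j hj
      rw [grp_tha] at hj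
      rw [mis_symm]
      exact hz j hj) hb
    rwa [tha_tha Y.φ Y.two] at h1
  | conj ψ ih =>
    intro b b' z a hz hall i
    exact ih i b b' z a hz (hall i)
  | ex n x ψ ih =>
    rintro b b' z a hz ⟨s, hs, hall⟩
    -- a free sort
    obtain ⟨v, hv⟩ : ∃ v : Fin (k + 1), v ∉ sor (Function.update a x none) := by
      by_contra hcon
      push Not at hcon
      have h1 : (univ : Finset (Fin (k + 1))) ⊆ sor (Function.update a x none) := fun v _ => hcon v
      have h2 := card_le_card h1
      have h3 := card_sor_update a x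
      rw [card_univ, Fintype.card_fin] at h2
      omega
    have hgz : ∀ j ∈ grp (Function.update a x none), mis Y.φ b b' z j = 0 := by
      intro j hj
      refine hz j ?_
      obtain ⟨y, e, h1, h2⟩ := mem_grp.1 hj
      by_cases h : y = x
      · subst h
        simp at h1
      · rw [Function.update_of_ne h] at h1
        exact mem_grp.2 ⟨y, e, h1, h2⟩
    -- the corrections
    have hζ : ∀ j, ∃ ζ, Y.φ j ζ = mis Y.φ b b' z j ∧
        ∀ j' ∈ grp (Function.update a x none), Y.φ j' ζ = 0 := by
      intro j
      have hc := card_grp_update a x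
      obtain ⟨ζ, hζ⟩ := Y.pat (insert j (grp (Function.update a x none)))
        ((card_insert_le _ _).trans (by omega)) fun j' => if j' = j then mis Y.φ b b' z j else 0
      refine ⟨ζ, ?_, fun j' hj' => ?_⟩
      · have := hζ j (mem_insert_self _ _)
        simpa using this
      · rw [hζ j' (mem_insert_of_mem hj')]
        split_ifs with h
        · subst h
          exact hgz _ hj'
        · rfl
    choose ζ hζ1 hζ2 using hζ
    let ze : El k V (Ic ⊕ Γ) F → Fin (k + 1) → V := fun e =>
      match gp e with
      | none => z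
      | some j => sh z v (ζ j)
    have hze : ∀ e, th Y.φ (ze e) e = match e with
        | .inp w p => .inp w (p + z w)
        | .leaf j y => .leaf j fun i => y i + Y.φ j (sh z v (ζ j) i.succ)
        | .fix f => .fix f := by
      intro e
      cases e <;> rfl
    have hinj : Function.Injective fun e : El k V (Ic ⊕ Γ) F => th Y.φ (ze e) e := by
      intro e e' h
      simp only [hze] at h
      cases e <;> cases e' <;> simp only [reduceCtorEq, El.inp.injEq, El.leaf.injEq,
        El.fix.injEq] at h ⊢
      · obtain ⟨rfl, h⟩ := h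
        exact ⟨rfl, add_right_cancel h⟩
      · obtain ⟨rfl, h⟩ := h
        refine ⟨rfl, funext fun i => ?_⟩
        exact add_right_cancel (congrFun h i)
      · exact h
    refine ⟨fun i => th Y.φ (ze (s i)) (s i), fun i i' h => hs (hinj h), fun i => ?_⟩
    have h1 := ih b b' (ze (s i)) (Function.update a x (some (s i))) ?_ (hall i)
    · have h2 : tha Y.φ (ze (s i)) (Function.update a x none) =
          tha Y.φ z (Function.update a x none) := by
        rcases hg : gp (s i) with _ | j
        · have : ze (s i) = z := by simp only [ze, hg]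
          rw [this]
        · have : ze (s i) = sh z v (ζ j) := by simp only [ze, hg]
          rw [this]
          exact tha_sh Y.φ z v (ζ j) _ hv (hζ2 j)
      have h3 : tha Y.φ (ze (s i)) (Function.update a x (some (s i))) =
          Function.update (tha Y.φ z a) x (some (th Y.φ (ze (s i)) (s i))) := by
        funext y
        by_cases h : y = x
        · subst h
          simp [tha]
        · have := congrFun h2 y
          simp only [tha, Function.update_of_ne h] at this ⊢
          exact this
      rw [h3] at h1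
      exact h1
    · intro j hj
      obtain ⟨y, e, h2, h3⟩ := mem_grp.1 hj
      have key : ∀ j', (j ∈ grp (Function.update a x none) ∨ j = j') →
          mis Y.φ b b' (sh z v (ζ j')) j = 0 := by
        intro j' hj'
        rw [mis_sh]
        rcases hj' with h | h
        · rw [hgz j h, hζ2 j' j h, add_zero]
        · subst h
          rw [hζ1, add_self_zmod]
      by_cases h : y = x
      · subst h
        simp only [Function.update_self, Option.some.injEq] at h2
        subst h2
        have : ze (s i) = sh z v (ζ j) := by simp only [ze, h3]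
        rw [this]
        exact key j (Or.inr rfl)
      · rw [Function.update_of_ne h] at h2
        have hm : j ∈ grp (Function.update a x none) :=
          mem_grp.2 ⟨y, e, by rw [Function.update_of_ne h]; exact h2, h3⟩
        rcases hg : gp (s i) with _ | j'
        · have : ze (s i) = z := by simp only [ze, hg]
          rw [this]
          exact hgz j hm
        · have : ze (s i) = sh z v (ζ j') := by simp only [ze, hg]
          rw [this]
          exact key j' (Or.inl hm)

theorem holds_iff {X : Type} [Fintype X] [DecidableEq X] (hk : Fintype.card X ≤ k + 1)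
    (hN : Fintype.card X ≤ N) (ψ : CFml L X) {b b' : Γ → Bool} {z : Fin (k + 1) → V}
    {a : X → Option (El k V (Ic ⊕ Γ) F)} (hz : ∀ j ∈ grp a, mis Y.φ b b' z j = 0) :
    ψ.Holds (Y.S b) a ↔ ψ.Holds (Y.S b') (tha Y.φ z a) := by
  refine ⟨Y.holds_inv hk hN ψ b b' z a hz, fun h => ?_⟩
  have h1 := Y.holds_inv hk hN ψ b' b z (tha Y.φ z a) (by
    intro j hj
    rw [grp_tha] at hj
    rw [mis_symm]
    exact hz j hj) h
  rwa [tha_tha Y.φ Y.two] at h1

end Sys

end Pool.Agent.W_MP_5f6b2a_lc.Count
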