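import Pool.Agent.W_MP_5f6b2a_lc.CHier
import Pool.Agent.W_MP_5f6b2a_lc.CSys

/-!
Closure properties of the class `HG`; functions depending on few labels; case distinctions.
-/

namespace Pool.Agent.W_MP_5f6b2a_lc.Count

open Finset

section

variable {X : Type} {M D q : ℕ}

theorem HG.not : ∀ {j : ℕ} {f : (X → Bool) → Prop}, HG M D q j f → HG M D q j fun z => ¬ f z := by
  intro j
  cases j with
  | zero => exact fun h => DTle.not h
  | succ j =>
    rintro f ⟨g, β, h1, h2⟩
    exact ⟨g, fun u => ¬ β u, h1, fun z => not_congr (h2 z)⟩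

theorem HG.betaι {ι : Type} [Fintype ι] {n : ℕ} (hn : Fintype.card ι ≤ n) {j : ℕ}
    {f : ι → (X → Bool) → Prop} (hf : ∀ i, HG M D q j (f i)) (β : (ι → Prop) → Prop) :
    HG M D (n * q) j fun z => β fun i => f i z := by
  classical
  let e := Fintype.equivFin ι
  have h1 := HG.beta j (fun i => f (e.symm i)) (fun i => hf _) fun u => β fun i => u (e i)
  refine HG.mono (Nat.mul_le_mul_right q hn) j _ (h1.congr fun z => ?_)
  simp only [Equiv.symm_apply_apply]

theorem HG.or (hq : 1 ≤ q) {ι : Type} [Fintype ι] (hM : Fintype.card ι ≤ M) {j : ℕ}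
    {f : ι → (X → Bool) → Prop} (hf : ∀ i, HG M D q j (f i)) :
    HG M D q (j + 1) fun z => ∃ i, f i z := by
  classical
  let e := Fintype.equivFin ι
  refine ⟨fun _ z => ∃ i, f i z, fun u => u ⟨0, hq⟩, fun _ => ⟨Fintype.card ι,
    fun i => f (e.symm i), hM, fun i => hf _, fun z => ?_⟩, fun z => Iff.rfl⟩
  constructor
  · rintro ⟨i, hi⟩
    exact ⟨e i, by simpa using hi⟩
  · rintro ⟨i, hi⟩
    exact ⟨_, hi⟩

theorem HG.and (hq : 1 ≤ q) (hM : 1 ≤ M) {j : ℕ} {f g : (X → Bool) → Prop} (hf : DTle D f)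
    (hg : HG M D q j g) : HG M D (2 * q) j fun z => f z ∧ g z := by
  have h1 := HG.betaι (ι := Bool) (n := 2) (by simp) (j := j) (f := fun b => cond b f g) (by
    intro i
    cases i
    · exact hg
    · exact (HG.of_dt hM (by norm_num : 1 ≤ 1) hf).mono hq _ _) fun u => u true ∧ u false
  exact h1

end

section

variable {Ic Γ : Type} {M D q : ℕ}

theorem bit_inr {b b' : Γ → Bool} {γ : Γ} :
    (bit b (.inr γ : Ic ⊕ Γ) = bit b' (.inr γ : Ic ⊕ Γ)) ↔ (b γ = b' γ) := by
  show ((if b γ = true then (1 : ZMod 2) else 0) = if b' γ = true then 1 else 0) ↔ _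
  rcases b γ with _ | _ <;> rcases b' γ with _ | _ <;> simp

/-- a function on a part of the labellings which depends on few labels only -/
theorem exists_dt (T : Finset (Ic ⊕ Γ)) (P f : (Γ → Bool) → Prop)
    (h : ∀ b b', P b → P b' → (∀ j ∈ T, bit b j = bit b' j) → f b → f b') :
    ∃ F, DTle T.card F ∧ ∀ b, P b → (f b ↔ F b) := by
  classical
  refine ⟨fun b => ∃ b₀, P b₀ ∧ (∀ j ∈ T, bit b j = bit b₀ j) ∧ f b₀, ?_, fun b hb => ?_⟩
  · have hc : T.toRight.card ≤ T.card := by
      have := T.card_toLeft_add_card_toRight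
      omega
    refine DTle.mono hc (DTle.of_depends T.toRight _ fun z z' hz => ?_)
    have key : ∀ j ∈ T, bit z j = bit z' j := by
      rintro (i | γ) hj
      · rfl
      · rw [bit_inr]
        exact hz γ (by simpa using hj)
    constructor
    · rintro ⟨b₀, h1, h2, h3⟩
      exact ⟨b₀, h1, fun j hj => (key j hj).symm.trans (h2 j hj), h3⟩
    · rintro ⟨b₀, h1, h2, h3⟩
      exact ⟨b₀, h1, fun j hj => (key j hj).trans (h2 j hj), h3⟩
  · constructor
    · intro h1
      exact ⟨b, hb, fun _ _ => rfl, h1⟩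
    · rintro ⟨b₀, h1, h2, h3⟩
      exact h b₀ b h1 hb (fun j hj => (h2 j hj).symm) h3

/-- case distinction according to the labels in a small set -/
theorem HG.split (hM : 1 ≤ M) (hD : 1 ≤ D) (hq : 1 ≤ q) {j : ℕ} {n : ℕ} (T : Finset (Ic ⊕ Γ))
    (hT : T.card ≤ n) (P f : (Γ → Bool) → Prop)
    (H : ∀ π : Γ → Bool, ∃ F, HG M D q j F ∧ ∀ b, (∀ j ∈ T, bit b j = bit π j) → P b →
      (f b ↔ F b)) :
    ∃ F, HG M D ((2 ^ n + n) * q) j F ∧ ∀ b, P b → (f b ↔ F b) := by
  classical
  choose G hG1 hG2 using H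
  have hc : T.toRight.card ≤ T.card := by
    have := T.card_toLeft_add_card_toRight
    omega
  let pt : Finset Γ → Γ → Bool := fun U γ => decide (γ ∈ U)
  let fn : {U // U ∈ T.toRight.powerset} ⊕ {γ // γ ∈ T.toRight} → (Γ → Bool) → Prop := fun i =>
    match i with
    | .inl U => G (pt U.1)
    | .inr γ => fun b => b γ.1 = true
  have hcard : Fintype.card ({U // U ∈ T.toRight.powerset} ⊕ {γ // γ ∈ T.toRight}) ≤ 2 ^ n + n := by
    rw [Fintype.card_sum, Fintype.card_coe, Fintype.card_coe, card_powerset]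
    have h1 : 2 ^ T.toRight.card ≤ 2 ^ n := Nat.pow_le_pow_right (by norm_num) (hc.trans hT)
    omega
  have h1 := HG.betaι hcard (j := j) (f := fn) (M := M) (D := D) (q := q) (by
    rintro (U | γ)
    · exact hG1 _
    · exact (HG.of_dt hM le_rfl (DTle.mono hD (DTle.var γ.1))).mono hq _ _)
    fun u => ∃ U : {U // U ∈ T.toRight.powerset},
      (∀ γ : {γ // γ ∈ T.toRight}, u (.inr γ) ↔ γ.1 ∈ U.1) ∧ u (.inl U)
  refine ⟨_, h1, fun b hb => ?_⟩
  have key : ∀ U : Finset Γ, (∀ γ ∈ T.toRight, b γ = true ↔ γ ∈ U) →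
      ∀ j ∈ T, bit b j = bit (pt U) j := by
    rintro U hU (i | γ) hj
    · rfl
    · rw [bit_inr]
      have := hU γ (by simpa using hj)
      simp only [pt]
      rw [Bool.eq_iff_iff, this]
      simp
  constructor
  · intro hf
    refine ⟨⟨T.toRight.filter fun γ => b γ = true, by simp [filter_subset]⟩, fun γ => ?_, ?_⟩
    · have := γ.2
      simp only [mem_filter, this, true_and]
      exact Iff.rfl
    · refine (hG2 _ b (key _ fun γ hγ => ?_) hb).1 hf
      simp only [mem_filter, hγ, true_and]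
  · rintro ⟨U, h2, h3⟩
    exact (hG2 _ b (key U.1 fun γ hγ => h2 ⟨γ, hγ⟩) hb).2 h3

end

end Pool.Agent.W_MP_5f6b2a_lc.Count
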