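import Pool.Agent.W_MP_5f6b2a_lc.CBlind
import Pool.Agent.W_MP_5f6b2a_lc.CSplit

/-!
The values of the gates of the interpreted circuits, as functions of the labelling.
-/

namespace Pool.Agent.W_MP_5f6b2a_lc.Count

open Logic Logic.Circ Finset

/-- the operation of a kind of gates -/
def op (κ : Logic.Kind) {ι : Type} (w : ι → Prop) : Prop :=
  match κ with
  | .input => False
  | .neg => ∃ i, ¬ w i
  | .conj => ∀ i, w i
  | .disj => ∃ i, w i

theorem op_congr {κ : Logic.Kind} {ι ι' : Type} {w : ι → Prop} {w' : ι' → Prop}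
    (hF : ∀ i, ∃ i', w i ↔ w' i') (hB : ∀ i', ∃ i, w i ↔ w' i') : op κ w ↔ op κ w' := by
  rcases κ with _ | _ | _ | _
  · exact Iff.rfl
  · constructor
    · rintro ⟨i, hi⟩
      obtain ⟨i', h⟩ := hF i
      exact ⟨i', fun h' => hi (h.2 h')⟩
    · rintro ⟨i', hi⟩
      obtain ⟨i, h⟩ := hB i'
      exact ⟨i, fun h' => hi (h.1 h')⟩
  · constructor
    · intro hall i'
      obtain ⟨i, h⟩ := hB i'
      exact h.1 (hall i)
    · intro hall i
      obtain ⟨i', h⟩ := hF i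
      exact h.2 (hall i')
  · constructor
    · rintro ⟨i, hi⟩
      obtain ⟨i', h⟩ := hF i
      exact ⟨i', h.1 hi⟩
    · rintro ⟨i', hi⟩
      obtain ⟨i, h⟩ := hB i'
      exact ⟨i, h.2 hi⟩

theorem val_op {G : Type} {C : Str cVoc G} {v : G → Bool} (hv : IsValuation C v) {κ : Logic.Kind} {g : G}
    (hκ : IsKind C κ g) (hi : κ ≠ Logic.Kind.input) :
    v g = true ↔ op κ fun h : {h // Wire C h g} => v h.1 = true := by
  rcases κ with _ | _ | _ | _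
  · exact absurd rfl hi
  · rw [hv.1 g hκ]
    constructor
    · rintro ⟨h, h1, h2⟩
      exact ⟨⟨h, h1⟩, by simp [h2]⟩
    · rintro ⟨⟨h, h1⟩, h2⟩
      exact ⟨h, h1, by simpa using h2⟩
  · rw [hv.2.1 g hκ]
    constructor
    · intro hall h
      exact hall h.1 h.2
    · intro hall h hw
      exact hall ⟨h, hw⟩
  · rw [hv.2.2 g hκ]
    constructor
    · rintro ⟨h, h1, h2⟩
      exact ⟨⟨h, h1⟩, h2⟩
    · rintro ⟨⟨h, h1⟩, h2⟩
      exact ⟨h, h1, h2⟩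

namespace TSys

variable {k : ℕ} {V Ic Γ F Z : Type} [AddCommGroup V] {m N : ℕ} {Y : TSys k V Ic Γ F m N Z}
  {b b' b₀ : Γ → Bool} {z : Fin (k + 1) → V} {c : Cd Z m k V (Ic ⊕ Γ) F}
  {v : ∀ b, Y.U b → Bool}

/-- the value of the gate with the code `c` -/
def vf (Y : TSys k V Ic Γ F m N Z) (v : ∀ b, Y.U b → Bool) (b : Γ → Bool)
    (c : Cd Z m k V (Ic ⊕ Γ) F) : Prop := ∃ u, Y.Rp b c u ∧ v b u = true

theorem vf_iff {u : Y.U b} (hu : Y.Rp b c u) : Y.vf v b c ↔ v b u = true := by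
  constructor
  · rintro ⟨u', h1, h2⟩
    obtain rfl := Y.fn hu h1
    exact h2
  · exact fun h => ⟨u, hu, h⟩

variable {k' : ℕ} {X : Fin k' → Cd Z m k V (Ic ⊕ Γ) F}

theorem card_X (c : Cd Z m k V (Ic ⊕ Γ) F) [DecidableEq (Ic ⊕ Γ)] :
    (gr c ∪ univ.biUnion fun i => gr (X i)).card ≤ m + k' * m := by
  refine (card_union_le _ _).trans ?_
  have h1 := card_gr_le c
  have h2 : (univ.biUnion fun i => gr (X i)).card ≤ k' * m := by
    refine (card_biUnion_le_card_mul _ _ m fun i _ => card_gr_le _).trans ?_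
    simp
  omega

/-- functions depending only on the labels of `c` and `X` -/
theorem junta_case {M D j : ℕ} (hM : 1 ≤ M) (hD : m + k' * m ≤ D) (P : ∀ b, Y.U b → Prop)
    (X : Fin k' → Cd Z m k V (Ic ⊕ Γ) F)
    (hP : ∀ b b' u u', P b u → P b' u' → Y.Rp b c u → Y.Rp b' c u' →
      (∀ j ∈ gr c, bit b j = bit b' j) → (∀ i, ∀ j ∈ gr (X i), bit b j = bit b' j) →
      v b u = v b' u') :
    ∃ G, HG M D 1 j G ∧ ∀ b, (∃ u, Y.Rp b c u ∧ P b u) → (Y.vf v b c ↔ G b) := by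
  classical
  obtain ⟨G, h1, h2⟩ := exists_dt (gr c ∪ univ.biUnion fun i => gr (X i))
    (fun b => ∃ u, Y.Rp b c u ∧ P b u) (fun b => Y.vf v b c) (by
      rintro b b' ⟨u, h1, h2⟩ ⟨u', h1', h2'⟩ hT hf
      rw [vf_iff h1'] 
      rw [vf_iff h1] at hf
      rw [← hf]
      exact (hP b b' u u' h2 h2' h1 h1' (fun j hj => hT j (mem_union_left _ hj))
        fun i j hj => hT j (mem_union_right _ (mem_biUnion.2 ⟨i, mem_univ _, hj⟩))).symm)
  exact ⟨G, HG.of_dt hM le_rfl (h1.mono ((card_X c).trans hD)), h2⟩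

theorem agree_kind (hb : ∀ j ∈ gr c, bit b j = bit b' j) {u : Y.U b} {u' : Y.U b'}
    (hu : Y.Rp b c u) (hu' : Y.Rp b' c u') (κ : Logic.Kind) :
    IsKind (Y.C b) κ u ↔ IsKind (Y.C b') κ u' :=
  kind_iff (z := 0) (vd_zero hb) hu (by rw [thc_zero]; exact hu') κ

theorem agree_large (hm : 3 * m ≤ k) (hN4 : 4 * m ≤ N) (hb : ∀ j ∈ gr c, bit b j = bit b' j)
    {u : Y.U b} {u' : Y.U b'} (hu : Y.Rp b c u) (hu' : Y.Rp b' c u') :
    Large (Y.C b) u ↔ Large (Y.C b') u' :=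
  (Y.bf hm hN4 b b').large_iff
    (brel_single (z := 0) (vd_zero hb) hu (by rw [thc_zero]; exact hu'))

theorem agree_input (hv : ∀ b, Y.IsV X b (v b)) (hb : ∀ j ∈ gr c, bit b j = bit b' j)
    (hbX : ∀ i, ∀ j ∈ gr (X i), bit b j = bit b' j) {u : Y.U b} {u' : Y.U b'}
    (hu : Y.Rp b c u) (hu' : Y.Rp b' c u') (hi : IsKind (Y.C b) Logic.Kind.input u) :
    v b u = v b' u' := by
  have hi' := (agree_kind hb hu hu' _).1 hi
  have key : ∀ (b b' : Γ → Bool) (u : Y.U b) (u' : Y.U b'), (∀ j ∈ gr c, bit b j = bit b' j) →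
      (∀ i, ∀ j ∈ gr (X i), bit b j = bit b' j) → Y.Rp b c u → Y.Rp b' c u' →
      u ∈ Y.XS X b → u' ∈ Y.XS X b' := by
    rintro b b' u u' hb hbX hu hu' ⟨i, hi⟩
    have hz : Y.Vd b b' 0 (X i) := vd_zero (hbX i)
    obtain ⟨w, hw⟩ := Y.exi hz hi
    have e : u' = w := Y.eq (z := 0) (vd_zero hb) hz hu hi (by rw [thc_zero]; exact hu') hw
    subst e
    rw [thc_zero] at hw
    exact ⟨i, hw⟩
  rw [Bool.eq_iff_iff, (hv b).2 u hi, (hv b').2 u' hi']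
  exact ⟨key b b' u u' hb hbX hu hu', key b' b u' u (fun j hj => (hb j hj).symm)
    (fun i j hj => (hbX i j hj).symm) hu' hu⟩

/-- small gates -/
theorem case_small (hm : 3 * m ≤ k) (hN4 : 4 * m ≤ N) {M D q n s : ℕ} (hM : 1 ≤ M) (hD : 1 ≤ D)
    (hq : 1 ≤ q) (hcor : ∀ b, Correct (Y.C b)) (hv : ∀ b, Y.IsV X b (v b))
    (ih : ∀ c, ∃ G, HG M D q (s - 1) G ∧ ∀ b, (∃ u, Y.Rp b c u ∧ Ev (Y.C b) n s u) →
      (Y.vf v b c ↔ G b))
    {u₀ : Y.U b₀} (h0 : Y.Rp b₀ c u₀) {κ : Logic.Kind} (hκ : IsKind (Y.C b₀) κ u₀)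
    (hκi : κ ≠ Logic.Kind.input) (hf : fanIn (Y.C b₀) u₀ ≤ 2) :
    ∃ G, HG M D ((2 ^ (3 * m) + 3 * m) * (2 * q)) (s - 1) G ∧ ∀ b,
      ((∀ j ∈ gr c, bit b₀ j = bit b j) ∧ ∃ u, Y.Rp b c u ∧ Ev (Y.C b) (n + 1) s u) →
      (Y.vf v b c ↔ G b) := by
  classical
  choose cd hcd using Y.surj b₀
  let Ps := {h // Wire (Y.C b₀) h u₀}
  have : Fintype Ps := Fintype.ofFinite _
  have hPs : Fintype.card Ps ≤ 2 := by
    rw [← Nat.card_eq_fintype_card]
    exact hf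
  have hT : (gr c ∪ univ.biUnion fun h : Ps => gr (cd h.1)).card ≤ 3 * m := by
    refine (card_union_le _ _).trans ?_
    have h1 := card_gr_le c
    have h2 : (univ.biUnion fun h : Ps => gr (cd h.1)).card ≤ 2 * m := by
      refine (card_biUnion_le_card_mul _ _ m fun i _ => card_gr_le _).trans ?_
      rw [card_univ]
      exact Nat.mul_le_mul_right _ hPs
    omega
  refine HG.split hM hD (by omega) _ hT _ _ fun σ => ?_
  by_cases hσ : ∀ j ∈ gr c, bit b₀ j = bit σ j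
  · obtain ⟨ζ, hζ⟩ := Y.pat _ (hT.trans (by omega)) fun j => bit b₀ j + bit σ j
    have hζc : ∀ j ∈ gr c, Y.φ j ζ = 0 := by
      intro j hj
      rw [hζ j (mem_union_left _ hj), hσ j hj, add_self_zmod]
    obtain ⟨v₀, hv₀⟩ : ∃ v₀ : Fin (k + 1), v₀ ∉ sr c := by
      by_contra hcon
      push Not at hcon
      have h1 : (univ : Finset (Fin (k + 1))) ⊆ sr c := fun v _ => hcon v
      have h2 := card_le_card h1
      have h3 := card_sr_le c
      rw [card_univ, Fintype.card_fin] at h2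
      omega
    have hcz : thc Y.φ (sh 0 v₀ ζ) c = c := by
      rw [thc_sh Y.φ 0 v₀ ζ c hv₀ hζc, thc_zero]
    choose G hG1 hG2 using fun h : Ps => ih (thc Y.φ (sh 0 v₀ ζ) (cd h.1))
    refine ⟨_, HG.betaι hPs hG1 fun w => op κ w, ?_⟩
    rintro b hb ⟨hb0, u, hu, hev⟩
    have hmis : ∀ j ∈ gr c ∪ univ.biUnion (fun h : Ps => gr (cd h.1)),
        mis Y.φ b₀ b (sh 0 v₀ ζ) j = 0 := by
      intro j hj
      rw [mis_sh, hζ j hj]
      have : mis Y.φ b₀ b (0 : Fin (k + 1) → V) j = bit b₀ j + bit b j := by simp [mis]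
      rw [this, hb j hj, add_self_zmod]
    have hVc : Y.Vd b₀ b (sh 0 v₀ ζ) c := fun j hj => hmis j (mem_union_left _ hj)
    have hVh : ∀ h : Ps, Y.Vd b₀ b (sh 0 v₀ ζ) (cd h.1) := fun h j hj =>
      hmis j (mem_union_right _ (mem_biUnion.2 ⟨h, mem_univ _, hj⟩))
    have hu' : Y.Rp b (thc Y.φ (sh 0 v₀ ζ) c) u := by rw [hcz]; exact hu
    have hκ' := (kind_iff hVc h0 hu' κ).1 hκ
    have key : ∀ (h : Ps) (h' : Y.U b), Wire (Y.C b) h' u →
        Y.Rp b (thc Y.φ (sh 0 v₀ ζ) (cd h.1)) h' → (v b h' = true ↔ G h b) := by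
      intro h h' hw hh'
      rw [← vf_iff hh']
      exact hG2 h b ⟨h', hh', (hev.pred (hcor b) hw).2.1⟩
    rw [vf_iff hu, val_op (hv b).1 hκ' hκi]
    refine op_congr ?_ ?_
    · rintro ⟨h', hw⟩
      obtain ⟨h, h1, h2⟩ := small_back hm hN4 hVc h0 hu' hf cd
        (fun h hh => ⟨hcd h, hVh ⟨h, hh⟩⟩) hw
      exact ⟨⟨h, h1⟩, key ⟨h, h1⟩ h' hw h2⟩
    · intro h
      obtain ⟨h', hh'⟩ := Y.exi (hVh h) (hcd h.1)
      have hw := (wire_iff (hVh h) hVc (hcd h.1) h0 hh' hu').1 h.2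
      exact ⟨⟨h', hw⟩, key h h' hw hh'⟩
  · refine ⟨fun _ => False, (HG.of_dt hM le_rfl (DTle.const _ _)).mono (by omega) _ _, ?_⟩
    rintro b hb ⟨hb0, -⟩
    exact absurd (fun j hj => (hb0 j hj).trans (hb j (mem_union_left _ hj))) hσ

/-- large gates -/
theorem case_large {M D q n s : ℕ} (hM : 1 ≤ M) (hD : 2 * m ≤ D)
    (hq : 1 ≤ q) (hm : 3 * m ≤ k) (hN4 : 4 * m ≤ N) (hcor : ∀ b, Correct (Y.C b))
    (hv : ∀ b, Y.IsV X b (v b)) {Ix : Type}
    [Fintype Ix] (hIx : Fintype.card Ix ≤ M) (fam : Ix → Cd Z m k V (Ic ⊕ Γ) F)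
    (hfam : ∀ b u, ∃ i, Y.Rp b (fam i) u)
    (ih : ∀ c, ∃ G, HG M D q (s - 1) G ∧ ∀ b, (∃ u, Y.Rp b c u ∧ Ev (Y.C b) n s u) →
      (Y.vf v b c ↔ G b))
    {u₀ : Y.U b₀} (h0 : Y.Rp b₀ c u₀) (hl : Large (Y.C b₀) u₀) :
    ∃ G, HG M D (2 * q) (s - 1 + 1) G ∧ ∀ b,
      ((∀ j ∈ gr c, bit b₀ j = bit b j) ∧ ∃ u, Y.Rp b c u ∧ Ev (Y.C b) (n + 1) (s + 1) u) →
      (Y.vf v b c ↔ G b) := by
  classical
  have hW : ∀ i : Ix, ∃ W, DTle D W ∧ ∀ b, (∃ h u, Y.Rp b (fam i) h ∧ Y.Rp b c u ∧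
      Wire (Y.C b) h u) ↔ W b := by
    intro i
    obtain ⟨W, h1, h2⟩ := exists_dt (gr (fam i) ∪ gr c) (fun _ => True)
      (fun b => ∃ h u, Y.Rp b (fam i) h ∧ Y.Rp b c u ∧ Wire (Y.C b) h u) (by
        rintro b b' - - hT ⟨h, u, h1, h2, h3⟩
        have hz1 : Y.Vd b b' 0 (fam i) := vd_zero fun j hj => hT j (mem_union_left _ hj)
        have hz2 : Y.Vd b b' 0 c := vd_zero fun j hj => hT j (mem_union_right _ hj)
        obtain ⟨h', hh'⟩ := Y.exi hz1 h1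
        obtain ⟨u', hu'⟩ := Y.exi hz2 h2
        have h4 := (wire_iff hz1 hz2 h1 h2 hh' hu').1 h3
        rw [thc_zero] at hh' hu'
        exact ⟨h', u', hh', hu', h4⟩)
    refine ⟨W, h1.mono ?_, fun b => h2 b trivial⟩
    have := card_union_le (gr (fam i)) (gr c)
    have := card_gr_le (fam i)
    have := card_gr_le c
    omega
  choose W hW1 hW2 using hW
  choose G hG1 hG2 using fun i : Ix => ih (fam i)
  -- the predecessors
  have key : ∀ b u, Y.Rp b c u → (∀ j ∈ gr c, bit b₀ j = bit b j) → Ev (Y.C b) (n + 1) (s + 1) u →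
      ∀ i h, Y.Rp b (fam i) h → Wire (Y.C b) h u → (W i b ∧ (v b h = true ↔ G i b)) := by
    intro b u hu hb hev i h hh hw
    refine ⟨(hW2 i b).1 ⟨h, u, hh, hu, hw⟩, ?_⟩
    rw [← vf_iff hh]
    have hl' := (agree_large hm hN4 hb h0 hu).1 hl
    exact hG2 i b ⟨h, hh, ((hev.pred (hcor b) hw).2.2 hl').2⟩
  have key2 : ∀ b u, Y.Rp b c u → ∀ i, W i b → ∃ h, Y.Rp b (fam i) h ∧ Wire (Y.C b) h u := by
    intro b u hu i hi
    obtain ⟨h, u', h1, h2, h3⟩ := (hW2 i b).2 hi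
    obtain rfl := Y.fn hu h2
    exact ⟨h, h1, h3⟩
  rcases hl.1 with hκ | hκ
  · refine ⟨_, (HG.or (by omega : 1 ≤ 2 * q) hIx fun i => (HG.and hq hM (hW1 i) (hG1 i).not)).not, ?_⟩
    rintro b ⟨hb, u, hu, hev⟩
    have hκ' := (agree_kind hb h0 hu _).1 hκ
    rw [vf_iff hu, (hv b).1.2.1 u hκ']
    constructor
    · rintro hall ⟨i, hi, hni⟩
      obtain ⟨h, h1, h2⟩ := key2 b u hu i hi
      exact hni ((key b u hu hb hev i h h1 h2).2.1 (hall h h2))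
    · intro hall h hw
      obtain ⟨i, hi⟩ := hfam b h
      obtain ⟨h1, h2⟩ := key b u hu hb hev i h hi hw
      by_contra hcon
      exact hall ⟨i, h1, fun h3 => hcon (h2.2 h3)⟩
  · refine ⟨_, (HG.or (by omega : 1 ≤ 2 * q) hIx fun i => (HG.and hq hM (hW1 i) (hG1 i))), ?_⟩
    rintro b ⟨hb, u, hu, hev⟩
    have hκ' := (agree_kind hb h0 hu _).1 hκ
    rw [vf_iff hu, (hv b).1.2.2 u hκ']
    constructor
    · rintro ⟨h, hw, hval⟩
      obtain ⟨i, hi⟩ := hfam b h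
      obtain ⟨h1, h2⟩ := key b u hu hb hev i h hi hw
      exact ⟨i, h1, h2.1 hval⟩
    · rintro ⟨i, hi, hgi⟩
      obtain ⟨h, h1, h2⟩ := key2 b u hu i hi
      exact ⟨h, h2, (key b u hu hb hev i h h1 h2).2.2 hgi⟩

/-- the sizes of the Boolean combinations -/
def qn (B : ℕ) : ℕ → ℕ
  | 0 => B
  | n + 1 => B * (B * (2 * qn B n))

theorem qn_pos {B : ℕ} (hB : 1 ≤ B) (n : ℕ) : 1 ≤ qn B n := by
  induction n with
  | zero => exact hB
  | succ n ih => exact Nat.mul_pos hB (Nat.mul_pos hB (by omega))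

theorem aware (hm : 3 * m ≤ k) (hN4 : 4 * m ≤ N) {M D d : ℕ} (hM : 1 ≤ M)
    (hD1 : 1 ≤ D) (hD2 : 2 * m ≤ D) (hD : m + k' * m ≤ D)
    (hk : m + 2 ^ (d + 1) * m ≤ k) (hN : m + k' * m + 2 ^ (d + 1) * m ≤ N)
    (hcor : ∀ b, Correct (Y.C b)) (hv : ∀ b, Y.IsV X b (v b)) {Ix : Type}
    [Fintype Ix] (hIx : Fintype.card Ix ≤ M) (fam : Ix → Cd Z m k V (Ic ⊕ Γ) F)
    (hfam : ∀ b u, ∃ i, Y.Rp b (fam i) u) (n : ℕ) : n ≤ d → ∀ s c,
    ∃ G, HG M D (qn (2 ^ (3 * m) + 3 * m) n) (s - 1) G ∧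
      ∀ b, (∃ u, Y.Rp b c u ∧ Ev (Y.C b) n s u) → (Y.vf v b c ↔ G b) := by
  classical
  have hB1 : 1 ≤ 2 ^ (3 * m) + 3 * m := by
    have : 1 ≤ 2 ^ (3 * m) := Nat.one_le_two_pow
    omega
  have hB2 : 2 ^ m + m ≤ 2 ^ (3 * m) + 3 * m := by
    have : 2 ^ m ≤ 2 ^ (3 * m) := Nat.pow_le_pow_right (by norm_num) (by omega)
    omega
  have hfalse : ∀ (j q : ℕ), 1 ≤ q → HG M D q j (fun _ : Γ → Bool => False) := fun j q hq =>
    (HG.of_dt hM le_rfl (DTle.const _ _)).mono hq _ _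
  -- the case of an input
  have hinput : ∀ (n s : ℕ) (c : Cd Z m k V (Ic ⊕ Γ) F) (b₀ : Γ → Bool) (u₀ : Y.U b₀),
      Y.Rp b₀ c u₀ → IsKind (Y.C b₀) Logic.Kind.input u₀ → ∃ G, HG M D 1 (s - 1) G ∧ ∀ b,
      ((∀ j ∈ gr c, bit b₀ j = bit b j) ∧ ∃ u, Y.Rp b c u ∧ Ev (Y.C b) n s u) →
      (Y.vf v b c ↔ G b) := by
    intro n s c b₀ u₀ h0 hi
    obtain ⟨G, h1, h2⟩ := junta_case (v := v) (j := s - 1) hM hD
      (fun b (_ : Y.U b) => ∀ j ∈ gr c, bit b₀ j = bit b j) X (c := c) (by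
        intro b b' u u' hb hb' hu hu' e1 e2
        exact agree_input hv e1 e2 hu hu' ((agree_kind hb h0 hu _).1 hi))
    exact ⟨G, h1, fun b ⟨hb, u, hu, _⟩ => h2 b ⟨u, hu, hb⟩⟩
  induction n with
  | zero =>
    intro _ s c
    obtain ⟨G, h1, h2⟩ := HG.split hM hD1 (q := 1) le_rfl (j := s - 1) (gr c) (card_gr_le c)
      (fun b => ∃ u, Y.Rp b c u ∧ Ev (Y.C b) 0 s u) (fun b => Y.vf v b c) (by
        intro π
        by_cases hex : ∃ b₀ u₀, (∀ j ∈ gr c, bit b₀ j = bit π j) ∧ Y.Rp b₀ c u₀ ∧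
          Ev (Y.C b₀) 0 s u₀
        · obtain ⟨b₀, u₀, e1, e2, e3⟩ := hex
          have hi : IsKind (Y.C b₀) Logic.Kind.input u₀ := by
            by_contra hi
            obtain ⟨h, hh⟩ := fanIn_pos (hcor b₀) hi
            have := (e3.pred (hcor b₀) hh).1
            omega
          obtain ⟨G, h1, h2⟩ := hinput 0 s c b₀ u₀ e2 hi
          exact ⟨G, h1, fun b hb hP => h2 b ⟨fun j hj => (e1 j hj).trans (hb j hj).symm, hP⟩⟩
        · refine ⟨fun _ => False, hfalse _ _ le_rfl, fun b hb ⟨u, hu, hev⟩ => ?_⟩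
          exact absurd ⟨b, u, hb, hu, hev⟩ hex)
    refine ⟨G, h1.mono ?_ _ _, h2⟩
    simp only [qn]
    omega
  | succ n ih =>
    intro hn s c
    have ih' := ih (by omega)
    set q := qn (2 ^ (3 * m) + 3 * m) n with hq
    have hq1 : 1 ≤ q := qn_pos hB1 n
    have hBq : 1 ≤ (2 ^ (3 * m) + 3 * m) * (2 * q) := Nat.mul_pos hB1 (by omega)
    obtain ⟨G, h1, h2⟩ := HG.split hM hD1 (q := (2 ^ (3 * m) + 3 * m) * (2 * q)) hBq
      (j := s - 1) (gr c) (card_gr_le c)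
      (fun b => ∃ u, Y.Rp b c u ∧ Ev (Y.C b) (n + 1) s u) (fun b => Y.vf v b c) (by
        intro π
        by_cases hex : ∃ b₀ u₀, (∀ j ∈ gr c, bit b₀ j = bit π j) ∧ Y.Rp b₀ c u₀ ∧
          Ev (Y.C b₀) (n + 1) s u₀
        swap
        · refine ⟨fun _ => False, hfalse _ _ hBq, fun b hb ⟨u, hu, hev⟩ => ?_⟩
          exact absurd ⟨b, u, hb, hu, hev⟩ hex
        obtain ⟨b₀, u₀, e1, e2, e3⟩ := hex
        suffices hs : ∃ G, HG M D ((2 ^ (3 * m) + 3 * m) * (2 * q)) (s - 1) G ∧ ∀ b,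
            ((∀ j ∈ gr c, bit b₀ j = bit b j) ∧ ∃ u, Y.Rp b c u ∧ Ev (Y.C b) (n + 1) s u) →
            (Y.vf v b c ↔ G b) by
          obtain ⟨G, h1, h2⟩ := hs
          exact ⟨G, h1, fun b hb hP => h2 b ⟨fun j hj => (e1 j hj).trans (hb j hj).symm, hP⟩⟩
        by_cases hi : IsKind (Y.C b₀) Logic.Kind.input u₀
        · obtain ⟨G, h1, h2⟩ := hinput (n + 1) s c b₀ u₀ e2 hi
          exact ⟨G, h1.mono hBq _ _, h2⟩
        by_cases hl : Large (Y.C b₀) u₀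
        · obtain ⟨h, hh⟩ := fanIn_pos (hcor b₀) hi
          have hs1 := ((e3.pred (hcor b₀) hh).2.2 hl).1
          obtain ⟨s', rfl⟩ : ∃ s', s = s' + 1 := ⟨s - 1, by omega⟩
          rcases Nat.eq_zero_or_pos s' with rfl | hs'
          · -- blind
            obtain ⟨G, h1, h2⟩ := junta_case (v := v) (j := 0 + 1 - 1) hM hD
              (fun b (u : Y.U b) => (∀ j ∈ gr c, bit b₀ j = bit b j) ∧ Ev (Y.C b) (n + 1) (0 + 1) u)
              X (c := c) (by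
                rintro b b' u u' ⟨hb, hev⟩ ⟨hb', hev'⟩ hu hu' g1 g2
                have hlb := (agree_large hm hN4 hb e2 hu).1 hl
                have hlb' := (agree_large hm hN4 hb' e2 hu').1 hl
                have hib : ¬ IsKind (Y.C b) Logic.Kind.input u := fun h =>
                  hi ((agree_kind hb e2 hu _).2 h)
                have hpow : 2 ^ (n + 1) * m ≤ 2 ^ (d + 1) * m :=
                  Nat.mul_le_mul_right _ (Nat.pow_le_pow_right (by norm_num) (by omega))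
                exact blind (n := n) hm hN4 (by omega) (by omega) g1 g2 hu hu' (hcor b) (hcor b')
                  (hv b) (hv b') hib
                  (fun h hw => ((hev.pred (hcor b) hw).2.2 hlb).2)
                  (fun h hw => ((hev'.pred (hcor b') hw).2.2 hlb').2))
            exact ⟨G, h1.mono hBq _ _, fun b ⟨hb, u, hu, hev⟩ => h2 b ⟨u, hu, hb, hev⟩⟩
          · obtain ⟨G, h1, h2⟩ := case_large hM hD2 hq1 hm hN4 hcor hv hIx fam hfam (ih' s') e2 hl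
            refine ⟨G, ?_, h2⟩
            have e : s' + 1 - 1 = s' - 1 + 1 := by omega
            rw [e]
            refine h1.mono ?_ _ _
            exact Nat.le_mul_of_pos_left _ hB1
        · obtain ⟨κ, hκ, -⟩ := (hcor b₀).1 u₀
          refine case_small hm hN4 hM hD1 hq1 hcor hv (ih' s) e2 hκ ?_
            (fanIn_le_two (hcor b₀) hi hl)
          rintro rfl
          exact hi hκ)
    refine ⟨G, h1.mono ?_ _ _, h2⟩
    simp only [qn]
    exact Nat.mul_le_mul_right _ hB2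

end TSys

end Pool.Agent.W_MP_5f6b2a_lc.Count
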