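import Mathlib

/-!
Finite structures, parameterized problems on structures, circuits as structures, weighted
satisfiability.
-/

namespace Pool.Agent.W_MP_5f6b2a_lc.Logic

/-! ### Structures -/

/-- A finite relational vocabulary. -/
structure Voc where
  /-- the relation symbols -/
  R : Type
  /-- their arities -/
  ar : R → ℕ
  fin : Finite R

/-- A structure of vocabulary `L` with universe `A`. -/
structure Str (L : Voc) (A : Type) where
  rel : (r : L.R) → (Fin (L.ar r) → A) → Prop

/-- The image of a structure under a bijection. -/
def Str.map {L : Voc} {A B : Type} (S : Str L A) (e : A ≃ B) : Str L B :=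
  ⟨fun r x => S.rel r fun i => e.symm (x i)⟩

/-! ### Parameterized problems -/

/-- A parameterized problem on finite structures: `Q S k` says that the structure `S` with the
parameter `k` is a yes-instance. -/
structure Problem where
  L : Voc
  Q : {A : Type} → [Finite A] → Str L A → ℕ → Prop
  iso : ∀ {A B : Type} [Finite A] [Finite B] (e : A ≃ B) (S : Str L A) (k : ℕ),
    Q (S.map e) k ↔ Q S k

/-! ### Circuits -/

/-- The kinds of gates. -/
inductive Kind
  | input
  | neg
  | conj
  | disj
  deriving DecidableEq

instance : Finite Kind :=
  Finite.of_injective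
    (fun κ => match κ with
      | .input => (0 : Fin 4)
      | .neg => 1
      | .conj => 2
      | .disj => 3)
    (by intro a b h; cases a <;> cases b <;> simp_all)

/-- The relation symbols of the vocabulary of circuits. -/
inductive CSym
  | kind (κ : Kind)
  | out
  | wire
  deriving DecidableEq

instance : Finite CSym :=
  Finite.of_injective
    (fun s => match s with
      | .kind κ => (some (some κ) : Option (Option Kind))
      | .out => some none
      | .wire => none)
    (by intro a b h; cases a <;> cases b <;> simp_all)

/-- The vocabulary of circuits: a unary symbol for every kind of gates, a unary symbol for the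
output and a binary symbol for the wires. -/
def cVoc : Voc where
  R := CSym
  ar
    | .kind _ => 1
    | .out => 1
    | .wire => 2
  fin := inferInstance

namespace Circ

variable {G : Type} (C : Str cVoc G)

/-- `g` is a gate of kind `κ`. -/
def IsKind (κ : Kind) (g : G) : Prop := C.rel (CSym.kind κ : CSym) fun _ => g

/-- `g` is the output. -/
def IsOut (g : G) : Prop := C.rel (CSym.out : CSym) fun _ => g

/-- The gate `h` feeds the gate `g`. -/
def Wire (h g : G) : Prop := C.rel (CSym.wire : CSym) (![h, g] : Fin 2 → G)

/-- Fan-in. -/
noncomputable def fanIn (g : G) : ℕ := {h | Wire C h g}.ncard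

/-- Correct circuits: every gate has exactly one kind, there is exactly one output, there is no
directed cycle, inputs have fan-in `0`, negations fan-in `1`, AND and OR gates fan-in at
least `1`. -/
def Correct : Prop :=
  (∀ g, ∃! κ, IsKind C κ g) ∧ (∃! g, IsOut C g) ∧ WellFounded (Wire C) ∧
  (∀ g, IsKind C Kind.input g → fanIn C g = 0) ∧
  (∀ g, IsKind C Kind.neg g → fanIn C g = 1) ∧
  (∀ g, (IsKind C Kind.conj g ∨ IsKind C Kind.disj g) → 1 ≤ fanIn C g)

/-- Large gates: AND and OR gates of fan-in more than two. -/
def Large (g : G) : Prop := (IsKind C Kind.conj g ∨ IsKind C Kind.disj g) ∧ 2 < fanIn C g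

/-- `p` lists the gates of a path from an input to the output. -/
def IsPath (p : List G) : Prop :=
  p.IsChain (Wire C) ∧ (∃ g, p.head? = some g ∧ IsKind C Kind.input g) ∧
    ∃ g, p.getLast? = some g ∧ IsOut C g

open Classical in
/-- The class `C_{t,d}`: circuits of weft at most `t` and depth at most `d`. -/
def InClass (t d : ℕ) : Prop :=
  Correct C ∧ ∀ p, IsPath C p → p.length ≤ d + 1 ∧ (p.filter fun g => decide (Large C g)).length ≤ t

/-- `v` assigns to every gate its value; the values at the inputs are the assignment. -/
def IsValuation (v : G → Bool) : Prop :=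
  (∀ g, IsKind C Kind.neg g → (v g = true ↔ ∃ h, Wire C h g ∧ v h = false)) ∧
  (∀ g, IsKind C Kind.conj g → (v g = true ↔ ∀ h, Wire C h g → v h = true)) ∧
  (∀ g, IsKind C Kind.disj g → (v g = true ↔ ∃ h, Wire C h g ∧ v h = true))

/-- `C` has a satisfying assignment which sets exactly `k` inputs to true. -/
def WSat (k : ℕ) : Prop :=
  ∃ v, IsValuation C v ∧ (∀ g, IsOut C g → v g = true) ∧
    {g | IsKind C Kind.input g ∧ v g = true}.ncard = k

end Circ

end Pool.Agent.W_MP_5f6b2a_lc.Logic
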