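import Pool.Agent.W_MP_5f6b2a_lc.CProb

/-!
Circuits as structures: evaluation, gates below a gate.
-/

namespace Pool.Agent.W_MP_5f6b2a_lc.Count

open Logic Logic.Circ

variable {G : Type}

open Classical in
/-- depth at most `n` and weft at most `s` below the gate `e` -/
def Ev (C : Str cVoc G) (n s : ℕ) (e : G) : Prop :=
  ∀ p : List G, p.IsChain (Wire C) → (∃ g, p.head? = some g ∧ IsKind C Kind.input g) →
    p.getLast? = some e → p.length ≤ n + 1 ∧ (p.filter fun g => decide (Large C g)).length ≤ s

theorem fanIn_pos {C : Str cVoc G} [Finite G] (hc : Correct C) {g : G}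
    (hg : ¬ IsKind C Kind.input g) : ∃ h, Wire C h g := by
  have h1 : 1 ≤ fanIn C g := by
    obtain ⟨κ, hκ, -⟩ := hc.1 g
    rcases κ with _ | _ | _ | _
    · exact absurd hκ hg
    · rw [hc.2.2.2.2.1 g hκ]
    · exact hc.2.2.2.2.2 g (Or.inl hκ)
    · exact hc.2.2.2.2.2 g (Or.inr hκ)
  have h2 : {h | Wire C h g}.Nonempty := Set.nonempty_of_ncard_ne_zero (by unfold fanIn at h1; omega)
  exact h2

theorem exists_path {C : Str cVoc G} [Finite G] (hc : Correct C) (g : G) :
    ∃ p : List G, p.IsChain (Wire C) ∧ (∃ g, p.head? = some g ∧ IsKind C Kind.input g) ∧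
      p.getLast? = some g := by
  induction g using hc.2.2.1.induction with
  | _ g ih =>
    by_cases hg : IsKind C Kind.input g
    · exact ⟨[g], by simp, ⟨g, rfl, hg⟩, rfl⟩
    · obtain ⟨h, hh⟩ := fanIn_pos hc hg
      obtain ⟨p, h1, ⟨g', h2, h3⟩, h4⟩ := ih h hh
      refine ⟨p ++ [g], ?_, ⟨g', ?_, h3⟩, by simp⟩
      · rw [List.isChain_append]
        refine ⟨h1, by simp, ?_⟩
        intro x hx y hy
        simp only [h4, Option.mem_def, Option.some.injEq, List.head?_cons] at hx hy
        subst hx
        subst hy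
        exact hh
      · rw [List.head?_append, h2]
        rfl

theorem Ev.pred {C : Str cVoc G} [Finite G] (hc : Correct C) {n s : ℕ} {e h : G} (he : Ev C n s e)
    (hw : Wire C h e) : 1 ≤ n ∧ Ev C (n - 1) s h ∧ (Large C e → 1 ≤ s ∧ Ev C (n - 1) (s - 1) h) := by
  classical
  have key : ∀ p : List G, p.IsChain (Wire C) →
      (∃ g, p.head? = some g ∧ IsKind C Kind.input g) → p.getLast? = some h →
      p.length + 1 ≤ n + 1 ∧ 1 ≤ p.length ∧
      ((p.filter fun g => decide (Large C g)).length + (if Large C e then 1 else 0)) ≤ s := by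
    intro p h1 h2 h3
    have h4 := he (p ++ [e]) (by
      rw [List.isChain_append]
      refine ⟨h1, by simp, ?_⟩
      intro x hx y hy
      simp only [h3, Option.mem_def, Option.some.injEq, List.head?_cons] at hx hy
      subst hx
      subst hy
      exact hw) (by
      obtain ⟨g, hg, hk⟩ := h2
      refine ⟨g, ?_, hk⟩
      rw [List.head?_append, hg]
      rfl) (by simp)
    rw [List.length_append, List.filter_append, List.length_append, List.length_singleton] at h4
    refine ⟨h4.1, ?_, ?_⟩
    · rcases p with _ | ⟨x, p⟩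
      · simp at h3
      · simp
    · refine le_trans (le_of_eq ?_) h4.2
      congr 1
      by_cases hl : Large C e <;> simp [hl]
  obtain ⟨p, h1, h2, h3⟩ := exists_path hc h
  have h4 := key p h1 h2 h3
  refine ⟨by omega, fun q g1 g2 g3 => ?_, fun hl => ⟨?_, fun q g1 g2 g3 => ?_⟩⟩
  · have h5 := key q g1 g2 g3
    constructor <;> omega
  · rw [if_pos hl] at h4
    omega
  · have h5 := key q g1 g2 g3
    rw [if_pos hl] at h5
    constructor <;> omega

open Classical in
theorem exists_valuation {C : Str cVoc G} (hc : Correct C) (X : Set G) :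
    ∃ v : G → Bool, IsValuation C v ∧ ∀ g, IsKind C Kind.input g → (v g = true ↔ g ∈ X) := by
  let F : (g : G) → ((h : G) → Wire C h g → Bool) → Bool := fun g w =>
    decide ((IsKind C Kind.input g ∧ g ∈ X) ∨
      (IsKind C Kind.neg g ∧ ∃ h, ∃ hh : Wire C h g, w h hh = false) ∨
      (IsKind C Kind.conj g ∧ ∀ h, ∀ hh : Wire C h g, w h hh = true) ∨
      (IsKind C Kind.disj g ∧ ∃ h, ∃ hh : Wire C h g, w h hh = true))
  let v : G → Bool := hc.2.2.1.fix F
  have hv : ∀ g, v g = F g fun h _ => v h := fun g => hc.2.2.1.fix_eq F g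
  have hu : ∀ g κ κ', IsKind C κ g → IsKind C κ' g → κ = κ' := fun g κ κ' h1 h2 =>
    (hc.1 g).unique h1 h2
  refine ⟨v, ⟨fun g hg => ?_, fun g hg => ?_, fun g hg => ?_⟩, fun g hg => ?_⟩
  · rw [hv g]
    simp only [F, decide_eq_true_eq]
    have h1 : ¬ IsKind C Kind.input g := fun h => by simpa using hu g _ _ hg h
    have h2 : ¬ IsKind C Kind.conj g := fun h => by simpa using hu g _ _ hg h
    have h3 : ¬ IsKind C Kind.disj g := fun h => by simpa using hu g _ _ hg h
    simp [hg, h1, h2, h3]
  · rw [hv g]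
    simp only [F, decide_eq_true_eq]
    have h1 : ¬ IsKind C Kind.input g := fun h => by simpa using hu g _ _ hg h
    have h2 : ¬ IsKind C Kind.neg g := fun h => by simpa using hu g _ _ hg h
    have h3 : ¬ IsKind C Kind.disj g := fun h => by simpa using hu g _ _ hg h
    simp [hg, h1, h2, h3]
  · rw [hv g]
    simp only [F, decide_eq_true_eq]
    have h1 : ¬ IsKind C Kind.input g := fun h => by simpa using hu g _ _ hg h
    have h2 : ¬ IsKind C Kind.conj g := fun h => by simpa using hu g _ _ hg h
    have h3 : ¬ IsKind C Kind.neg g := fun h => by simpa using hu g _ _ hg h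
    simp [hg, h1, h2, h3]
  · rw [hv g]
    simp only [F, decide_eq_true_eq]
    have h1 : ¬ IsKind C Kind.neg g := fun h => by simpa using hu g _ _ hg h
    have h2 : ¬ IsKind C Kind.conj g := fun h => by simpa using hu g _ _ hg h
    have h3 : ¬ IsKind C Kind.disj g := fun h => by simpa using hu g _ _ hg h
    simp [hg, h1, h2, h3]

theorem val_step {G' : Type} {C : Str cVoc G} {C' : Str cVoc G'} {v : G → Bool} {v' : G' → Bool}
    (hc : Correct C) (hv : IsValuation C v) (hv' : IsValuation C' v') {e : G} {e' : G'}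
    (hk : ∀ κ, IsKind C κ e ↔ IsKind C' κ e') (hi : ¬ IsKind C Kind.input e)
    (hF : ∀ h, Wire C h e → ∃ h', Wire C' h' e' ∧ v h = v' h')
    (hB : ∀ h', Wire C' h' e' → ∃ h, Wire C h e ∧ v h = v' h') : v e = v' e' := by
  have key : ∀ b, (∃ h, Wire C h e ∧ v h = b) ↔ (∃ h', Wire C' h' e' ∧ v' h' = b) := by
    intro b
    constructor
    · rintro ⟨h, h1, h2⟩
      obtain ⟨h', h3, h4⟩ := hF h h1
      exact ⟨h', h3, by rw [← h4, h2]⟩
    · rintro ⟨h', h1, h2⟩
      obtain ⟨h, h3, h4⟩ := hB h' h1
      exact ⟨h, h3, by rw [h4, h2]⟩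
  obtain ⟨κ, hκ, -⟩ := hc.1 e
  rcases κ with _ | _ | _ | _
  · exact absurd hκ hi
  · rw [Bool.eq_iff_iff, hv.1 e hκ, hv'.1 e' ((hk _).1 hκ)]
    exact key false
  · rw [Bool.eq_iff_iff, hv.2.1 e hκ, hv'.2.1 e' ((hk _).1 hκ)]
    have h1 := key false
    rw [← not_iff_not] at h1
    push Not at h1
    simpa using h1
  · rw [Bool.eq_iff_iff, hv.2.2 e hκ, hv'.2.2 e' ((hk _).1 hκ)]
    exact key true

theorem chain_count {G : Type} {r : G → G → Prop} {P : G → Bool} {ρ : G → ℕ}
    (h : ∀ g g', r g g' → ρ g + (if P g' then 1 else 0) ≤ ρ g') (c : ℕ) (p : List G) :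
    p.IsChain r → (∀ g, p.head? = some g → (if P g then 1 else 0) ≤ ρ g + c) →
    ∀ e, p.getLast? = some e → (p.filter P).length ≤ ρ e + c := by
  induction p using List.reverseRecOn with
  | nil => intro _ _ e he; simp at he
  | append_singleton p x ih =>
    intro hch hh e he
    simp only [List.getLast?_append, List.getLast?_singleton, Option.some_or,
      Option.some.injEq] at he
    subst he
    rw [List.isChain_append] at hch
    rw [List.filter_append, List.length_append]
    have hx : ([x].filter P).length = if P x then 1 else 0 := by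
      by_cases hP : P x <;> simp [hP]
    rw [hx]
    rcases hp : p.getLast? with _ | y
    · rw [List.getLast?_eq_none_iff] at hp
      subst hp
      simpa using hh x (by simp)
    · have h1 := ih hch.1 (by
        intro g hg
        exact hh g (by rw [List.head?_append, hg]; rfl)) y hp
      have h2 := h y x (hch.2.2 y hp x (by simp))
      omega

theorem valuation_unique {G : Type} {C : Str cVoc G} (hc : Correct C) {v v' : G → Bool}
    (hv : IsValuation C v) (hv' : IsValuation C v')
    (hi : ∀ g, IsKind C Kind.input g → v g = v' g) (g : G) : v g = v' g := by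
  induction g using hc.2.2.1.induction with
  | _ g ih =>
    by_cases hg : IsKind C Kind.input g
    · exact hi g hg
    · exact val_step hc hv hv' (fun κ => Iff.rfl) hg (fun h hh => ⟨h, hh, ih h hh⟩)
        fun h hh => ⟨h, hh, ih h hh⟩

end Pool.Agent.W_MP_5f6b2a_lc.Count
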