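import Pool.Agent.W_MP_5f6b2a_lc.CCov
import Pool.Agent.W_MP_5f6b2a_lc.CCirc

/-!
The value of a large gate above small gates depends only on few labels.
-/

namespace Pool.Agent.W_MP_5f6b2a_lc.Count

open Logic Logic.Circ Finset

section

variable {G : Type} [Finite G]

open Classical in
/-- the gates below a gate -/
noncomputable def cone (C : Str cVoc G) : ℕ → G → Finset G
  | 0, g => {g}
  | n + 1, g => insert g ((Set.toFinite {h | Wire C h g}).toFinset.biUnion fun h => cone C n h)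

theorem self_mem_cone (C : Str cVoc G) (n : ℕ) (g : G) : g ∈ cone C n g := by
  cases n
  · simp [cone]
  · simp [cone]

theorem cone_subset {C : Str cVoc G} {n : ℕ} {g h : G} (hw : Wire C h g) :
    cone C n h ⊆ cone C (n + 1) g := by
  classical
  intro x hx
  refine mem_insert_of_mem (mem_biUnion.2 ⟨h, ?_, hx⟩)
  rw [Set.Finite.mem_toFinset]
  exact hw

theorem fanIn_le_two {C : Str cVoc G} (hc : Correct C) {g : G} (hi : ¬ IsKind C Kind.input g)
    (hl : ¬ Large C g) : fanIn C g ≤ 2 := by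
  obtain ⟨κ, hκ, -⟩ := hc.1 g
  rcases κ with _ | _ | _ | _
  · exact absurd hκ hi
  · rw [hc.2.2.2.2.1 g hκ]
    omega
  · by_contra hlt
    exact hl ⟨Or.inl hκ, by omega⟩
  · by_contra hlt
    exact hl ⟨Or.inr hκ, by omega⟩

theorem not_large_of_ev {C : Str cVoc G} (hc : Correct C) {n : ℕ} {g : G} (he : Ev C n 0 g) :
    ¬ Large C g := by
  intro hl
  have hi : ¬ IsKind C Kind.input g := by
    intro hi
    have h1 := hc.2.2.2.1 g hi
    have h2 := hl.2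
    omega
  obtain ⟨h, hh⟩ := fanIn_pos hc hi
  have := ((he.pred hc hh).2.2 hl).1
  omega

theorem card_cone {C : Str cVoc G} (hc : Correct C) (n : ℕ) : ∀ g, Ev C n 0 g →
    (cone C n g).card + 1 ≤ 2 ^ (n + 1) := by
  classical
  induction n with
  | zero =>
    intro g _
    simp [cone]
  | succ n ih =>
    intro g hg
    have h0 : (cone C (n + 1) g).card ≤
        ((Set.toFinite {h | Wire C h g}).toFinset.biUnion fun h => cone C n h).card + 1 :=
      card_insert_le _ _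
    have h1 : ((Set.toFinite {h | Wire C h g}).toFinset.biUnion fun h => cone C n h).card ≤
        (Set.toFinite {h | Wire C h g}).toFinset.card * (2 ^ (n + 1) - 1) := by
      refine card_biUnion_le_card_mul _ _ _ fun h hh => ?_
      rw [Set.Finite.mem_toFinset] at hh
      have := ih h (hg.pred hc hh).2.1
      omega
    have h2 : (Set.toFinite {h | Wire C h g}).toFinset.card ≤ 2 := by
      rw [← Set.ncard_eq_toFinset_card]
      by_cases hi : IsKind C Kind.input g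
      · have := hc.2.2.2.1 g hi
        unfold fanIn at this
        omega
      · exact fanIn_le_two hc hi (not_large_of_ev hc hg)
    have h3 := Nat.mul_le_mul_right (2 ^ (n + 1) - 1) h2
    have h4 : 2 ^ (n + 1 + 1) = 2 * 2 ^ (n + 1) := by ring
    have h5 : 1 ≤ 2 ^ (n + 1) := Nat.one_le_two_pow
    omega

end

namespace TSys

variable {k : ℕ} {V Ic Γ F Z : Type} [AddCommGroup V] {m N : ℕ} {Y : TSys k V Ic Γ F m N Z}
  {b b' : Γ → Bool} {z : Fin (k + 1) → V} {c : Cd Z m k V (Ic ⊕ Γ) F}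

/-- the predecessors of a small gate are moved along -/
theorem small_back (hk : 3 * m ≤ k) (hN : 4 * m ≤ N) (hz : Y.Vd b b' z c) {g : Y.U b} {g' : Y.U b'}
    (hg : Y.Rp b c g) (hg' : Y.Rp b' (thc Y.φ z c) g') (hf : fanIn (Y.C b) g ≤ 2)
    (cd : Y.U b → Cd Z m k V (Ic ⊕ Γ) F)
    (hcd : ∀ h, Wire (Y.C b) h g → Y.Rp b (cd h) h ∧ Y.Vd b b' z (cd h)) {h' : Y.U b'}
    (hw : Wire (Y.C b') h' g') : ∃ h, Wire (Y.C b) h g ∧ Y.Rp b' (thc Y.φ z (cd h)) h' := by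
  classical
  have hB := Y.bf hk hN b b'
  have hab := brel_single hz hg hg'
  have f1 := hB.fanIn_iff hab (n := 1) (by norm_num)
  have f2 := hB.fanIn_iff hab (n := 2) (by norm_num)
  have f3 := hB.fanIn_iff hab (n := 3) (by norm_num)
  have hff : fanIn (Y.C b') g' = fanIn (Y.C b) g := by omega
  have hex : ∀ h, ∃ h'' : Y.U b', Wire (Y.C b) h g → Y.Rp b' (thc Y.φ z (cd h)) h'' := by
    intro h
    by_cases hh : Wire (Y.C b) h g
    · obtain ⟨u', hu'⟩ := Y.exi (hcd h hh).2 (hcd h hh).1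
      exact ⟨u', fun _ => hu'⟩
    · exact ⟨h', fun h => absurd h hh⟩
  choose f hf' using hex
  have hsub : f '' {h | Wire (Y.C b) h g} ⊆ {h' | Wire (Y.C b') h' g'} := by
    rintro _ ⟨h, hh, rfl⟩
    exact (wire_iff (hcd h hh).2 hz (hcd h hh).1 hg (hf' h hh) hg').1 hh
  have hinj : Set.InjOn f {h | Wire (Y.C b) h g} := by
    intro h₁ hh₁ h₂ hh₂ he
    exact (eq_iff (hcd h₁ hh₁).2 (hcd h₂ hh₂).2 (hcd h₁ hh₁).1 (hcd h₂ hh₂).1 (hf' h₁ hh₁)
      (hf' h₂ hh₂)).2 he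
  have heq : f '' {h | Wire (Y.C b) h g} = {h' | Wire (Y.C b') h' g'} := by
    refine Set.eq_of_subset_of_ncard_le hsub ?_ (Set.toFinite _)
    rw [hinj.ncard_image]
    exact le_of_eq hff
  have hm : h' ∈ f '' {h | Wire (Y.C b) h g} := by
    rw [heq]
    exact hw
  obtain ⟨h, hh, rfl⟩ := hm
  exact ⟨h, hh, hf' h hh⟩

/-- the gates with a code in a family -/
def XS (Y : TSys k V Ic Γ F m N Z) {k' : ℕ} (X : Fin k' → Cd Z m k V (Ic ⊕ Γ) F) (b : Γ → Bool) :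
    Set (Y.U b) := {u | ∃ i, Y.Rp b (X i) u}

/-- `v` is the valuation for the inputs with codes in the family -/
def IsV (Y : TSys k V Ic Γ F m N Z) {k' : ℕ} (X : Fin k' → Cd Z m k V (Ic ⊕ Γ) F) (b : Γ → Bool)
    (v : Y.U b → Bool) : Prop :=
  IsValuation (Y.C b) v ∧ ∀ g, IsKind (Y.C b) Kind.input g → (v g = true ↔ g ∈ Y.XS X b)

variable {k' : ℕ} {X : Fin k' → Cd Z m k V (Ic ⊕ Γ) F}

theorem cone_val (hk : 3 * m ≤ k) (hN : 4 * m ≤ N) (hc : Correct (Y.C b))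
    {v : Y.U b → Bool} {v' : Y.U b' → Bool} (hv : Y.IsV X b v) (hv' : Y.IsV X b' v')
    (cd : Y.U b → Cd Z m k V (Ic ⊕ Γ) F) (hcd : ∀ u, Y.Rp b (cd u) u) (n : ℕ) :
    ∀ g : Y.U b, Ev (Y.C b) n 0 g → (∀ x ∈ cone (Y.C b) n g, Y.Vd b b' z (cd x)) →
      (∀ x ∈ cone (Y.C b) n g, ∀ x', Y.Rp b' (thc Y.φ z (cd x)) x' →
        (x ∈ Y.XS X b ↔ x' ∈ Y.XS X b')) →
      ∀ g', Y.Rp b' (thc Y.φ z (cd g)) g' → v g = v' g' := by
  induction n with
  | zero =>
    intro g hg h1 h2 g' hg'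
    have h3 := self_mem_cone (Y.C b) 0 g
    by_cases hi : IsKind (Y.C b) Kind.input g
    · have hi' := (kind_iff (h1 g h3) (hcd g) hg' _).1 hi
      rw [Bool.eq_iff_iff, hv.2 g hi, hv'.2 g' hi']
      exact h2 g h3 g' hg'
    · obtain ⟨h, hh⟩ := fanIn_pos hc hi
      have := (hg.pred hc hh).1
      omega
  | succ n ih =>
    intro g hg h1 h2 g' hg'
    have h3 := self_mem_cone (Y.C b) (n + 1) g
    by_cases hi : IsKind (Y.C b) Kind.input g
    · have hi' := (kind_iff (h1 g h3) (hcd g) hg' _).1 hi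
      rw [Bool.eq_iff_iff, hv.2 g hi, hv'.2 g' hi']
      exact h2 g h3 g' hg'
    · have key : ∀ h, Wire (Y.C b) h g → ∀ h', Y.Rp b' (thc Y.φ z (cd h)) h' → v h = v' h' := by
        intro h hw h' hh'
        exact ih h (hg.pred hc hw).2.1 (fun x hx => h1 x (cone_subset hw hx))
          (fun x hx => h2 x (cone_subset hw hx)) h' hh'
      refine val_step hc hv.1 hv'.1 (fun κ => kind_iff (h1 g h3) (hcd g) hg' κ) hi ?_ ?_
      · intro h hw
        have h4 := h1 h (cone_subset hw (self_mem_cone _ _ _))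
        obtain ⟨h', hh'⟩ := Y.exi h4 (hcd h)
        exact ⟨h', (wire_iff h4 (h1 g h3) (hcd h) (hcd g) hh' hg').1 hw, key h hw h' hh'⟩
      · intro h' hw
        obtain ⟨h, h5, h6⟩ := small_back hk hN (h1 g h3) (hcd g) hg'
          (fanIn_le_two hc hi (not_large_of_ev hc hg)) cd
          (fun h hh => ⟨hcd h, h1 h (cone_subset hh (self_mem_cone _ _ _))⟩) hw
        exact ⟨h, h5, key h h5 h' h6⟩

theorem bad_subset {cg : Cd Z m k V (Ic ⊕ Γ) F} {g : Y.U b} (hcg : Y.Rp b cg g)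
    (hg : g ∉ Y.XS X b) {ζ : V}
    (hζg : ∀ j ∈ gr cg, Y.φ j ζ = bit b j + bit b' j)
    (hX : ∀ i, ∀ j ∈ gr (X i), Y.φ j ζ = 0 ∧ bit b j = bit b' j)
    {v₀ v₁ : Fin (k + 1)} {i₀ i₁ : Fin k'} {u₀ u₁ : Y.U b'}
    (h1 : Y.Rp b' (thc Y.φ (sh 0 v₀ ζ) cg) u₀) (h2 : Y.Rp b' (X i₀) u₀)
    (h3 : Y.Rp b' (thc Y.φ (sh 0 v₁ ζ) cg) u₁) (h4 : Y.Rp b' (X i₁) u₁) : v₁ ∈ sr (X i₀) := by
  by_contra hv
  have hmis : ∀ (v : Fin (k + 1)) j, Y.φ j ζ = bit b j + bit b' j → mis Y.φ b b' (sh 0 v ζ) j = 0 := by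
    intro v j hj
    rw [mis_sh, hj]
    have : mis Y.φ b b' (0 : Fin (k + 1) → V) j = bit b j + bit b' j := by simp [mis]
    rw [this, add_self_zmod]
  have hX' : ∀ i, ∀ j ∈ gr (X i), Y.φ j ζ = bit b j + bit b' j := by
    intro i j hj
    rw [(hX i j hj).1, (hX i j hj).2, add_self_zmod]
  have hvg : ∀ v, Y.Vd b b' (sh 0 v ζ) cg := fun v j hj => hmis v j (hζg j hj)
  have hvX : ∀ v i, Y.Vd b b' (sh 0 v ζ) (X i) := fun v i j hj => hmis v j (hX' i j hj)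
  have hvX' : ∀ v i, Y.Vd b' b (sh 0 v ζ) (X i) := fun v i j hj => by
    rw [mis_symm]
    exact hvX v i j hj
  -- step 1
  obtain ⟨w, hw⟩ := Y.exi (hvX' v₀ i₀) h2
  have e1 : g = w := Y.eq (hvg v₀).symm (hvX' v₀ i₀) h1 h2
    (by rw [thc_thc Y.φ Y.two]; exact hcg) hw
  subst e1
  -- step 2
  have e2 : thc Y.φ (sh 0 v₁ ζ) (thc Y.φ (sh 0 v₀ ζ) (X i₀)) = thc Y.φ (sh 0 v₀ ζ) (X i₀) := by
    rw [thc_sh Y.φ 0 v₁ ζ _ (by rw [sr_thc]; exact hv) (by
      intro j hj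
      rw [gr_thc] at hj
      exact (hX i₀ j hj).1), thc_zero]
  have hvx : Y.Vd b b' (sh 0 v₁ ζ) (thc Y.φ (sh 0 v₀ ζ) (X i₀)) := fun j hj => by
    rw [gr_thc] at hj
    exact hmis v₁ j (hX' i₀ j hj)
  obtain ⟨w', hw'⟩ := Y.exi hvx hw
  have e3 : u₁ = w' := Y.eq (hvg v₁) hvx hcg hw h3 hw'
  subst e3
  rw [e2] at hw'
  -- step 3
  have hz1 : Y.Vd b' b 0 (thc Y.φ (sh 0 v₀ ζ) (X i₀)) := vd_zero fun j hj => by
    rw [gr_thc] at hj
    exact (hX i₀ j hj).2.symm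
  have hz2 : Y.Vd b' b 0 (X i₁) := vd_zero fun j hj => (hX i₁ j hj).2.symm
  obtain ⟨w'', hw''⟩ := Y.exi hz2 h4
  have e4 : g = w'' := Y.eq hz1 hz2 hw' h4 (by rw [thc_zero]; exact hw) hw''
  subst e4
  rw [thc_zero] at hw''
  exact hg ⟨i₁, hw''⟩

/-- The predecessors of a gate over a circuit of small gates -/
theorem blind_forth {n : ℕ} (hm : 3 * m ≤ k) (hN4 : 4 * m ≤ N)
    (hk : m + 2 ^ (n + 1) * m ≤ k) (hN : m + k' * m + 2 ^ (n + 1) * m ≤ N)
    (hb : ∀ j ∈ gr c, bit b j = bit b' j) (hbX : ∀ i, ∀ j ∈ gr (X i), bit b j = bit b' j)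
    {u : Y.U b} {u' : Y.U b'} (hu : Y.Rp b c u) (hu' : Y.Rp b' c u')
    (hc : Correct (Y.C b)) {v : Y.U b → Bool} {v' : Y.U b' → Bool} (hv : Y.IsV X b v)
    (hv' : Y.IsV X b' v') {h : Y.U b} (hw : Wire (Y.C b) h u) (he : Ev (Y.C b) n 0 h) :
    ∃ h', Wire (Y.C b') h' u' ∧ v h = v' h' := by
  classical
  -- codes
  have hcd : ∀ g : Y.U b, ∃ cg, Y.Rp b cg g ∧ (g ∈ Y.XS X b → ∃ i, cg = X i) := by
    intro g
    by_cases hg : g ∈ Y.XS X b
    · obtain ⟨i, hi⟩ := hg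
      exact ⟨X i, hi, fun _ => ⟨i, rfl⟩⟩
    · obtain ⟨cg, hcg⟩ := Y.surj b g
      exact ⟨cg, hcg, fun h => absurd h hg⟩
  choose cd hcd1 hcd2 using hcd
  have hcone := card_cone hc n h he
  have hT : (gr c ∪ (univ.biUnion fun i => gr (X i)) ∪
      (cone (Y.C b) n h).biUnion fun g => gr (cd g)).card ≤ N := by
    refine (card_union_le _ _).trans ?_
    have h1 := card_union_le (gr c) (univ.biUnion fun i => gr (X i))
    have h2 := card_gr_le c
    have h3 : (univ.biUnion fun i => gr (X i)).card ≤ k' * m := by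
      refine (card_biUnion_le_card_mul _ _ m fun i _ => card_gr_le _).trans ?_
      simp
    have h4 : ((cone (Y.C b) n h).biUnion fun g => gr (cd g)).card ≤ 2 ^ (n + 1) * m := by
      refine (card_biUnion_le_card_mul _ _ m fun i _ => card_gr_le _).trans ?_
      exact Nat.mul_le_mul_right _ (by omega)
    omega
  obtain ⟨ζ, hζ⟩ := Y.pat _ hT fun j => bit b j + bit b' j
  have hζc : ∀ j ∈ gr c, Y.φ j ζ = bit b j + bit b' j := fun j hj =>
    hζ j (mem_union_left _ (mem_union_left _ hj))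
  have hζX : ∀ i, ∀ j ∈ gr (X i), Y.φ j ζ = bit b j + bit b' j := fun i j hj =>
    hζ j (mem_union_left _ (mem_union_right _ (mem_biUnion.2 ⟨i, mem_univ _, hj⟩)))
  have hζg : ∀ g ∈ cone (Y.C b) n h, ∀ j ∈ gr (cd g), Y.φ j ζ = bit b j + bit b' j :=
    fun g hg j hj => hζ j (mem_union_right _ (mem_biUnion.2 ⟨g, hg, hj⟩))
  have hX0 : ∀ i, ∀ j ∈ gr (X i), Y.φ j ζ = 0 ∧ bit b j = bit b' j := by
    intro i j hj
    refine ⟨?_, hbX i j hj⟩
    rw [hζX i j hj, hbX i j hj, add_self_zmod]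
  have hc0 : ∀ j ∈ gr c, Y.φ j ζ = 0 := by
    intro j hj
    rw [hζc j hj, hb j hj, add_self_zmod]
  have hmis : ∀ (v : Fin (k + 1)) j, Y.φ j ζ = bit b j + bit b' j → mis Y.φ b b' (sh 0 v ζ) j = 0 := by
    intro v j hj
    rw [mis_sh, hj]
    have : mis Y.φ b b' (0 : Fin (k + 1) → V) j = bit b j + bit b' j := by simp [mis]
    rw [this, add_self_zmod]
  -- bad sorts
  let bad : Y.U b → Finset (Fin (k + 1)) := fun g => univ.filter fun v₀ =>
    ∃ i u', Y.Rp b' (thc Y.φ (sh 0 v₀ ζ) (cd g)) u' ∧ Y.Rp b' (X i) u'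
  have hbad : ∀ g ∈ cone (Y.C b) n h, g ∉ Y.XS X b → (bad g).card ≤ m := by
    intro g hg hgX
    rcases (bad g).eq_empty_or_nonempty with h0 | ⟨v₀, hv₀⟩
    · rw [h0]
      simp
    · obtain ⟨i₀, u₀, h1, h2⟩ := (mem_filter.1 hv₀).2
      refine le_trans (card_le_card fun v₁ hv₁ => ?_) (card_sr_le (X i₀))
      obtain ⟨i₁, u₁, h3, h4⟩ := (mem_filter.1 hv₁).2
      exact bad_subset (hcd1 g) hgX (hζg g hg) hX0 h1 h2 h3 h4
  let A : Finset (Fin (k + 1)) := sr c ∪ (cone (Y.C b) n h).biUnion fun g =>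
    if g ∈ Y.XS X b then sr (cd g) else bad g
  have hA : A.card ≤ k := by
    refine (card_union_le _ _).trans ?_
    have h1 := card_sr_le c
    have h2 : ((cone (Y.C b) n h).biUnion fun g =>
        if g ∈ Y.XS X b then sr (cd g) else bad g).card ≤ 2 ^ (n + 1) * m := by
      refine (card_biUnion_le_card_mul _ _ m fun g hg => ?_).trans ?_
      · split_ifs with hgX
        · exact card_sr_le _
        · exact hbad g hg hgX
      · exact Nat.mul_le_mul_right _ (by omega)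
    omega
  obtain ⟨v₀, hv₀⟩ : ∃ v₀ : Fin (k + 1), v₀ ∉ A := by
    by_contra hcon
    push Not at hcon
    have h1 : (univ : Finset (Fin (k + 1))) ⊆ A := fun v _ => hcon v
    have h2 := card_le_card h1
    rw [card_univ, Fintype.card_fin] at h2
    omega
  have hvc : v₀ ∉ sr c := fun h => hv₀ (mem_union_left _ h)
  have hvg : ∀ g ∈ cone (Y.C b) n h, v₀ ∉ (if g ∈ Y.XS X b then sr (cd g) else bad g) :=
    fun g hg h => hv₀ (mem_union_right _ (mem_biUnion.2 ⟨g, hg, h⟩))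
  have hcz : thc Y.φ (sh 0 v₀ ζ) c = c := by
    rw [thc_sh Y.φ 0 v₀ ζ c hvc hc0, thc_zero]
  have hVc : Y.Vd b b' (sh 0 v₀ ζ) c := fun j hj => hmis v₀ j (hζc j hj)
  have hVg : ∀ g ∈ cone (Y.C b) n h, Y.Vd b b' (sh 0 v₀ ζ) (cd g) := fun g hg j hj =>
    hmis v₀ j (hζg g hg j hj)
  have hself := self_mem_cone (Y.C b) n h
  obtain ⟨h', hh'⟩ := Y.exi (hVg h hself) (hcd1 h)
  refine ⟨h', ?_, ?_⟩
  · refine (wire_iff (hVg h hself) hVc (hcd1 h) hu hh' ?_).1 hw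
    rw [hcz]
    exact hu'
  · refine cone_val hm hN4 hc hv hv' cd hcd1 n h he hVg (fun x hx x' hx' => ?_) h' hh'
    have h1 := hvg x hx
    constructor
    · intro hxX
      rw [if_pos hxX] at h1
      obtain ⟨i, hi⟩ := hcd2 x hxX
      rw [hi] at h1 hx'
      refine ⟨i, ?_⟩
      rwa [thc_sh Y.φ 0 v₀ ζ _ h1 fun j hj => (hX0 i j hj).1, thc_zero] at hx'
    · rintro ⟨i, hi⟩
      by_contra hxX
      rw [if_neg hxX] at h1
      exact h1 (mem_filter.2 ⟨mem_univ _, i, x', hx', hi⟩)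

/-- The value of a large gate above small gates depends only on the labels of its groups and of the
groups of the true inputs. -/
theorem blind {n : ℕ} (hm : 3 * m ≤ k) (hN4 : 4 * m ≤ N)
    (hk : m + 2 ^ (n + 1) * m ≤ k) (hN : m + k' * m + 2 ^ (n + 1) * m ≤ N)
    (hb : ∀ j ∈ gr c, bit b j = bit b' j) (hbX : ∀ i, ∀ j ∈ gr (X i), bit b j = bit b' j)
    {u : Y.U b} {u' : Y.U b'} (hu : Y.Rp b c u) (hu' : Y.Rp b' c u')
    (hc : Correct (Y.C b)) (hc' : Correct (Y.C b')) {v : Y.U b → Bool} {v' : Y.U b' → Bool}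
    (hv : Y.IsV X b v) (hv' : Y.IsV X b' v') (hi : ¬ IsKind (Y.C b) Kind.input u)
    (he : ∀ h, Wire (Y.C b) h u → Ev (Y.C b) n 0 h)
    (he' : ∀ h, Wire (Y.C b') h u' → Ev (Y.C b') n 0 h) : v u = v' u' := by
  have hz : Y.Vd b b' 0 c := vd_zero hb
  have hu0 : Y.Rp b' (thc Y.φ 0 c) u' := by rw [thc_zero]; exact hu'
  refine val_step hc hv.1 hv'.1 (fun κ => kind_iff hz hu hu0 κ) hi ?_ ?_
  · intro h hw
    exact blind_forth hm hN4 hk hN hb hbX hu hu' hc hv hv' hw (he h hw)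
  · intro h' hw
    obtain ⟨h, h1, h2⟩ := blind_forth hm hN4 hk hN (fun j hj => (hb j hj).symm)
      (fun i j hj => (hbX i j hj).symm) hu' hu hc' hv' hv hw (he' h' hw)
    exact ⟨h, h1, h2.symm⟩

end TSys

end Pool.Agent.W_MP_5f6b2a_lc.Count
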