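import Pool.Agent.W_MP_5f6b2a_lc.CTree

/-!
Sizes of the structures.
-/

namespace Pool.Agent.W_MP_5f6b2a_lc.Count

open Finset

section

variable {k : ℕ} {V J F W : Type}

/-- elements as a sum -/
def elS : El k V J F → (Fin (k + 1) × V) ⊕ ((J × (Fin k → ZMod 2)) ⊕ F)
  | .inp v p => .inl (v, p)
  | .leaf j y => .inr (.inl (j, y))
  | .fix f => .inr (.inr f)

theorem elS_inj : Function.Injective (elS : El k V J F → _) := by
  intro a b h
  cases a <;> cases b <;> simp_all [elS]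

instance [Finite V] [Finite J] [Finite F] : Finite (El k V J F) :=
  Finite.of_injective _ elS_inj

/-- fixed gates as a sum -/
def fxS : Fx k W → Fin (k + 1) ⊕ (W ⊕ W)
  | .sel v => .inl v
  | .nd w => .inr (.inl w)
  | .ng w => .inr (.inr w)

theorem fxS_inj : Function.Injective (fxS : Fx k W → _) := by
  intro a b h
  cases a <;> cases b <;> simp_all [fxS]

instance [Finite W] : Finite (Fx k W) := Finite.of_injective _ fxS_inj

theorem card_el_le [Fintype V] [Fintype J] [Finite F] :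
    Nat.card (El k V J F) ≤ (k + 1) * Fintype.card V + (Fintype.card J * 2 ^ k + Nat.card F) := by
  refine (Nat.card_le_card_of_injective _ elS_inj).trans ?_
  rw [Nat.card_sum, Nat.card_sum, Nat.card_prod, Nat.card_prod]
  simp [Nat.card_eq_fintype_card, ZMod.card]

theorem card_fx_le [Finite W] : Nat.card (Fx k W) ≤ (k + 1) + (Nat.card W + Nat.card W) := by
  refine (Nat.card_le_card_of_injective _ fxS_inj).trans ?_
  rw [Nat.card_sum, Nat.card_sum]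
  simp

theorem card_nd_le (a t : ℕ) (ha : 1 ≤ a) :
    Nat.card (Nd a t) ≤ (t + 1) * a ^ (3 * (2 ^ t - 1)) := by
  have h1 : Nat.card (Nd a t) ≤ Nat.card (Σ j : Fin (t + 1), P a j.1) := by
    refine Nat.card_le_card_of_injective
      (fun s : Nd a t => (⟨⟨s.1.1, Nat.lt_succ_of_le s.2⟩, s.1.2⟩ : Σ j : Fin (t + 1), P a j.1)) ?_
    rintro ⟨⟨j, p⟩, h⟩ ⟨⟨j', p'⟩, h'⟩ he
    simp only [Sigma.mk.injEq, Fin.mk.injEq] at he
    obtain ⟨rfl, he⟩ := he
    rw [heq_eq_eq] at he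
    subst he
    rfl
  refine h1.trans ?_
  rw [Nat.card_eq_fintype_card, Fintype.card_sigma]
  refine (Finset.sum_le_card_nsmul _ _ (a ^ (3 * (2 ^ t - 1))) fun j _ => ?_).trans ?_
  · rw [card_P]
    refine Nat.pow_le_pow_right ha ?_
    have : 2 ^ j.1 ≤ 2 ^ t := Nat.pow_le_pow_right (by norm_num) (by have := j.2; omega)
    omega
  · simp

end

/-- the numbers -/
theorem numbers (t k e g₀ C : ℕ) (a u D : ℕ) (ha2 : 2 ≤ a) (haC : C ≤ a) (hak : k + 1 ≤ a)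
    (ha2k : 2 ^ k ≤ a) (hat : t + 1 ≤ a) (hag : g₀ ≤ a) {r : ℕ} (har : a = 2 ^ r)
    (hD : D = C * r) (hu : u = 3 * (2 ^ t - 1) + (3 * (2 ^ t - 1) + 1)) {n₁ n₂ n₃ : ℕ}
    (h1 : n₁ ≤ (k + 1) * 2 ^ D + ((D + a ^ u) * 2 ^ k + n₂)) (h2 : n₂ ≤ (k + 1) + (n₃ + n₃))
    (h3 : n₃ ≤ (t + 1) * a ^ (3 * (2 ^ t - 1))) :
    2 ^ D = a ^ C ∧ D + a ^ u + 1 ≤ a ^ (u + 4) ∧
      g₀ * (n₁ + 1) ^ e ≤ a ^ (1 + (C + u + 8) * e) := by
  have hDa : 2 ^ D = a ^ C := by
    rw [hD, har, ← pow_mul, mul_comm]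
  have hr : r ≤ a := by
    rw [har]
    exact Nat.lt_two_pow_self.le
  have hD2 : D ≤ a ^ 2 := by
    rw [hD, pow_two]
    exact Nat.mul_le_mul haC hr
  have h1a : 1 ≤ a := by omega
  have mono : ∀ {i j : ℕ}, i ≤ j → a ^ i ≤ a ^ j := fun h => Nat.pow_le_pow_right h1a h
  have key : D + a ^ u + 1 ≤ a ^ (u + 4) := by
    have e1 : D ≤ a ^ (u + 2) := hD2.trans (mono (by omega))
    have e2 : a ^ u ≤ a ^ (u + 2) := mono (by omega)
    have e3 : 1 ≤ a ^ (u + 2) := Nat.one_le_pow _ _ h1a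
    have e4 : a ^ (u + 4) = a ^ (u + 2) * a ^ 2 := by ring
    have e5 : 4 ≤ a ^ 2 := by nlinarith
    have e6 : a ^ (u + 2) * 4 ≤ a ^ (u + 2) * a ^ 2 := Nat.mul_le_mul_left _ e5
    omega
  refine ⟨hDa, key, ?_⟩
  have f1 : (k + 1) * 2 ^ D ≤ a ^ (C + u + 5) := by
    rw [hDa]
    refine (Nat.mul_le_mul_right _ hak).trans ?_
    have : a * a ^ C = a ^ (C + 1) := by ring
    rw [this]
    exact mono (by omega)
  have f2 : (D + a ^ u) * 2 ^ k ≤ a ^ (C + u + 5) := by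
    have : (D + a ^ u) * 2 ^ k ≤ a ^ (u + 4) * a := Nat.mul_le_mul (by omega) ha2k
    refine this.trans ?_
    have : a ^ (u + 4) * a = a ^ (u + 5) := by ring
    rw [this]
    exact mono (by omega)
  have f3 : k + 1 ≤ a ^ (C + u + 5) := by
    refine hak.trans ?_
    calc a = a ^ 1 := (pow_one a).symm
      _ ≤ _ := mono (by omega)
  have f4 : n₃ ≤ a ^ (C + u + 5) := by
    refine h3.trans ((Nat.mul_le_mul_right _ hat).trans ?_)
    have : a * a ^ (3 * (2 ^ t - 1)) = a ^ (3 * (2 ^ t - 1) + 1) := by ring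
    rw [this]
    exact mono (by omega)
  have f5 : 1 ≤ a ^ (C + u + 5) := Nat.one_le_pow _ _ h1a
  have f6 : a ^ (C + u + 5) * 8 ≤ a ^ (C + u + 8) := by
    have : a ^ (C + u + 8) = a ^ (C + u + 5) * a ^ 3 := by ring
    rw [this]
    refine Nat.mul_le_mul_left _ ?_
    calc 8 = 2 ^ 3 := by norm_num
      _ ≤ a ^ 3 := Nat.pow_le_pow_left ha2 3
  have f7 : n₁ + 1 ≤ a ^ (C + u + 8) := by omega
  calc g₀ * (n₁ + 1) ^ e ≤ a * (a ^ (C + u + 8)) ^ e :=
        Nat.mul_le_mul hag (Nat.pow_le_pow_left f7 e)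
    _ = a ^ (1 + (C + u + 8) * e) := by
        rw [← pow_mul, pow_add, pow_one]

end Pool.Agent.W_MP_5f6b2a_lc.Count
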