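import Pool.Agent.W_MP_5f6b2a_lc.CTgt

/-!
Systems of circuits: back-and-forth systems and the covering of all gates by few codes.
-/

namespace Pool.Agent.W_MP_5f6b2a_lc.Count

open Logic Finset

section

variable {k : ℕ} {V J F Z : Type} [AddCommGroup V] {m : ℕ}

/-- the groups of a code -/
noncomputable def gr (c : Cd Z m k V J F) : Finset J := grp c.2

/-- the sorts of a code -/
noncomputable def sr (c : Cd Z m k V J F) : Finset (Fin (k + 1)) := sor c.2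

theorem card_gr_le (c : Cd Z m k V J F) : (gr c).card ≤ m := by
  have := card_grp_le c.2
  rwa [Fintype.card_fin] at this

theorem card_sr_le (c : Cd Z m k V J F) : (sr c).card ≤ m := by
  have := card_sor_le c.2
  rwa [Fintype.card_fin] at this

theorem gr_thc (φ : J → V →+ ZMod 2) (z : Fin (k + 1) → V) (c : Cd Z m k V J F) :
    gr (thc φ z c) = gr c := grp_tha φ z c.2

theorem sr_thc (φ : J → V →+ ZMod 2) (z : Fin (k + 1) → V) (c : Cd Z m k V J F) :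
    sr (thc φ z c) = sr c := sor_tha φ z c.2

theorem thc_thc (φ : J → V →+ ZMod 2) (h2 : ∀ x : V, x + x = 0) (z : Fin (k + 1) → V)
    (c : Cd Z m k V J F) : thc φ z (thc φ z c) = c :=
  Prod.ext rfl (tha_tha φ h2 z c.2)

theorem thc_zero (φ : J → V →+ ZMod 2) (c : Cd Z m k V J F) : thc φ 0 c = c :=
  Prod.ext rfl (tha_zero φ c.2)

theorem thc_sh (φ : J → V →+ ZMod 2) (z : Fin (k + 1) → V) (v : Fin (k + 1)) (ζ : V)
    (c : Cd Z m k V J F) (h1 : v ∉ sr c) (h2 : ∀ j ∈ gr c, φ j ζ = 0) :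
    thc φ (sh z v ζ) c = thc φ z c :=
  Prod.ext rfl (tha_sh φ z v ζ c.2 h1 h2)

end

theorem mis_zero {k : ℕ} {V Ic Γ : Type} [AddCommGroup V] (φ : Ic ⊕ Γ → V →+ ZMod 2)
    (b b' : Γ → Bool) (j : Ic ⊕ Γ) :
    mis φ b b' (0 : Fin (k + 1) → V) j = 0 ↔ bit b j = bit b' j := by
  unfold mis
  simp only [Pi.zero_apply, map_zero, sum_const_zero, zero_add]
  exact CharTwo.add_eq_zero

namespace TSys

variable {k : ℕ} {V Ic Γ F Z : Type} [AddCommGroup V] {m N : ℕ} (Y : TSys k V Ic Γ F m N Z)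
  {b b' : Γ → Bool} {z : Fin (k + 1) → V} {c c₁ c₂ : Cd Z m k V (Ic ⊕ Γ) F}

instance (b : Γ → Bool) : Finite (Y.U b) := Y.fin b

/-- validity of a shift on a code -/
def Vd (b b' : Γ → Bool) (z : Fin (k + 1) → V) (c : Cd Z m k V (Ic ⊕ Γ) F) : Prop :=
  ∀ j ∈ gr c, mis Y.φ b b' z j = 0

variable {Y}

theorem Vd.symm (h : Y.Vd b b' z c) : Y.Vd b' b z (thc Y.φ z c) := by
  intro j hj
  rw [gr_thc] at hj
  rw [mis_symm]
  exact h j hj

theorem vd_zero (h : ∀ j ∈ gr c, bit b j = bit b' j) : Y.Vd b b' 0 c := fun j hj =>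
  (mis_zero _ _ _ _).2 (h j hj)

theorem exi (h : Y.Vd b b' z c) {u : Y.U b} (hu : Y.Rp b c u) :
    ∃ u', Y.Rp b' (thc Y.φ z c) u' := Y.ex h hu

theorem eq_iff (h₁ : Y.Vd b b' z c₁) (h₂ : Y.Vd b b' z c₂) {u₁ u₂ : Y.U b} {u₁' u₂' : Y.U b'}
    (g₁ : Y.Rp b c₁ u₁) (g₂ : Y.Rp b c₂ u₂) (g₁' : Y.Rp b' (thc Y.φ z c₁) u₁')
    (g₂' : Y.Rp b' (thc Y.φ z c₂) u₂') : u₁ = u₂ ↔ u₁' = u₂' := by
  constructor
  · rintro rfl
    exact Y.eq h₁ h₂ g₁ g₂ g₁' g₂'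
  · rintro rfl
    have e₁ := thc_thc Y.φ Y.two z c₁
    have e₂ := thc_thc Y.φ Y.two z c₂
    exact Y.eq h₁.symm h₂.symm g₁' g₂' (by rw [e₁]; exact g₁) (by rw [e₂]; exact g₂)

theorem rel_iff (r : CSym) {x : Fin (cVoc.ar r) → Cd Z m k V (Ic ⊕ Γ) F}
    {u : Fin (cVoc.ar r) → Y.U b} {u' : Fin (cVoc.ar r) → Y.U b'} (h : ∀ i, Y.Vd b b' z (x i))
    (g : ∀ i, Y.Rp b (x i) (u i)) (g' : ∀ i, Y.Rp b' (thc Y.φ z (x i)) (u' i)) :
    (Y.C b).rel r u ↔ (Y.C b').rel r u' := by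
  refine ⟨Y.rel r h g g', fun hr => ?_⟩
  have e : ∀ i, thc Y.φ z (thc Y.φ z (x i)) = x i := fun i => thc_thc Y.φ Y.two z _
  exact Y.rel r (fun i => (h i).symm) g' (fun i => by rw [e]; exact g i) hr

theorem kind_iff (h : Y.Vd b b' z c) {u : Y.U b} {u' : Y.U b'} (g : Y.Rp b c u)
    (g' : Y.Rp b' (thc Y.φ z c) u') (κ : Kind) :
    Circ.IsKind (Y.C b) κ u ↔ Circ.IsKind (Y.C b') κ u' :=
  rel_iff (CSym.kind κ) (x := fun _ => c) (fun _ => h) (fun _ => g) fun _ => g'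

theorem out_iff (h : Y.Vd b b' z c) {u : Y.U b} {u' : Y.U b'} (g : Y.Rp b c u)
    (g' : Y.Rp b' (thc Y.φ z c) u') : Circ.IsOut (Y.C b) u ↔ Circ.IsOut (Y.C b') u' :=
  rel_iff CSym.out (x := fun _ => c) (fun _ => h) (fun _ => g) fun _ => g'

theorem wire_iff (h₁ : Y.Vd b b' z c₁) (h₂ : Y.Vd b b' z c₂) {u₁ u₂ : Y.U b} {u₁' u₂' : Y.U b'}
    (g₁ : Y.Rp b c₁ u₁) (g₂ : Y.Rp b c₂ u₂) (g₁' : Y.Rp b' (thc Y.φ z c₁) u₁')
    (g₂' : Y.Rp b' (thc Y.φ z c₂) u₂') :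
    Circ.Wire (Y.C b) u₁ u₂ ↔ Circ.Wire (Y.C b') u₁' u₂' := by
  refine rel_iff CSym.wire (x := (![c₁, c₂] : Fin 2 → _)) (z := z) ?_ ?_ ?_
  · intro i
    change Fin 2 at i
    fin_cases i
    · exact h₁
    · exact h₂
  · intro i
    change Fin 2 at i
    fin_cases i
    · exact g₁
    · exact g₂
  · intro i
    change Fin 2 at i
    fin_cases i
    · exact g₁'
    · exact g₂'

variable (Y)

theorem extend (b b' : Γ → Bool) (z : Fin (k + 1) → V) (T : Finset (Ic ⊕ Γ)) (hT : T.card ≤ N)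
    (A : Finset (Fin (k + 1))) (hA : A.card ≤ k) :
    ∃ z', (∀ j ∈ T, mis Y.φ b b' z' j = 0) ∧ ∀ c : Cd Z m k V (Ic ⊕ Γ) F, sr c ⊆ A → gr c ⊆ T →
      Y.Vd b b' z c → thc Y.φ z' c = thc Y.φ z c := by
  obtain ⟨v, hv⟩ : ∃ v : Fin (k + 1), v ∉ A := by
    by_contra hcon
    push Not at hcon
    have h1 : (univ : Finset (Fin (k + 1))) ⊆ A := fun v _ => hcon v
    have h2 := card_le_card h1
    rw [card_univ, Fintype.card_fin] at h2
    omega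
  obtain ⟨ζ, hζ⟩ := Y.pat T hT fun j => mis Y.φ b b' z j
  refine ⟨sh z v ζ, fun j hj => ?_, fun c h1 h2 h3 => ?_⟩
  · rw [mis_sh, hζ j hj, add_self_zmod]
  · refine thc_sh Y.φ z v ζ c (fun h => hv (h1 h)) fun j hj => ?_
    rw [hζ j (h2 hj)]
    exact h3 j hj

/-- the back-and-forth system -/
def BRel (b b' : Γ → Bool) (l : List (Y.U b × Y.U b')) : Prop :=
  ∃ z, ∀ p ∈ l, ∃ c, Y.Vd b b' z c ∧ Y.Rp b c p.1 ∧ Y.Rp b' (thc Y.φ z c) p.2

variable {Y}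

theorem BRel.swap {l : List (Y.U b × Y.U b')} (h : Y.BRel b b' l) :
    Y.BRel b' b (l.map Prod.swap) := by
  obtain ⟨z, hz⟩ := h
  refine ⟨z, fun p hp => ?_⟩
  obtain ⟨q, hq, rfl⟩ := List.mem_map.1 hp
  obtain ⟨c, h1, h2, h3⟩ := hz q hq
  exact ⟨thc Y.φ z c, h1.symm, h3, by rw [thc_thc Y.φ Y.two]; exact h2⟩

theorem brel_forth (hk : 3 * m ≤ k) (hN : 4 * m ≤ N) {l : List (Y.U b × Y.U b')}
    (h : Y.BRel b b' l) (hl : l.length ≤ 3) (u : Y.U b) : ∃ u', Y.BRel b b' ((u, u') :: l) := by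
  classical
  obtain ⟨z, hz⟩ := h
  obtain ⟨c, hc⟩ := Y.surj b u
  have hz' : ∀ p, ∃ c', p ∈ l → Y.Vd b b' z c' ∧ Y.Rp b c' p.1 ∧ Y.Rp b' (thc Y.φ z c') p.2 := by
    intro p
    by_cases hp : p ∈ l
    · obtain ⟨c', h1⟩ := hz p hp
      exact ⟨c', fun _ => h1⟩
    · exact ⟨c, fun h => absurd h hp⟩
  choose f hf using hz'
  have hlc : l.toFinset.card ≤ 3 := (List.toFinset_card_le l).trans hl
  have hT : (l.toFinset.biUnion (fun p => gr (f p)) ∪ gr c).card ≤ N := by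
    refine (card_union_le _ _).trans ?_
    have h1 : (l.toFinset.biUnion fun p => gr (f p)).card ≤ 3 * m := by
      refine (card_biUnion_le_card_mul _ _ m fun p _ => card_gr_le _).trans ?_
      exact Nat.mul_le_mul_right _ hlc
    have h2 := card_gr_le c
    omega
  have hA : (l.toFinset.biUnion fun p => sr (f p)).card ≤ k := by
    refine (card_biUnion_le_card_mul _ _ m fun p _ => card_sr_le _).trans ?_
    exact (Nat.mul_le_mul_right _ hlc).trans hk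
  obtain ⟨z', h1, h2⟩ := Y.extend b b' z _ hT _ hA
  have h3 : Y.Vd b b' z' c := fun j hj => h1 j (mem_union_right _ hj)
  obtain ⟨u', hu'⟩ := Y.exi h3 hc
  refine ⟨u', z', fun p hp => ?_⟩
  rcases List.mem_cons.1 hp with rfl | hp
  · exact ⟨c, h3, hc, hu'⟩
  · obtain ⟨h4, h5, h6⟩ := hf p hp
    have h7 : gr (f p) ⊆ l.toFinset.biUnion (fun p => gr (f p)) ∪ gr c := fun j hj =>
      mem_union_left _ (mem_biUnion.2 ⟨p, List.mem_toFinset.2 hp, hj⟩)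
    have h8 : sr (f p) ⊆ l.toFinset.biUnion fun p => sr (f p) := fun j hj =>
      mem_biUnion.2 ⟨p, List.mem_toFinset.2 hp, hj⟩
    refine ⟨f p, fun j hj => h1 j (h7 hj), h5, ?_⟩
    rw [h2 (f p) h8 h7 h4]
    exact h6

variable (Y) in
theorem bf (hk : 3 * m ≤ k) (hN : 4 * m ≤ N) (b b' : Γ → Bool) :
    Circ.BF (Y.C b) (Y.C b') (Y.BRel b b') where
  nil := ⟨0, by simp⟩
  sub l l' hl := fun ⟨z, h⟩ => ⟨z, fun p hp => h p (hl hp)⟩
  forth l h hl u := brel_forth hk hN h hl u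
  back l h hl u' := by
    obtain ⟨u, hu⟩ := brel_forth hk hN h.swap (by simpa using hl) u'
    refine ⟨u, ?_⟩
    have := hu.swap
    simpa using this
  eq l h p hp q hq := by
    obtain ⟨z, h⟩ := h
    obtain ⟨c, h1, h2, h3⟩ := h p hp
    obtain ⟨c', h1', h2', h3'⟩ := h q hq
    exact eq_iff h1 h1' h2 h2' h3 h3'
  wire l h p hp q hq := by
    obtain ⟨z, h⟩ := h
    obtain ⟨c, h1, h2, h3⟩ := h p hp
    obtain ⟨c', h1', h2', h3'⟩ := h q hq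
    exact wire_iff h1 h1' h2 h2' h3 h3'
  kind l h p hp κ := by
    obtain ⟨z, h⟩ := h
    obtain ⟨c, h1, h2, h3⟩ := h p hp
    exact kind_iff h1 h2 h3 κ
  out l h p hp := by
    obtain ⟨z, h⟩ := h
    obtain ⟨c, h1, h2, h3⟩ := h p hp
    exact out_iff h1 h2 h3

theorem brel_single (h : Y.Vd b b' z c) {u : Y.U b} {u' : Y.U b'} (g : Y.Rp b c u)
    (g' : Y.Rp b' (thc Y.φ z c) u') : Y.BRel b b' [(u, u')] :=
  ⟨z, fun p hp => by
    rw [List.mem_singleton] at hp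
    subst hp
    exact ⟨c, h, g, g'⟩⟩

variable (Y) in
/-- all gates have codes in a small family -/
theorem cover (hk : m ≤ k) (hN : 2 * m ≤ N) (b₀ : Γ → Bool) :
    ∃ fam : Y.U b₀ × (Fin (k + 1) → V) → Cd Z m k V (Ic ⊕ Γ) F, ∀ b u, ∃ i, Y.Rp b (fam i) u := by
  classical
  choose r hr using Y.surj b₀
  refine ⟨fun i => thc Y.φ i.2 (r i.1), fun b u => ?_⟩
  obtain ⟨c, hc⟩ := Y.surj b u
  have hcm := card_gr_le c
  obtain ⟨z, h1, -⟩ := Y.extend b b₀ 0 (gr c) (by omega) ∅ (by simp)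
  obtain ⟨u₀, hu₀⟩ := Y.exi (z := z) h1 hc
  have hrm := card_gr_le (r u₀)
  obtain ⟨z', h2, h3⟩ := Y.extend b₀ b z (gr c ∪ gr (r u₀)) ((card_union_le _ _).trans (by omega))
    (sr c) ((card_sr_le c).trans hk)
  have h4 : Y.Vd b₀ b z (thc Y.φ z c) := Vd.symm h1
  have h5 := h3 (thc Y.φ z c) (by rw [sr_thc]) (by rw [gr_thc]; exact subset_union_left) h4
  rw [thc_thc Y.φ Y.two] at h5
  have h6 : Y.Vd b₀ b z' (r u₀) := fun j hj => h2 j (mem_union_right _ hj)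
  have h7 : Y.Vd b₀ b z' (thc Y.φ z c) := fun j hj => by
    rw [gr_thc] at hj
    exact h2 j (mem_union_left _ hj)
  obtain ⟨u', hu'⟩ := Y.exi h6 (hr u₀)
  have h8 : u' = u := Y.eq h6 h7 (hr u₀) hu₀ hu' (by rw [h5]; exact hc)
  subst h8
  exact ⟨(u₀, z'), hu'⟩

end TSys

end Pool.Agent.W_MP_5f6b2a_lc.Count
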