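import Pool.Agent.W_MP_5f6b2a_lc.CProb

/-!
Infinitary counting logic with boundedly many variables, interpretations with a definable
congruence, and the W-hierarchy with the corresponding reductions.
-/

namespace Pool.Agent.W_MP_5f6b2a_lc.Count

open Logic

/-- Formulas of infinitary logic with counting quantifiers over `L` all of whose (free or bound)
variables lie in `X`. Conjunctions may be infinite. For finite `X` this is the logic
`C^{|X|}_{∞ω}`. -/
inductive CFml (L : Voc) (X : Type) : Type 1
  | eq (x y : X) : CFml L X
  | rel (r : L.R) (x : Fin (L.ar r) → X) : CFml L X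
  | neg (φ : CFml L X) : CFml L X
  | conj {ι : Type} (φ : ι → CFml L X) : CFml L X
  | ex (n : ℕ) (x : X) (φ : CFml L X) : CFml L X

/-- Satisfaction. Assignments are partial; atomic formulas with an unassigned variable are false.
`ex n x φ` says that there are at least `n` elements `x` satisfying `φ`. -/
def CFml.Holds {L : Voc} {X : Type} [DecidableEq X] {A : Type} (S : Str L A) :
    CFml L X → (X → Option A) → Prop
  | .eq x y, v => ∃ a, v x = some a ∧ v y = some a
  | .rel r x, v => ∃ a : Fin (L.ar r) → A, (∀ i, v (x i) = some (a i)) ∧ S.rel r a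
  | .neg φ, v => ¬ φ.Holds S v
  | .conj φ, v => ∀ i, (φ i).Holds S v
  | .ex n x φ, v => ∃ a : Fin n → A, Function.Injective a ∧
      ∀ i, φ.Holds S (Function.update v x (some (a i)))

/-- An interpretation of `L'`-structures in `L`-structures. The elements of the interpreted
structure are represented by the pairs `(z, x)`, `z` in a (possibly infinite) set `Z` of sorts and
`x` a tuple of length at most `m` (a partial function on `Fin m`), which satisfy the formula
`dom z`; two pairs represent the same element if they satisfy the formula `eqv`. Every formula has at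
most `c` variables in addition to those for the components of the tuples. -/
structure CInterp (L L' : Voc) (m c : ℕ) where
  Z : Type
  dom : Z → CFml L (Fin m ⊕ Fin c)
  eqv : Z → Z → CFml L ((Fin 2 × Fin m) ⊕ Fin c)
  rel : (r : L'.R) → (Fin (L'.ar r) → Z) → CFml L ((Fin (L'.ar r) × Fin m) ⊕ Fin c)

namespace CInterp

variable {L L' : Voc} {m c : ℕ} (I : CInterp L L' m c) {A : Type}

/-- The representatives of the elements of the interpreted structure. -/
def Repr (S : Str L A) : Type :=
  {p : I.Z × (Fin m → Option A) // (I.dom p.1).Holds S (Sum.elim p.2 fun _ => none)}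

/-- The relation given by the formula `eqv`. -/
def Eqv (S : Str L A) (p q : I.Repr S) : Prop :=
  (I.eqv p.1.1 q.1.1).Holds S
    (Sum.elim (fun j => if j.1 = 0 then p.1.2 j.2 else q.1.2 j.2) fun _ => none)

/-- The relations given by the formulas `rel`. -/
def Rel (S : Str L A) (r : L'.R) (p : Fin (L'.ar r) → I.Repr S) : Prop :=
  (I.rel r fun i => (p i).1.1).Holds S (Sum.elim (fun j => (p j.1).1.2 j.2) fun _ => none)

/-- In `S`, the formula `eqv` defines a congruence for the relations given by the formulas
`rel`. -/
def IsCongr (S : Str L A) : Prop :=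
  Equivalence (I.Eqv S) ∧
    ∀ r p q, (∀ i, I.Eqv S (p i) (q i)) → (I.Rel S r p ↔ I.Rel S r q)

/-- The universe of the interpreted structure. -/
def Univ (S : Str L A) : Type := Quot (I.Eqv S)

/-- The interpreted structure. -/
def target (S : Str L A) : Str L' (I.Univ S) :=
  ⟨fun r x => ∃ p : Fin (L'.ar r) → I.Repr S, (∀ i, Quot.mk _ (p i) = x i) ∧ I.Rel S r p⟩

end CInterp

/-- Slicewise bounded-variable infinitary counting reductions without order: for some `m`, `c`, `e`,
`g` and every `k` there are an interpretation `I`, with tuples of length at most `m` and at most `c`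
additional variables, and a numerical invariant `κ ≤ g k`, each level set of which is defined by a
sentence with `c` variables, such that for all finite structures `S` the interpreted structure
`I(S)` is well defined, has at most `g k * (|S| + 1) ^ e` elements, and `(S, k)` and `(I(S), κ(S))`
are equivalent. -/
def Reducible (P P' : Problem) : Prop :=
  ∃ (m c e : ℕ) (g : ℕ → ℕ), ∀ k : ℕ,
    ∃ (I : CInterp P.L P'.L m c) (κ : {A : Type} → [Finite A] → Str P.L A → ℕ),
      (∀ (A : Type) [Finite A] (S : Str P.L A), κ S ≤ g k) ∧
      (∀ j, ∃ ψ : CFml P.L (Fin c), ∀ (A : Type) [Finite A] (S : Str P.L A),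
        κ S = j ↔ ψ.Holds S fun _ => none) ∧
      ∀ (A : Type) [Finite A] (S : Str P.L A), I.IsCongr S ∧
        ∃ _ : Finite (I.Univ S), Nat.card (I.Univ S) ≤ g k * (Nat.card A + 1) ^ e ∧
          (P.Q S k ↔ P'.Q (I.target S) (κ S))

/-- The analogue of `W[t]` for the reductions `Reducible`: the closure of the problems
`p-WSAT(C_{s,d})`, `s ≤ t`, `d ≥ 1`. -/
def W (t : ℕ) : Set Problem := {P | ∃ s ≤ t, ∃ d, 1 ≤ d ∧ Reducible P (pWSAT s d)}

end Pool.Agent.W_MP_5f6b2a_lc.Count
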