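import Pool.Agent.W_MP_5f6b2a_lc.Depth

/-!
A depth hierarchy for formulas with layers of arbitrary small Boolean combinations of unbounded
OR gates.
-/

namespace Pool.Agent.W_MP_5f6b2a_lc.Count

open Finset

variable {X Y : Type}

/-- `HG M D q j f`: the function `f` is computed with `j` layers, each consisting of Boolean
combinations of `q` ORs of at most `M` functions of the previous layer, over decision trees of depth
at most `q * D`. -/
def HG (M D q : ℕ) : ℕ → ((X → Bool) → Prop) → Prop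
  | 0, f => DTle (q * D) f
  | j + 1, f => ∃ (g : Fin q → (X → Bool) → Prop) (β : (Fin q → Prop) → Prop),
      (∀ i, ∃ (l : ℕ) (h : Fin l → (X → Bool) → Prop), l ≤ M ∧ (∀ i', HG M D q j (h i')) ∧
        ∀ z, g i z ↔ ∃ i', h i' z) ∧ ∀ z, f z ↔ β fun i => g i z

/-- ORs of at most `M` functions in `HG`. -/
def HO (M D q j : ℕ) (f : (X → Bool) → Prop) : Prop :=
  ∃ (l : ℕ) (h : Fin l → (X → Bool) → Prop), l ≤ M ∧ (∀ i', HG M D q j (h i')) ∧
    ∀ z, f z ↔ ∃ i', h i' z

theorem HG.congr {M D q : ℕ} {j : ℕ} {f g : (X → Bool) → Prop} (h : HG M D q j f)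
    (hfg : ∀ z, f z ↔ g z) : HG M D q j g := by
  have : f = g := funext fun z => propext (hfg z)
  rwa [← this]

theorem HG.mono {M D q q' : ℕ} (hq : q ≤ q') : ∀ (j : ℕ) (f : (X → Bool) → Prop),
    HG M D q j f → HG M D q' j f := by
  intro j
  induction j with
  | zero =>
    intro f hf
    exact DTle.mono (Nat.mul_le_mul_right _ hq) hf
  | succ j ih =>
    rintro f ⟨g, β, h1, h2⟩
    refine ⟨fun i => if h : i.1 < q then g ⟨i.1, h⟩ else fun _ => False,
      fun u => β fun i => u ⟨i.1, i.2.trans_le hq⟩, fun i => ?_, fun z => ?_⟩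
    · by_cases h : i.1 < q
      · obtain ⟨l, h', h3, h4, h5⟩ := h1 ⟨i.1, h⟩
        refine ⟨l, h', h3, fun i' => ih _ (h4 i'), fun z => ?_⟩
        simp only [dif_pos h]
        exact h5 z
      · refine ⟨0, fun i => i.elim0, Nat.zero_le _, fun i => i.elim0, fun z => ?_⟩
        simp only [dif_neg h]
        simp
    · rw [h2 z]
      have : (fun i : Fin q => g i z) = fun i : Fin q =>
          (if h : (⟨i.1, i.2.trans_le hq⟩ : Fin q').1 < q then g ⟨i.1, h⟩
            else fun _ => False) z := by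
        funext i
        rw [dif_pos i.2]
      rw [this]

theorem HG.up {M D q : ℕ} (hM : 1 ≤ M) (hq : 1 ≤ q) {j : ℕ} {f : (X → Bool) → Prop}
    (h : HG M D q j f) : HG M D q (j + 1) f := by
  refine ⟨fun _ => f, fun u => u ⟨0, hq⟩, fun i => ⟨1, fun _ => f, hM, fun _ => h, fun z => ?_⟩,
    fun z => Iff.rfl⟩
  simp

theorem HG.up_le {M D q : ℕ} (hM : 1 ≤ M) (hq : 1 ≤ q) {j j' : ℕ} (hj : j ≤ j')
    {f : (X → Bool) → Prop} (h : HG M D q j f) : HG M D q j' f := by
  induction hj with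
  | refl => exact h
  | step _ ih => exact ih.up hM hq

theorem HG.of_dt {M D q : ℕ} (hM : 1 ≤ M) (hq : 1 ≤ q) {j : ℕ} {f : (X → Bool) → Prop}
    (h : DTle D f) : HG M D q j f := by
  refine HG.up_le hM hq (Nat.zero_le j) ?_
  exact DTle.mono (Nat.le_mul_of_pos_left _ hq) h

theorem HG.beta {M D q n : ℕ} : ∀ (j : ℕ) (f : Fin n → (X → Bool) → Prop)
    (_ : ∀ i, HG M D q j (f i)) (β : (Fin n → Prop) → Prop),
    HG M D (n * q) j fun z => β fun i => f i z := by
  intro j
  cases j with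
  | zero =>
    intro f hf β
    have := DTle.juntas n f hf β
    refine DTle.mono ?_ this
    rw [mul_assoc]
  | succ j =>
    intro f hf β
    choose g β' h1 h2 using hf
    refine ⟨fun i => g (finProdFinEquiv.symm i).1 (finProdFinEquiv.symm i).2,
      fun u => β fun i => β' i fun i' => u (finProdFinEquiv (i, i')), fun i => ?_, fun z => ?_⟩
    · obtain ⟨l, h, h3, h4, h5⟩ := h1 (finProdFinEquiv.symm i).1 (finProdFinEquiv.symm i).2
      refine ⟨l, h, h3, fun i' => HG.mono ?_ _ _ (h4 i'), h5⟩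
      have : 0 < n := (finProdFinEquiv.symm i).1.pos
      exact Nat.le_mul_of_pos_left _ this
    · have h3 : (fun i => f i z) = fun i => β' i fun i' =>
          g (finProdFinEquiv.symm (finProdFinEquiv (i, i'))).1
            (finProdFinEquiv.symm (finProdFinEquiv (i, i'))).2 z := by
        funext i
        rw [propext (h2 i z)]
        congr 1
        funext i'
        rw [Equiv.symm_apply_apply]
      show β (fun i => f i z) ↔ _
      rw [h3]

theorem HG.comp {M D q : ℕ} {φ : (Y → Bool) → X → Bool}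
    (hφ : ∀ x, (∃ b, ∀ z, φ z x = b) ∨ ∃ y b, ∀ z, (φ z x = true ↔ z y = b)) :
    ∀ (j : ℕ) (f : (X → Bool) → Prop), HG M D q j f → HG M D q j fun z => f (φ z) := by
  intro j
  induction j with
  | zero =>
    intro f hf
    exact DTle.subst hf hφ
  | succ j ih =>
    rintro f ⟨g, β, h1, h2⟩
    refine ⟨fun i z => g i (φ z), β, fun i => ?_, fun z => h2 (φ z)⟩
    obtain ⟨l, h, h3, h4, h5⟩ := h1 i
    exact ⟨l, fun i' z => h i' (φ z), h3, fun i' => ih _ (h4 i'), fun z => h5 (φ z)⟩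

theorem HO.comp {M D q j : ℕ} {φ : (Y → Bool) → X → Bool}
    (hφ : ∀ x, (∃ b, ∀ z, φ z x = b) ∨ ∃ y b, ∀ z, (φ z x = true ↔ z y = b))
    {f : (X → Bool) → Prop} (h : HO M D q j f) : HO M D q j fun z => f (φ z) := by
  obtain ⟨l, g, h3, h4, h5⟩ := h
  exact ⟨l, fun i' z => g i' (φ z), h3, fun i' => HG.comp hφ j _ (h4 i'), fun z => h5 (φ z)⟩

section blocks

variable {I B : Type} [Fintype I] [DecidableEq I] [Fintype B] [DecidableEq B]

theorem hg_restrict {p : ℝ} (hp0 : 0 < p) (hp1 : p ≤ 1 / 2) (ν : Bool) (N D M q : ℕ) :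
    ∀ (j : ℕ) (f : (I × B → Bool) → Prop), HG M D q (j + 1) f →
    wsum (bwt p) (fun ω : I → Option B × Bool =>
      ¬ HG M N q j fun z => f (fill (brho ν ω) z)) ≤
      (q : ℝ) ^ (j + 1) * (M : ℝ) ^ j * ((3 ^ (q * D)) ^ (N + 1) * (2 * p) ^ (N + 1)) := by
  have hp1' : p ≤ 1 := by linarith
  have hnn : ∀ ω : I → Option B × Bool, 0 ≤ bwt p ω := bwt_nonneg hp0.le hp1'
  intro j
  induction j with
  | zero =>
    rintro f ⟨g, β, h1, h2⟩
    refine le_trans (wsum_mono hnn (E' := fun ω => ∃ i, ¬ DTle N fun z => g i (fill (brho ν ω) z))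
      ?_) ?_
    · intro ω hω
      by_contra hcon
      push Not at hcon
      apply hω
      have h3 := DTle.juntas q (fun i z => g i (fill (brho ν ω) z)) hcon β
      exact h3.congr fun z => (h2 _).symm
    · refine (wsum_exists hnn _).trans ?_
      refine (Finset.sum_le_sum fun i _ => block_gate hp0 hp1 ν N (q * D) M false (g i) ?_).trans ?_
      · obtain ⟨l, h, h3, h4, h5⟩ := h1 i
        exact ⟨l, h, h3, h4, h5⟩
      · rw [Finset.sum_const, Finset.card_univ, Fintype.card_fin, nsmul_eq_mul]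
        simp
  | succ j ih =>
    rintro f ⟨g, β, h1, h2⟩
    choose l h h3 h4 h5 using h1
    refine le_trans (wsum_mono hnn (E' := fun ω => ∃ i : Fin q, ∃ i' : Fin (l i),
      ¬ HG M N q j fun z => h i i' (fill (brho ν ω) z)) ?_) ?_
    · intro ω hω
      by_contra hcon
      push Not at hcon
      apply hω
      exact ⟨fun i z => g i (fill (brho ν ω) z), β, fun i => ⟨l i,
        fun i' z => h i i' (fill (brho ν ω) z), h3 i, hcon i, fun z => h5 i _⟩, fun z => h2 _⟩
    · refine (wsum_exists hnn _).trans ?_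
      refine (Finset.sum_le_sum fun i _ => wsum_exists hnn _).trans ?_
      refine (Finset.sum_le_sum fun i _ => Finset.sum_le_sum fun i' _ => ih _ (h4 i i')).trans ?_
      set K : ℝ := (q : ℝ) ^ (j + 1) * (M : ℝ) ^ j * ((3 ^ (q * D)) ^ (N + 1) * (2 * p) ^ (N + 1))
        with hK
      have hK0 : 0 ≤ K := by positivity
      have h6 : ∀ i : Fin q, ∑ _i' : Fin (l i), K ≤ M * K := by
        intro i
        rw [Finset.sum_const, Finset.card_univ, Fintype.card_fin, nsmul_eq_mul]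
        exact mul_le_mul_of_nonneg_right (by exact_mod_cast h3 i) hK0
      refine (Finset.sum_le_sum fun i _ => h6 i).trans ?_
      rw [Finset.sum_const, Finset.card_univ, Fintype.card_fin, nsmul_eq_mul]
      refine le_of_eq ?_
      rw [hK]
      ring

theorem ho_restrict {p : ℝ} (hp0 : 0 < p) (hp1 : p ≤ 1 / 2) (ν : Bool) (N D M q j : ℕ)
    (f : (I × B → Bool) → Prop) (hf : HO M D q (j + 1) f) :
    wsum (bwt p) (fun ω : I → Option B × Bool =>
      ¬ HO M N q j fun z => f (fill (brho ν ω) z)) ≤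
      (q : ℝ) ^ (j + 1) * (M : ℝ) ^ (j + 1) * ((3 ^ (q * D)) ^ (N + 1) * (2 * p) ^ (N + 1)) := by
  have hp1' : p ≤ 1 := by linarith
  have hnn : ∀ ω : I → Option B × Bool, 0 ≤ bwt p ω := bwt_nonneg hp0.le hp1'
  obtain ⟨l, h, h3, h4, h5⟩ := hf
  refine le_trans (wsum_mono hnn (E' := fun ω => ∃ i' : Fin l,
      ¬ HG M N q j fun z => h i' (fill (brho ν ω) z)) ?_) ?_
  · intro ω hω
    by_contra hcon
    push Not at hcon
    apply hω
    exact ⟨l, fun i' z => h i' (fill (brho ν ω) z), h3, hcon, fun z => h5 _⟩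
  · refine (wsum_exists hnn _).trans ?_
    refine (Finset.sum_le_sum fun i' _ => hg_restrict hp0 hp1 ν N D M q j _ (h4 i')).trans ?_
    rw [Finset.sum_const, Finset.card_univ, Fintype.card_fin, nsmul_eq_mul]
    have h6 : (l : ℝ) ≤ M := by exact_mod_cast h3
    refine (mul_le_mul_of_nonneg_right h6 (by positivity)).trans (le_of_eq ?_)
    ring

end blocks

theorem hier_step (t e q D : ℕ) (ih : ∀ D', ∃ a₀ : ℕ, ∀ a, a₀ ≤ a →
      ¬ HO (a ^ e) D' q t
        (fun z : P a t × Fin (bfan a t) → Bool => treeB a t fun l => z l = true)) :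
    ∃ a₀ : ℕ, ∀ a, a₀ ≤ a → ¬ HO (a ^ e) D q (t + 1)
      (fun z : P a (t + 1) × Fin (bfan a (t + 1)) → Bool =>
        treeB a (t + 1) fun l => z l = true) := by
  obtain ⟨a₁, ha₁⟩ := ih (e * (t + 1))
  obtain ⟨a₂, ha₂4, ha₂⟩ := large_a (3 * (2 ^ t - 1) + (3 * (2 ^ t - 1) + 1))
    (q ^ (t + 1) * (2 * 3 ^ (q * D)) ^ (e * (t + 1) + 1))
  refine ⟨max a₁ a₂, fun a ha hLv => ?_⟩
  have haa₁ : a₁ ≤ a := le_trans (le_max_left _ _) ha
  have haa₂ : a₂ ≤ a := le_trans (le_max_right _ _) ha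
  have ha4 : 4 ≤ a := ha₂4.trans haa₂
  obtain ⟨hK, hE⟩ := ha₂ a haa₂
  have hapos : (0 : ℝ) < a := by exact_mod_cast (by omega : 0 < a)
  have ha4' : (4 : ℝ) ≤ a := by exact_mod_cast ha4
  set p : ℝ := 1 / (a : ℝ) with hp
  have hp0 : 0 < p := by positivity
  have hp1 : p ≤ 1 / 2 := by
    rw [hp, div_le_div_iff₀ hapos (by norm_num)]
    linarith
  have hp1' : p ≤ 1 := by linarith
  set N : ℕ := e * (t + 1) with hN
  -- the three bad events
  have hnn : ∀ ω : P a (t + 1) → Option (Fin (bfan a (t + 1))) × Bool, 0 ≤ bwt p ω :=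
    bwt_nonneg hp0.le hp1'
  have b1 := ho_restrict hp0 hp1 (neu t) N D (a ^ e) q t _ hLv
  have b2 := wsum_none (I := P a (t + 1)) (B := Fin (bfan a (t + 1))) hp0.le hp1'
  have b3 : wsum (bwt p) (fun ω : P a (t + 1) → Option (Fin (bfan a (t + 1))) × Bool =>
      ∃ pu : P a t × Fin (bfan a t), ∀ c : Fin (a ^ 2),
        (ω ((pu.1, (pu.2, c)) : P a t × (Fin (bfan a t) × Fin (a ^ 2)))).2 = false) ≤
      1 / 4 := by
    refine (wsum_exists hnn _).trans ?_
    have h1 : ∀ pu : P a t × Fin (bfan a t),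
        wsum (bwt p) (fun ω : P a (t + 1) → Option (Fin (bfan a (t + 1))) × Bool =>
          ∀ c : Fin (a ^ 2),
            (ω ((pu.1, (pu.2, c)) : P a t × (Fin (bfan a t) × Fin (a ^ 2)))).2 = false) =
        (1 - p) ^ (a ^ 2) := by
      intro pu
      let emb : Fin (a ^ 2) → P a (t + 1) := fun c =>
        ((pu.1, (pu.2, c)) : P a t × (Fin (bfan a t) × Fin (a ^ 2)))
      have hemb : Function.Injective emb := by
        intro c c' h
        have : ((pu.1, (pu.2, c)) : P a t × (Fin (bfan a t) × Fin (a ^ 2))) =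
          (pu.1, (pu.2, c')) := h
        simpa using this
      have h2 := wsum_dead (B := Fin (bfan a (t + 1))) (q := p) (univ.image emb)
      rw [Finset.card_image_of_injective _ hemb, Finset.card_univ, Fintype.card_fin] at h2
      rw [← h2]
      refine wsum_congr fun ω => ?_
      constructor
      · intro h i hi
        obtain ⟨c, -, rfl⟩ := Finset.mem_image.1 hi
        exact h c
      · intro h c
        exact h _ (Finset.mem_image_of_mem _ (mem_univ c))
    simp only [h1]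
    rw [Finset.sum_const, Finset.card_univ, Fintype.card_prod, Fintype.card_fin, card_P, bfan,
      ← pow_add, nsmul_eq_mul]
    push_cast
    exact hE
  have b1' : (q : ℝ) ^ (t + 1) * (((a ^ e : ℕ) : ℝ)) ^ (t + 1) *
      ((3 ^ (q * D)) ^ (N + 1) * (2 * p) ^ (N + 1)) ≤ 1 / 4 := by
    have h1 : (q : ℝ) ^ (t + 1) * (((a ^ e : ℕ) : ℝ)) ^ (t + 1) *
        ((3 ^ (q * D)) ^ (N + 1) * (2 * p) ^ (N + 1)) =
        (q ^ (t + 1) * (2 * 3 ^ (q * D)) ^ (N + 1)) / a := by
      rw [hp, hN]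
      push_cast
      rw [← pow_mul, mul_div_assoc', mul_one, div_pow, mul_pow 2, pow_succ (a : ℝ)]
      field_simp
    rw [h1, div_le_div_iff₀ hapos (by norm_num)]
    push_cast at hK
    linarith
  have b2' : (Fintype.card (P a (t + 1)) : ℝ) *
      ((Fintype.card (Fin (bfan a (t + 1))) : ℝ) + 1)⁻¹ ≤ 1 / 4 := by
    rw [Fintype.card_fin, bfan_eq]
    push_cast
    rw [← div_eq_mul_inv, div_le_div_iff₀ (by positivity) (by norm_num)]
    have : (0 : ℝ) ≤ Fintype.card (P a (t + 1)) := Nat.cast_nonneg _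
    nlinarith
  have hlt : wsum (bwt p) (fun ω : P a (t + 1) → Option (Fin (bfan a (t + 1))) × Bool =>
      ((¬ HO (a ^ e) N q t fun z =>
        treeB a (t + 1) fun l => fill (brho (neu t) ω) z l = true) ∨
      (∃ i, (ω i).1 = none)) ∨
      ∃ pu : P a t × Fin (bfan a t), ∀ c : Fin (a ^ 2),
        (ω ((pu.1, (pu.2, c)) : P a t × (Fin (bfan a t) × Fin (a ^ 2)))).2 = false) <
      ∑ ω : P a (t + 1) → Option (Fin (bfan a (t + 1))) × Bool, bwt p ω := by
    rw [sum_bwt]
    have h1 := wsum_or hnn (E := fun ω => (¬ HO (a ^ e) N q t fun z =>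
        treeB a (t + 1) fun l => fill (brho (neu t) ω) z l = true) ∨
      (∃ i, (ω i).1 = none)) (E' := fun ω => ∃ pu : P a t × Fin (bfan a t), ∀ c : Fin (a ^ 2),
        (ω ((pu.1, (pu.2, c)) : P a t × (Fin (bfan a t) × Fin (a ^ 2)))).2 = false)
    have h2 := wsum_or hnn (E := fun ω => (¬ HO (a ^ e) N q t fun z =>
        treeB a (t + 1) fun l => fill (brho (neu t) ω) z l = true))
      (E' := fun ω => ∃ i, (ω i).1 = none)
    refine lt_of_le_of_lt (h1.trans (add_le_add (h2.trans (add_le_add (b1.trans b1')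
      (b2.trans b2'))) b3)) (by norm_num)
  obtain ⟨ω, hω⟩ := exists_not_of_wsum_lt hlt
  push Not at hω
  obtain ⟨⟨hω1, hω2⟩, hω3⟩ := hω
  have hpos : ∀ i, ∃ v, (ω i).1 = some v := fun i => Option.ne_none_iff_exists'.1 (hω2 i)
  choose pos hpos using hpos
  have hγ : ∀ pu : P a t × Fin (bfan a t), ∃ c : Fin (a ^ 2),
      (ω ((pu.1, (pu.2, c)) : P a t × (Fin (bfan a t) × Fin (a ^ 2)))).2 = true := by
    intro pu
    obtain ⟨c, hc⟩ := hω3 pu
    exact ⟨c, by simpa using hc⟩
  choose γ hγ using hγ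
  refine ha₁ a haa₁ ?_
  have h5 := HO.comp (φ := phi γ) (by
    intro l
    unfold phi
    split_ifs with hl
    · exact Or.inr ⟨_, true, fun z => Iff.rfl⟩
    · exact Or.inl ⟨_, fun z => rfl⟩) hω1
  have h6 : (fun z : P a t × Fin (bfan a t) → Bool => treeB a (t + 1) fun l =>
      fill (brho (neu t) ω) (phi γ z) l = true) = fun z => treeB a t fun l => z l = true := by
    funext y
    refine propext (tree_value ω pos hpos γ ?_ y)
    rintro ⟨p, u, c⟩ hc
    have hc' : c = γ (p, u) := hc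
    subst hc'
    exact hγ (p, u)
  rw [← h6]
  exact h5

theorem hier (t e q D : ℕ) : ∃ a₀ : ℕ, ∀ a, a₀ ≤ a →
    ¬ HO (a ^ e) D q t
      (fun z : P a t × Fin (bfan a t) → Bool => treeB a t fun l => z l = true) := by
  induction t generalizing D with
  | zero =>
    obtain ⟨a₀, h⟩ := depth_hierarchy 0 e (q * D)
    refine ⟨a₀, fun a ha hf => h a ha ?_⟩
    obtain ⟨l, g, h1, h2, h3⟩ := hf
    exact ⟨l, g, h1, h2, h3⟩
  | succ t ih => exact hier_step t e q D fun D' => ih D'

end Pool.Agent.W_MP_5f6b2a_lc.Count
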