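import Mathlib

/-!
Families of vectors over `ZMod 2` any few of which are linearly independent.
-/

namespace Pool.Agent.W_MP_5f6b2a_lc.Count

open Finset

/-- the vectors: the standard basis and the family `w` -/
def vec {D : ℕ} {Γ : Type} (w : Γ → Fin D → ZMod 2) : Fin D ⊕ Γ → Fin D → ZMod 2
  | .inl i => Pi.single i 1
  | .inr γ => w γ

/-- the set coded by `f` -/
def cset {J : Type} [Fintype J] [DecidableEq J] {N : ℕ} (f : Fin N → Option J) : Finset J :=
  univ.filter fun j => ∃ i, f i = some j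

theorem exists_cset {J : Type} [Fintype J] [DecidableEq J] {N : ℕ} (T : Finset J)
    (hT : T.card ≤ N) : ∃ f : Fin N → Option J, cset f = T := by
  refine ⟨fun i => if h : i.1 < T.card then some (T.equivFin.symm ⟨i.1, h⟩).1 else none, ?_⟩
  ext j
  simp only [cset, mem_filter, mem_univ, true_and]
  constructor
  · rintro ⟨i, hi⟩
    split_ifs at hi with h
    rw [← Option.some.inj hi]
    exact (T.equivFin.symm ⟨i.1, h⟩).2
  · intro hj
    refine ⟨⟨(T.equivFin ⟨j, hj⟩).1, (T.equivFin ⟨j, hj⟩).2.trans_le hT⟩, ?_⟩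
    simp

theorem exists_indep (D N : ℕ) (Γ : Type) [Fintype Γ] [DecidableEq Γ]
    (h : (D + Fintype.card Γ + 1) ^ N < 2 ^ D) :
    ∃ w : Γ → Fin D → ZMod 2, ∀ T : Finset (Fin D ⊕ Γ), T.Nonempty → T.card ≤ N →
      ∑ j ∈ T, vec w j ≠ 0 := by
  suffices H : ∀ s : Finset Γ, ∃ w : Γ → Fin D → ZMod 2, ∀ T : Finset (Fin D ⊕ Γ),
      T.Nonempty → T.card ≤ N → (∀ γ, .inr γ ∈ T → γ ∈ s) → ∑ j ∈ T, vec w j ≠ 0 by
    obtain ⟨w, hw⟩ := H univ
    exact ⟨w, fun T h1 h2 => hw T h1 h2 fun γ _ => mem_univ γ⟩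
  intro s
  induction s using Finset.induction_on with
  | empty =>
    refine ⟨fun _ => 0, fun T h1 h2 h3 h4 => ?_⟩
    obtain ⟨j, hj⟩ := h1
    rcases j with i | γ
    · have h5 := congrFun h4 i
      rw [Finset.sum_apply, Finset.sum_eq_single (.inl i : Fin D ⊕ Γ)] at h5
      · simp [vec] at h5
      · rintro (i' | γ) hj' hne
        · simp only [vec]
          rw [Pi.single_eq_of_ne]
          rintro rfl
          exact hne rfl
        · exact absurd (h3 γ hj') (by simp)
      · intro hn
        exact absurd hj hn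
    · exact absurd (h3 γ hj) (by simp)
  | insert γ s hγ ih =>
    obtain ⟨w, hw⟩ := ih
    let B : Finset (Fin D → ZMod 2) :=
      (univ : Finset (Fin N → Option (Fin D ⊕ Γ))).image fun f => ∑ j ∈ cset f, vec w j
    have hB : B.card < Fintype.card (Fin D → ZMod 2) := by
      refine lt_of_le_of_lt card_image_le ?_
      rw [card_univ, Fintype.card_fun, Fintype.card_option, Fintype.card_sum, Fintype.card_fin,
        Fintype.card_fin, Fintype.card_fun, Fintype.card_fin, ZMod.card]
      exact h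
    obtain ⟨x, hx⟩ : ∃ x, x ∉ B := by
      by_contra hcon
      push Not at hcon
      have : B = univ := eq_univ_of_forall hcon
      rw [this, card_univ] at hB
      omega
    refine ⟨Function.update w γ x, fun T h1 h2 h3 h4 => ?_⟩
    have hv : ∀ j, j ≠ .inr γ → vec (Function.update w γ x) j = vec w j := by
      rintro (i | γ') hne
      · rfl
      · simp only [vec]
        rw [Function.update_of_ne]
        rintro rfl
        exact hne rfl
    by_cases hm : (.inr γ : Fin D ⊕ Γ) ∈ T
    · have h5 : ∑ j ∈ T, vec (Function.update w γ x) j =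
          x + ∑ j ∈ T.erase (.inr γ), vec w j := by
        rw [← Finset.add_sum_erase T _ hm]
        congr 1
        · simp [vec]
        · exact Finset.sum_congr rfl fun j hj => hv j (mem_erase.1 hj).1
      rw [h5] at h4
      have h6 : x = ∑ j ∈ T.erase (.inr γ), vec w j := by
        funext i
        have := congrFun h4 i
        exact CharTwo.add_eq_zero.1 this
      apply hx
      obtain ⟨f, hf⟩ := exists_cset (N := N) (T.erase (.inr γ)) ((card_erase_le).trans h2)
      rw [mem_image]
      exact ⟨f, mem_univ _, by rw [hf, h6]⟩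
    · have h5 : ∑ j ∈ T, vec (Function.update w γ x) j = ∑ j ∈ T, vec w j :=
        Finset.sum_congr rfl fun j hj => hv j (by rintro rfl; exact hm hj)
      rw [h5] at h4
      refine hw T h1 h2 (fun γ' hγ' => ?_) h4
      rcases mem_insert.1 (h3 γ' hγ') with rfl | h6
      · exact absurd hγ' hm
      · exact h6

/-- the functionals -/
def vphi {D : ℕ} {Γ : Type} (w : Γ → Fin D → ZMod 2) (j : Fin D ⊕ Γ) :
    (Fin D → ZMod 2) →ₗ[ZMod 2] ZMod 2 where
  toFun p := ∑ i, vec w j i * p i
  map_add' p q := by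
    rw [← sum_add_distrib]
    exact sum_congr rfl fun i _ => by rw [Pi.add_apply, mul_add]
  map_smul' c p := by
    rw [RingHom.id_apply, smul_eq_mul, mul_sum]
    exact sum_congr rfl fun i _ => by rw [Pi.smul_apply, smul_eq_mul]; ring

theorem vphi_single {D : ℕ} {Γ : Type} (w : Γ → Fin D → ZMod 2) (j : Fin D ⊕ Γ) (i : Fin D) :
    vphi w j (Pi.single i 1) = vec w j i := by
  show ∑ i', vec w j i' * (Pi.single i 1 : Fin D → ZMod 2) i' = _
  rw [Finset.sum_eq_single i]
  · simp
  · intro i' _ hne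
    rw [Pi.single_eq_of_ne hne, mul_zero]
  · intro h
    exact absurd (mem_univ _) h

theorem vphi_inl {D : ℕ} {Γ : Type} (w : Γ → Fin D → ZMod 2) (i : Fin D) (p : Fin D → ZMod 2) :
    vphi w (.inl i) p = p i := by
  show ∑ i', (Pi.single i 1 : Fin D → ZMod 2) i' * p i' = _
  rw [Finset.sum_eq_single i]
  · simp
  · intro i' _ hne
    rw [Pi.single_eq_of_ne hne, zero_mul]
  · intro h
    exact absurd (mem_univ _) h

theorem pattern {D N : ℕ} {Γ : Type} [Fintype Γ] [DecidableEq Γ] {w : Γ → Fin D → ZMod 2}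
    (hw : ∀ T : Finset (Fin D ⊕ Γ), T.Nonempty → T.card ≤ N → ∑ j ∈ T, vec w j ≠ 0) :
    ∀ T : Finset (Fin D ⊕ Γ), T.card ≤ N → ∀ σ : Fin D ⊕ Γ → ZMod 2, ∃ ζ,
      ∀ j ∈ T, vphi w j ζ = σ j := by
  intro T
  induction T using Finset.induction_on with
  | empty => exact fun _ σ => ⟨0, by simp⟩
  | insert j T hj ih =>
    intro hT σ
    rw [card_insert_of_notMem hj] at hT
    -- a vector separating `j` from `T`
    have hη : ∃ η, (∀ j' ∈ T, vphi w j' η = 0) ∧ vphi w j η = 1 := by
      by_contra hcon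
      push Not at hcon
      have h1 : (⨅ i : {j' // j' ∈ T}, LinearMap.ker (vphi w i.1)) ≤ LinearMap.ker (vphi w j) := by
        intro η hη
        rw [Submodule.mem_iInf] at hη
        have h2 := hcon η fun j' hj' => hη ⟨j', hj'⟩
        rw [LinearMap.mem_ker]
        have h3 : ∀ a : ZMod 2, a ≠ 1 → a = 0 := by decide
        exact h3 _ h2
      have h2 := mem_span_of_iInf_ker_le_ker h1
      rw [Submodule.mem_span_range_iff_exists_fun] at h2
      obtain ⟨c, hc⟩ := h2
      -- the set of nonzero coefficients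
      let T' : Finset (Fin D ⊕ Γ) := (univ.filter fun i : {j' // j' ∈ T} => c i = 1).map
        (Function.Embedding.subtype _)
      have hT'sub : T' ⊆ T := by
        intro x hx
        obtain ⟨i, -, rfl⟩ := mem_map.1 hx
        exact i.2
      have hjT' : j ∉ T' := fun h => hj (hT'sub h)
      refine hw (insert j T') ⟨j, mem_insert_self _ _⟩ ?_ ?_
      · rw [card_insert_of_notMem hjT']
        have := card_le_card hT'sub
        omega
      · rw [sum_insert hjT']
        funext i
        have h3 := congrArg (fun L => L (Pi.single i 1)) hc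
        simp only [LinearMap.sum_apply, LinearMap.smul_apply, vphi_single, smul_eq_mul] at h3
        rw [Pi.add_apply, Pi.zero_apply, CharTwo.add_eq_zero, ← h3, Finset.sum_apply, sum_map,
          sum_filter]
        refine sum_congr rfl fun i' _ => ?_
        have h4 : ∀ a : ZMod 2, a = 0 ∨ a = 1 := by decide
        rcases h4 (c i') with h5 | h5
        · simp [h5]
        · simp [h5]
    obtain ⟨η, hη1, hη2⟩ := hη
    obtain ⟨ζ, hζ⟩ := ih (by omega) σ
    refine ⟨ζ + (σ j - vphi w j ζ) • η, fun j' hj' => ?_⟩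
    rw [map_add, map_smul, smul_eq_mul]
    rcases mem_insert.1 hj' with rfl | h
    · rw [hη2]
      ring
    · rw [hη1 j' h, hζ j' h, mul_zero, add_zero]

/-- the functionals needed for the lower bound -/
theorem exists_functionals (D N : ℕ) (Γ : Type) [Fintype Γ] [DecidableEq Γ]
    (h : (D + Fintype.card Γ + 1) ^ N < 2 ^ D) :
    ∃ φ : Fin D ⊕ Γ → (Fin D → ZMod 2) →+ ZMod 2,
      (∀ T : Finset (Fin D ⊕ Γ), T.card ≤ N → ∀ σ : Fin D ⊕ Γ → ZMod 2, ∃ ζ,
        ∀ j ∈ T, φ j ζ = σ j) ∧ ∀ x, (∀ i, φ (.inl i) x = 0) → x = 0 := by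
  obtain ⟨w, hw⟩ := exists_indep D N Γ h
  refine ⟨fun j => (vphi w j).toAddMonoidHom, pattern hw, fun x hx => funext fun i => ?_⟩
  have := hx i
  rw [← vphi_inl w i x]
  exact this

end Pool.Agent.W_MP_5f6b2a_lc.Count
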