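import Pool.Agent.W_MP_5f6b2a_lc.CWsat
import Pool.Agent.W_MP_5f6b2a_lc.CCard
import Pool.Agent.W_MP_5f6b2a_lc.CVec

/-!
Strictness of the W-hierarchy under slicewise bounded-variable infinitary counting reductions.
-/

namespace Pool.Agent.W_MP_5f6b2a_lc.Count

open Finset Logic.Circ

theorem holds_none {k : ℕ} {V Ic Γ F : Type} [AddCommGroup V] {L : Logic.Voc} {N : ℕ}
    (Y : Sys k V Ic Γ F L N) {c : ℕ} (hk : c ≤ k + 1) (hN : c ≤ N) (ψ : CFml L (Fin c))
    (b b' : Γ → Bool) (h : ψ.Holds (Y.S b) fun _ => none) : ψ.Holds (Y.S b') fun _ => none := by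
  have h1 := Y.holds_inv (X := Fin c) (by simpa using hk) (by simpa using hN) ψ b b' 0
    (fun _ => none) (by
      intro j hj
      obtain ⟨x, e, h1, -⟩ := mem_grp.1 hj
      simp at h1) h
  rwa [tha_zero] at h1

/-- `p-WSAT(C_{t+2,2t+2})` is not reducible to `p-WSAT(C_{s,d})` if `s ≤ t + 1`. -/
theorem not_reducible (t s d : ℕ) (hs : s ≤ t + 1) :
    ¬ Reducible (Logic.pWSAT (t + 2) (2 * t + 2)) (Logic.pWSAT s d) := by
  classical
  rintro ⟨m, c, e, g, h⟩
  obtain ⟨P2, hP2⟩ : ∃ x, x = 2 ^ (d + 1) * m := ⟨_, rfl⟩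
  obtain ⟨k, hk⟩ : ∃ x, x = 3 * m + c + m + P2 := ⟨_, rfl⟩
  obtain ⟨I, κ, hκ1, hκ2, hκ3⟩ := h (k + 1)
  obtain ⟨g₀, hg₀⟩ : ∃ x, x = g (k + 1) := ⟨_, rfl⟩
  rw [← hg₀] at hκ1 hκ3
  obtain ⟨gm, hgm⟩ : ∃ x, x = g₀ * m := ⟨_, rfl⟩
  obtain ⟨N, hN⟩ : ∃ x, x = 4 * m + c + (m + gm + P2) + 1 := ⟨_, rfl⟩
  obtain ⟨D₀, hD₀⟩ : ∃ x, x = 1 + 2 * m + (m + gm) := ⟨_, rfl⟩
  obtain ⟨q, hq⟩ : ∃ x, x = 2 * TSys.qn (2 ^ (3 * m) + 3 * m) d := ⟨_, rfl⟩
  obtain ⟨u, hu⟩ : ∃ x, x = 3 * (2 ^ t - 1) + (3 * (2 ^ t - 1) + 1) := ⟨_, rfl⟩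
  obtain ⟨C, hC⟩ : ∃ x, x = (u + 4) * N + 1 := ⟨_, rfl⟩
  obtain ⟨E, hE⟩ : ∃ x, x = (1 + (C + u + 8) * e + C * (k + 1)) * (g₀ + 1) := ⟨_, rfl⟩
  obtain ⟨a₀, ha₀⟩ := hier t E q D₀
  obtain ⟨k2, hk2⟩ : ∃ x, x = 2 ^ k := ⟨_, rfl⟩
  obtain ⟨r, hr⟩ : ∃ x, x = a₀ + C + (k + 1) + k2 + (t + 1) + g₀ + 2 := ⟨_, rfl⟩
  obtain ⟨a, ha⟩ : ∃ x, x = 2 ^ r := ⟨_, rfl⟩
  have hra : r < a := by
    rw [ha]
    exact Nat.lt_two_pow_self
  obtain ⟨D, hD⟩ : ∃ x, x = C * r := ⟨_, rfl⟩
  have ha1 : 1 ≤ a := by omega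
  have ha2 : 2 ≤ a := by omega
  have haC : C ≤ a := by omega
  have hak : k + 1 ≤ a := by omega
  have ha2k : 2 ^ k ≤ a := by
    rw [← hk2]
    omega
  have hat : t + 1 ≤ a := by omega
  have hag : g₀ ≤ a := by omega
  have haa : a₀ ≤ a := by omega
  have : Finite (tr a t ha1).W := (tr a t ha1).fin
  -- the vectors
  have hcΓ : Fintype.card (P a t × Fin (bfan a t)) = a ^ u := by
    rw [Fintype.card_prod, Fintype.card_fin, card_P, bfan, ← pow_add, hu]
  obtain ⟨n2, n3, n4⟩ := numbers t k e g₀ C a u D ha2 haC hak ha2k hat hag ha hD hu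
    (n₁ := Nat.card (El k (Fin D → ZMod 2) (Fin D ⊕ (P a t × Fin (bfan a t)))
      (Fx k (tr a t ha1).W)))
    (n₂ := Nat.card (Fx k (tr a t ha1).W)) (n₃ := Nat.card (Nd a t)) (by
      refine card_el_le.trans (le_of_eq ?_)
      rw [Fintype.card_sum, hcΓ, Fintype.card_fun, Fintype.card_fin, ZMod.card]) (card_fx_le)
    (card_nd_le a t ha1)
  have hvec : (D + Fintype.card (P a t × Fin (bfan a t)) + 1) ^ N < 2 ^ D := by
    rw [hcΓ, n2]
    calc (D + a ^ u + 1) ^ N ≤ (a ^ (u + 4)) ^ N := Nat.pow_le_pow_left n3 N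
      _ = a ^ ((u + 4) * N) := by rw [← pow_mul]
      _ < a ^ C := Nat.pow_lt_pow_right (by omega) (by omega)
  obtain ⟨φ, pat, hsep⟩ := exists_functionals D N (P a t × Fin (bfan a t)) hvec
  have two : ∀ x : Fin D → ZMod 2, x + x = 0 := fun x => funext fun i => add_self_zmod _
  have hφ : ∀ j, ∃ p, φ j p = 1 := by
    intro j
    obtain ⟨p, hp⟩ := pat {j} (by rw [card_singleton]; omega) fun _ => 1
    exact ⟨p, hp j (mem_singleton_self j)⟩
  -- the structures
  let Y₀ := ssys (R := tr a t ha1) (k := k) two pat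
  let S := fun b => scirc (k := k) (tr a t ha1) φ b
  have hT : ∀ b, (Logic.pWSAT (t + 2) (2 * t + 2)).Q (S b) (k + 1) ↔ (tr a t ha1).T b := by
    intro b
    have h1 := sinClass (R := tr a t ha1) (k := k) hφ b
    have h2 := wsat_iff (R := tr a t ha1) (k := k) hφ hsep b
    have h3 : (tr a t ha1).rk (tr a t ha1).root = t := rfl
    rw [h3] at h1
    exact ⟨fun h => h2.1 h.2, fun h => ⟨h1, h2.2 h⟩⟩
  have hcg : ∀ b, I.IsCongr (Y₀.S b) := fun b => (hκ3 _ (S b)).1
  have hf : ∀ b, Finite (I.Univ (Y₀.S b)) := fun b => (hκ3 _ (S b)).2.choose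
  have hcard : ∀ b, Nat.card (I.Univ (S b)) ≤ g₀ * (Nat.card (El k (Fin D → ZMod 2)
      (Fin D ⊕ (P a t × Fin (bfan a t))) (Fx k (tr a t ha1).W)) + 1) ^ e := fun b =>
    (hκ3 _ (S b)).2.choose_spec.1
  have hQ : ∀ b, (tr a t ha1).T b ↔ InClass (I.target (S b)) s d ∧
      WSat (I.target (S b)) (κ (S b)) := fun b =>
    (hT b).symm.trans (hκ3 _ (S b)).2.choose_spec.2
  let b₀ : P a t × Fin (bfan a t) → Bool := fun _ => false
  have hκ : ∀ b, κ (S b) = κ (S b₀) := by
    intro b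
    obtain ⟨ψ, hψ⟩ := hκ2 (κ (S b₀))
    have h1 : ψ.Holds (S b₀) fun _ => none := (hψ _ _).1 rfl
    exact (hψ _ _).2 (holds_none Y₀ (by omega) (by omega) ψ b₀ b h1)
  obtain ⟨k', hk'⟩ : ∃ x, x = κ (S b₀) := ⟨_, rfl⟩
  have hk'g : k' ≤ g₀ := by
    rw [hk']
    exact hκ1 _ (S b₀)
  have hk'm : k' * m ≤ gm := by
    rw [hgm]
    exact Nat.mul_le_mul_right _ hk'g
  rw [← hk'] at hκ
  -- the function computed by the tree
  have hTfun : ∀ z : P a t × Fin (bfan a t) → Bool,
      (tr a t ha1).T (fun γ => z γ == decide (Even t)) ↔ treeB a t fun l => z l = true := by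
    intro z
    show (treeB a t fun l => ((z l == decide (Even t)) = true ↔ Even t)) ↔ _
    have : (fun l => ((z l == decide (Even t)) = true ↔ Even t)) = fun l => z l = true := by
      funext l
      apply propext
      by_cases he : Even t
      · simp [he]
      · simp [he]
    rw [this]
  have hHO : HO (a ^ E) D₀ q t (tr a t ha1).T := by
    by_cases hex : ∃ b₁, (tr a t ha1).T b₁
    · obtain ⟨b₁, hb₁⟩ := hex
      let Y := tsys Y₀ (I := I) (by omega) (by omega) hcg hf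
      have hcl : ∀ b, InClass (Y.C b) s d := fun b =>
        (Y.bf (by omega) (by omega) b₁ b).inClass ((hQ b₁).1 hb₁).1
      have hfun : (tr a t ha1).T = fun b => WSat (Y.C b) k' := by
        funext b
        apply propext
        rw [hQ b, hκ b]
        exact ⟨fun h => h.2, fun h => ⟨hcl b, h⟩⟩
      rw [hfun, hq]
      obtain ⟨fam, hfam⟩ := Y.cover (by omega) (by omega) b₀
      have hfin : Finite (Y.U b₀) := Y.fin b₀
      have : Fintype (Y.U b₀ × (Fin (k + 1) → Fin D → ZMod 2)) := Fintype.ofFinite _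
      refine Y.wsat_class (fam := fam) (by omega) (by omega) (by omega) (by omega) (by omega)
        (by rw [← hP2]; omega) (by rw [← hP2]; omega) hcl hs ?_ hfam
      have h1 : Fintype.card (Y.U b₀ × (Fin (k + 1) → Fin D → ZMod 2)) ≤
          a ^ (1 + (C + u + 8) * e + C * (k + 1)) := by
        rw [← Nat.card_eq_fintype_card, Nat.card_prod, pow_add]
        refine Nat.mul_le_mul ((hcard b₀).trans n4) (le_of_eq ?_)
        rw [Nat.card_eq_fintype_card, Fintype.card_fun, Fintype.card_fun, ZMod.card,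
          Fintype.card_fin, Fintype.card_fin, n2, ← pow_mul]
      calc Fintype.card (Y.U b₀ × (Fin (k + 1) → Fin D → ZMod 2)) ^ (k' + 1)
          ≤ (a ^ (1 + (C + u + 8) * e + C * (k + 1))) ^ (k' + 1) := Nat.pow_le_pow_left h1 _
        _ = a ^ ((1 + (C + u + 8) * e + C * (k + 1)) * (k' + 1)) := by rw [← pow_mul]
        _ ≤ a ^ E := by
          rw [hE]
          exact Nat.pow_le_pow_right ha1 (Nat.mul_le_mul_left _ (by omega))
    · push Not at hex
      exact ⟨0, fun i => i.elim0, Nat.zero_le _, fun i => i.elim0, fun z =>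
        ⟨fun h => absurd h (hex z), fun ⟨i, _⟩ => i.elim0⟩⟩
  refine ha₀ a haa ?_
  have h5 := HO.comp (φ := fun (z : P a t × Fin (bfan a t) → Bool) γ => z γ == decide (Even t)) (by
    intro γ
    refine Or.inr ⟨γ, decide (Even t), fun z => ?_⟩
    simp) hHO
  have h6 : (fun z : P a t × Fin (bfan a t) → Bool => treeB a t fun l => z l = true) =
      fun z => (tr a t ha1).T fun γ => z γ == decide (Even t) :=
    funext fun z => propext (hTfun z).symm
  rw [h6]
  exact h5

/-- every problem is reducible to itself -/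
theorem Reducible.refl (P : Logic.Problem) : Reducible P P := by
  refine ⟨1, 0, 1, fun k => k + 1, fun k => ?_⟩
  let I : CInterp P.L P.L 1 0 :=
    { Z := Unit
      dom := fun _ => .eq (Sum.inl 0) (Sum.inl 0)
      eqv := fun _ _ => .eq (Sum.inl (0, 0)) (Sum.inl (1, 0))
      rel := fun r _ => .rel r fun i => Sum.inl (i, 0) }
  refine ⟨I, fun _ => k, fun _ _ _ => Nat.le_succ k, fun j => ?_, fun A _ S => ?_⟩
  · by_cases hj : k = j
    · exact ⟨.conj (ι := Empty) Empty.elim, fun A _ S =>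
        ⟨fun _ i => i.elim, fun _ => hj⟩⟩
    · exact ⟨.neg (.conj (ι := Empty) Empty.elim), fun A _ S =>
        ⟨fun h => absurd h hj, fun h => absurd (fun i : Empty => i.elim) h⟩⟩
  · have hdom : ∀ p : Unit × (Fin 1 → Option A), (I.dom p.1).Holds S
        (Sum.elim p.2 fun _ => none) ↔ ∃ a, p.2 0 = some a := by
      intro p
      constructor
      · rintro ⟨a, ha, -⟩
        exact ⟨a, ha⟩
      · rintro ⟨a, ha⟩
        exact ⟨a, ha, ha⟩
    let vl : I.Repr S → A := fun p => ((hdom p.1).1 p.2).choose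
    have hvl : ∀ p : I.Repr S, p.1.2 0 = some (vl p) := fun p =>
      ((hdom p.1).1 p.2).choose_spec
    have heqv : ∀ p q : I.Repr S, I.Eqv S p q ↔ p = q := by
      intro p q
      constructor
      · rintro ⟨a, h1, h2⟩
        have h1' : p.1.2 0 = some a := h1
        have h2' : q.1.2 0 = some a := h2
        apply Subtype.ext
        refine Prod.ext rfl (funext fun j => ?_)
        have hj : j = 0 := Subsingleton.elim _ _
        subst hj
        rw [h1', h2']
      · rintro rfl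
        exact ⟨vl p, hvl p, hvl p⟩
    let rp : A → I.Repr S := fun a => ⟨((), fun _ => some a), (hdom _).2 ⟨a, rfl⟩⟩
    have hvr : ∀ a, vl (rp a) = a := fun a => (Option.some.inj (hvl (rp a))).symm
    have hrv : ∀ p, rp (vl p) = p := by
      intro p
      apply Subtype.ext
      refine Prod.ext rfl (funext fun j => ?_)
      have hj : j = 0 := Subsingleton.elim _ _
      subst hj
      exact (hvl p).symm
    let E : A ≃ I.Univ S :=
      { toFun := fun a => Quot.mk _ (rp a)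
        invFun := Quot.lift vl fun p q h => by rw [(heqv p q).1 h]
        left_inv := hvr
        right_inv := by
          intro x
          obtain ⟨p, rfl⟩ := Quot.exists_rep x
          show Quot.mk _ (rp (vl p)) = _
          rw [hrv] }
    have hcongr : I.IsCongr S := by
      refine ⟨⟨fun p => (heqv p p).2 rfl, fun {p q} h => (heqv _ _).2 ((heqv _ _).1 h).symm,
        fun {p q r} h h' => (heqv _ _).2 (((heqv _ _).1 h).trans ((heqv _ _).1 h'))⟩, ?_⟩
      intro r p q hpq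
      have : p = q := funext fun i => (heqv _ _).1 (hpq i)
      rw [this]
    have hfin : Finite (I.Univ S) := Finite.of_equiv A E
    refine ⟨hcongr, hfin, ?_, ?_⟩
    · rw [← Nat.card_congr E]
      show Nat.card A ≤ (k + 1) * (Nat.card A + 1) ^ 1
      rw [pow_one]
      calc Nat.card A ≤ 1 * (Nat.card A + 1) := by omega
        _ ≤ (k + 1) * (Nat.card A + 1) := Nat.mul_le_mul_right _ (by omega)
    · have hS : I.target S = S.map E := by
        unfold CInterp.target Logic.Str.map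
        congr 1
        funext r x
        apply propext
        constructor
        · rintro ⟨p, hp, a, ha, hr⟩
          have : a = fun i => E.symm (x i) := by
            funext i
            have h1 : (p i).1.2 0 = some (a i) := ha i
            rw [hvl] at h1
            rw [← hp i]
            exact (Option.some.inj h1).symm
          rw [← this]
          exact hr
        · intro hr
          refine ⟨fun i => rp (E.symm (x i)), fun i => E.apply_symm_apply (x i), _, fun i => rfl,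
            hr⟩
      have h1 := P.iso E S k
      show P.Q S k ↔ _
      rw [hS]
      exact h1.symm

theorem pWSAT_mem_W (t d : ℕ) (hd : 1 ≤ d) : Logic.pWSAT t d ∈ W t :=
  ⟨t, le_rfl, d, hd, Reducible.refl _⟩

theorem W_mono {s t : ℕ} (h : s ≤ t) : W s ⊆ W t := by
  rintro P ⟨s', hs', d, hd, hr⟩
  exact ⟨s', hs'.trans h, d, hd, hr⟩

/-- The W-hierarchy is strict for these reductions. -/
theorem W_strict (t : ℕ) (ht : 1 ≤ t) :
    W t ⊂ W (t + 1) ∧
      ∀ s ≤ t, ∀ d, ¬ Reducible (Logic.pWSAT (t + 1) (2 * t)) (Logic.pWSAT s d) := by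
  obtain ⟨t, rfl⟩ : ∃ t', t = t' + 1 := ⟨t - 1, by omega⟩
  refine ⟨⟨W_mono (Nat.le_succ _), fun h => ?_⟩, fun s hs d =>
    not_reducible t s d hs⟩
  obtain ⟨s, hs, d, -, hr⟩ := h (pWSAT_mem_W (t + 1 + 1) (2 * t + 2) (by omega))
  exact not_reducible t s d hs hr

end Pool.Agent.W_MP_5f6b2a_lc.Count
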