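import Pool.Agent.W_MP_5f6b2a_lc.CBase

/-!
Local back-and-forth systems between circuits preserve the classes `C_{t,d}`.
-/

namespace Pool.Agent.W_MP_5f6b2a_lc.Logic

namespace Circ

variable {A B : Type}

/-- A back-and-forth system for tuples of length at most `4`, given by lists of pairs. -/
structure BF (C : Str cVoc A) (C' : Str cVoc B) (Rel : List (A × B) → Prop) : Prop where
  nil : Rel []
  sub : ∀ l l', l' ⊆ l → Rel l → Rel l'
  forth : ∀ l, Rel l → l.length ≤ 3 → ∀ a, ∃ b, Rel ((a, b) :: l)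
  back : ∀ l, Rel l → l.length ≤ 3 → ∀ b, ∃ a, Rel ((a, b) :: l)
  eq : ∀ l, Rel l → ∀ p ∈ l, ∀ q ∈ l, (p.1 = q.1 ↔ p.2 = q.2)
  wire : ∀ l, Rel l → ∀ p ∈ l, ∀ q ∈ l, (Wire C p.1 q.1 ↔ Wire C' p.2 q.2)
  kind : ∀ l, Rel l → ∀ p ∈ l, ∀ κ, (IsKind C κ p.1 ↔ IsKind C' κ p.2)
  out : ∀ l, Rel l → ∀ p ∈ l, (IsOut C p.1 ↔ IsOut C' p.2)

theorem BF.symm {C : Str cVoc A} {C' : Str cVoc B} {Rel : List (A × B) → Prop}
    (h : BF C C' Rel) : BF C' C fun l => Rel (l.map Prod.swap) where
  nil := h.nil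
  sub l l' hl hR := h.sub _ _ (List.map_subset _ hl) hR
  forth l hR hl b := by
    obtain ⟨a, ha⟩ := h.back _ hR (by simpa using hl) b
    exact ⟨a, by simpa using ha⟩
  back l hR hl a := by
    obtain ⟨b, hb⟩ := h.forth _ hR (by simpa using hl) a
    exact ⟨b, by simpa using hb⟩
  eq l hR p hp q hq :=
    (h.eq _ hR _ (List.mem_map_of_mem hp) _ (List.mem_map_of_mem hq)).symm
  wire l hR p hp q hq :=
    (h.wire _ hR _ (List.mem_map_of_mem hp) _ (List.mem_map_of_mem hq)).symm
  kind l hR p hp κ := (h.kind _ hR _ (List.mem_map_of_mem hp) κ).symm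
  out l hR p hp := (h.out _ hR _ (List.mem_map_of_mem hp)).symm

theorem le_ncard_of_list {α : Type} {s : Set α} (hs : s.Finite) (l : List α) (hl : l.Nodup)
    (h : ∀ x ∈ l, x ∈ s) : l.length ≤ s.ncard := by
  classical
  have h1 : ((l.toFinset : Finset α) : Set α) ⊆ s := by
    intro x hx
    exact h x (by simpa using hx)
  have h2 := Set.ncard_le_ncard h1 hs
  rwa [Set.ncard_coe_finset, List.toFinset_card_of_nodup hl] at h2

theorem exists_list_of_le_ncard {α : Type} {s : Set α} {n : ℕ} (h : n ≤ s.ncard) :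
    ∃ l : List α, l.Nodup ∧ l.length = n ∧ ∀ x ∈ l, x ∈ s := by
  classical
  obtain ⟨t, hts, ht⟩ := Set.exists_subset_card_eq h
  rcases Nat.eq_zero_or_pos n with rfl | hn
  · exact ⟨[], by simp⟩
  · have hf : t.Finite := Set.finite_of_ncard_pos (by omega)
    refine ⟨hf.toFinset.toList, Finset.nodup_toList _, ?_, fun x hx => ?_⟩
    · rw [Finset.length_toList, ← Set.ncard_eq_toFinset_card _ hf, ht]
    · exact hts (by simpa using hx)

section

variable [Finite A] [Finite B] {C : Str cVoc A} {C' : Str cVoc B} {Rel : List (A × B) → Prop}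

theorem BF.list (h : BF C C' Rel) {a : A} {b : B} (hab : Rel [(a, b)]) (l : List A)
    (hl : l.length ≤ 3) (hn : l.Nodup) (hw : ∀ x ∈ l, Wire C x a) :
    ∃ l' : List (A × B), Rel (l' ++ [(a, b)]) ∧ l'.map Prod.fst = l ∧
      (l'.map Prod.snd).Nodup ∧ ∀ x ∈ l'.map Prod.snd, Wire C' x b := by
  induction l with
  | nil => exact ⟨[], hab, rfl, by simp, by simp⟩
  | cons x l ih =>
    simp only [List.length_cons] at hl
    rw [List.nodup_cons] at hn
    obtain ⟨l', h1, h2, h3, h4⟩ := ih (by omega) hn.2 fun y hy => hw y (List.mem_cons_of_mem _ hy)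
    have hlen : (l' ++ [(a, b)]).length ≤ 3 := by
      have := congrArg List.length h2
      simp at this ⊢
      omega
    obtain ⟨y, hy⟩ := h.forth _ h1 hlen x
    refine ⟨(x, y) :: l', hy, by simp [h2], ?_, ?_⟩
    · simp only [List.map_cons, List.nodup_cons]
      refine ⟨fun hmem => ?_, h3⟩
      obtain ⟨q, hq, rfl⟩ := List.mem_map.1 hmem
      have := (h.eq _ hy (x, q.2) (by simp) q (by simp [hq])).2 rfl
      apply hn.1
      rw [← h2]
      exact List.mem_map.2 ⟨q, hq, this.symm⟩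
    · intro z hz
      simp only [List.map_cons, List.mem_cons] at hz
      rcases hz with rfl | hz
      · exact (h.wire _ hy (x, z) (by simp) (a, b) (by simp)).1 (hw x (by simp))
      · exact h4 z hz

theorem BF.fanIn_le (h : BF C C' Rel) {a : A} {b : B} (hab : Rel [(a, b)]) {n : ℕ} (hn : n ≤ 3)
    (hle : n ≤ fanIn C a) : n ≤ fanIn C' b := by
  obtain ⟨l, h1, h2, h3⟩ := exists_list_of_le_ncard hle
  obtain ⟨l', h4, h5, h6, h7⟩ := h.list hab l (by omega) h1 h3
  have := le_ncard_of_list (s := {h | Wire C' h b}) (Set.toFinite _) (l'.map Prod.snd) h6 h7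
  have h8 := congrArg List.length h5
  simp only [List.length_map] at this h8
  unfold fanIn
  omega

theorem BF.fanIn_iff (h : BF C C' Rel) {a : A} {b : B} (hab : Rel [(a, b)]) {n : ℕ} (hn : n ≤ 3) :
    n ≤ fanIn C a ↔ n ≤ fanIn C' b :=
  ⟨h.fanIn_le hab hn, h.symm.fanIn_le (by simpa using hab) hn⟩

theorem BF.large_iff (h : BF C C' Rel) {a : A} {b : B} (hab : Rel [(a, b)]) :
    Large C a ↔ Large C' b := by
  unfold Large
  rw [h.kind _ hab (a, b) (by simp) Kind.conj, h.kind _ hab (a, b) (by simp) Kind.disj]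
  exact and_congr_right fun _ => h.fanIn_iff hab (n := 3) le_rfl

theorem BF.wf (h : BF C C' Rel) (hw : WellFounded (Wire C)) : WellFounded (Wire C') := by
  have key : ∀ a, ∀ b, Rel [(a, b)] → Acc (Wire C') b := by
    intro a
    induction a using hw.induction with
    | _ a ih =>
      intro b hab
      refine Acc.intro b fun b' hb' => ?_
      obtain ⟨a', ha'⟩ := h.back _ hab (by simp) b'
      refine ih a' ?_ b' (h.sub _ _ (by simp) ha')
      exact (h.wire _ ha' (a', b') (by simp) (a, b) (by simp)).2 hb'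
  refine ⟨fun b => ?_⟩
  obtain ⟨a, ha⟩ := h.back _ h.nil (by simp) b
  exact key a b ha

theorem BF.correct (h : BF C C' Rel) (hc : Correct C) : Correct C' := by
  obtain ⟨h1, h2, h3, h4, h5, h6⟩ := hc
  have hb : ∀ b, ∃ a, Rel [(a, b)] := fun b => h.back _ h.nil (by simp) b
  refine ⟨fun b => ?_, ?_, h.wf h3, fun b hk => ?_, fun b hk => ?_, fun b hk => ?_⟩
  · obtain ⟨a, ha⟩ := hb b
    obtain ⟨κ, hκ, hu⟩ := h1 a
    refine ⟨κ, (h.kind _ ha (a, b) (by simp) κ).1 hκ, fun κ' hκ' => ?_⟩
    exact hu κ' ((h.kind _ ha (a, b) (by simp) κ').2 hκ')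
  · obtain ⟨a, ha, hu⟩ := h2
    obtain ⟨b, hab⟩ := h.forth _ h.nil (by simp) a
    refine ⟨b, (h.out _ hab (a, b) (by simp)).1 ha, fun b' hb' => ?_⟩
    obtain ⟨a', hab'⟩ := h.back _ hab (by simp) b'
    have h7 := hu a' ((h.out _ hab' (a', b') (by simp)).2 hb')
    exact (h.eq _ hab' (a', b') (by simp) (a, b) (by simp)).1 h7
  · obtain ⟨a, ha⟩ := hb b
    have h7 := h4 a ((h.kind _ ha (a, b) (by simp) _).2 hk)
    have h8 := h.fanIn_iff ha (n := 1) (by norm_num)
    omega
  · obtain ⟨a, ha⟩ := hb b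
    have h7 := h5 a ((h.kind _ ha (a, b) (by simp) _).2 hk)
    have h8 := h.fanIn_iff ha (n := 1) (by norm_num)
    have h9 := h.fanIn_iff ha (n := 2) (by norm_num)
    omega
  · obtain ⟨a, ha⟩ := hb b
    have h7 := h6 a (hk.imp (h.kind _ ha (a, b) (by simp) _).2 (h.kind _ ha (a, b) (by simp) _).2)
    have h8 := h.fanIn_iff ha (n := 1) (by norm_num)
    omega

theorem BF.chain (h : BF C C' Rel) (l : List B) (b : B) (a : A) (hab : Rel [(a, b)])
    (hl : (b :: l).IsChain (Wire C')) :
    ∃ l' : List (A × B), (∀ p ∈ l', Rel [p]) ∧ l'.map Prod.snd = b :: l ∧ l'.head? = some (a, b) ∧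
      (l'.map Prod.fst).IsChain (Wire C) := by
  induction l generalizing a b with
  | nil => exact ⟨[(a, b)], by simpa using hab, rfl, rfl, by simp⟩
  | cons c l ih =>
    rw [List.isChain_cons_cons] at hl
    obtain ⟨a', ha'⟩ := h.back _ hab (by simp) c
    obtain ⟨l', h1, h2, h3, h4⟩ := ih c a' (h.sub _ _ (by simp) ha') hl.2
    have hw : Wire C a a' := (h.wire _ ha' (a, b) (by simp) (a', c) (by simp)).2 hl.1
    refine ⟨(a, b) :: l', ?_, by simp [h2], rfl, ?_⟩
    · intro p hp
      rcases List.mem_cons.1 hp with rfl | hp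
      · exact hab
      · exact h1 p hp
    · cases l' with
      | nil => simp at h3
      | cons p l' =>
        simp only [List.head?_cons, Option.some.injEq] at h3
        subst h3
        simp only [List.map_cons] at h4 ⊢
        exact List.isChain_cons_cons.2 ⟨hw, h4⟩

theorem BF.inClass (h : BF C C' Rel) {t d : ℕ} (hc : InClass C t d) : InClass C' t d := by
  classical
  refine ⟨h.correct hc.1, fun p hp => ?_⟩
  obtain ⟨hch, ⟨b, hb, hbk⟩, ⟨e, he, heo⟩⟩ := hp
  cases p with
  | nil => simp at hb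
  | cons b' l =>
    simp only [List.head?_cons, Option.some.injEq] at hb
    subst hb
    obtain ⟨a, ha⟩ := h.back _ h.nil (by simp) b'
    obtain ⟨l', h1, h2, h3, h4⟩ := h.chain l b' a ha hch
    have h5 : IsPath C (l'.map Prod.fst) := by
      refine ⟨h4, ⟨a, by simp [List.head?_map, h3], (h.kind _ ha (a, b') (by simp) _).2 hbk⟩, ?_⟩
      rw [← h2, List.getLast?_map] at he
      obtain ⟨q, hq, rfl⟩ := Option.map_eq_some_iff.1 he
      have hq' : q ∈ l' := List.mem_of_getLast? hq
      refine ⟨q.1, by simp [List.getLast?_map, hq], ?_⟩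
      exact (h.out _ (h1 q hq') q (by simp)).2 heo
    have h6 := hc.2 _ h5
    have h7 : ∀ l' : List (A × B), (∀ p ∈ l', Rel [p]) →
        ((l'.map Prod.fst).filter fun g => decide (Large C g)).length
          = ((l'.map Prod.snd).filter fun g => decide (Large C' g)).length := by
      intro l'
      induction l' with
      | nil => simp
      | cons p l' ih =>
        intro hp
        have := ih fun q hq => hp q (List.mem_cons_of_mem _ hq)
        have hl := h.large_iff (a := p.1) (b := p.2) (hp p (by simp))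
        simp only [List.map_cons, List.filter_cons, hl]
        split <;> simp [this]
    have h8 := h7 l' h1
    rw [h2] at h8
    have h9 := congrArg List.length h2
    simp only [List.length_map] at h9 h6
    constructor
    · rw [← h9]; exact h6.1
    · rw [← h8]; exact h6.2

end

/-- Isomorphisms give back-and-forth systems. -/
theorem BF.of_equiv {C : Str cVoc A} {C' : Str cVoc B} (e : A ≃ B)
    (hk : ∀ κ a, IsKind C κ a ↔ IsKind C' κ (e a)) (ho : ∀ a, IsOut C a ↔ IsOut C' (e a))
    (hw : ∀ a b, Wire C a b ↔ Wire C' (e a) (e b)) :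
    BF C C' fun l => ∀ p ∈ l, p.2 = e p.1 where
  nil := by simp
  sub l l' hl h p hp := h p (hl hp)
  forth l h _ a := ⟨e a, by
    intro p hp
    rcases List.mem_cons.1 hp with rfl | hp
    · rfl
    · exact h p hp⟩
  back l h _ b := ⟨e.symm b, by
    intro p hp
    rcases List.mem_cons.1 hp with rfl | hp
    · simp
    · exact h p hp⟩
  eq l h p hp q hq := by rw [h p hp, h q hq, e.apply_eq_iff_eq]
  wire l h p hp q hq := by rw [h p hp, h q hq]; exact hw _ _
  kind l h p hp κ := by rw [h p hp]; exact hk _ _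
  out l h p hp := by rw [h p hp]; exact ho _

theorem wsat_of_equiv {C : Str cVoc A} {C' : Str cVoc B} (e : A ≃ B)
    (hk : ∀ κ a, IsKind C κ a ↔ IsKind C' κ (e a)) (ho : ∀ a, IsOut C a ↔ IsOut C' (e a))
    (hw : ∀ a b, Wire C a b ↔ Wire C' (e a) (e b)) {k : ℕ} (h : WSat C k) : WSat C' k := by
  obtain ⟨v, ⟨h1, h2, h3⟩, h4, h5⟩ := h
  refine ⟨fun b => v (e.symm b), ⟨fun b hb => ?_, fun b hb => ?_, fun b hb => ?_⟩, fun b hb => ?_, ?_⟩
  · have := h1 (e.symm b) ((hk _ _).2 (by simpa using hb))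
    rw [this]
    constructor
    · rintro ⟨h, hh, hv⟩
      exact ⟨e h, by simpa using (hw _ _).1 hh, by simpa using hv⟩
    · rintro ⟨h, hh, hv⟩
      exact ⟨e.symm h, (hw _ _).2 (by simpa using hh), hv⟩
  · have := h2 (e.symm b) ((hk _ _).2 (by simpa using hb))
    rw [this]
    constructor
    · intro hall h hh
      exact hall _ ((hw _ _).2 (by simpa using hh))
    · intro hall h hh
      simpa using hall (e h) (by simpa using (hw _ _).1 hh)
  · have := h3 (e.symm b) ((hk _ _).2 (by simpa using hb))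
    rw [this]
    constructor
    · rintro ⟨h, hh, hv⟩
      exact ⟨e h, by simpa using (hw _ _).1 hh, by simpa using hv⟩
    · rintro ⟨h, hh, hv⟩
      exact ⟨e.symm h, (hw _ _).2 (by simpa using hh), hv⟩
  · exact h4 _ ((ho _).2 (by simpa using hb))
  · rw [← h5]
    have : {g | IsKind C' Kind.input g ∧ v (e.symm g) = true}
        = e '' {g | IsKind C Kind.input g ∧ v g = true} := by
      ext b
      simp only [Set.mem_ofPred_eq, Set.mem_image]
      constructor
      · rintro ⟨h6, h7⟩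
        exact ⟨e.symm b, ⟨(hk _ _).2 (by simpa using h6), h7⟩, by simp⟩
      · rintro ⟨a, ⟨h6, h7⟩, rfl⟩
        exact ⟨(hk _ _).1 h6, by simpa using h7⟩
    rw [this, Set.ncard_image_of_injective _ e.injective]

theorem isKind_map (C : Str cVoc A) (e : A ≃ B) (κ : Kind) (a : A) :
    IsKind C κ a ↔ IsKind (C.map e) κ (e a) := by
  unfold IsKind Str.map
  simp

theorem isOut_map (C : Str cVoc A) (e : A ≃ B) (a : A) :
    IsOut C a ↔ IsOut (C.map e) (e a) := by
  unfold IsOut Str.map
  simp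

theorem wire_map (C : Str cVoc A) (e : A ≃ B) (a b : A) :
    Wire C a b ↔ Wire (C.map e) (e a) (e b) := by
  have : (fun i : Fin 2 => e.symm ((![e a, e b] : Fin 2 → B) i)) = (![a, b] : Fin 2 → A) := by
    funext i
    fin_cases i <;> simp
  change C.rel (CSym.wire : CSym) (![a, b] : Fin 2 → A) ↔
    C.rel (CSym.wire : CSym) (fun i : Fin 2 => e.symm ((![e a, e b] : Fin 2 → B) i))
  rw [this]

end Circ

end Pool.Agent.W_MP_5f6b2a_lc.Logic
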