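import Pool.Agent.W_MP_5f6b2a_lc.CMirror

/-!
The weighted satisfiability problems for circuits presented as structures.
-/

namespace Pool.Agent.W_MP_5f6b2a_lc.Logic

/-- The instances are closed under isomorphism. -/
theorem Circ.inst_iso (t d : ℕ) {A B : Type} [Finite A] [Finite B] (e : A ≃ B) (S : Str cVoc A)
    (k : ℕ) : (Circ.InClass (S.map e) t d ∧ Circ.WSat (S.map e) k) ↔
      (Circ.InClass S t d ∧ Circ.WSat S k) := by
  have hk := Circ.isKind_map S e
  have ho := Circ.isOut_map S e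
  have hw := Circ.wire_map S e
  have bf := Circ.BF.of_equiv e hk ho hw
  have hk' : ∀ κ b, Circ.IsKind (S.map e) κ b ↔ Circ.IsKind S κ (e.symm b) := fun κ b => by
    rw [hk κ (e.symm b), e.apply_symm_apply]
  have ho' : ∀ b, Circ.IsOut (S.map e) b ↔ Circ.IsOut S (e.symm b) := fun b => by
    rw [ho (e.symm b), e.apply_symm_apply]
  have hw' : ∀ b c, Circ.Wire (S.map e) b c ↔ Circ.Wire S (e.symm b) (e.symm c) := fun b c => by
    rw [hw (e.symm b), e.apply_symm_apply, e.apply_symm_apply]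
  exact ⟨fun h => ⟨(Circ.BF.of_equiv e.symm hk' ho' hw').inClass h.1,
    Circ.wsat_of_equiv e.symm hk' ho' hw' h.2⟩,
    fun h => ⟨bf.inClass h.1, Circ.wsat_of_equiv e hk ho hw h.2⟩⟩

/-- The problem `p-WSAT(C_{t,d})` for circuits presented as structures. -/
def pWSAT (t d : ℕ) : Problem where
  L := cVoc
  Q C k := Circ.InClass C t d ∧ Circ.WSat C k
  iso e S k := Circ.inst_iso t d e S k

end Pool.Agent.W_MP_5f6b2a_lc.Logic
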