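import Pool.Agent.W_MP_5f6b2a_lc.CSys
import Pool.Agent.W_MP_5f6b2a_lc.CCirc

/-!
The circuits for the lower bound.
-/

namespace Pool.Agent.W_MP_5f6b2a_lc.Count

open Logic Logic.Circ Finset

/-- Trees whose bottom nodes carry groups. -/
structure Tr (Γ : Type) where
  W : Type
  fin : Finite W
  root : W
  rk : W → ℕ
  ch : W → W → Prop
  hch : ∀ u w, ch u w → rk u + 1 = rk w
  ex : ∀ w, rk w ≠ 0 → ∃ u, ch u w
  nd : Γ → W
  nd_rk : ∀ γ, rk (nd γ) = 0
  nd_ex : ∀ w, rk w = 0 → ∃ γ, nd γ = w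
  T : (Γ → Bool) → Prop
  hT : ∀ (b : Γ → Bool) (g : W → Prop),
    (∀ w, rk w = 0 → (g w ↔ ∀ γ, nd γ = w → b γ = true)) →
    (∀ w, rk w ≠ 0 → (g w ↔ ∀ u, ch u w → ¬ g u)) → (g root ↔ T b)

/-- Fixed gates: selectors, AND gates and negations. -/
inductive Fx (k : ℕ) (W : Type)
  | sel (v : Fin (k + 1))
  | nd (w : W)
  | ng (w : W)

section

variable {k : ℕ} {V Ic Γ : Type} [AddCommGroup V] (R : Tr Γ) (φ : Ic ⊕ Γ → V →+ ZMod 2)

/-- all bits of a leaf -/
def yf (b : Γ → Bool) (j : Ic ⊕ Γ) (y : Fin k → ZMod 2) : Fin (k + 1) → ZMod 2 :=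
  Fin.cons (∑ i, y i + bit b j) y

/-- the kinds of the gates -/
def skd : El k V (Ic ⊕ Γ) (Fx k R.W) → Logic.Kind
  | .inp _ _ => .input
  | .leaf _ _ => .disj
  | .fix (.sel _) => .disj
  | .fix (.nd _) => .conj
  | .fix (.ng _) => .neg

/-- the wires -/
def swr (b : Γ → Bool) : El k V (Ic ⊕ Γ) (Fx k R.W) → El k V (Ic ⊕ Γ) (Fx k R.W) → Prop
  | .inp v p, .leaf j y => φ j p + yf b j y v = 1
  | .inp v _, .fix (.sel v') => v = v'
  | .leaf (.inl _) _, .fix (.nd w) => w = R.root
  | .leaf (.inr γ) _, .fix (.nd w) => w = R.nd γ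
  | .fix (.sel _), .fix (.nd w) => w = R.root
  | .fix (.nd w), .fix (.ng w') => w = w'
  | .fix (.ng u), .fix (.nd w) => R.ch u w
  | _, _ => False

/-- the circuits -/
def scirc (b : Γ → Bool) : Str cVoc (El k V (Ic ⊕ Γ) (Fx k R.W)) :=
  ⟨fun r => match r with
    | .kind c => fun x => skd R (x (0 : Fin 1)) = c
    | .out => fun x => x (0 : Fin 1) = .fix (.nd R.root)
    | .wire => fun x => swr R φ b (x (0 : Fin 2)) (x (1 : Fin 2))⟩

theorem yf_th {b b' : Γ → Bool} {z : Fin (k + 1) → V} {j : Ic ⊕ Γ} (h : mis φ b b' z j = 0)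
    (y : Fin k → ZMod 2) (v : Fin (k + 1)) (p : V) :
    φ j (p + z v) + yf b' j (fun i => y i + φ j (z i.succ)) v = φ j p + yf b j y v := by
  rw [map_add]
  refine Fin.cases ?_ (fun i => ?_) v
  · simp only [yf, Fin.cons_zero, sum_add_distrib]
    unfold mis at h
    rw [Fin.sum_univ_succ] at h
    have h3 := add_self_zmod (bit b j)
    linear_combination h - h3
  · simp only [yf, Fin.cons_succ]
    have h2 := add_self_zmod (φ j (z i.succ))
    linear_combination h2

theorem swr_th {b b' : Γ → Bool} {z : Fin (k + 1) → V} {e e' : El k V (Ic ⊕ Γ) (Fx k R.W)}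
    (he' : ∀ j, gp e' = some j → mis φ b b' z j = 0)
    (h : swr R φ b e e') : swr R φ b' (th φ z e) (th φ z e') := by
  rcases e with ⟨v, p⟩ | ⟨j | j, y⟩ | (v | w | w) <;>
    rcases e' with ⟨v', p'⟩ | ⟨j', y'⟩ | (v' | w' | w') <;> simp only [swr, th] at h ⊢
  · rw [yf_th φ (he' j' rfl)]
    exact h
  all_goals exact h

variable {R φ}

/-- the system of structures -/
def ssys {N : ℕ} (two : ∀ x : V, x + x = 0)
    (pat : ∀ T : Finset (Ic ⊕ Γ), T.card ≤ N → ∀ σ : Ic ⊕ Γ → ZMod 2, ∃ ζ, ∀ j ∈ T, φ j ζ = σ j) :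
    Sys k V Ic Γ (Fx k R.W) cVoc N where
  φ := φ
  two := two
  S := scirc R φ
  pat := pat
  inv := by
    intro b b' z r x hx h
    rcases r with c | _ | _
    · have h1 : skd R (x (0 : Fin 1)) = c := h
      show skd R (th φ z (x (0 : Fin 1))) = c
      rw [← h1]
      rcases x (0 : Fin 1) with ⟨v, p⟩ | ⟨j, y⟩ | (v | w | w) <;> rfl
    · have h1 : x (0 : Fin 1) = .fix (.nd R.root) := h
      show th φ z (x (0 : Fin 1)) = .fix (.nd R.root)
      rw [h1]
      rfl
    · exact swr_th R φ (fun j hj => hx (1 : Fin 2) j hj) h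

theorem scirc_kind (b : Γ → Bool) (c : Logic.Kind) (g : El k V (Ic ⊕ Γ) (Fx k R.W)) :
    IsKind (scirc R φ b) c g ↔ skd R g = c := Iff.rfl

theorem scirc_out (b : Γ → Bool) (g : El k V (Ic ⊕ Γ) (Fx k R.W)) :
    IsOut (scirc R φ b) g ↔ g = .fix (.nd R.root) := Iff.rfl

theorem scirc_wire (b : Γ → Bool) (g h : El k V (Ic ⊕ Γ) (Fx k R.W)) :
    Wire (scirc R φ b) g h ↔ swr R φ b g h := Iff.rfl

/-- rank -/
def srk (R : Tr Γ) : El k V (Ic ⊕ Γ) (Fx k R.W) → ℕ
  | .inp _ _ => 0
  | .leaf _ _ => 1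
  | .fix (.sel _) => 1
  | .fix (.nd w) => 2 + 2 * R.rk w
  | .fix (.ng w) => 3 + 2 * R.rk w

/-- rank counting only AND and OR gates -/
def slr (R : Tr Γ) : El k V (Ic ⊕ Γ) (Fx k R.W) → ℕ
  | .inp _ _ => 0
  | .leaf _ _ => 1
  | .fix (.sel _) => 1
  | .fix (.nd w) => 2 + R.rk w
  | .fix (.ng w) => 2 + R.rk w

/-- AND and OR gates -/
def sbig (R : Tr Γ) : El k V (Ic ⊕ Γ) (Fx k R.W) → Bool
  | .inp _ _ => false
  | .leaf _ _ => true
  | .fix (.sel _) => true
  | .fix (.nd _) => true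
  | .fix (.ng _) => false

theorem srk_lt {b : Γ → Bool} {g h : El k V (Ic ⊕ Γ) (Fx k R.W)} (hw : swr R φ b g h) :
    srk R g + 1 ≤ srk R h := by
  rcases g with ⟨v, p⟩ | ⟨j | j, y⟩ | (v | w | w) <;>
    rcases h with ⟨v', p'⟩ | ⟨j', y'⟩ | (v' | w' | w') <;> simp only [swr] at hw <;>
    simp only [srk] <;> try omega
  · subst hw
    omega
  · have := R.hch _ _ hw
    omega

theorem slr_le {b : Γ → Bool} {g h : El k V (Ic ⊕ Γ) (Fx k R.W)} (hw : swr R φ b g h) :
    slr R g + (if sbig R h then 1 else 0) ≤ slr R h := by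
  rcases g with ⟨v, p⟩ | ⟨j | j, y⟩ | (v | w | w) <;>
    rcases h with ⟨v', p'⟩ | ⟨j', y'⟩ | (v' | w' | w') <;> simp only [swr] at hw <;>
    simp only [slr, sbig, if_true, Bool.false_eq_true, if_false] <;> try omega
  · subst hw
    omega
  · have := R.hch _ _ hw
    omega

theorem swf (b : Γ → Bool) : WellFounded (Wire (scirc R φ b : Str cVoc (El k V _ _))) := by
  refine Subrelation.wf (r := InvImage (· < ·) (srk R)) ?_ (InvImage.wf _ wellFounded_lt)
  intro g h hw
  have := srk_lt ((scirc_wire b g h).1 hw)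
  change srk R g < srk R h
  omega

variable [Finite (El k V (Ic ⊕ Γ) (Fx k R.W))]

theorem scorrect (hφ : ∀ j, ∃ p, φ j p = 1) (b : Γ → Bool) :
    Correct (scirc R φ b : Str cVoc (El k V (Ic ⊕ Γ) (Fx k R.W))) := by
  refine ⟨fun g => ⟨skd R g, rfl, fun c hc => hc.symm⟩, ⟨.fix (.nd R.root), rfl, fun g hg => hg⟩,
    swf b, fun g hg => ?_, fun g hg => ?_, fun g hg => ?_⟩
  · rw [scirc_kind] at hg
    unfold fanIn
    rw [Set.ncard_eq_zero]
    ext h
    simp only [Set.mem_ofPred_eq, scirc_wire, Set.mem_empty_iff_false, iff_false]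
    rcases g with ⟨v, p⟩ | ⟨j, y⟩ | (v | w | w) <;> simp only [skd, reduceCtorEq] at hg
    rcases h with ⟨v', p'⟩ | ⟨j' | j', y'⟩ | (v' | w' | w') <;> simp [swr]
  · rw [scirc_kind] at hg
    unfold fanIn
    rcases g with ⟨v, p⟩ | ⟨j, y⟩ | (v | w | w) <;> simp only [skd, reduceCtorEq] at hg
    rw [Set.ncard_eq_one]
    refine ⟨.fix (.nd w), ?_⟩
    ext h
    simp only [Set.mem_ofPred_eq, scirc_wire, Set.mem_singleton_iff]
    rcases h with ⟨v', p'⟩ | ⟨j' | j', y'⟩ | (v' | w' | w') <;> simp [swr]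
  · simp only [scirc_kind] at hg
    unfold fanIn
    have h1 : ∃ h, swr R φ b h g := by
      rcases g with ⟨v, p⟩ | ⟨j, y⟩ | (v | w | w) <;> simp only [skd, reduceCtorEq, or_self] at hg
      · obtain ⟨p, hp⟩ := hφ j
        have hy : yf b j y 0 = 0 ∨ yf b j y 0 = 1 := by
          generalize yf b j y 0 = a
          fin_cases a
          · exact Or.inl rfl
          · exact Or.inr rfl
        rcases hy with hy | hy
        · exact ⟨.inp 0 p, by simp [swr, hp, hy]⟩
        · exact ⟨.inp 0 0, by simp [swr, hy]⟩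
      · exact ⟨.inp v 0, rfl⟩
      · by_cases h0 : R.rk w = 0
        · obtain ⟨γ, hγ⟩ := R.nd_ex w h0
          exact ⟨.leaf (.inr γ) 0, hγ.symm⟩
        · obtain ⟨u, hu⟩ := R.ex w h0
          exact ⟨.fix (.ng u), hu⟩
    obtain ⟨h, hh⟩ := h1
    exact (Set.ncard_pos (Set.toFinite _)).2 ⟨h, hh⟩

theorem sinClass (hφ : ∀ j, ∃ p, φ j p = 1) (b : Γ → Bool) :
    InClass (scirc R φ b : Str cVoc (El k V (Ic ⊕ Γ) (Fx k R.W))) (R.rk R.root + 2)
      (2 * R.rk R.root + 2) := by
  classical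
  refine ⟨scorrect hφ b, fun p hp => ?_⟩
  obtain ⟨h1, ⟨g, h2, h3⟩, e, h4, h5⟩ := hp
  rw [scirc_out] at h5
  subst h5
  constructor
  · have := chain_count (P := fun _ => true) (ρ := srk R) (r := Wire (scirc R φ b))
      (fun g g' hw => by simpa using srk_lt ((scirc_wire b g g').1 hw)) 1 p h1 (by simp) _ h4
    simp only [List.filter_true, srk] at this
    omega
  · have h6 := chain_count (P := sbig R) (ρ := slr R) (r := Wire (scirc R φ b))
      (fun g g' hw => slr_le ((scirc_wire b g g').1 hw)) 0 p h1 (by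
        intro g' hg'
        rw [h2] at hg'
        simp only [Option.some.injEq] at hg'
        subst hg'
        rw [scirc_kind] at h3
        rcases g with ⟨v, p⟩ | ⟨j, y⟩ | (v | w | w) <;> simp only [skd, reduceCtorEq] at h3
        simp [sbig]) _ h4
    simp only [slr] at h6
    have h7 : (p.filter fun g => decide (Large (scirc R φ b) g)).length
        ≤ (p.filter (sbig R)).length := by
      rw [← List.countP_eq_length_filter, ← List.countP_eq_length_filter]
      refine List.countP_mono_left fun g _ hg => ?_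
      have hg := of_decide_eq_true hg
      have hg1 := hg.1
      simp only [scirc_kind] at hg1
      rcases g with ⟨v, p⟩ | ⟨j, y⟩ | (v | w | w) <;> simp only [skd, reduceCtorEq, or_self] at hg1 <;>
        rfl
    omega

theorem zmod_ne_one {a : ZMod 2} : a ≠ 1 ↔ a = 0 := by
  revert a
  decide

/-- group values under a selection of inputs -/
theorem group_val {b : Γ → Bool} {v : El k V (Ic ⊕ Γ) (Fx k R.W) → Bool}
    (hv : IsValuation (scirc R φ b) v) (x : Fin (k + 1) → V)
    (hx : ∀ i p, v (.inp i p) = true ↔ p = x i) (j : Ic ⊕ Γ) :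
    (∀ y, v (.leaf j y) = true) ↔ φ j (∑ i, x i) ≠ bit b j := by
  have hleaf : ∀ y, v (.leaf j y) = true ↔ ∃ i, φ j (x i) + yf b j y i = 1 := by
    intro y
    rw [hv.2.2 (.leaf j y) rfl]
    constructor
    · rintro ⟨h, h1, h2⟩
      rw [scirc_wire] at h1
      rcases h with ⟨v', p'⟩ | ⟨j' | j', y'⟩ | (v' | w' | w') <;> simp only [swr] at h1
      rw [hx] at h2
      subst h2
      exact ⟨v', h1⟩
    · rintro ⟨i, hi⟩
      exact ⟨.inp i (x i), hi, (hx _ _).2 rfl⟩
  simp only [hleaf]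
  rw [map_sum]
  constructor
  · intro hall heq
    obtain ⟨i, hi⟩ := hall fun i => φ j (x i.succ)
    revert hi
    refine Fin.cases ?_ (fun i => ?_) i
    · simp only [yf, Fin.cons_zero]
      rw [← add_assoc, ← Fin.sum_univ_succ (fun i => φ j (x i)), heq, add_self_zmod]
      simp
    · simp only [yf, Fin.cons_succ, add_self_zmod]
      simp
  · intro hne y
    by_contra hcon
    push Not at hcon
    apply hne
    have h1 : ∀ i, φ j (x i) = yf b j y i := by
      intro i
      have := zmod_ne_one.1 (hcon i)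
      exact CharTwo.add_eq_zero.1 this
    simp only [h1]
    rw [Fin.sum_univ_succ]
    simp only [yf, Fin.cons_zero, Fin.cons_succ]
    have := add_self_zmod (∑ i, y i)
    linear_combination this

theorem root_val {b : Γ → Bool} {v : El k V (Ic ⊕ Γ) (Fx k R.W) → Bool}
    (hv : IsValuation (scirc R φ b) v) (x : Fin (k + 1) → V)
    (hx : ∀ i p, v (.inp i p) = true ↔ p = x i) (h0 : ∑ i, x i = 0) :
    v (.fix (.nd R.root)) = true ↔ R.T b := by
  have hg := group_val hv x hx
  simp only [h0, map_zero] at hg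
  have hinl : ∀ i y, v (.leaf (.inl i) y) = true := fun i => (hg (.inl i)).2 (by simp [bit])
  have hinr : ∀ γ, (∀ y, v (.leaf (.inr γ) y) = true) ↔ b γ = true := by
    intro γ
    rw [hg (.inr γ)]
    show ((0 : ZMod 2) ≠ if b γ = true then 1 else 0) ↔ _
    cases b γ <;> simp
  have hsel : ∀ i, v (.fix (.sel i)) = true := by
    intro i
    rw [hv.2.2 (.fix (.sel i)) rfl]
    exact ⟨.inp i (x i), rfl, (hx _ _).2 rfl⟩
  have hng : ∀ w, v (.fix (.ng w)) = true ↔ ¬ v (.fix (.nd w)) = true := by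
    intro w
    rw [hv.1 (.fix (.ng w)) rfl]
    constructor
    · rintro ⟨h, h1, h2⟩
      rw [scirc_wire] at h1
      rcases h with ⟨v', p'⟩ | ⟨j' | j', y'⟩ | (v' | w' | w') <;> simp only [swr] at h1
      subst h1
      simp [h2]
    · intro h
      exact ⟨.fix (.nd w), rfl, by simpa using h⟩
  have hnd : ∀ w, v (.fix (.nd w)) = true ↔ (∀ γ, R.nd γ = w → b γ = true) ∧
      ∀ u, R.ch u w → ¬ v (.fix (.nd u)) = true := by
    intro w
    rw [hv.2.1 (.fix (.nd w)) rfl]
    constructor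
    · intro hall
      refine ⟨fun γ hγ => (hinr γ).1 fun y => hall (.leaf (.inr γ) y) hγ.symm, fun u hu => ?_⟩
      exact (hng u).1 (hall (.fix (.ng u)) hu)
    · rintro ⟨h1, h2⟩ h hw
      rw [scirc_wire] at hw
      rcases h with ⟨v', p'⟩ | ⟨j' | j', y'⟩ | (v' | w' | w') <;> simp only [swr] at hw
      · exact hinl _ _
      · exact (hinr j').2 (h1 j' hw.symm) y'
      · exact hsel _
      · exact (hng w').2 (h2 w' hw)
  refine R.hT b (fun w => v (.fix (.nd w)) = true) (fun w hw => ?_) fun w hw => ?_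
  · rw [hnd w]
    refine and_iff_left fun u hu => ?_
    have := R.hch u w hu
    omega
  · rw [hnd w]
    refine and_iff_right fun γ hγ => ?_
    subst hγ
    exact absurd (R.nd_rk γ) hw

theorem wsat_iff (hφ : ∀ j, ∃ p, φ j p = 1) (hsep : ∀ x : V, (∀ i, φ (.inl i) x = 0) → x = 0)
    (b : Γ → Bool) :
    WSat (scirc R φ b : Str cVoc (El k V (Ic ⊕ Γ) (Fx k R.W))) (k + 1) ↔ R.T b := by
  classical
  constructor
  · rintro ⟨v, hv, hout, hcard⟩
    have hroot : v (.fix (.nd R.root)) = true := hout _ rfl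
    have hch := (hv.2.1 (.fix (.nd R.root)) rfl).1 hroot
    set T : Set (El k V (Ic ⊕ Γ) (Fx k R.W)) :=
      {g | IsKind (scirc R φ b) Logic.Kind.input g ∧ v g = true} with hT
    have hTf : T.Finite := Set.toFinite _
    have hsel : ∀ i : Fin (k + 1), ∃ p, v (.inp i p) = true := by
      intro i
      have h1 : v (.fix (.sel i)) = true := hch (.fix (.sel i)) rfl
      obtain ⟨h, h2, h3⟩ := (hv.2.2 (.fix (.sel i)) rfl).1 h1
      rw [scirc_wire] at h2
      rcases h with ⟨v', p'⟩ | ⟨j' | j', y'⟩ | (v' | w' | w') <;> simp only [swr] at h2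
      subst h2
      exact ⟨p', h3⟩
    choose x hx using hsel
    have hT2 : Set.range (fun i => (.inp i (x i) : El k V (Ic ⊕ Γ) (Fx k R.W))) = T := by
      refine Set.eq_of_subset_of_ncard_le ?_ ?_ hTf
      · rintro _ ⟨i, rfl⟩
        exact ⟨rfl, hx i⟩
      · rw [hcard, ← Set.image_univ, Set.ncard_image_of_injective, Set.ncard_univ,
          Nat.card_eq_fintype_card, Fintype.card_fin]
        intro i i' h
        simp only [El.inp.injEq] at h
        exact h.1
    have hx' : ∀ i p, v (.inp i p) = true ↔ p = x i := by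
      intro i p
      constructor
      · intro h
        have h1 : (.inp i p : El k V (Ic ⊕ Γ) (Fx k R.W)) ∈ T := ⟨rfl, h⟩
        rw [← hT2] at h1
        obtain ⟨i', hi'⟩ := h1
        simp only [El.inp.injEq] at hi'
        obtain ⟨rfl, rfl⟩ := hi'
        rfl
      · rintro rfl
        exact hx i
    have h0 : ∑ i, x i = 0 := by
      refine hsep _ fun i => ?_
      have h1 := (group_val hv x hx' (.inl i)).1 fun y => hch (.leaf (.inl i) y) rfl
      exact zmod_ne_one.1 h1
    exact (root_val hv x hx' h0).1 hroot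
  · intro hTb
    obtain ⟨v, hv, hX⟩ := exists_valuation (scorrect (R := R) (k := k) hφ b)
      {g | ∃ i, g = .inp i 0}
    have hx : ∀ i p, v (.inp i p) = true ↔ p = (fun _ : Fin (k + 1) => (0 : V)) i := by
      intro i p
      rw [hX (.inp i p) rfl]
      simp only [Set.mem_ofPred_eq, El.inp.injEq]
      constructor
      · rintro ⟨i', -, h⟩
        exact h
      · intro h
        exact ⟨i, rfl, h⟩
    refine ⟨v, hv, fun g hg => ?_, ?_⟩
    · rw [scirc_out] at hg
      subst hg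
      exact (root_val hv _ hx (by simp)).2 hTb
    · have h1 : {g | IsKind (scirc R φ b) Logic.Kind.input g ∧ v g = true}
          = Set.range fun i => (.inp i 0 : El k V (Ic ⊕ Γ) (Fx k R.W)) := by
        ext g
        constructor
        · rintro ⟨h1, h2⟩
          obtain ⟨i, rfl⟩ := (hX g h1).1 h2
          exact ⟨i, rfl⟩
        · rintro ⟨i, rfl⟩
          exact ⟨rfl, (hX (.inp i 0) rfl).2 ⟨i, rfl⟩⟩
      rw [h1, ← Set.image_univ, Set.ncard_image_of_injective, Set.ncard_univ,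
        Nat.card_eq_fintype_card, Fintype.card_fin]
      intro i i' h
      simp only [El.inp.injEq, and_true] at h
      exact h

end

end Pool.Agent.W_MP_5f6b2a_lc.Count
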