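import Pool.Agent.W_MP_5f6b2a_lc.CSys

/-!
The circuits interpreted in a system of structures: codes of the gates and their local symmetries.
-/

namespace Pool.Agent.W_MP_5f6b2a_lc.Count

open Logic Finset

/-- codes -/
abbrev Cd (Z : Type) (m k : ℕ) (V J F : Type) := Z × (Fin m → Option (El k V J F))

/-- the shifted code -/
def thc {Z : Type} {m k : ℕ} {V J F : Type} [AddCommGroup V] (φ : J → V →+ ZMod 2)
    (z : Fin (k + 1) → V) (c : Cd Z m k V J F) : Cd Z m k V J F := (c.1, tha φ z c.2)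

/-- A family of circuits indexed by labellings, with codes for the gates and local symmetries. -/
structure TSys (k : ℕ) (V Ic Γ F : Type) [AddCommGroup V] (m N : ℕ) (Z : Type) where
  φ : Ic ⊕ Γ → V →+ ZMod 2
  two : ∀ x : V, x + x = 0
  pat : ∀ T : Finset (Ic ⊕ Γ), T.card ≤ N → ∀ σ : Ic ⊕ Γ → ZMod 2, ∃ ζ, ∀ j ∈ T, φ j ζ = σ j
  U : (Γ → Bool) → Type
  fin : ∀ b, Finite (U b)
  C : ∀ b, Str cVoc (U b)
  Rp : ∀ b, Cd Z m k V (Ic ⊕ Γ) F → U b → Prop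
  surj : ∀ b u, ∃ c, Rp b c u
  fn : ∀ {b c u u'}, Rp b c u → Rp b c u' → u = u'
  ex : ∀ {b b' : Γ → Bool} {z : Fin (k + 1) → V} {c u}, (∀ j ∈ grp c.2, mis φ b b' z j = 0) →
    Rp b c u → ∃ u', Rp b' (thc φ z c) u'
  eq : ∀ {b b' : Γ → Bool} {z : Fin (k + 1) → V} {c₁ c₂ u u₁ u₂},
    (∀ j ∈ grp c₁.2, mis φ b b' z j = 0) → (∀ j ∈ grp c₂.2, mis φ b b' z j = 0) →
    Rp b c₁ u → Rp b c₂ u → Rp b' (thc φ z c₁) u₁ → Rp b' (thc φ z c₂) u₂ → u₁ = u₂
  rel : ∀ {b b' : Γ → Bool} {z : Fin (k + 1) → V} (r : CSym)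
    {c : Fin (cVoc.ar r) → Cd Z m k V (Ic ⊕ Γ) F} {u : Fin (cVoc.ar r) → U b}
    {u' : Fin (cVoc.ar r) → U b'}, (∀ i, ∀ j ∈ grp (c i).2, mis φ b b' z j = 0) →
    (∀ i, Rp b (c i) (u i)) → (∀ i, Rp b' (thc φ z (c i)) (u' i)) →
    (C b).rel r u → (C b').rel r u'

section

variable {k : ℕ} {V Ic Γ F : Type} [AddCommGroup V] {L : Voc} {N m c : ℕ}

theorem grp_elim {J X X' : Type} [Fintype X] [Fintype X'] (a : X → Option (El k V J F)) :
    grp (Sum.elim a fun _ : X' => none) = grp a := by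
  ext j
  rw [mem_grp, mem_grp]
  constructor
  · rintro ⟨x | x, e, h1, h2⟩
    · exact ⟨x, e, h1, h2⟩
    · simp at h1
  · rintro ⟨x, e, h1, h2⟩
    exact ⟨Sum.inl x, e, h1, h2⟩

theorem tha_elim {J X X' : Type} (φ : J → V →+ ZMod 2) (z : Fin (k + 1) → V)
    (a : X → Option (El k V J F)) :
    tha φ z (Sum.elim a fun _ : X' => none) = Sum.elim (tha φ z a) fun _ => none := by
  funext x
  rcases x with x | x <;> rfl

variable (Y : Sys k V Ic Γ F L N) (I : CInterp L cVoc m c)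

theorem quot_exact {A : Type} {S : Str L A} (h : I.IsCongr S) {p q : I.Repr S}
    (hpq : (Quot.mk _ p : I.Univ S) = Quot.mk _ q) : I.Eqv S p q := by
  have h1 := Quot.eqvGen_exact hpq
  rwa [h.1.eqvGen_iff] at h1

/-- codes and gates -/
def RpI (b : Γ → Bool) (x : Cd I.Z m k V (Ic ⊕ Γ) F) (u : I.Univ (Y.S b)) : Prop :=
  ∃ h : (I.dom x.1).Holds (Y.S b) (Sum.elim x.2 fun _ => none),
    (Quot.mk _ (⟨x, h⟩ : I.Repr (Y.S b)) : I.Univ (Y.S b)) = u

variable {I}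

theorem dom_inv (h1 : m + c ≤ k + 1) (h2 : m + c ≤ N) {b b' : Γ → Bool} {z : Fin (k + 1) → V}
    {x : Cd I.Z m k V (Ic ⊕ Γ) F} (hx : ∀ j ∈ grp x.2, mis Y.φ b b' z j = 0)
    (h : (I.dom x.1).Holds (Y.S b) (Sum.elim x.2 fun _ => none)) :
    (I.dom (thc Y.φ z x).1).Holds (Y.S b') (Sum.elim (thc Y.φ z x).2 fun _ => none) := by
  have h3 := Y.holds_inv (X := Fin m ⊕ Fin c) (by simpa using h1) (by simpa using h2)
    (I.dom x.1) b b' z (Sum.elim x.2 fun _ => none) (by rw [grp_elim]; exact hx) h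
  rw [tha_elim] at h3
  exact h3

theorem ar_le' (r : CSym) : cVoc.ar r ≤ 2 := by
  rcases r with κ | _ | _
  · show 1 ≤ 2; norm_num
  · show 1 ≤ 2; norm_num
  · show 2 ≤ 2; norm_num

/-- the system of circuits given by an interpretation -/
def tsys (h1 : 2 * m + c ≤ k + 1) (h2 : 2 * m + c ≤ N) (hcg : ∀ b, I.IsCongr (Y.S b))
    (hf : ∀ b, Finite (I.Univ (Y.S b))) : TSys k V Ic Γ F m N I.Z where
  φ := Y.φ
  two := Y.two
  pat := Y.pat
  U b := I.Univ (Y.S b)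
  fin := hf
  C b := I.target (Y.S b)
  Rp b x u := RpI Y I b x u
  surj b u := by
    obtain ⟨⟨x, h⟩, rfl⟩ := Quot.exists_rep u
    exact ⟨x, h, rfl⟩
  fn := by
    rintro b x u u' ⟨h, rfl⟩ ⟨h', rfl⟩
    rfl
  ex := by
    rintro b b' z x u hx ⟨h, rfl⟩
    exact ⟨_, dom_inv Y (by omega) (by omega) hx h, rfl⟩
  eq := by
    rintro b b' z x₁ x₂ u u₁ u₂ hx₁ hx₂ ⟨g₁, e₁⟩ ⟨g₂, e₂⟩ ⟨g₃, rfl⟩ ⟨g₄, rfl⟩
    have h3 := quot_exact I (hcg b) (e₁.trans e₂.symm)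
    apply Quot.sound
    have h4 := Y.holds_inv (X := (Fin 2 × Fin m) ⊕ Fin c) (by simpa using h1) (by simpa using h2)
      (I.eqv x₁.1 x₂.1) b b' z (Sum.elim (fun j => if j.1 = 0 then x₁.2 j.2 else x₂.2 j.2)
        fun _ => none) (by
        rw [grp_elim]
        intro j hj
        obtain ⟨⟨i, y⟩, e, h5, h6⟩ := mem_grp.1 hj
        simp only at h5
        split_ifs at h5
        · exact hx₁ j (mem_grp.2 ⟨y, e, h5, h6⟩)
        · exact hx₂ j (mem_grp.2 ⟨y, e, h5, h6⟩)) h3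
    rw [tha_elim] at h4
    have h5 : (tha Y.φ z fun j : Fin 2 × Fin m => if j.1 = 0 then x₁.2 j.2 else x₂.2 j.2) =
        fun j => if j.1 = 0 then (thc Y.φ z x₁).2 j.2 else (thc Y.φ z x₂).2 j.2 := by
      funext j
      simp only [tha, thc]
      split_ifs <;> rfl
    rw [h5] at h4
    exact h4
  rel := by
    rintro b b' z r x u u' hx hu hu' ⟨p, hp, hr⟩
    choose g e using hu
    choose g' e' using hu'
    refine ⟨fun i => ⟨thc Y.φ z (x i), g' i⟩, e', ?_⟩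
    have h3 : I.Rel (Y.S b) r fun i => ⟨x i, g i⟩ := by
      refine ((hcg b).2 r p _ fun i => ?_).1 hr
      exact quot_exact I (hcg b) ((hp i).trans (e i).symm)
    have h5 := ar_le' r
    have h6 : cVoc.ar r * m ≤ 2 * m := Nat.mul_le_mul_right _ h5
    have h4 := Y.holds_inv (X := (Fin (cVoc.ar r) × Fin m) ⊕ Fin c)
      (by simp only [Fintype.card_sum, Fintype.card_prod, Fintype.card_fin]; omega)
      (by simp only [Fintype.card_sum, Fintype.card_prod, Fintype.card_fin]; omega)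
      (I.rel r fun i => (x i).1) b b' z (Sum.elim (fun j => (x j.1).2 j.2) fun _ => none) (by
        rw [grp_elim]
        intro j hj
        obtain ⟨⟨i, y⟩, e, h5, h6⟩ := mem_grp.1 hj
        exact hx i j (mem_grp.2 ⟨y, e, h5, h6⟩)) h3
    rw [tha_elim] at h4
    exact h4

end

end Pool.Agent.W_MP_5f6b2a_lc.Count
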