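import Pool.Agent.W_MP_5f6b2a_lc.CSrc
import Pool.Agent.W_MP_5f6b2a_lc.Depth

/-!
The alternating trees as trees of NAND gates.
-/

namespace Pool.Agent.W_MP_5f6b2a_lc.Count

open Finset

/-- the nodes -/
abbrev Nd (a t : ℕ) := {s : Σ j : ℕ, P a j // s.1 ≤ t}

instance (a t : ℕ) : Finite (Nd a t) :=
  Finite.of_injective
    (fun s : Nd a t => (⟨⟨s.1.1, Nat.lt_succ_of_le s.2⟩, s.1.2⟩ : Σ j : Fin (t + 1), P a j.1))
    (by
      rintro ⟨⟨j, p⟩, h⟩ ⟨⟨j', p'⟩, h'⟩ he
      simp only [Sigma.mk.injEq, Fin.mk.injEq] at he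
      obtain ⟨rfl, he⟩ := he
      rw [heq_eq_eq] at he
      subst he
      rfl)

theorem tree_claim {a t : ℕ} (g : Nd a t → Prop)
    (h : ∀ (j : ℕ) (hj : j < t) (p : P a j), g ⟨⟨j, p⟩, hj.le⟩ ↔
      ∀ x : Fin (bfan a j) × Fin (a ^ 2), ¬ g ⟨⟨j + 1, (p, x)⟩, hj⟩) (j : ℕ) (hj : j ≤ t) :
    treeP a j (fun p => if Even j then g ⟨⟨j, p⟩, hj⟩ else ¬ g ⟨⟨j, p⟩, hj⟩) ↔
      g ⟨⟨0, ()⟩, Nat.zero_le _⟩ := by
  induction j with
  | zero =>
    show (if Even 0 then g ⟨⟨0, ()⟩, hj⟩ else ¬ g ⟨⟨0, ()⟩, hj⟩) ↔ _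
    rw [if_pos (by simp)]
  | succ j ih =>
    rw [← ih (by omega)]
    have e : ∀ z : P a (j + 1) → Prop, treeP a (j + 1) z =
      treeP a j fun p => if Even j then ∀ u, z (p, u) else ∃ u, z (p, u) := fun z => rfl
    rw [e]
    have h1 : ∀ z z' : P a j → Prop, (∀ p, z p ↔ z' p) → (treeP a j z ↔ treeP a j z') := by
      intro z z' h
      have : z = z' := funext fun p => propext (h p)
      rw [this]
    apply h1
    intro p
    have h2 := h j (by omega) p
    by_cases he : Even j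
    · have he' : ¬ Even (j + 1) := by
        rw [Nat.even_add_one]
        exact fun h => h he
      rw [if_pos he, if_pos he, h2]
      simp only [if_neg he']
    · have he' : Even (j + 1) := by
        rw [Nat.even_add_one]
        exact he
      rw [if_neg he, if_neg he, h2]
      simp only [if_pos he']
      push Not
      exact Iff.rfl

/-- the tree -/
def tr (a t : ℕ) (ha : 1 ≤ a) : Tr (P a t × Fin (bfan a t)) where
  W := Nd a t
  fin := inferInstance
  root := ⟨⟨0, ()⟩, Nat.zero_le _⟩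
  rk w := t - w.1.1
  ch u w := ∃ x : Fin (bfan a w.1.1) × Fin (a ^ 2),
    u.1 = ⟨w.1.1 + 1, ((w.1.2, x) : P a w.1.1 × (Fin (bfan a w.1.1) × Fin (a ^ 2)))⟩
  hch := by
    rintro ⟨⟨j', p'⟩, h'⟩ ⟨⟨j, p⟩, h⟩ ⟨x, hx⟩
    simp only at hx
    cases hx
    simp only at h' ⊢
    omega
  ex := by
    rintro ⟨⟨j, p⟩, h⟩ hw
    simp only at hw
    have h1 : 0 < bfan a j := Nat.pow_pos (by omega)
    have h2 : 0 < a ^ 2 := Nat.pow_pos (by omega)
    exact ⟨⟨⟨j + 1, ((p, (⟨0, h1⟩, ⟨0, h2⟩)) : P a j × (Fin (bfan a j) × Fin (a ^ 2)))⟩,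
      by simp only at h ⊢; omega⟩, _, rfl⟩
  nd γ := ⟨⟨t, γ.1⟩, le_rfl⟩
  nd_rk γ := by simp
  nd_ex := by
    rintro ⟨⟨j, p⟩, h⟩ hw
    simp only at hw h
    have hj : j = t := by omega
    subst hj
    have h1 : 0 < bfan a j := Nat.pow_pos (by omega)
    exact ⟨(p, ⟨0, h1⟩), rfl⟩
  T b := treeB a t fun l => (b l = true ↔ Even t)
  hT := by
    intro b g h0 h1
    have h2 := tree_claim g (by
      intro j hj p
      rw [h1 _ (by simp only; omega)]
      constructor
      · intro hall x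
        exact hall _ ⟨x, rfl⟩
      · rintro hall ⟨⟨j', p'⟩, h'⟩ ⟨x, hx⟩
        simp only at hx
        cases hx
        exact hall x) t le_rfl
    rw [← h2]
    unfold treeB
    have h3 : ∀ z z' : P a t → Prop, (∀ p, z p ↔ z' p) → (treeP a t z ↔ treeP a t z') := by
      intro z z' h
      have : z = z' := funext fun p => propext (h p)
      rw [this]
    apply h3
    intro p
    have h4 : g ⟨⟨t, p⟩, le_rfl⟩ ↔ ∀ u : Fin (bfan a t), b (p, u) = true := by
      rw [h0 _ (by simp)]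
      constructor
      · intro hall u
        exact hall (p, u) rfl
      · rintro hall ⟨p', u⟩ he
        simp only [Subtype.mk.injEq, Sigma.mk.injEq, heq_eq_eq, true_and] at he
        subst he
        exact hall u
    by_cases he : Even t
    · rw [if_pos he, if_pos he, h4]
      simp only [he, iff_true]
    · rw [if_neg he, if_neg he, h4]
      simp only [he, iff_false]
      push Not
      exact Iff.rfl

end Pool.Agent.W_MP_5f6b2a_lc.Count
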