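import Pool.Agent.W_MP_5f6b2a_lc.CAware

/-!
Weighted satisfiability of the interpreted circuits, as a function of the labelling.
-/

namespace Pool.Agent.W_MP_5f6b2a_lc.Count

open Logic Logic.Circ Finset

theorem HO.of_exists {X ι : Type} [Fintype ι] {M D q j : ℕ} (hM : Fintype.card ι ≤ M)
    {f : ι → (X → Bool) → Prop} (hf : ∀ i, HG M D q j (f i)) : HO M D q j fun z => ∃ i, f i z := by
  classical
  let e := Fintype.equivFin ι
  refine ⟨Fintype.card ι, fun i => f (e.symm i), hM, fun i => hf _, fun z => ?_⟩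
  constructor
  · rintro ⟨i, hi⟩
    exact ⟨e i, by simpa using hi⟩
  · rintro ⟨i, hi⟩
    exact ⟨_, hi⟩

namespace TSys

variable {k : ℕ} {V Ic Γ F Z : Type} [AddCommGroup V] {m N : ℕ} {Y : TSys k V Ic Γ F m N Z}

/-- Weighted satisfiability of the circuits is an OR of functions in `HG`. -/
theorem wsat_class (hm : 3 * m ≤ k) (hN4 : 4 * m ≤ N) {M D d s t k' : ℕ}
    (hD1 : 1 ≤ D) (hD2 : 2 * m ≤ D) (hD : m + k' * m ≤ D)
    (hk : m + 2 ^ (d + 1) * m ≤ k) (hN : m + k' * m + 2 ^ (d + 1) * m ≤ N)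
    (hcl : ∀ b, InClass (Y.C b) s d) (hs : s ≤ t + 1) {Ix : Type}
    [Fintype Ix] (hIx : Fintype.card Ix ^ (k' + 1) ≤ M) (fam : Ix → Cd Z m k V (Ic ⊕ Γ) F)
    (hfam : ∀ b u, ∃ i, Y.Rp b (fam i) u) :
    HO M D (2 * qn (2 ^ (3 * m) + 3 * m) d) t fun b => WSat (Y.C b) k' := by
  classical
  have hcor : ∀ b, Correct (Y.C b) := fun b => (hcl b).1
  -- the family is not empty
  have hne : 1 ≤ Fintype.card Ix := by
    obtain ⟨o, -, -⟩ := (hcor fun _ => false).2.1
    obtain ⟨i, -⟩ := hfam _ o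
    exact Fintype.card_pos_iff.2 ⟨i⟩
  have hM : 1 ≤ M := le_trans (Nat.one_le_pow _ _ hne) hIx
  have hIx' : Fintype.card Ix ≤ M := le_trans (Nat.le_self_pow (by omega) _) hIx
  have hcard : Fintype.card ((Fin k' → Ix) × Ix) ≤ M := by
    rw [Fintype.card_prod, Fintype.card_fun, Fintype.card_fin, ← pow_succ]
    exact hIx
  have hB1 : 1 ≤ 2 ^ (3 * m) + 3 * m := by
    have : 1 ≤ 2 ^ (3 * m) := Nat.one_le_two_pow
    omega
  -- valuations
  have hval : ∀ (X : Fin k' → Ix) (b : Γ → Bool), ∃ v, Y.IsV (fun i => fam (X i)) b v :=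
    fun X b => exists_valuation (hcor b) (Y.XS (fun i => fam (X i)) b)
  choose v hv using hval
  have haw : ∀ p : (Fin k' → Ix) × Ix, ∃ G, HG M D (qn (2 ^ (3 * m) + 3 * m) d) t G ∧
      ∀ b, (∃ u, Y.Rp b (fam p.2) u ∧ Ev (Y.C b) d s u) → (Y.vf (v p.1) b (fam p.2) ↔ G b) := by
    intro p
    obtain ⟨G, h1, h2⟩ := aware (v := v p.1) (X := fun i => fam (p.1 i)) hm hN4 hM hD1 hD2 hD hk hN
      hcor (hv p.1) hIx' fam hfam d le_rfl s (fam p.2)
    exact ⟨G, h1.up_le hM (qn_pos hB1 d) (by omega), h2⟩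
  choose G hG1 hG2 using haw
  -- conditions
  have hA : ∀ p : (Fin k' → Ix) × Ix, ∃ A, DTle D A ∧ ∀ b,
      ((∃ u, Y.Rp b (fam p.2) u ∧ IsOut (Y.C b) u) ∧ ∃ g : Fin k' → Y.U b, Function.Injective g ∧
        ∀ i, Y.Rp b (fam (p.1 i)) (g i) ∧ IsKind (Y.C b) Logic.Kind.input (g i)) ↔ A b := by
    intro p
    obtain ⟨A, h1, h2⟩ := exists_dt (gr (fam p.2) ∪ univ.biUnion fun i => gr (fam (p.1 i)))
      (fun _ => True) (fun b => (∃ u, Y.Rp b (fam p.2) u ∧ IsOut (Y.C b) u) ∧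
        ∃ g : Fin k' → Y.U b, Function.Injective g ∧
        ∀ i, Y.Rp b (fam (p.1 i)) (g i) ∧ IsKind (Y.C b) Logic.Kind.input (g i)) (by
        rintro b b' - - hT ⟨⟨u, h1, h2⟩, g, h3, h4⟩
        have hz1 : Y.Vd b b' 0 (fam p.2) := vd_zero fun j hj => hT j (mem_union_left _ hj)
        have hz2 : ∀ i, Y.Vd b b' 0 (fam (p.1 i)) := fun i => vd_zero fun j hj =>
          hT j (mem_union_right _ (mem_biUnion.2 ⟨i, mem_univ _, hj⟩))
        obtain ⟨u', hu'⟩ := Y.exi hz1 h1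
        choose g' hg' using fun i => Y.exi (hz2 i) (h4 i).1
        refine ⟨⟨u', ?_, (out_iff hz1 h1 hu').1 h2⟩, g', fun i i' he => ?_, fun i => ⟨?_,
          (kind_iff (hz2 i) (h4 i).1 (hg' i) _).1 (h4 i).2⟩⟩
        · rwa [thc_zero] at hu'
        · exact h3 ((eq_iff (hz2 i) (hz2 i') (h4 i).1 (h4 i').1 (hg' i) (hg' i')).2 he)
        · have := hg' i
          rwa [thc_zero] at this)
    exact ⟨A, h1.mono ((card_X _).trans hD), fun b => h2 b trivial⟩
  choose A hA1 hA2 using hA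
  have hEv : ∀ b u, IsOut (Y.C b) u → Ev (Y.C b) d s u := by
    intro b u hu p p1 p2 p3
    exact (hcl b).2 p ⟨p1, p2, u, p3, hu⟩
  have h1 := HO.of_exists hcard (j := t) (f := fun p b => A p b ∧ G p b) (M := M) (D := D)
    (q := 2 * qn (2 ^ (3 * m) + 3 * m) d) fun p => HG.and (qn_pos hB1 d) hM (hA1 p) (hG1 p)
  have h2 : (fun b => WSat (Y.C b) k') = fun b => ∃ p, A p b ∧ G p b := by
    funext b
    apply propext
    constructor
    · rintro ⟨w, hw, hout, hcard⟩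
      obtain ⟨o, ho, hou⟩ := (hcor b).2.1
      obtain ⟨io, hio⟩ := hfam b o
      have e : Nat.card {g | IsKind (Y.C b) Logic.Kind.input g ∧ w g = true} = k' := hcard
      let eq := (Finite.equivFinOfCardEq e).symm
      choose X hX using fun i : Fin k' => hfam b (eq i).1
      have hA' : A (X, io) b := by
        refine (hA2 (X, io) b).1 ⟨⟨o, hio, ho⟩, fun i => (eq i).1, fun i i' he => ?_, fun i =>
          ⟨hX i, (eq i).2.1⟩⟩
        exact eq.injective (Subtype.ext he)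
      refine ⟨(X, io), hA', ?_⟩
      rw [← hG2 (X, io) b ⟨o, hio, hEv b o ho⟩, vf_iff hio]
      rw [valuation_unique (hcor b) (hv X b).1 hw (fun g hg => ?_) o]
      · exact hout o ho
      · rw [Bool.eq_iff_iff, (hv X b).2 g hg]
        constructor
        · rintro ⟨i, hi⟩
          have : (eq i).1 = g := Y.fn (hX i) hi
          rw [← this]
          exact (eq i).2.2
        · intro hwg
          refine ⟨eq.symm ⟨g, hg, hwg⟩, ?_⟩
          have := hX (eq.symm ⟨g, hg, hwg⟩)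
          rwa [Equiv.apply_symm_apply] at this
    · rintro ⟨⟨X, io⟩, hA', hG'⟩
      obtain ⟨⟨o, h3, h4⟩, g, h5, h6⟩ := (hA2 (X, io) b).2 hA'
      rw [← hG2 (X, io) b ⟨o, h3, hEv b o h4⟩, vf_iff h3] at hG'
      refine ⟨v X b, (hv X b).1, fun g hg => ?_, ?_⟩
      · obtain ⟨o', -, ho'⟩ := (hcor b).2.1
        rw [ho' g hg, ← ho' o h4]
        exact hG'
      · have h7 : {g' | IsKind (Y.C b) Logic.Kind.input g' ∧ v X b g' = true} = Set.range g := by
          ext g'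
          constructor
          · rintro ⟨h8, h9⟩
            obtain ⟨i, hi⟩ := ((hv X b).2 g' h8).1 h9
            exact ⟨i, Y.fn (h6 i).1 hi⟩
          · rintro ⟨i, rfl⟩
            exact ⟨(h6 i).2, ((hv X b).2 _ (h6 i).2).2 ⟨i, (h6 i).1⟩⟩
        rw [h7, ← Set.image_univ, Set.ncard_image_of_injective _ h5, Set.ncard_univ,
          Nat.card_eq_fintype_card, Fintype.card_fin]
  rw [h2]
  exact h1

end TSys

end Pool.Agent.W_MP_5f6b2a_lc.Count
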