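import Mathlib

/-!
Boolean circuits, weft, depth, weighted satisfiability, bounded-depth formulas, parameterized
AC0 reductions.
-/

namespace Pool.Agent.W_MP_5f6b2a_lc

/-! ### Circuits -/

/-- The kinds of nodes of a Boolean circuit. -/
inductive Kind
  | input
  | neg
  | conj
  | disj
  deriving DecidableEq

/-- A (candidate) Boolean circuit with the `N + 1` nodes `0, …, N`. The value `wire h g = true`
means that node `h` feeds node `g`. The output is node `N`. -/
structure Circuit (N : ℕ) where
  kind : Fin (N + 1) → Kind
  wire : Fin (N + 1) → Fin (N + 1) → Bool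

namespace Circuit

variable {N : ℕ} (C : Circuit N)

/-- Number of wires into the node `g`. -/
def fanIn (g : Fin (N + 1)) : ℕ := (Finset.univ.filter fun h => C.wire h g = true).card

/-- Correct circuits: the nodes are listed in topological order, input nodes have no incoming
wire, negation gates exactly one, AND and OR gates at least one. -/
def Correct : Prop :=
  (∀ h g, C.wire h g = true → h < g) ∧
  (∀ g, C.kind g = Kind.input → C.fanIn g = 0) ∧
  (∀ g, C.kind g = Kind.neg → C.fanIn g = 1) ∧
  (∀ g, (C.kind g = Kind.conj ∨ C.kind g = Kind.disj) → 1 ≤ C.fanIn g)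

/-- Large gates: AND and OR gates of fan-in more than two. -/
def Large (g : Fin (N + 1)) : Prop :=
  (C.kind g = Kind.conj ∨ C.kind g = Kind.disj) ∧ 2 < C.fanIn g

/-- `p` lists the nodes of a path that starts at an input node and ends at the output. -/
def IsPath (p : List (Fin (N + 1))) : Prop :=
  p.IsChain (fun h g => C.wire h g = true) ∧
  (∃ g, p.head? = some g ∧ C.kind g = Kind.input) ∧ p.getLast? = some (Fin.last N)

open Classical in
/-- The class `C_{t,d}`: circuits of weft at most `t` and depth at most `d`. -/
def InClass (t d : ℕ) : Prop :=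
  C.Correct ∧ ∀ p, C.IsPath p → p.length ≤ d + 1 ∧ (p.filter fun g => decide (C.Large g)).length ≤ t

/-- `v` assigns to every node its value; the values at the input nodes are the assignment. -/
def IsValuation (v : Fin (N + 1) → Bool) : Prop :=
  ∀ g, match C.kind g with
    | Kind.input => True
    | Kind.neg => (v g = true ↔ ∃ h, C.wire h g = true ∧ v h = false)
    | Kind.conj => (v g = true ↔ ∀ h, C.wire h g = true → v h = true)
    | Kind.disj => (v g = true ↔ ∃ h, C.wire h g = true ∧ v h = true)

/-- The number of input nodes which `v` sets to true. -/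
def weight (v : Fin (N + 1) → Bool) : ℕ :=
  (Finset.univ.filter fun g => C.kind g = Kind.input ∧ v g = true).card

end Circuit

/-- Two bits encode the kind of a node. -/
def kindOf : Bool → Bool → Kind
  | true, true => Kind.input
  | true, false => Kind.neg
  | false, true => Kind.conj
  | false, false => Kind.disj

/-- The circuit with `N + 1` nodes encoded by a bit string of length `(N + 1) * (N + 3)`: the string
consists of `N + 1` blocks of length `N + 3`; in block `g` the first two bits encode the kind of
node `g` and the other `N + 1` bits tell which nodes feed node `g`. -/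
def decode (N : ℕ) (x : Fin ((N + 1) * (N + 3)) → Bool) : Circuit N where
  kind g := kindOf (x (finProdFinEquiv (g, 0))) (x (finProdFinEquiv (g, 1)))
  wire h g := x (finProdFinEquiv (g, h.succ.succ))

/-! ### Parameterized problems -/

/-- A parameterized problem: `Q n x k` says that the bit string `x` of length `n` with parameter
`k` is a yes-instance. -/
abbrev ParamProblem := (n : ℕ) → (Fin n → Bool) → ℕ → Prop

/-- The problem `p-WSAT(C_{t,d})`. -/
def pWSAT (t d : ℕ) : ParamProblem := fun n x k =>
  ∃ (N : ℕ) (h : (N + 1) * (N + 3) = n),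
    (decode N (x ∘ Fin.cast h)).InClass t d ∧
    ∃ v, (decode N (x ∘ Fin.cast h)).IsValuation v ∧ v (Fin.last N) = true ∧
      (decode N (x ∘ Fin.cast h)).weight v = k

/-! ### Bounded-depth formulas and reductions -/

/-- `AC s d f`: the Boolean function `f` of the variables in `X` is computed by a formula with
literals at the leaves, of depth `d`, with AND and OR gates of fan-in at most `s`. -/
inductive AC {X : Type} (s : ℕ) : ℕ → ((X → Bool) → Prop) → Prop
  | lit (x : X) (b : Bool) : AC s 0 fun z => z x = b
  | all {d : ℕ} (m : ℕ) (hm : m ≤ s) (g : Fin m → (X → Bool) → Prop) (hg : ∀ i, AC s d (g i)) :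
      AC s (d + 1) fun z => ∀ i, g i z
  | ex {d : ℕ} (m : ℕ) (hm : m ≤ s) (g : Fin m → (X → Bool) → Prop) (hg : ∀ i, AC s d (g i)) :
      AC s (d + 1) fun z => ∃ i, g i z

/-- `Q` is (non-uniformly) para-AC0-reducible to `Q'`: for some `c`, `f`, `g` and all `k`, `n`,
there is a map taking instances `(x, k)` with `|x| = n` to equivalent instances `(R x, κ x)` with
`|R x| = n' ≤ f k * (n + 1) ^ c` and `κ x ≤ g k`, all of whose output bits are computed by
formulas of depth `c` and fan-in at most `f k * (n + 1) ^ c`. -/
def ParaAC0Reducible (Q Q' : ParamProblem) : Prop :=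
  ∃ (c : ℕ) (f g : ℕ → ℕ), ∀ k n : ℕ,
    ∃ (n' : ℕ) (R : (Fin n → Bool) → (Fin n' → Bool)) (κ : (Fin n → Bool) → ℕ),
      n' ≤ f k * (n + 1) ^ c ∧ (∀ x, κ x ≤ g k) ∧
      (∀ i, AC (f k * (n + 1) ^ c) c fun x => R x i = true) ∧
      (∀ j, AC (f k * (n + 1) ^ c) c fun x => κ x = j) ∧
      ∀ x, Q n x k ↔ Q' n' (R x) (κ x)

/-- The analogue of `W[t]` with para-AC0 reductions in place of fpt-reductions. -/
def W (t : ℕ) : Set ParamProblem := {Q | ∃ d, 1 ≤ d ∧ ParaAC0Reducible Q (pWSAT t d)}

end Pool.Agent.W_MP_5f6b2a_lc
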