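import Pool.Agent.W_MP_5f6b2a_lc.Stage

/-!
Existence of a good vertex restriction.
-/

namespace Pool.Agent.W_MP_5f6b2a_lc

set_option linter.unusedSectionVars false

open Finset

variable {U X : Type} {d : ℕ}

section prob

variable [Fintype U] [Fintype X] [DecidableEq U] [DecidableEq X] {q p : ℝ}

/-- Weight of the bits. -/
noncomputable def wtB (p : ℝ) (f : X → Bool) : ℝ := ∏ x, wB p (f x)

theorem wtB_nonneg (hp0 : 0 ≤ p) (hp1 : p ≤ 1) (f : X → Bool) : 0 ≤ wtB p f :=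
  Finset.prod_nonneg fun _ _ => wB_nonneg hp0 hp1 _

/-- Probability that no vertex of `Z` is live. -/
theorem prob_dead (hq0 : 0 ≤ q) (hq1 : q ≤ 1) (hp0 : 0 ≤ p) (hp1 : p ≤ 1) (Z : Finset U) :
    wsum (wt q p) (fun ω : Om U X d => ∀ v ∈ Z, (ω.1 v).1 ≠ d) ≤ (1 - q ^ d) ^ Z.card := by
  set SL : U → Finset (Fin (d + 1)) := fun v =>
    if v ∈ Z then univ.filter (fun i => i.1 ≠ d) else univ with hSL
  have hsub : ∀ ω : Om U X d, (∀ v ∈ Z, (ω.1 v).1 ≠ d) →
      ω ∈ Fintype.piFinset SL ×ˢ Fintype.piFinset (fun _ : X => (univ : Finset Bool)) := by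
    intro ω hω
    rw [Finset.mem_product]
    constructor
    · rw [Fintype.mem_piFinset]
      intro v
      simp only [hSL]
      split_ifs with hv
      · simpa using hω v hv
      · exact mem_univ _
    · simp
  refine (wsum_le_sum (wt_nonneg hq0 hq1 hp0 hp1) _ hsub).trans ?_
  rw [Finset.sum_product]
  have h3 : ∑ l ∈ Fintype.piFinset SL, ∑ f ∈ Fintype.piFinset (fun _ : X => (univ : Finset Bool)),
      wt (d := d) q p ((l, f) : Om U X d) =
      (∏ v, ∑ i ∈ SL v, wL d q i) * ∏ _x : X, ∑ b ∈ (univ : Finset Bool), wB p b := by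
    rw [← sum_prod_piFinset SL fun _ i => wL d q i,
      ← sum_prod_piFinset (fun _ : X => (univ : Finset Bool)) fun _ b => wB p b,
      Finset.sum_mul_sum]
    rfl
  rw [h3, Finset.prod_congr rfl fun x (_ : x ∈ univ) => sum_wB p, Finset.prod_const_one, mul_one]
  have h4 : ∀ v, ∑ i ∈ SL v, wL d q i = if v ∈ Z then 1 - q ^ d else 1 := by
    intro v
    simp only [hSL]
    split_ifs with hv
    · have h5 := sum_wL q d
      rw [← Finset.sum_filter_add_sum_filter_not univ (fun i : Fin (d + 1) => i.1 ≠ d)] at h5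
      have h6 : univ.filter (fun i : Fin (d + 1) => ¬ i.1 ≠ d) = {Fin.last d} := by
        ext i
        simp [Fin.ext_iff]
      rw [h6, Finset.sum_singleton] at h5
      have h7 : wL d q (Fin.last d) = q ^ d := by simp [wL]
      linarith
    · exact sum_wL q d
  rw [Finset.prod_congr rfl fun v _ => h4 v, Finset.prod_ite_mem, Finset.univ_inter,
    Finset.prod_const]

/-- Events about the bits which depend on the levels. -/
theorem prob_bits (hq0 : 0 ≤ q) (hq1 : q ≤ 1)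
    (E : (U → Fin (d + 1)) → (X → Bool) → Prop) (δ : ℝ)
    (hE : ∀ l, wsum (wtB p) (E l) ≤ δ) :
    wsum (wt q p) (fun ω : Om U X d => E ω.1 ω.2) ≤ δ := by
  classical
  rw [wsum_eq, Fintype.sum_prod_type]
  have h1 : ∀ l : U → Fin (d + 1), ∑ f : X → Bool, (if E l f then wt q p ((l, f) : Om U X d) else 0)
      ≤ (∏ v, wL d q (l v)) * δ := by
    intro l
    have h2 : ∀ f : X → Bool, (if E l f then wt q p ((l, f) : Om U X d) else 0) =
        (∏ v, wL d q (l v)) * (if E l f then wtB p f else 0) := by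
      intro f
      split_ifs
      · rfl
      · simp
    rw [Finset.sum_congr rfl fun f _ => h2 f, ← Finset.mul_sum, ← wsum_eq]
    exact mul_le_mul_of_nonneg_left (hE l) (Finset.prod_nonneg fun v _ => wL_nonneg hq0 hq1 _)
  refine (Finset.sum_le_sum fun l _ => h1 l).trans ?_
  rw [← Finset.sum_mul, sum_levels, one_mul]

theorem prob_true (hp0 : 0 ≤ p) (hp1 : p ≤ 1) (A : Finset X) :
    wsum (wtB p) (fun f : X → Bool => ∀ x ∈ A, f x = true) ≤ p ^ A.card := by
  set SB : X → Finset Bool := fun x => if x ∈ A then {true} else univ with hSB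
  have hsub : ∀ f : X → Bool, (∀ x ∈ A, f x = true) → f ∈ Fintype.piFinset SB := by
    intro f hf
    rw [Fintype.mem_piFinset]
    intro x
    simp only [hSB]
    split_ifs with hx
    · simp [hf x hx]
    · exact mem_univ _
  refine (wsum_le_sum (wtB_nonneg hp0 hp1) _ hsub).trans ?_
  have h1 : ∑ f ∈ Fintype.piFinset SB, wtB p f = ∏ x, ∑ b ∈ SB x, wB p b :=
    sum_prod_piFinset SB fun _ b => wB p b
  rw [h1]
  have h4 : ∀ x, ∑ b ∈ SB x, wB p b = if x ∈ A then p else 1 := by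
    intro x
    simp only [hSB]
    split_ifs with hx
    · simp [wB]
    · exact sum_wB p
  rw [Finset.prod_congr rfl fun v _ => h4 v, Finset.prod_ite_mem, Finset.univ_inter,
    Finset.prod_const]

end prob

/-! ### The hard instances -/

variable {V J : Type}

def esrc : EdgeVar V J → V ⊕ J
  | Sum.inl e => Sum.inl e.1
  | Sum.inr e => Sum.inl e.1

def edst : EdgeVar V J → V ⊕ J
  | Sum.inl e => Sum.inl e.2
  | Sum.inr e => Sum.inr e.2

theorem e_inj : Function.Injective fun x : EdgeVar V J => (esrc x, edst x) := by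
  rintro (⟨a, b⟩ | ⟨a, b⟩) (⟨c, e⟩ | ⟨c, e⟩) h <;> simp_all [esrc, edst]

variable [Fintype V] [DecidableEq V] [Fintype J] [DecidableEq J]

theorem card_pairs (S R : Finset V) (hR : R ⊆ S) :
    (((R ×ˢ S).filter fun e => e.1 ≠ e.2).card) = R.card * (S.card - 1) := by
  have h1 := Finset.card_filter_add_card_filter_not (s := R ×ˢ S) (fun e : V × V => e.1 ≠ e.2)
  have h2 : ((R ×ˢ S).filter fun e : V × V => ¬ e.1 ≠ e.2) = R.image fun v => (v, v) := by
    ext ⟨v, v'⟩
    simp only [mem_filter, mem_product, mem_image, Prod.mk.injEq, not_not]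
    constructor
    · rintro ⟨⟨h1, _⟩, h2⟩
      exact ⟨v, h1, rfl, h2⟩
    · rintro ⟨w, h1, h2, h3⟩
      subst h2; subst h3
      exact ⟨⟨h1, hR h1⟩, rfl⟩
  rw [h2, Finset.card_image_of_injective _ (fun a b h => by simpa using h), Finset.card_product]
    at h1
  rw [Nat.mul_sub, mul_one]
  omega

/-- No other cliques. -/
theorem prob_clique {p : ℝ} (hp0 : 0 ≤ p) (hp1 : p ≤ 1) (k : ℕ) (U0 : Finset V)
    (hU0 : U0.card = k) :
    wsum (wtB p) (fun f : EdgeVar V J → Bool => ∃ S : Finset V, (S.card = k ∧ S ≠ U0) ∧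
      ∀ v ∈ S \ U0, ∀ v' ∈ S, v ≠ v' → f (Sum.inl (v, v')) = true) ≤
      2 ^ k * ((1 + p ^ (k - 1)) ^ Fintype.card V - 1) := by
  have hw : ∀ f : EdgeVar V J → Bool, 0 ≤ wtB p f := wtB_nonneg hp0 hp1
  set y := p ^ (k - 1) with hy
  have hy0 : 0 ≤ y := by positivity
  refine (wsum_exists hw _).trans ?_
  have h1 : ∀ S : Finset V, wsum (wtB p) (fun f : EdgeVar V J → Bool => (S.card = k ∧ S ≠ U0) ∧
      ∀ v ∈ S \ U0, ∀ v' ∈ S, v ≠ v' → f (Sum.inl (v, v')) = true) ≤
      if (S \ U0).Nonempty then y ^ (S \ U0).card else 0 := by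
    intro S
    by_cases hS : S.card = k ∧ S ≠ U0
    · have hne : (S \ U0).Nonempty := by
        rw [Finset.sdiff_nonempty]
        intro hsub
        exact hS.2 (Finset.eq_of_subset_of_card_le hsub (by omega))
      rw [if_pos hne]
      have h2 := prob_true (X := EdgeVar V J) hp0 hp1
        ((((S \ U0) ×ˢ S).filter fun e => e.1 ≠ e.2).image Sum.inl)
      rw [Finset.card_image_of_injective _ Sum.inl_injective,
        card_pairs S (S \ U0) Finset.sdiff_subset, hS.1, mul_comm, pow_mul] at h2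
      refine le_trans (wsum_mono hw ?_) h2
      rintro f ⟨-, hf⟩ x hx
      simp only [mem_image, mem_filter, mem_product] at hx
      obtain ⟨⟨v, v'⟩, ⟨⟨h3, h4⟩, h5⟩, rfl⟩ := hx
      exact hf v h3 v' h4 h5
    · rw [wsum_false fun f hf => hS hf.1]
      split_ifs
      · positivity
      · exact le_rfl
  refine (Finset.sum_le_sum fun S _ => h1 S).trans ?_
  set T : Finset (Finset V × Finset V) := U0.powerset ×ˢ (univ : Finset (Finset V))
  set φ : Finset V → Finset V × Finset V := fun S => (S ∩ U0, S \ U0) with hφ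
  have hφi : Function.Injective φ := by
    intro S S' h
    simp only [hφ, Prod.mk.injEq] at h
    have h1 : ∀ S : Finset V, (S ∩ U0) ∪ (S \ U0) = S := fun S => by
      ext v
      simp only [mem_union, mem_inter, mem_sdiff]
      tauto
    rw [← h1 S, ← h1 S', h.1, h.2]
  have h2 : ∑ S : Finset V, (if (S \ U0).Nonempty then y ^ (S \ U0).card else 0) =
      ∑ e ∈ univ.image φ, if e.2.Nonempty then y ^ e.2.card else 0 := by
    rw [Finset.sum_image fun a _ b _ h => hφi h]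
  rw [h2]
  have h3 : univ.image φ ⊆ T := by
    intro e he
    obtain ⟨S, _, rfl⟩ := Finset.mem_image.1 he
    simp [T, hφ, Finset.inter_subset_right]
  refine (Finset.sum_le_sum_of_subset_of_nonneg h3 fun e _ _ => ?_).trans ?_
  · split_ifs
    · positivity
    · exact le_rfl
  rw [Finset.sum_product]
  simp only
  rw [Finset.sum_const, Finset.card_powerset, hU0, nsmul_eq_mul]
  push_cast
  refine mul_le_mul_of_nonneg_left ?_ (by positivity)
  have h4 := Finset.sum_pow_mul_eq_add_pow y 1 (univ : Finset V)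
  simp only [one_pow, mul_one, Finset.powerset_univ, Finset.card_univ] at h4
  have h5 : ∑ R : Finset V, (if R.Nonempty then y ^ R.card else 0) =
      (∑ R : Finset V, y ^ R.card) - 1 := by
    rw [← Finset.sum_erase_add _ _ (mem_univ (∅ : Finset V)),
      ← Finset.sum_erase_add _ (fun R : Finset V => y ^ R.card) (mem_univ (∅ : Finset V))]
    simp only [Finset.not_nonempty_empty, if_false, Finset.card_empty, pow_zero]
    have : ∑ R ∈ (univ : Finset (Finset V)).erase ∅, (if R.Nonempty then y ^ R.card else 0) =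
        ∑ R ∈ (univ : Finset (Finset V)).erase ∅, y ^ R.card := by
      refine Finset.sum_congr rfl fun R hR => ?_
      rw [if_pos (Finset.nonempty_iff_ne_empty.2 (Finset.ne_of_mem_erase hR))]
    rw [this]
    ring
  rw [h5, h4, add_comm y 1]

theorem prob_cover {p : ℝ} (hp0 : 0 ≤ p) (hp1 : p ≤ 1) (k : ℕ) (U0 : Finset V)
    (hU0 : U0.card = k) :
    wsum (wtB p) (fun f : EdgeVar V J → Bool => ∃ j : J, ∀ v ∈ U0, f (Sum.inr (v, j)) = true) ≤
      Fintype.card J * p ^ k := by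
  have hw : ∀ f : EdgeVar V J → Bool, 0 ≤ wtB p f := wtB_nonneg hp0 hp1
  refine (wsum_exists hw _).trans ?_
  have h1 : ∀ j : J, wsum (wtB p) (fun f : EdgeVar V J → Bool =>
      ∀ v ∈ U0, f (Sum.inr (v, j)) = true) ≤ p ^ k := by
    intro j
    have h2 := prob_true (X := EdgeVar V J) hp0 hp1 (U0.image fun v => Sum.inr (v, j))
    rw [Finset.card_image_of_injective _ (fun a b h => by simpa using h), hU0] at h2
    refine le_trans (wsum_mono hw ?_) h2
    intro f hf x hx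
    obtain ⟨v, hv, rfl⟩ := Finset.mem_image.1 hx
    exact hf v hv
  refine (Finset.sum_le_sum fun j _ => h1 j).trans ?_
  rw [Finset.sum_const, nsmul_eq_mul, Finset.card_univ]

/-- There is a good restriction. -/
theorem exists_good {q p : ℝ} (hq0 : 0 < q) (hq1 : q ≤ 1 / 2) (hp0 : 0 < p) (hp1 : p ≤ 1 / 2)
    (N : ℕ) (hN : 1 ≤ N) (θ : ℝ) (hθ0 : 0 ≤ θ)
    (hθ : ∀ A : Finset (EdgeVar V J), N < A.card → A.card ≤ (N + 1) * N →
      (2 * q) ^ (ends esrc edst A).card * (1 / p) ^ A.card ≤ θ)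
    (s k M d : ℕ) {Gr ι : Type} [Fintype Gr] [Fintype ι] (grp : Gr → Finset (V ⊕ J))
    (hM : ∀ g, M ≤ (grp g).card) (U0 : (V ⊕ J → Fin (d + 1)) → Finset V)
    (hU0 : ∀ l, (U0 l).card = k) (f : ι → (EdgeVar V J → Bool) → Prop)
    (hf : ∀ i, AC s d (f i))
    (hsum : Fintype.card ι * ((s + 1) ^ d * ((3 ^ N) ^ (N + 1) * θ)) +
      Fintype.card Gr * (1 - q ^ d) ^ M +
      2 ^ k * ((1 + p ^ (k - 1)) ^ Fintype.card V - 1) + Fintype.card J * p ^ k < 1) :
    ∃ ω : Om (V ⊕ J) (EdgeVar V J) d,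
      (∀ i, DTle N fun z => f i (fill (rho esrc edst d ω) z)) ∧
      (∀ g, ∃ v ∈ grp g, (ω.1 v).1 = d) ∧
      (∀ S : Finset V, S.card = k → S ≠ U0 ω.1 →
        ∃ v ∈ S \ U0 ω.1, ∃ v' ∈ S, v ≠ v' ∧ ω.2 (Sum.inl (v, v')) = false) ∧
      ∀ j : J, ∃ v ∈ U0 ω.1, ω.2 (Sum.inr (v, j)) = false := by
  have hw : ∀ ω : Om (V ⊕ J) (EdgeVar V J) d, 0 ≤ wt q p ω :=
    wt_nonneg hq0.le (by linarith) hp0.le (by linarith)
  set E1 : Om (V ⊕ J) (EdgeVar V J) d → Prop := fun ω =>
    ∃ i, ¬ DTle N fun z => f i (fill (rho esrc edst d ω) z)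
  set E2 : Om (V ⊕ J) (EdgeVar V J) d → Prop := fun ω => ∃ g, ∀ v ∈ grp g, (ω.1 v).1 ≠ d
  set E3 : Om (V ⊕ J) (EdgeVar V J) d → Prop := fun ω =>
    ∃ S : Finset V, (S.card = k ∧ S ≠ U0 ω.1) ∧
      ∀ v ∈ S \ U0 ω.1, ∀ v' ∈ S, v ≠ v' → ω.2 (Sum.inl (v, v')) = true
  set E4 : Om (V ⊕ J) (EdgeVar V J) d → Prop := fun ω =>
    ∃ j : J, ∀ v ∈ U0 ω.1, ω.2 (Sum.inr (v, j)) = true
  have h1 : wsum (wt q p) E1 ≤ Fintype.card ι * ((s + 1) ^ d * ((3 ^ N) ^ (N + 1) * θ)) := by
    refine (wsum_exists hw _).trans ?_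
    refine (Finset.sum_le_sum fun i _ =>
      ac_switch hq0 hq1 hp0 hp1 N hN θ hθ0 hθ (hf i) le_rfl).trans ?_
    rw [Finset.sum_const, nsmul_eq_mul, Finset.card_univ]
  have h2 : wsum (wt q p) E2 ≤ Fintype.card Gr * (1 - q ^ d) ^ M := by
    refine (wsum_exists hw _).trans ?_
    have hqd : q ^ d ≤ 1 := pow_le_one₀ hq0.le (by linarith)
    have h3 : ∀ g, wsum (wt q p) (fun ω : Om (V ⊕ J) (EdgeVar V J) d =>
        ∀ v ∈ grp g, (ω.1 v).1 ≠ d) ≤ (1 - q ^ d) ^ M := fun g =>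
      (prob_dead hq0.le (by linarith) hp0.le (by linarith) (grp g)).trans
        (pow_le_pow_of_le_one (by linarith) (by linarith [pow_pos hq0 d]) (hM g))
    refine (Finset.sum_le_sum fun g _ => h3 g).trans ?_
    rw [Finset.sum_const, nsmul_eq_mul, Finset.card_univ]
  have h3 : wsum (wt q p) E3 ≤ 2 ^ k * ((1 + p ^ (k - 1)) ^ Fintype.card V - 1) :=
    prob_bits (d := d) hq0.le (by linarith) (fun l f => ∃ S : Finset V, (S.card = k ∧ S ≠ U0 l) ∧
      ∀ v ∈ S \ U0 l, ∀ v' ∈ S, v ≠ v' → f (Sum.inl (v, v')) = true) _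
      fun l => prob_clique hp0.le (by linarith) k (U0 l) (hU0 l)
  have h4 : wsum (wt q p) E4 ≤ Fintype.card J * p ^ k :=
    prob_bits (d := d) hq0.le (by linarith)
      (fun l f => ∃ j : J, ∀ v ∈ U0 l, f (Sum.inr (v, j)) = true) _
      fun l => prob_cover hp0.le (by linarith) k (U0 l) (hU0 l)
  have htot : wsum (wt q p) (fun ω => ((E1 ω ∨ E2 ω) ∨ E3 ω) ∨ E4 ω) <
      ∑ ω : Om (V ⊕ J) (EdgeVar V J) d, wt q p ω := by
    rw [sum_wt]
    have h5 := wsum_or (E := fun ω => (E1 ω ∨ E2 ω) ∨ E3 ω) (E' := E4) hw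
    have h6 := wsum_or (E := fun ω => E1 ω ∨ E2 ω) (E' := E3) hw
    have h7 := wsum_or (E := E1) (E' := E2) hw
    linarith
  obtain ⟨ω, hω⟩ := exists_not_of_wsum_lt htot
  simp only [not_or] at hω
  obtain ⟨⟨⟨g1, g2⟩, g3⟩, g4⟩ := hω
  refine ⟨ω, ?_, ?_, ?_, ?_⟩
  · intro i
    by_contra h
    exact g1 ⟨i, h⟩
  · intro g
    by_contra h
    push Not at h
    exact g2 ⟨g, h⟩
  · intro S hS1 hS2
    by_contra h
    push Not at h
    exact g3 ⟨S, ⟨hS1, hS2⟩, fun v hv v' hv' hne => by simpa using h v hv v' hv' hne⟩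
  · intro j
    by_contra h
    push Not at h
    exact g4 ⟨j, fun v hv => by simpa using h v hv⟩

end Pool.Agent.W_MP_5f6b2a_lc
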