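import Pool.Agent.W_MP_5f6b2a_lc.CBase

/-!
Infinitary logic with boundedly many variables, interpretations, logical reductions.
-/

namespace Pool.Agent.W_MP_5f6b2a_lc.Logic

/-- Formulas of the infinitary logic over `L` all of whose (free or bound) variables lie in `X`.
Conjunctions may be infinite. For finite `X` this is the logic `L^{|X|}_{∞ω}`. -/
inductive Fml (L : Voc) (X : Type) : Type 1
  | eq (x y : X) : Fml L X
  | rel (r : L.R) (x : Fin (L.ar r) → X) : Fml L X
  | neg (φ : Fml L X) : Fml L X
  | conj {ι : Type} (φ : ι → Fml L X) : Fml L X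
  | ex (x : X) (φ : Fml L X) : Fml L X

/-- Satisfaction. Assignments are partial; atomic formulas with an unassigned variable are
false. -/
def Fml.Holds {L : Voc} {X : Type} [DecidableEq X] {A : Type} (S : Str L A) :
    Fml L X → (X → Option A) → Prop
  | .eq x y, v => ∃ a, v x = some a ∧ v y = some a
  | .rel r x, v => ∃ a : Fin (L.ar r) → A, (∀ i, v (x i) = some (a i)) ∧ S.rel r a
  | .neg φ, v => ¬ φ.Holds S v
  | .conj φ, v => ∀ i, (φ i).Holds S v
  | .ex x φ, v => ∃ a, φ.Holds S (Function.update v x (some a))

/-- An interpretation of `L'`-structures in `L`-structures. The elements of the interpreted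
structure are the pairs `(z, x)`, `z` in a finite set `Z` of sorts and `x` a tuple of length at most
`m` (a partial function on `Fin m`), which satisfy the formula `dom z`. Every formula has at most
`c` variables in addition to those for the components of the tuples. -/
structure Interp (L L' : Voc) (m c : ℕ) where
  Z : Type
  fin : Finite Z
  dom : Z → Fml L (Fin m ⊕ Fin c)
  rel : (r : L'.R) → (Fin (L'.ar r) → Z) → Fml L ((Fin (L'.ar r) × Fin m) ⊕ Fin c)

namespace Interp

variable {L L' : Voc} {m c : ℕ} (I : Interp L L' m c) {A : Type}

/-- The universe of the interpreted structure. -/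
def Univ (S : Str L A) : Type :=
  {p : I.Z × (Fin m → Option A) // (I.dom p.1).Holds S (Sum.elim p.2 fun _ => none)}

/-- The interpreted structure. -/
def target (S : Str L A) : Str L' (I.Univ S) :=
  ⟨fun r p => (I.rel r fun i => (p i).1.1).Holds S (Sum.elim (fun j => (p j.1).1.2 j.2) fun _ => none)⟩

instance [Finite A] (S : Str L A) : Finite (I.Univ S) :=
  haveI := I.fin
  inferInstanceAs (Finite {_p : I.Z × (Fin m → Option A) // _})

end Interp

/-- Slicewise bounded-variable infinitary reductions without order: for some `m`, `c`, `g` and every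
`k` there are an interpretation `I`, with tuples of length at most `m` and at most `c` additional
variables, and a numerical invariant `κ ≤ g k`, each level set of which is defined by a sentence with
`c` variables, such that `(S, k)` and `(I(S), κ(S))` are equivalent. -/
def Reducible (P P' : Problem) : Prop :=
  ∃ (m c : ℕ) (g : ℕ → ℕ), ∀ k : ℕ,
    ∃ (I : Interp P.L P'.L m c) (κ : {A : Type} → [Finite A] → Str P.L A → ℕ),
      (∀ (A : Type) [Finite A] (S : Str P.L A), κ S ≤ g k) ∧
      (∀ j, ∃ ψ : Fml P.L (Fin c), ∀ (A : Type) [Finite A] (S : Str P.L A),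
        κ S = j ↔ ψ.Holds S fun _ => none) ∧
      ∀ (A : Type) [Finite A] (S : Str P.L A), P.Q S k ↔ P'.Q (I.target S) (κ S)

end Pool.Agent.W_MP_5f6b2a_lc.Logic
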