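import Pool.Agent.W_MP_5f6b2a_lc.LTgt

/-!
Transfer of weighted satisfiability between the interpreted circuits.
-/

namespace Pool.Agent.W_MP_5f6b2a_lc.Logic

namespace Circ

variable {G : Type}

open Classical in
/-- depth at most `n` and weft at most `s` below the gate `e` -/
def Ev (C : Str cVoc G) (n s : ℕ) (e : G) : Prop :=
  ∀ p : List G, p.IsChain (Wire C) → (∃ g, p.head? = some g ∧ IsKind C Kind.input g) →
    p.getLast? = some e → p.length ≤ n + 1 ∧ (p.filter fun g => decide (Large C g)).length ≤ s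

theorem fanIn_pos {C : Str cVoc G} [Finite G] (hc : Correct C) {g : G}
    (hg : ¬ IsKind C Kind.input g) : ∃ h, Wire C h g := by
  have h1 : 1 ≤ fanIn C g := by
    obtain ⟨κ, hκ, -⟩ := hc.1 g
    rcases κ with _ | _ | _ | _
    · exact absurd hκ hg
    · rw [hc.2.2.2.2.1 g hκ]
    · exact hc.2.2.2.2.2 g (Or.inl hκ)
    · exact hc.2.2.2.2.2 g (Or.inr hκ)
  have h2 : {h | Wire C h g}.Nonempty := Set.nonempty_of_ncard_ne_zero (by unfold fanIn at h1; omega)
  exact h2

theorem exists_path {C : Str cVoc G} [Finite G] (hc : Correct C) (g : G) :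
    ∃ p : List G, p.IsChain (Wire C) ∧ (∃ g, p.head? = some g ∧ IsKind C Kind.input g) ∧
      p.getLast? = some g := by
  induction g using hc.2.2.1.induction with
  | _ g ih =>
    by_cases hg : IsKind C Kind.input g
    · exact ⟨[g], by simp, ⟨g, rfl, hg⟩, rfl⟩
    · obtain ⟨h, hh⟩ := fanIn_pos hc hg
      obtain ⟨p, h1, ⟨g', h2, h3⟩, h4⟩ := ih h hh
      refine ⟨p ++ [g], ?_, ⟨g', ?_, h3⟩, by simp⟩
      · rw [List.isChain_append]
        refine ⟨h1, by simp, ?_⟩
        intro x hx y hy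
        simp only [h4, Option.mem_def, Option.some.injEq, List.head?_cons] at hx hy
        subst hx
        subst hy
        exact hh
      · rw [List.head?_append, h2]
        rfl

theorem Ev.pred {C : Str cVoc G} [Finite G] (hc : Correct C) {n s : ℕ} {e h : G} (he : Ev C n s e)
    (hw : Wire C h e) : 1 ≤ n ∧ Ev C (n - 1) s h ∧ (Large C e → 1 ≤ s ∧ Ev C (n - 1) (s - 1) h) := by
  classical
  have key : ∀ p : List G, p.IsChain (Wire C) →
      (∃ g, p.head? = some g ∧ IsKind C Kind.input g) → p.getLast? = some h →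
      p.length + 1 ≤ n + 1 ∧ 1 ≤ p.length ∧
      ((p.filter fun g => decide (Large C g)).length + (if Large C e then 1 else 0)) ≤ s := by
    intro p h1 h2 h3
    have h4 := he (p ++ [e]) (by
      rw [List.isChain_append]
      refine ⟨h1, by simp, ?_⟩
      intro x hx y hy
      simp only [h3, Option.mem_def, Option.some.injEq, List.head?_cons] at hx hy
      subst hx
      subst hy
      exact hw) (by
      obtain ⟨g, hg, hk⟩ := h2
      refine ⟨g, ?_, hk⟩
      rw [List.head?_append, hg]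
      rfl) (by simp)
    rw [List.length_append, List.filter_append, List.length_append, List.length_singleton] at h4
    refine ⟨h4.1, ?_, ?_⟩
    · rcases p with _ | ⟨x, p⟩
      · simp at h3
      · simp
    · refine le_trans (le_of_eq ?_) h4.2
      congr 1
      by_cases hl : Large C e <;> simp [hl]
  obtain ⟨p, h1, h2, h3⟩ := exists_path hc h
  have h4 := key p h1 h2 h3
  refine ⟨by omega, fun q g1 g2 g3 => ?_, fun hl => ⟨?_, fun q g1 g2 g3 => ?_⟩⟩
  · have h5 := key q g1 g2 g3
    constructor <;> omega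
  · rw [if_pos hl] at h4
    omega
  · have h5 := key q g1 g2 g3
    rw [if_pos hl] at h5
    constructor <;> omega

open Classical in
theorem exists_valuation {C : Str cVoc G} (hc : Correct C) (X : Set G) :
    ∃ v : G → Bool, IsValuation C v ∧ ∀ g, IsKind C Kind.input g → (v g = true ↔ g ∈ X) := by
  let F : (g : G) → ((h : G) → Wire C h g → Bool) → Bool := fun g w =>
    decide ((IsKind C Kind.input g ∧ g ∈ X) ∨
      (IsKind C Kind.neg g ∧ ∃ h, ∃ hh : Wire C h g, w h hh = false) ∨
      (IsKind C Kind.conj g ∧ ∀ h, ∀ hh : Wire C h g, w h hh = true) ∨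
      (IsKind C Kind.disj g ∧ ∃ h, ∃ hh : Wire C h g, w h hh = true))
  let v : G → Bool := hc.2.2.1.fix F
  have hv : ∀ g, v g = F g fun h _ => v h := fun g => hc.2.2.1.fix_eq F g
  have hu : ∀ g κ κ', IsKind C κ g → IsKind C κ' g → κ = κ' := fun g κ κ' h1 h2 =>
    (hc.1 g).unique h1 h2
  refine ⟨v, ⟨fun g hg => ?_, fun g hg => ?_, fun g hg => ?_⟩, fun g hg => ?_⟩
  · rw [hv g]
    simp only [F, decide_eq_true_eq]
    have h1 : ¬ IsKind C Kind.input g := fun h => by simpa using hu g _ _ hg h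
    have h2 : ¬ IsKind C Kind.conj g := fun h => by simpa using hu g _ _ hg h
    have h3 : ¬ IsKind C Kind.disj g := fun h => by simpa using hu g _ _ hg h
    simp [hg, h1, h2, h3]
  · rw [hv g]
    simp only [F, decide_eq_true_eq]
    have h1 : ¬ IsKind C Kind.input g := fun h => by simpa using hu g _ _ hg h
    have h2 : ¬ IsKind C Kind.neg g := fun h => by simpa using hu g _ _ hg h
    have h3 : ¬ IsKind C Kind.disj g := fun h => by simpa using hu g _ _ hg h
    simp [hg, h1, h2, h3]
  · rw [hv g]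
    simp only [F, decide_eq_true_eq]
    have h1 : ¬ IsKind C Kind.input g := fun h => by simpa using hu g _ _ hg h
    have h2 : ¬ IsKind C Kind.conj g := fun h => by simpa using hu g _ _ hg h
    have h3 : ¬ IsKind C Kind.neg g := fun h => by simpa using hu g _ _ hg h
    simp [hg, h1, h2, h3]
  · rw [hv g]
    simp only [F, decide_eq_true_eq]
    have h1 : ¬ IsKind C Kind.neg g := fun h => by simpa using hu g _ _ hg h
    have h2 : ¬ IsKind C Kind.conj g := fun h => by simpa using hu g _ _ hg h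
    have h3 : ¬ IsKind C Kind.disj g := fun h => by simpa using hu g _ _ hg h
    simp [hg, h1, h2, h3]

theorem val_step {G' : Type} {C : Str cVoc G} {C' : Str cVoc G'} {v : G → Bool} {v' : G' → Bool}
    (hc : Correct C) (hv : IsValuation C v) (hv' : IsValuation C' v') {e : G} {e' : G'}
    (hk : ∀ κ, IsKind C κ e ↔ IsKind C' κ e') (hi : ¬ IsKind C Kind.input e)
    (hF : ∀ h, Wire C h e → ∃ h', Wire C' h' e' ∧ v h = v' h')
    (hB : ∀ h', Wire C' h' e' → ∃ h, Wire C h e ∧ v h = v' h') : v e = v' e' := by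
  have key : ∀ b, (∃ h, Wire C h e ∧ v h = b) ↔ (∃ h', Wire C' h' e' ∧ v' h' = b) := by
    intro b
    constructor
    · rintro ⟨h, h1, h2⟩
      obtain ⟨h', h3, h4⟩ := hF h h1
      exact ⟨h', h3, by rw [← h4, h2]⟩
    · rintro ⟨h', h1, h2⟩
      obtain ⟨h, h3, h4⟩ := hB h' h1
      exact ⟨h, h3, by rw [h4, h2]⟩
  obtain ⟨κ, hκ, -⟩ := hc.1 e
  rcases κ with _ | _ | _ | _
  · exact absurd hκ hi
  · rw [Bool.eq_iff_iff, hv.1 e hκ, hv'.1 e' ((hk _).1 hκ)]
    exact key false
  · rw [Bool.eq_iff_iff, hv.2.1 e hκ, hv'.2.1 e' ((hk _).1 hκ)]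
    have h1 := key false
    rw [← not_iff_not] at h1
    push Not at h1
    simpa using h1
  · rw [Bool.eq_iff_iff, hv.2.2 e hκ, hv'.2.2 e' ((hk _).1 hκ)]
    exact key true

end Circ

namespace Src

open Finset

variable {t k K n : ℕ} {H : (Fin K × Fin n) → Leaf t k K n → Bool} {κ κ' : Bool}
  {R : Finset (Pt t k K n × Pt t k K n)} {N m c : ℕ} {I : Interp cVoc cVoc m c}

theorem swap_swap (R : Finset (Pt t k K n × Pt t k K n)) :
    (R.image Prod.swap).image Prod.swap = R := by
  rw [image_image, Prod.swap_swap_eq, image_id]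

theorem EM.unswap {e : I.Univ (circ H κ)} {e' : I.Univ (circ H κ')}
    (h : EM (R.image Prod.swap) e' e) : EM R e e' := by
  have := h.swap
  rwa [swap_swap] at this

theorem PI.unswap (h : PI H κ' κ R) : PI H κ κ' (R.image Prod.swap) := h.symm

theorem small_forth (hG : Gen H N) (hB : Bnd t k m c N) (hR : PI H κ κ' R)
    {e : I.Univ (circ H κ)} {e' : I.Univ (circ H κ')} (he : EM R e e')
    (hf : Circ.fanIn (I.target (circ H κ)) e ≤ 2) {h : I.Univ (circ H κ)}
    (hw : Circ.Wire (I.target (circ H κ)) h e) :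
    ∃ h', EM R h h' ∧ Circ.Wire (I.target (circ H κ')) h' e' := by
  have h1 := algebraic hG hB hf hw
  obtain ⟨h', hh'⟩ := exists_em hG hB hR h fun p hp => cl_dom hR he.dom p (h1 hp)
  exact ⟨h', hh', (EM.wire_iff hG hB hR hh' he).1 hw⟩

theorem small_back (hG : Gen H N) (hB : Bnd t k m c N) (hR : PI H κ κ' R)
    {e : I.Univ (circ H κ)} {e' : I.Univ (circ H κ')} (he : EM R e e')
    (hf : Circ.fanIn (I.target (circ H κ)) e ≤ 2) {h' : I.Univ (circ H κ')}
    (hw : Circ.Wire (I.target (circ H κ')) h' e') :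
    ∃ h, EM R h h' ∧ Circ.Wire (I.target (circ H κ)) h e := by
  have hb : BRel I H κ κ' [(e, e')] := ⟨R, hR, by simpa using he⟩
  have h3 := (bf hG hB κ κ').fanIn_iff hb (n := 3) le_rfl
  obtain ⟨h, h4, h5⟩ := small_forth hG hB hR.symm he.swap (by omega) hw
  exact ⟨h, h4.unswap, h5⟩

/-- one more element, forgetting most of the relation -/
theorem blind_forth (hG : Gen H N) (hB : Bnd t k m c N) (hR : PI H κ κ' R) (hcR : R.card ≤ N)
    {e : I.Univ (circ H κ)} {e' : I.Univ (circ H κ')} (he : EM R e e') (h : I.Univ (circ H κ)) :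
    ∃ R1, PI H κ κ' R1 ∧ EM R1 e e' ∧ (∃ h' : I.Univ (circ H κ'), EM R1 h h') ∧
      ∀ r ∈ R1, r ∈ R ∨ ((∀ q, (r.1, q) ∉ R) ∧ ∀ p, (p, r.2) ∉ R) := by
  classical
  let s : Finset (Pt t k K n) := ep e ∪ (cl (ep h)).filter fun p => ∃ q, (p, q) ∈ R
  have hs : s.card ≤ m * (t + 3) + 1 := by
    have h1 := card_union_le (ep e) ((cl (ep h)).filter fun p => ∃ q, (p, q) ∈ R)
    have h2 := card_filter_le (cl (ep h)) fun p => ∃ q, (p, q) ∈ R
    have h3 := card_cl_le (ep h)
    have h4 := card_ep_le e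
    have h5 := Nat.mul_le_mul_right (t + 2) (card_ep_le h)
    have e1 : m * (t + 3) = m * (t + 2) + m := by ring
    simp only [s]
    omega
  have h6 := hR.card_res_le s
  have h7 := hR.vc_res_le s
  have hk := hB.hk
  have e1 : m * (t + 8) = m * (t + 3) + 5 * m := by ring
  have h8 := hB.size2 (x := s.card) (y := m) (by omega) (by omega)
  obtain ⟨R1, g1, g2, g3, g4⟩ := ext_blind hG hB (hR.res s) (R.image Prod.snd)
    (card_image_le.trans hcR) h (by omega) (by omega)
  refine ⟨R1, g2, (he.res subset_union_left).mono g1, g3, fun r hr => ?_⟩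
  rcases g4 r hr with h9 | ⟨h9, h10⟩
  · exact Or.inl (mem_filter.1 h9).1
  · by_cases h11 : ∃ q, (r.1, q) ∈ R
    · left
      obtain ⟨q, hq⟩ := h11
      have h12 : r.1 ∈ s := mem_union_right _ (mem_filter.2 ⟨h10, q, hq⟩)
      have h13 : (r.1, q) ∈ Src.res R s := mem_filter.2 ⟨hq, subset_cl _ h12⟩
      have h14 := (g2.ij _ hr _ (g1 h13)).1 rfl
      have h15 : r = (r.1, q) := Prod.ext rfl h14
      rw [h15]
      exact hq
    · push Not at h11
      exact Or.inr ⟨h11, fun p hp => h9 (mem_image.2 ⟨_, hp, rfl⟩)⟩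

theorem blind_back (hG : Gen H N) (hB : Bnd t k m c N) (hR : PI H κ κ' R) (hcR : R.card ≤ N)
    {e : I.Univ (circ H κ)} {e' : I.Univ (circ H κ')} (he : EM R e e') (h' : I.Univ (circ H κ')) :
    ∃ R1, PI H κ κ' R1 ∧ EM R1 e e' ∧ (∃ h : I.Univ (circ H κ), EM R1 h h') ∧
      ∀ r ∈ R1, r ∈ R ∨ ((∀ q, (r.1, q) ∉ R) ∧ ∀ p, (p, r.2) ∉ R) := by
  obtain ⟨R1, g1, g2, ⟨h, g3⟩, g4⟩ := blind_forth hG hB hR.symm (card_image_le.trans hcR)
    he.swap h'
  refine ⟨_, g1.symm, g2.swap, ⟨h, g3.swap⟩, fun r hr => ?_⟩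
  obtain ⟨r', hr', rfl⟩ := mem_image.1 hr
  rcases g4 r' hr' with h5 | ⟨h5, h6⟩
  · left
    obtain ⟨r'', h7, rfl⟩ := mem_image.1 h5
    simpa using h7
  · right
    refine ⟨fun q hq => h6 q (mem_image.2 ⟨_, hq, rfl⟩), fun p hp => h5 p
      (mem_image.2 ⟨_, hp, rfl⟩)⟩

theorem good_forth (hG : Gen H N) (hB : Bnd t k m c N) (hR : PI H κ κ' R) {s : ℕ}
    (hg : Gd κ κ' (s + 1) R) (hcR : R.card + m * (t + 1) ≤ N) (h : I.Univ (circ H κ)) :
    ∃ R', R ⊆ R' ∧ PI H κ κ' R' ∧ Gd κ κ' s R' ∧ (∃ h' : I.Univ (circ H κ'), EM R' h h') ∧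
      R'.card ≤ R.card + m * (t + 1) := by
  obtain ⟨R', h1, h2, h3, h4, h5⟩ := ext_good hG hB hR hg.toP h hcR
  exact ⟨R', h1, h2, h3.toGd, h4, h5⟩

theorem good_back (hG : Gen H N) (hB : Bnd t k m c N) (hR : PI H κ κ' R) {s : ℕ}
    (hg : Gd κ κ' (s + 1) R) (hcR : R.card + m * (t + 1) ≤ N) (h' : I.Univ (circ H κ')) :
    ∃ R', R ⊆ R' ∧ PI H κ κ' R' ∧ Gd κ κ' s R' ∧ (∃ h : I.Univ (circ H κ), EM R' h h') ∧
      R'.card ≤ R.card + m * (t + 1) := by
  have hci : (R.image Prod.swap).card ≤ R.card := card_image_le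
  obtain ⟨R', h1, h2, h3, ⟨h, h4⟩, h5⟩ := good_forth hG hB hR.symm (hg.symm hR) (by omega) h'
  refine ⟨_, ?_, h2.symm, h3.symm h2, ⟨h, h4.swap⟩, card_image_le.trans (by omega)⟩
  intro r hr
  refine mem_image.2 ⟨r.swap, h1 (mem_image.2 ⟨r, hr, rfl⟩), by simp⟩

section

variable (hG : Gen H N) (hB : Bnd t k m c N)
  {v : I.Univ (circ H false) → Bool} {v' : I.Univ (circ H true) → Bool}
  (hc : Circ.Correct (I.target (circ H false)))
  (hv : Circ.IsValuation (I.target (circ H false)) v)
  (hv' : Circ.IsValuation (I.target (circ H true)) v')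
  {RX : Finset (Pt t k K n × Pt t k K n)}
  (hX : ∀ f, Circ.IsKind (I.target (circ H false)) Kind.input f → v f = true →
    ∃ f' : I.Univ (circ H true), EM RX f f')
  (hX' : ∀ f', Circ.IsKind (I.target (circ H true)) Kind.input f' → (v' f' = true ↔
    ∃ f : I.Univ (circ H false), Circ.IsKind (I.target (circ H false)) Kind.input f ∧
      v f = true ∧ EM RX f f'))

include hG hB hX hX' in
theorem comp {R1 : Finset (Pt t k K n × Pt t k K n)} (hR : PI H false true R) (hs : RX ⊆ R)
    (hR1 : PI H false true R1)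
    (hr : ∀ r ∈ R1, r ∈ R ∨ ((∀ q, (r.1, q) ∉ R) ∧ ∀ p, (p, r.2) ∉ R))
    {f : I.Univ (circ H false)} {f' : I.Univ (circ H true)} (hf : EM R1 f f')
    (hk : Circ.IsKind (I.target (circ H false)) Kind.input f) : v f = v' f' := by
  have hk' := (EM.kind_iff hG hB hR1 hf _).1 hk
  rw [Bool.eq_iff_iff, hX' f' hk']
  by_cases hall : ∀ j, OM R (f.1.2 j) (f'.1.2 j)
  · have hff : EM R f f' := ⟨hf.1, hall⟩
    constructor
    · intro h1
      obtain ⟨f'', h2⟩ := hX f hk h1
      have h3 := (EM.eq_iff hR hff (h2.mono hs)).1 rfl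
      exact ⟨f, hk, h1, by rw [h3]; exact h2⟩
    · rintro ⟨f2, h1, h2, h3⟩
      have h4 := (EM.eq_iff hR hff (h3.mono hs)).2 rfl
      rw [h4]
      exact h2
  · push Not at hall
    obtain ⟨j, hj⟩ := hall
    rcases hf.2 j with h1 | ⟨g, g', h1, h2, h3⟩
    · exact absurd (Or.inl h1) hj
    · have h4 : (g.pt, g'.pt) ∉ R := fun h5 => hj (Or.inr ⟨g, g', h1, h2, h3.1, h5⟩)
      have h5 := (hr _ h3.2).resolve_left h4
      constructor
      · intro h6
        obtain ⟨f'', h7⟩ := hX f hk h6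
        obtain ⟨g'', -, h8⟩ := (h1 ▸ h7.2 j).some_left
        exact absurd (hs h8.2) (h5.1 _)
      · rintro ⟨f2, -, -, h6⟩
        obtain ⟨g'', -, h8⟩ := (h2 ▸ h6.swap.2 j).some_left
        obtain ⟨r, hr1, hr2⟩ := mem_image.1 h8.2
        have : r = (g''.pt, g'.pt) := by
          rw [← Prod.swap_swap r, hr2]
          rfl
        rw [this] at hr1
        exact absurd (hs hr1) (h5.2 _)

include hG hB hc hv hv' in
theorem claim_zero (n' : ℕ) : ∀ {R1 : Finset (Pt t k K n × Pt t k K n)}
    (_ : PI H false true R1)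
    (_ : ∀ f f', EM R1 f f' → Circ.IsKind (I.target (circ H false)) Kind.input f → v f = v' f')
    {e : I.Univ (circ H false)} {e' : I.Univ (circ H true)} (_ : EM R1 e e')
    (_ : Circ.Ev (I.target (circ H false)) n' 0 e), v e = v' e' := by
  induction n' with
  | zero =>
    intro R1 hR1 hcomp e e' he hev
    by_cases hi : Circ.IsKind (I.target (circ H false)) Kind.input e
    · exact hcomp e e' he hi
    · obtain ⟨h, hh⟩ := Circ.fanIn_pos hc hi
      have := (hev.pred hc hh).1
      omega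
  | succ n' ih =>
    intro R1 hR1 hcomp e e' he hev
    by_cases hi : Circ.IsKind (I.target (circ H false)) Kind.input e
    · exact hcomp e e' he hi
    · have hsm : Circ.fanIn (I.target (circ H false)) e ≤ 2 := by
        obtain ⟨κ, hκ, -⟩ := hc.1 e
        rcases κ with _ | _ | _ | _
        · exact absurd hκ hi
        · rw [hc.2.2.2.2.1 e hκ]
          omega
        · by_contra hlt
          obtain ⟨h, hh⟩ := Circ.fanIn_pos hc hi
          have := ((hev.pred hc hh).2.2 ⟨Or.inl hκ, by omega⟩).1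
          omega
        · by_contra hlt
          obtain ⟨h, hh⟩ := Circ.fanIn_pos hc hi
          have := ((hev.pred hc hh).2.2 ⟨Or.inr hκ, by omega⟩).1
          omega
      refine Circ.val_step hc hv hv' (fun κ => EM.kind_iff hG hB hR1 he κ) hi ?_ ?_
      · intro h hw
        obtain ⟨h', h1, h2⟩ := small_forth hG hB hR1 he hsm hw
        exact ⟨h', h2, ih hR1 hcomp h1 (hev.pred hc hw).2.1⟩
      · intro h' hw
        obtain ⟨h, h1, h2⟩ := small_back hG hB hR1 he hsm hw
        exact ⟨h, h2, ih hR1 hcomp h1 (hev.pred hc h2).2.1⟩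

include hG hB hc hv hv' hX hX' in
theorem claim (n' : ℕ) : ∀ {s : ℕ} {R : Finset (Pt t k K n × Pt t k K n)} (_ : RX ⊆ R)
    (_ : PI H false true R) (_ : Gd false true s R) (_ : R.card + n' * (m * (t + 1)) ≤ N)
    {e : I.Univ (circ H false)} {e' : I.Univ (circ H true)} (_ : EM R e e')
    (_ : Circ.Ev (I.target (circ H false)) n' (s + 1) e), v e = v' e' := by
  induction n' with
  | zero =>
    intro s R hs hR hg hcR e e' he hev
    by_cases hi : Circ.IsKind (I.target (circ H false)) Kind.input e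
    · exact comp hG hB hX hX' hR hs hR (fun r hr => Or.inl hr) he hi
    · obtain ⟨h, hh⟩ := Circ.fanIn_pos hc hi
      have := (hev.pred hc hh).1
      omega
  | succ n' ih =>
    intro s R hs hR hg hcR e e' he hev
    have e1 : (n' + 1) * (m * (t + 1)) = n' * (m * (t + 1)) + m * (t + 1) := by ring
    by_cases hi : Circ.IsKind (I.target (circ H false)) Kind.input e
    · exact comp hG hB hX hX' hR hs hR (fun r hr => Or.inl hr) he hi
    · refine Circ.val_step hc hv hv' (fun κ => EM.kind_iff hG hB hR he κ) hi ?_ ?_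
      · intro h hw
        have hp := hev.pred hc hw
        by_cases hsm : Circ.fanIn (I.target (circ H false)) e ≤ 2
        · obtain ⟨h', h1, h2⟩ := small_forth hG hB hR he hsm hw
          exact ⟨h', h2, ih hs hR hg (by omega) h1 hp.2.1⟩
        · have hl : Circ.Large (I.target (circ H false)) e := by
            refine ⟨?_, by omega⟩
            obtain ⟨κ, hκ, -⟩ := hc.1 e
            rcases κ with _ | _ | _ | _
            · exact absurd hκ hi
            · rw [hc.2.2.2.2.1 e hκ] at hsm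
              omega
            · exact Or.inl hκ
            · exact Or.inr hκ
          have hp2 := (hp.2.2 hl).2
          rcases s with _ | s
          · obtain ⟨R1, g1, g2, ⟨h', g3⟩, g4⟩ := blind_forth hG hB hR (by omega) he h
            refine ⟨h', (EM.wire_iff hG hB g1 g3 g2).1 hw, ?_⟩
            exact claim_zero hG hB hc hv hv' n' g1
              (fun f f' hf hk => comp hG hB hX hX' hR hs g1 g4 hf hk) g3 hp2
          · obtain ⟨R', g1, g2, g3, ⟨h', g4⟩, g5⟩ := good_forth hG hB hR hg (by omega) h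
            exact ⟨h', (EM.wire_iff hG hB g2 g4 (he.mono g1)).1 hw,
              ih (hs.trans g1) g2 g3 (by omega) g4 hp2⟩
      · intro h' hw
        by_cases hsm : Circ.fanIn (I.target (circ H false)) e ≤ 2
        · obtain ⟨h, h1, h2⟩ := small_back hG hB hR he hsm hw
          exact ⟨h, h2, ih hs hR hg (by omega) h1 (hev.pred hc h2).2.1⟩
        · have hl : Circ.Large (I.target (circ H false)) e := by
            refine ⟨?_, by omega⟩
            obtain ⟨κ, hκ, -⟩ := hc.1 e
            rcases κ with _ | _ | _ | _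
            · exact absurd hκ hi
            · rw [hc.2.2.2.2.1 e hκ] at hsm
              omega
            · exact Or.inl hκ
            · exact Or.inr hκ
          rcases s with _ | s
          · obtain ⟨R1, g1, g2, ⟨h, g3⟩, g4⟩ := blind_back hG hB hR (by omega) he h'
            have hw' := (EM.wire_iff hG hB g1 g3 g2).2 hw
            refine ⟨h, hw', ?_⟩
            exact claim_zero hG hB hc hv hv' n' g1
              (fun f f' hf hk => comp hG hB hX hX' hR hs g1 g4 hf hk) g3
              ((hev.pred hc hw').2.2 hl).2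
          · obtain ⟨R', g1, g2, g3, ⟨h, g4⟩, g5⟩ := good_back hG hB hR hg (by omega) h'
            have hw' := (EM.wire_iff hG hB g2 g4 (he.mono g1)).2 hw
            exact ⟨h, hw', ih (hs.trans g1) g2 g3 (by omega) g4 ((hev.pred hc hw').2.2 hl).2⟩

end

/-- the initial relation -/
noncomputable def R0 (t k K n : ℕ) : Finset (Pt t k K n × Pt t k K n) :=
  insert (.w root, .w root) ((univ : Finset (Fin k)).image fun d => (.v (.inl d), .v (.inl d)))

theorem card_R0_le : (R0 t k K n).card ≤ k + 1 := by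
  unfold R0
  refine (card_insert_le _ _).trans ?_
  have : ((univ : Finset (Fin k)).image fun d =>
      ((.v (.inl d), .v (.inl d)) : Pt t k K n × Pt t k K n)).card ≤ k := by
    refine card_image_le.trans ?_
    simp
  omega

theorem pi_R0 (H : (Fin K × Fin n) → Leaf t k K n → Bool) : PI H κ κ' (R0 t k K n) where
  rt := mem_insert_self _ _
  st p hp := by
    rcases mem_insert.1 hp with rfl | hp
    · rfl
    · obtain ⟨d, -, rfl⟩ := mem_image.1 hp
      rfl
  pr p hp := by
    rcases mem_insert.1 hp with rfl | hp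
    · simp [par_root, R0]
    · obtain ⟨d, -, rfl⟩ := mem_image.1 hp
      exact mem_insert_self _ _
  ij p hp q hq := by
    have h1 : ∀ p ∈ R0 t k K n, p.1 = p.2 := by
      intro p hp
      rcases mem_insert.1 hp with rfl | hp
      · rfl
      · obtain ⟨d, -, rfl⟩ := mem_image.1 hp
        rfl
    rw [h1 p hp, h1 q hq]
  aj a b l l' _ h2 := by
    rcases mem_insert.1 h2 with h2 | h2
    · simp at h2
    · obtain ⟨d, -, h3⟩ := mem_image.1 h2
      simp at h3

theorem gd_R0 : GdP false true t (R0 t k K n) := by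
  have hw : ∀ w w' : Node t K, ((.w w, .w w') : Pt t k K n × Pt t k K n) ∈ R0 t k K n →
      w = root := by
    intro w w' h
    rcases mem_insert.1 h with h | h
    · simp only [Prod.mk.injEq, Pt.w.injEq] at h
      exact h.1
    · obtain ⟨d, -, h3⟩ := mem_image.1 h
      simp at h3
  refine ⟨⟨fun d => mem_insert_of_mem (mem_image.2 ⟨d, mem_univ _, rfl⟩), ?_⟩, ?_⟩
  · intro w w' h hl
    rw [hw w w' h] at hl
    simp only [root, List.length_nil] at hl
    omega
  · intro w w' h hl hk
    rw [hw w w' h] at hk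
    simp [root, kd] at hk

theorem cover (hG : Gen H N) (hB : Bnd t k m c N) (l : List (I.Univ (circ H κ))) {s : ℕ} :
    ∀ R : Finset (Pt t k K n × Pt t k K n), PI H κ κ' R → GdP κ κ' s R →
      R.card + l.length * (m * (t + 1)) ≤ N → ∃ R', R ⊆ R' ∧ PI H κ κ' R' ∧ GdP κ κ' s R' ∧
        R'.card ≤ R.card + l.length * (m * (t + 1)) ∧
        ∀ f ∈ l, ∃ f' : I.Univ (circ H κ'), EM R' f f' := by
  induction l with
  | nil => exact fun R h hg _ => ⟨R, Subset.refl _, h, hg, by simp, by simp⟩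
  | cons f l ih =>
    intro R h hg hcR
    simp only [List.length_cons] at hcR ⊢
    have e1 : (l.length + 1) * (m * (t + 1)) = l.length * (m * (t + 1)) + m * (t + 1) := by ring
    obtain ⟨R1, h1, h2, h3, h4, h5⟩ := ih R h hg (by omega)
    obtain ⟨R2, g1, g2, g3, g4, g5⟩ := ext_good hG hB h2 h3 f (by omega)
    refine ⟨R2, h1.trans g1, g2, g3, by omega, fun f' hf' => ?_⟩
    rcases List.mem_cons.1 hf' with rfl | hf'
    · exact g4
    · obtain ⟨f'', h6⟩ := h5 f' hf'
      exact ⟨f'', h6.mono g1⟩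

/-- The interpreted circuits cannot separate the two structures. -/
theorem transfer (hG : Gen H N) (hB : Bnd t k m c N) {s d k' : ℕ} (hs : s ≤ t + 1)
    (hN : k + 1 + (k' + 1 + d) * (m * (t + 1)) ≤ N)
    (h1 : Circ.InClass (I.target (circ H false)) s d)
    (h2 : Circ.WSat (I.target (circ H false)) k') :
    Circ.InClass (I.target (circ H true)) s d ∧ Circ.WSat (I.target (circ H true)) k' := by
  classical
  have h3 : Circ.InClass (I.target (circ H true)) s d := (bf hG hB false true).inClass h1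
  refine ⟨h3, ?_⟩
  obtain ⟨v, hv, hout, hcard⟩ := h2
  have hc := h1.1
  obtain ⟨o, ho, hou⟩ := hc.2.1
  let X : Set (I.Univ (circ H false)) :=
    {g | Circ.IsKind (I.target (circ H false)) Kind.input g ∧ v g = true}
  have hXf : X.Finite := Set.toFinite _
  let l : List (I.Univ (circ H false)) := o :: hXf.toFinset.toList
  have hl : l.length = k' + 1 := by
    simp only [l, List.length_cons, length_toList]
    rw [← Set.ncard_eq_toFinset_card _ hXf, hcard]
  have e1 : (k' + 1 + d) * (m * (t + 1)) = (k' + 1) * (m * (t + 1)) + d * (m * (t + 1)) := by ring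
  have hcR0 := card_R0_le (t := t) (k := k) (K := K) (n := n)
  obtain ⟨RX, g1, g2, g3, g4, g5⟩ := cover hG hB l (κ' := true) (R0 t k K n) (pi_R0 H) gd_R0
    (by rw [hl]; omega)
  rw [hl] at g4
  have hX : ∀ f, Circ.IsKind (I.target (circ H false)) Kind.input f → v f = true →
      ∃ f' : I.Univ (circ H true), EM RX f f' := fun f hf hvf => g5 f (by
        refine List.mem_cons_of_mem _ ?_
        rw [mem_toList, Set.Finite.mem_toFinset]
        exact ⟨hf, hvf⟩)
  obtain ⟨o', ho'⟩ := g5 o (by simp [l])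
  obtain ⟨v', hv', hvX⟩ := Circ.exists_valuation h3.1
    {f' | ∃ f, Circ.IsKind (I.target (circ H false)) Kind.input f ∧ v f = true ∧ EM RX f f'}
  have hfin : v o = v' o' := by
    refine claim hG hB hc hv hv' hX hvX d (Subset.refl _) g2 g3.toGd (by omega) ho' ?_
    intro p p1 p2 p3
    have := h1.2 p ⟨p1, p2, o, p3, ho⟩
    exact ⟨this.1, this.2.trans (by omega)⟩
  refine ⟨v', hv', fun g hg => ?_, ?_⟩
  · obtain ⟨o'', h4, h5⟩ := h3.1.2.1
    rw [h5 g hg, ← h5 o' ((EM.out_iff hG hB g2 ho').1 ho), ← hfin]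
    exact hout o ho
  · rw [← hcard]
    have hch : ∀ f : I.Univ (circ H false), ∃ f' : I.Univ (circ H true), f ∈ X → EM RX f f' := by
      intro f
      by_cases hf : f ∈ X
      · obtain ⟨f', h4⟩ := hX f hf.1 hf.2
        exact ⟨f', fun _ => h4⟩
      · exact ⟨o', fun h => absurd h hf⟩
    choose φ hφ using hch
    have himg : {g | Circ.IsKind (I.target (circ H true)) Kind.input g ∧ v' g = true} = φ '' X := by
      ext g
      constructor
      · rintro ⟨h4, h5⟩
        obtain ⟨f, h6, h7, h8⟩ := (hvX g h4).1 h5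
        exact ⟨f, ⟨h6, h7⟩, (EM.eq_iff g2 (hφ f ⟨h6, h7⟩) h8).1 rfl⟩
      · rintro ⟨f, hf, rfl⟩
        have h4 := (EM.kind_iff hG hB g2 (hφ f hf) Kind.input).1 hf.1
        exact ⟨h4, (hvX _ h4).2 ⟨f, hf.1, hf.2, hφ f hf⟩⟩
    rw [himg]
    refine Set.InjOn.ncard_image fun f hf f2 hf2 he => ?_
    exact (EM.eq_iff g2 (hφ f hf) (hφ f2 hf2)).2 he

end Src
end Pool.Agent.W_MP_5f6b2a_lc.Logic
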