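import Pool.Agent.W_MP_5f6b2a_lc.LSrc

/-!
Extension of partial isomorphisms.
-/

namespace Pool.Agent.W_MP_5f6b2a_lc.Logic
namespace Src

open Finset

variable {t k K n : ℕ}

/-- The genericity assumptions. -/
structure Gen (H : (Fin K × Fin n) → Leaf t k K n → Bool) (N : ℕ) : Prop where
  ha : ∀ (F : Finset (Fin K × Fin n)), F.card ≤ N → ∀ (σ : Fin K × Fin n → Bool)
    (γ : LG t K × (Fin k → Bool)), ∃ y : Fin n, ∀ u ∈ F, H u (γ, y) = σ u
  hb : ∀ (F : Finset (Leaf t k K n)), F.card ≤ N → ∀ (σ : Leaf t k K n → Bool) (r : Fin K),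
    ∃ x : Fin n, ∀ j ∈ F, H (r, x) j = σ j
  hK : 2 * N < K

variable {H : (Fin K × Fin n) → Leaf t k K n → Bool} {κ κ' : Bool}
  {R : Finset (Pt t k K n × Pt t k K n)} {N : ℕ}

/-- the index of a point -/
def idx : Pt t k K n → Option (Fin K)
  | .v (.inl _) => none
  | .v (.inr u) => some u.1
  | .w w => w.1.head?.map Prod.snd
  | .l l => match l.1.1 with
    | .inl i => some i
    | .inr w => w.1.head?.map Prod.snd

theorem exists_fresh (s : Finset (Pt t k K n)) (hs : s.card < K) :
    ∃ i : Fin K, ∀ q ∈ s, idx q ≠ some i := by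
  by_contra hcon
  push Not at hcon
  choose f hf hfi using hcon
  have h1 : (univ : Finset (Fin K)).card ≤ s.card := by
    refine card_le_card_of_injOn f (fun i _ => hf i) fun i _ j _ he => ?_
    have := hfi i
    rw [he, hfi j] at this
    exact (Option.some.inj this).symm
  rw [card_univ, Fintype.card_fin] at h1
  omega

theorem card_avoid (hR : R.card ≤ N) {Z : Finset (Pt t k K n)} (hZ : Z.card ≤ N) (hK : 2 * N < K) :
    (R.image Prod.snd ∪ Z).card < K := by
  have h1 := card_union_le (R.image Prod.snd) Z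
  have h2 : (R.image Prod.snd).card ≤ R.card := card_image_le
  omega

theorem card_pre_le {α β : Type} (s : Finset β) (f : α → β) (hf : Function.Injective f) :
    (s.preimage f hf.injOn).card ≤ s.card :=
  card_le_card_of_injOn f (fun _ hx => mem_preimage.1 hx) hf.injOn

theorem PI.ext_v (hG : Gen H N) (h : PI H κ κ' R) (hR : R.card ≤ N) (Z : Finset (Pt t k K n))
    (hZ : Z.card ≤ N) (a : Inp k K n) (ha : ∀ r, (.v a, r) ∉ R) :
    ∃ q, q ∉ Z ∧ PI H κ κ' (insert (.v a, q) R) := by
  classical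
  obtain ⟨i, hi⟩ := exists_fresh _ (card_avoid hR hZ hG.hK)
  have hinj : Function.Injective (Pt.l : Leaf t k K n → Pt t k K n) := fun a b h => by simpa using h
  let F : Finset (Leaf t k K n) := (R.image Prod.snd).preimage Pt.l hinj.injOn
  have hF : F.card ≤ N := (card_pre_le _ _ hinj).trans (card_image_le.trans hR)
  obtain ⟨x, hx⟩ := hG.hb F hF
    (fun l' => decide (∃ l, (.l l, .l l') ∈ R ∧ adj H κ a l = true)) i
  have hq : ∀ r, (r, .v (.inr (i, x))) ∉ R := by
    intro r hr
    exact hi _ (mem_union_left _ (mem_image.2 ⟨_, hr, rfl⟩)) rfl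
  refine ⟨.v (.inr (i, x)), fun hZ' => hi _ (mem_union_right _ hZ') rfl, ?_⟩
  refine h.ins rfl h.rt ha hq ?_ ?_
  · intro a' b l l' h1 h2 h3
    obtain rfl : a = a' := by simpa using h1
    obtain rfl : Sum.inr (i, x) = b := by simpa using h2
    have h4 : l' ∈ F := mem_preimage.2 (mem_image.2 ⟨_, h3, rfl⟩)
    show adj H κ a l = H (i, x) l'
    rw [hx l' h4]
    rcases hb : adj H κ a l with _ | _
    · symm
      rw [decide_eq_false_iff_not]
      rintro ⟨l2, hl2, h5⟩
      have h6 := (h.ij _ h3 _ hl2).2 rfl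
      simp only [Pt.l.injEq] at h6
      rw [h6, h5] at hb
      simp at hb
    · symm
      rw [decide_eq_true_eq]
      exact ⟨l, h3, hb⟩
  · intro a' b l l' _ h2
    simp at h2

theorem PI.w_image (h : PI H κ κ' R) {w : Node t K} {q : Pt t k K n} (hq : (.w w, q) ∈ R) :
    ∃ w' : Node t K, q = .w w' ∧ w'.1.length = w.1.length := by
  have hs := h.st _ hq
  rcases q with a | w' | ⟨⟨i | w', τ⟩, y⟩
  · simp [Src.sort] at hs
  · refine ⟨w', rfl, ?_⟩
    simp only [Src.sort] at hs
    omega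
  · simp only [Src.sort] at hs
    omega
  · simp only [Src.sort] at hs
    omega

theorem PI.ext_w (hG : Gen H N) (h : PI H κ κ' R) (hR : R.card ≤ N) (Z : Finset (Pt t k K n))
    (hZ : Z.card ≤ N) (w w' : Node t K) (hw : w.1 ≠ []) (hm : (par (.w w), .w w') ∈ R)
    (hn : ∀ r, (.w w, r) ∉ R) (β : Bool) :
    ∃ (i : Fin K) (hl : ((β, i) :: w'.1).length ≤ t), (.w ⟨(β, i) :: w'.1, hl⟩ : Pt t k K n) ∉ Z ∧
      PI H κ κ' (insert (.w w, .w ⟨(β, i) :: w'.1, hl⟩) R) := by
  obtain ⟨i, hi⟩ := exists_fresh _ (card_avoid hR hZ hG.hK)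
  have hs := h.st _ hm
  have hlen : w'.1.length + 1 = w.1.length := by
    have h1 : 1 ≤ w.1.length := by
      rcases hw' : w.1 with _ | ⟨x, w0⟩
      · exact absurd hw' hw
      · simp
    simp only [par, Src.sort, List.length_tail] at hs
    omega
  have hl : ((β, i) :: w'.1).length ≤ t := by
    have := w.2
    simp only [List.length_cons]
    omega
  refine ⟨i, hl, fun hZ' => hi _ (mem_union_right _ hZ') rfl, ?_⟩
  refine h.ins ?_ hm hn ?_ ?_ ?_
  · simp only [Src.sort, List.length_cons]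
    omega
  · intro r hr
    exact hi _ (mem_union_left _ (mem_image.2 ⟨_, hr, rfl⟩)) rfl
  · intro a b l l' h1
    simp at h1
  · intro a b l l' _ h1
    simp at h1

/-- the leaves of a group are not among the points of `s` -/
def FreshG (s : Finset (Pt t k K n)) (γ : LG t K) : Prop := ∀ τ y, (.l ((γ, τ), y)) ∉ s

/-- the parent of a group of leaves -/
def parG (k n : ℕ) (γ : LG t K) : Pt t k K n := match γ with
    | .inl _ => .w root
    | .inr w => .w ⟨w.1.tail, by have := w.2; simp only [List.length_tail]; omega⟩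

theorem par_l (γ : LG t K) (τ : Fin k → Bool) (y : Fin n) :
    par (.l ((γ, τ), y)) = parG k n γ := by
  rcases γ with i | w <;> rfl

theorem PI.ext_l (hG : Gen H N) (h : PI H κ κ' R) (hR : R.card ≤ N)
    (l : Leaf t k K n) (hn : ∀ r, (.l l, r) ∉ R) (γ' : LG t K)
    (hs : ∀ (τ : Fin k → Bool) (y : Fin n),
      sort (.l l : Pt t k K n) = sort (.l ((γ', τ), y) : Pt t k K n))
    (hm : (par (.l l), parG k n γ') ∈ R)
    (hf : FreshG (R.image Prod.snd) γ')
    (h1 : lab κ' γ' = true → (∃ d, ∀ r, (r, .v (.inl d)) ∉ R) ∨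
      (∃ d a, (.v a, .v (.inl d)) ∈ R ∧ adj H κ a l = true))
    (h0 : lab κ' γ' = false → ∀ d a, (.v a, .v (.inl d)) ∈ R → adj H κ a l = false) :
    ∃ τ y, PI H κ κ' (insert (.l l, .l ((γ', τ), y)) R) := by
  classical
  let τ' : Fin k → Bool := fun d => decide (∃ a, (.v a, .v (.inl d)) ∈ R ∧ adj H κ a l = true) ||
    decide (∀ r, (r, .v (.inl d)) ∉ R)
  have hinj : Function.Injective (fun u : Fin K × Fin n => (Pt.v (.inr u) : Pt t k K n)) :=
    fun a b h => by simpa using h
  let F : Finset (Fin K × Fin n) := (R.image Prod.snd).preimage _ hinj.injOn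
  have hF : F.card ≤ N := (card_pre_le _ _ hinj).trans (card_image_le.trans hR)
  obtain ⟨y, hy⟩ := hG.ha F hF
    (fun u => decide (∃ a, (.v a, .v (.inr u)) ∈ R ∧ adj H κ a l = true)) (γ', τ')
  refine ⟨τ', y, h.ins (hs _ _) (by rw [par_l]; exact hm) hn ?_ ?_ ?_⟩
  · intro r hr
    exact hf _ _ (mem_image.2 ⟨_, hr, rfl⟩)
  · intro a b l l' _ h2
    simp at h2
  · intro a b l1 l1' h3 h4 h5
    obtain rfl : l = l1 := by simpa using h4
    obtain rfl : ((γ', τ'), y) = l1' := by simpa using h5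
    rcases b with d | u
    · rcases hlab : lab κ' γ' with _ | _
      · rw [h0 hlab d a h3]
        simp [Src.adj, hlab]
      · have h6 : ∃ d', τ' d' = true := by
          rcases h1 hlab with ⟨d', h7⟩ | ⟨d', a', h7, h8⟩
          · exact ⟨d', by simp only [τ', Bool.or_eq_true, decide_eq_true_eq]; exact Or.inr h7⟩
          · exact ⟨d', by simp only [τ', Bool.or_eq_true, decide_eq_true_eq]; exact Or.inl ⟨a', h7, h8⟩⟩
        have h9 : Src.adj H κ' (.inl d) ((γ', τ'), y) = τ' d := by
          obtain ⟨d', hd'⟩ := h6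
          have : ¬ ∀ d', τ' d' = false := fun hh => by
            rw [hh d'] at hd'
            simp at hd'
          simp [Src.adj, hlab, this]
        rw [h9]
        rcases hb : Src.adj H κ a l with _ | _
        · symm
          simp only [τ', Bool.or_eq_false_iff, decide_eq_false_iff_not]
          constructor
          · rintro ⟨a2, ha2, h10⟩
            have h11 := (h.ij _ h3 _ ha2).2 rfl
            simp only [Pt.v.injEq] at h11
            rw [h11, h10] at hb
            simp at hb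
          · intro hh
            exact hh _ h3
        · symm
          simp only [τ', Bool.or_eq_true, decide_eq_true_eq]
          exact Or.inl ⟨a, h3, hb⟩
    · have h6 : u ∈ F := mem_preimage.2 (mem_image.2 ⟨_, h3, rfl⟩)
      show _ = H u ((γ', τ'), y)
      rw [hy u h6]
      rcases hb : Src.adj H κ a l with _ | _
      · symm
        rw [decide_eq_false_iff_not]
        rintro ⟨a2, ha2, h10⟩
        have h11 := (h.ij _ h3 _ ha2).2 rfl
        simp only [Pt.v.injEq] at h11
        rw [h11, h10] at hb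
        simp at hb
      · symm
        rw [decide_eq_true_eq]
        exact ⟨a, h3, hb⟩

/-- new leaves below a given node -/
theorem PI.ext_l' (hG : Gen H N) (h : PI H κ κ' R) (hR : R.card ≤ N) (Z : Finset (Pt t k K n))
    (hZ : Z.card ≤ N) (l : Leaf t k K n) (hn : ∀ r, (.l l, r) ∉ R) (w' : Node t K)
    (hm : (par (.l l), .w w') ∈ R) (β : Bool)
    (h1 : (∃ d, ∀ r, (r, .v (.inl d)) ∉ R) ∨
      (∃ d a, (.v a, .v (.inl d)) ∈ R ∧ adj H κ a l = true) ∨
      ((∃ w, l.1.1 = .inr w) ∧ (β || !kd κ' w'.1) = false))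
    (h0 : (∃ w, l.1.1 = .inr w) → (β || !kd κ' w'.1) = false →
      ∀ d a, (.v a, .v (.inl d)) ∈ R → adj H κ a l = false) :
    ∃ q, q ∉ Z ∧ PI H κ κ' (insert (.l l, q) R) := by
  obtain ⟨i, hi⟩ := exists_fresh _ (card_avoid hR hZ hG.hK)
  rcases l with ⟨⟨j | w, τ⟩, y⟩
  · have hw' : w' = root := by
      have := (root_iff (k := k) (n := n) h (p := par (.l ((.inl j, τ), y))) hm).1 rfl
      simpa using this
    subst hw'
    obtain ⟨τ', y', h2⟩ := h.ext_l hG hR _ hn (.inl i) (fun _ _ => rfl) hm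
      (fun τ y hh => hi _ (mem_union_left _ hh) rfl)
      (fun _ => by
        rcases h1 with h1 | h1 | h1
        · exact Or.inl h1
        · exact Or.inr h1
        · obtain ⟨⟨w, hw⟩, -⟩ := h1
          simp at hw)
      (fun hh => by simp [lab] at hh)
    exact ⟨_, fun hZ' => hi _ (mem_union_right _ hZ') rfl, h2⟩
  · have hs := h.st _ hm
    have hlen : w'.1.length = t := by
      have := w.2
      simp only [par, Src.sort, List.length_tail] at hs
      omega
    have hl : ((β, i) :: w'.1).length = t + 1 := by simp [hlen]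
    obtain ⟨τ', y', h2⟩ := h.ext_l hG hR _ hn (.inr ⟨(β, i) :: w'.1, hl⟩) (fun _ _ => rfl) hm
      (fun τ y hh => hi _ (mem_union_left _ hh) rfl)
      (fun hh => by
        rcases h1 with h1 | h1 | h1
        · exact Or.inl h1
        · exact Or.inr h1
        · have := h1.2
          simp only [lab, kd] at hh
          rw [this] at hh
          simp at hh)
      (fun hh => h0 ⟨_, rfl⟩ hh)
    exact ⟨_, fun hZ' => hi _ (mem_union_right _ hZ') rfl, h2⟩

/-- Extension to nodes, keeping an invariant. -/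
theorem PI.extend_w (hG : Gen H N) (Inv : Finset (Pt t k K n × Pt t k K n) → Prop)
    (step : ∀ (R : Finset (Pt t k K n × Pt t k K n)) (w w' : Node t K), w.1 ≠ [] → Inv R →
      PI H κ κ' R → (par (.w w), .w w') ∈ R → ∃ β : Bool, ∀ (i : Fin K)
        (hl : ((β, i) :: w'.1).length ≤ t), Inv (insert (.w w, .w ⟨(β, i) :: w'.1, hl⟩) R))
    (Z : Finset (Pt t k K n)) (hZ : Z.card ≤ N) (m : ℕ) :
    ∀ (R : Finset (Pt t k K n × Pt t k K n)), PI H κ κ' R → Inv R → R.card + m ≤ N →
      ∀ w : Node t K, w.1.length ≤ m →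
      ∃ R', R ⊆ R' ∧ PI H κ κ' R' ∧ Inv R' ∧ (∃ w' : Node t K, (.w w, .w w') ∈ R') ∧
        R'.card ≤ R.card + m ∧ vc R' = vc R ∧ ∀ r ∈ R', r ∈ R ∨ (r.2 ∉ Z ∧ r.1 ∈ cl {.w w}) := by
  induction m with
  | zero =>
    intro R h hI _ w hw
    have : w = root := Subtype.ext (List.eq_nil_of_length_eq_zero (by omega))
    subst this
    exact ⟨R, Subset.refl _, h, hI, ⟨_, h.rt⟩, le_rfl, rfl, fun r hr => Or.inl hr⟩
  | succ m ih =>
    intro R h hI hc w hw
    by_cases h0 : w.1 = []
    · have : w = root := Subtype.ext h0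
      subst this
      exact ⟨R, Subset.refl _, h, hI, ⟨_, h.rt⟩, by omega, rfl, fun r hr => Or.inl hr⟩
    · have hlen : w.1.tail.length ≤ m := by
        simp only [List.length_tail]
        omega
      have hlt : w.1.tail.length ≤ t := by
        have := w.2
        simp only [List.length_tail]
        omega
      obtain ⟨R', h1, h2, h3, ⟨w', h4⟩, h5, h6, h7⟩ := ih R h hI (by omega) ⟨w.1.tail, hlt⟩ hlen
      have hcl : cl {(.w ⟨w.1.tail, hlt⟩ : Pt t k K n)} ⊆ cl {(.w w : Pt t k K n)} := by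
        refine cl_le ?_
        rw [singleton_subset_iff]
        exact par_mem_cl (p := .w w) (subset_cl _ (mem_singleton_self _))
      by_cases hn : ∀ r, (.w w, r) ∉ R'
      · obtain ⟨β, hβ⟩ := step R' w w' h0 h3 h2 h4
        obtain ⟨i, hl, h8, h9⟩ := h2.ext_w hG (by omega) Z hZ w w' h0 h4 hn β
        refine ⟨_, h1.trans (subset_insert _ _), h9, hβ i hl, ⟨_, mem_insert_self _ _⟩, ?_, ?_, ?_⟩
        · exact (card_insert_le _ _).trans (by omega)
        · rw [← h6]
          unfold vc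
          rw [filter_insert, if_neg]
          simp [Src.sort]
        · intro r hr
          rcases mem_insert.1 hr with rfl | hr
          · exact Or.inr ⟨h8, subset_cl _ (mem_singleton_self _)⟩
          · exact (h7 r hr).imp id fun h => ⟨h.1, hcl h.2⟩
      · push Not at hn
        obtain ⟨q, hq⟩ := hn
        obtain ⟨w2, rfl, -⟩ := h2.w_image hq
        exact ⟨R', h1, h2, h3, ⟨w2, hq⟩, by omega, h6,
          fun r hr => (h7 r hr).imp id fun h => ⟨h.1, hcl h.2⟩⟩

theorem exists_free (h : PI H κ κ' R) (hv : vc R < k) : ∃ d : Fin k, ∀ r, (r, .v (.inl d)) ∉ R := by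
  by_contra hcon
  push Not at hcon
  choose f hf using hcon
  have h1 : (univ : Finset (Fin k)).card ≤ vc R := by
    refine card_le_card_of_injOn (fun d => (f d, .v (.inl d))) (fun d _ => ?_) ?_
    · refine mem_filter.2 ⟨hf d, ?_⟩
      have := h.st _ (hf d)
      simpa [Src.sort] using this
    · intro d _ d' _ he
      simpa using (Prod.mk.inj he).2
  rw [card_univ, Fintype.card_fin] at h1
  omega

theorem vc_insert_le (p : Pt t k K n × Pt t k K n) : vc (insert p R) ≤ vc R + 1 := by
  unfold vc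
  rw [filter_insert]
  split
  · exact card_insert_le _ _
  · omega

/-- Label-blind extension. -/
theorem PI.extend (hG : Gen H N) (h : PI H κ κ' R) (Z : Finset (Pt t k K n)) (hZ : Z.card ≤ N)
    (hv : vc R < k) (hc : R.card + (t + 1) ≤ N) (p : Pt t k K n) :
    ∃ R', R ⊆ R' ∧ PI H κ κ' R' ∧ (∃ q, (p, q) ∈ R') ∧ R'.card ≤ R.card + (t + 1) ∧
      vc R' ≤ vc R + 1 ∧ ∀ r ∈ R', r ∈ R ∨ (r.2 ∉ Z ∧ r.1 ∈ cl {p}) := by
  by_cases hn : ∀ r, (p, r) ∉ R
  swap
  · push Not at hn
    exact ⟨R, Subset.refl _, h, hn, by omega, by omega, fun r hr => Or.inl hr⟩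
  have base := PI.extend_w hG (fun _ => True) (κ := κ) (κ' := κ')
    (fun _ _ _ _ _ _ _ => ⟨true, fun _ _ => trivial⟩) Z hZ t R h trivial (by omega)
  rcases p with a | w | l
  · obtain ⟨q, h1, h2⟩ := h.ext_v hG (by omega) Z hZ a hn
    refine ⟨_, subset_insert _ _, h2, ⟨q, mem_insert_self _ _⟩,
      (card_insert_le _ _).trans (by omega), vc_insert_le _, fun r hr => ?_⟩
    rcases mem_insert.1 hr with rfl | hr
    · exact Or.inr ⟨h1, subset_cl _ (mem_singleton_self _)⟩
    · exact Or.inl hr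
  · obtain ⟨R', h1, h2, -, ⟨w', h4⟩, h5, h6, h7⟩ := base w w.2
    exact ⟨R', h1, h2, ⟨_, h4⟩, by omega, by omega, h7⟩
  · obtain ⟨w, hw⟩ : ∃ w : Node t K, par (.l l : Pt t k K n) = .w w := by
      rcases l with ⟨⟨i | w, τ⟩, y⟩
      · exact ⟨_, rfl⟩
      · exact ⟨_, rfl⟩
    obtain ⟨R', h1, h2, -, ⟨w', h4⟩, h5, h6, h7⟩ := base w w.2
    have hcl : cl {(.w w : Pt t k K n)} ⊆ cl {(.l l : Pt t k K n)} := by
      refine cl_le ?_
      rw [singleton_subset_iff, ← hw]
      exact par_mem_cl (subset_cl _ (mem_singleton_self _))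
    by_cases hn' : ∀ r, (.l l, r) ∉ R'
    · obtain ⟨q, h8, h9⟩ := h2.ext_l' hG (by omega) Z hZ l hn' w' (by rw [hw]; exact h4) true
        (Or.inl (exists_free h2 (by omega))) (fun _ hh => by simp at hh)
      refine ⟨_, h1.trans (subset_insert _ _), h9, ⟨q, mem_insert_self _ _⟩,
        (card_insert_le _ _).trans (by omega), (vc_insert_le _).trans (by omega), fun r hr => ?_⟩
      rcases mem_insert.1 hr with rfl | hr
      · exact Or.inr ⟨h8, subset_cl _ (mem_singleton_self _)⟩
      · exact (h7 r hr).imp id fun h => ⟨h.1, hcl h.2⟩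
    · push Not at hn'
      exact ⟨R', h1, h2, hn', by omega, by omega,
        fun r hr => (h7 r hr).imp id fun h => ⟨h.1, hcl h.2⟩⟩

/-- Label-blind extension to several points. -/
theorem PI.extend_list (hG : Gen H N) (Z : Finset (Pt t k K n)) (hZ : Z.card ≤ N)
    (L : List (Pt t k K n)) :
    ∀ R : Finset (Pt t k K n × Pt t k K n), PI H κ κ' R → vc R + L.length ≤ k →
      R.card + L.length * (t + 1) ≤ N →
    ∃ R', R ⊆ R' ∧ PI H κ κ' R' ∧ (∀ p ∈ L, ∃ q, (p, q) ∈ R') ∧
      R'.card ≤ R.card + L.length * (t + 1) ∧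
      vc R' ≤ vc R + L.length ∧ ∀ r ∈ R', r ∈ R ∨ (r.2 ∉ Z ∧ r.1 ∈ cl L.toFinset) := by
  induction L with
  | nil => exact fun R h _ _ => ⟨R, Subset.refl _, h, by simp, by simp, by simp,
      fun r hr => Or.inl hr⟩
  | cons p L ih =>
    intro R h hv hc
    simp only [List.length_cons] at hv hc
    have e1 : (L.length + 1) * (t + 1) = L.length * (t + 1) + (t + 1) := by ring
    obtain ⟨R1, h1, h2, h3, h4, h5, h6⟩ := ih R h (by omega) (by omega)
    obtain ⟨R2, g1, g2, g3, g4, g5, g6⟩ := h2.extend hG Z hZ (by omega) (by omega) p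
    refine ⟨R2, h1.trans g1, g2, ?_, ?_, ?_, ?_⟩
    · intro q hq
      rcases List.mem_cons.1 hq with rfl | hq
      · exact g3
      · obtain ⟨r, hr⟩ := h3 q hq
        exact ⟨r, g1 hr⟩
    · simp only [List.length_cons]
      omega
    · simp only [List.length_cons]
      omega
    · intro r hr
      rcases g6 r hr with hr | ⟨h7, h8⟩
      · rcases h6 r hr with hr | ⟨h7, h8⟩
        · exact Or.inl hr
        · exact Or.inr ⟨h7, cl_mono (by simp) h8⟩
      · exact Or.inr ⟨h7, cl_mono (by simp) h8⟩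

/-- Goodness: all the `d` are matched with themselves, and nodes of height at most `s` with nodes
of the same kind. -/
structure Gd (κ κ' : Bool) (s : ℕ) (R : Finset (Pt t k K n × Pt t k K n)) : Prop where
  dd : ∀ d, (.v (.inl d), .v (.inl d)) ∈ R
  kd : ∀ w w', (.w w, .w w') ∈ R → t + 1 ≤ s + w.1.length → kd κ w.1 = kd κ' w'.1

/-- Extendable goodness. -/
structure GdP (κ κ' : Bool) (s : ℕ) (R : Finset (Pt t k K n × Pt t k K n)) : Prop
    extends Gd κ κ' s R where
  kd' : ∀ w w', (.w w, .w w') ∈ R → t + 1 = s + 1 + w.1.length → Src.kd κ w.1 = true →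
    Src.kd κ' w'.1 = true

theorem Gd.le {s s' : ℕ} (h : Gd κ κ' s R) (hs : s' ≤ s) : Gd κ κ' s' R :=
  ⟨h.dd, fun w w' hw hl => h.kd w w' hw (by omega)⟩

theorem Gd.toP {s : ℕ} (h : Gd κ κ' (s + 1) R) : GdP κ κ' s R :=
  ⟨h.le (by omega), fun w w' hw hl hk => (h.kd w w' hw (by omega)) ▸ hk⟩

theorem Gd.symm {s : ℕ} (hR : PI H κ κ' R) (h : Gd κ κ' s R) : Gd κ' κ s (R.image Prod.swap) where
  dd d := mem_image.2 ⟨_, h.dd d, rfl⟩
  kd w w' hw hl := by
    obtain ⟨⟨p, q⟩, hp, he⟩ := mem_image.1 hw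
    simp only [Prod.swap_prod_mk, Prod.mk.injEq] at he
    obtain ⟨rfl, rfl⟩ := he
    refine (h.kd w' w hp ?_).symm
    obtain ⟨w2, h2, h3⟩ := hR.w_image hp
    simp only [Pt.w.injEq] at h2
    subst h2
    omega

theorem GdP.parent {s : ℕ} (h : GdP κ κ' s R) {w w' : Node t K} (hw : (.w w, .w w') ∈ R)
    (hl : t ≤ s + w.1.length) (hk : Src.kd κ w.1 = true) : Src.kd κ' w'.1 = true := by
  by_cases h1 : t + 1 ≤ s + w.1.length
  · rw [← h.kd w w' hw h1]
    exact hk
  · exact h.kd' w w' hw (by omega) hk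

theorem kd_eq_false {x : Stp K} {w : List (Stp K)} (h : Src.kd κ (x :: w) = false) :
    Src.kd κ w = true := by
  simp only [Src.kd, Bool.or_eq_false_iff, Bool.not_eq_false'] at h
  exact h.2

theorem GdP.step {s : ℕ} (w w' : Node t K) (hw : w.1 ≠ []) (h : GdP κ κ' s R) (hR : PI H κ κ' R)
    (hm : (par (.w w), .w w') ∈ R) : ∃ β : Bool, ∀ (i : Fin K)
        (hl : ((β, i) :: w'.1).length ≤ t),
        GdP κ κ' s (insert (.w w, .w ⟨(β, i) :: w'.1, hl⟩) R) := by
  by_cases hs : t + 1 ≤ s + w.1.length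
  · refine ⟨Src.kd κ w.1, fun i hl => ⟨⟨fun d => mem_insert_of_mem (h.dd d), ?_⟩, ?_⟩⟩
    · intro u u' hu hlu
      rcases mem_insert.1 hu with hu | hu
      · simp only [Prod.mk.injEq, Pt.w.injEq] at hu
        obtain ⟨rfl, rfl⟩ := hu
        rcases hk : Src.kd κ u.1 with _ | _
        · obtain ⟨x, w0, hx⟩ := List.exists_cons_of_ne_nil hw
          have h1 : Src.kd κ w0 = true := kd_eq_false (x := x) (by rw [← hx]; exact hk)
          have hlt : w0.length ≤ t := by
            have := u.2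
            rw [hx, List.length_cons] at this
            omega
          have h2 : par (.w u : Pt t k K n) = .w ⟨w0, hlt⟩ := by
            simp [par, hx]
          rw [h2] at hm
          have h3 := h.parent hm (by
            rw [hx, List.length_cons] at hs
            show t ≤ s + w0.length
            omega) h1
          simp [Src.kd, h3]
        · simp [Src.kd]
      · exact h.kd u u' hu hlu
    · intro u u' hu hlu hku
      rcases mem_insert.1 hu with hu | hu
      · simp only [Prod.mk.injEq, Pt.w.injEq] at hu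
        obtain ⟨rfl, rfl⟩ := hu
        omega
      · exact h.kd' u u' hu hlu hku
  · refine ⟨true, fun i hl => ⟨⟨fun d => mem_insert_of_mem (h.dd d), ?_⟩, ?_⟩⟩
    · intro u u' hu hlu
      rcases mem_insert.1 hu with hu | hu
      · simp only [Prod.mk.injEq, Pt.w.injEq] at hu
        obtain ⟨rfl, rfl⟩ := hu
        omega
      · exact h.kd u u' hu hlu
    · intro u u' hu hlu hku
      rcases mem_insert.1 hu with hu | hu
      · simp only [Prod.mk.injEq, Pt.w.injEq] at hu
        obtain ⟨rfl, rfl⟩ := hu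
        simp [Src.kd]
      · exact h.kd' u u' hu hlu hku

theorem exists_adj (hk : 0 < k) {l : Leaf t k K n} (h : lab κ l.1.1 = true) :
    ∃ d, adj H κ (.inl d) l = true := by
  by_cases hz : ∀ d', l.1.2 d' = false
  · exact ⟨⟨0, hk⟩, by simp [adj, h, hz]⟩
  · have hz' := hz
    push Not at hz'
    obtain ⟨d, hd⟩ := hz'
    exact ⟨d, by simp [adj, h, hd]⟩

theorem GdP.insert {s : ℕ} (h : GdP κ κ' s R) {p q : Pt t k K n} (hp : ∀ w, p ≠ .w w) :
    GdP κ κ' s (insert (p, q) R) := by
  refine ⟨⟨fun d => mem_insert_of_mem (h.dd d), ?_⟩, ?_⟩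
  · intro u u' hu hlu
    rcases mem_insert.1 hu with hu | hu
    · exact absurd (Prod.mk.inj hu).1.symm (hp _)
    · exact h.kd u u' hu hlu
  · intro u u' hu hlu hku
    rcases mem_insert.1 hu with hu | hu
    · exact absurd (Prod.mk.inj hu).1.symm (hp _)
    · exact h.kd' u u' hu hlu hku

/-- Label-aware extension. -/
theorem PI.gextend (hG : Gen H N) (hk : 0 < k) (h : PI H κ κ' R) {s : ℕ} (hg : GdP κ κ' s R)
    (hc : R.card + (t + 1) ≤ N) (p : Pt t k K n) :
    ∃ R', R ⊆ R' ∧ PI H κ κ' R' ∧ GdP κ κ' s R' ∧ (∃ q, (p, q) ∈ R') ∧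
      R'.card ≤ R.card + (t + 1) := by
  by_cases hn : ∀ r, (p, r) ∉ R
  swap
  · push Not at hn
    exact ⟨R, Subset.refl _, h, hg, hn, by omega⟩
  have base := PI.extend_w hG (GdP κ κ' s) (κ := κ) (κ' := κ')
    (fun R w w' hw hI hR hm => hI.step w w' hw hR hm) ∅ (by simp) t R h hg (by omega)
  rcases p with a | w | l
  · obtain ⟨q, h1, h2⟩ := h.ext_v hG (by omega) ∅ (by simp) a hn
    exact ⟨_, subset_insert _ _, h2, hg.insert (by simp), ⟨q, mem_insert_self _ _⟩,
      (card_insert_le _ _).trans (by omega)⟩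
  · obtain ⟨R', h1, h2, h3, ⟨w', h4⟩, h5, -, -⟩ := base w w.2
    exact ⟨R', h1, h2, h3, ⟨_, h4⟩, by omega⟩
  · obtain ⟨w, hw⟩ : ∃ w : Node t K, par (.l l : Pt t k K n) = .w w := by
      rcases l with ⟨⟨i | w, τ⟩, y⟩
      · exact ⟨_, rfl⟩
      · exact ⟨_, rfl⟩
    obtain ⟨R', h1, h2, h3, ⟨w', h4⟩, h5, -, -⟩ := base w w.2
    by_cases hn' : ∀ r, (.l l, r) ∉ R'
    · have hm : (par (.l l), .w w') ∈ R' := by rw [hw]; exact h4
      suffices hsuff : ∃ q, q ∉ (∅ : Finset (Pt t k K n)) ∧ PI H κ κ' (insert (.l l, q) R') by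
        obtain ⟨q, -, h9⟩ := hsuff
        exact ⟨_, h1.trans (subset_insert _ _), h9, h3.insert (by simp), ⟨q, mem_insert_self _ _⟩,
          (card_insert_le _ _).trans (by omega)⟩
      rcases hlab : lab κ l.1.1 with _ | _
      · -- label false
        have h6 : (∃ w, l.1.1 = .inr w) ∧ Src.kd κ' w'.1 = true := by
          rcases l with ⟨⟨i | w1, τ⟩, y⟩
          · simp [lab] at hlab
          · refine ⟨⟨_, rfl⟩, ?_⟩
            obtain ⟨x, w0, hx⟩ := List.exists_cons_of_ne_nil (l := w1.1) (by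
              intro h0
              have := w1.2
              rw [h0] at this
              simp at this)
            have h7 : Src.kd κ w0 = true := kd_eq_false (x := x) (by rw [← hx]; exact hlab)
            have hlen : w0.length = t := by
              have := w1.2
              rw [hx, List.length_cons] at this
              omega
            have h8 : w = ⟨w0, hlen.le⟩ := by
              simp only [par, hx, List.tail_cons, Pt.w.injEq] at hw
              exact hw.symm
            subst h8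
            exact h3.parent h4 (by
              show t ≤ s + w0.length
              omega) h7
        refine h2.ext_l' hG (by omega) ∅ (by simp) l hn' w' hm false
          (Or.inr (Or.inr ⟨h6.1, by simp [h6.2]⟩)) fun _ _ d a hda => ?_
        have h7 := (h2.ij _ hda _ (h3.dd d)).2 rfl
        simp only [Pt.v.injEq] at h7
        subst h7
        simp [adj, hlab]
      · obtain ⟨d, hd⟩ := exists_adj (H := H) hk hlab
        exact h2.ext_l' hG (by omega) ∅ (by simp) l hn' w' hm true
          (Or.inr (Or.inl ⟨d, _, h3.dd d, hd⟩)) fun _ hh => by simp at hh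
    · push Not at hn'
      exact ⟨R', h1, h2, h3, hn', by omega⟩

/-- Label-aware extension to several points. -/
theorem PI.gextend_list (hG : Gen H N) (hk : 0 < k) {s : ℕ} (L : List (Pt t k K n)) :
    ∀ R : Finset (Pt t k K n × Pt t k K n), PI H κ κ' R → GdP κ κ' s R →
      R.card + L.length * (t + 1) ≤ N →
    ∃ R', R ⊆ R' ∧ PI H κ κ' R' ∧ GdP κ κ' s R' ∧ (∀ p ∈ L, ∃ q, (p, q) ∈ R') ∧
      R'.card ≤ R.card + L.length * (t + 1) := by
  induction L with
  | nil => exact fun R h hg _ => ⟨R, Subset.refl _, h, hg, by simp, by simp⟩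
  | cons p L ih =>
    intro R h hg hc
    simp only [List.length_cons] at hc
    have e1 : (L.length + 1) * (t + 1) = L.length * (t + 1) + (t + 1) := by ring
    obtain ⟨R1, h1, h2, h2', h3, h4⟩ := ih R h hg (by omega)
    obtain ⟨R2, g1, g2, g2', g3, g4⟩ := h2.gextend hG hk h2' (by omega) p
    refine ⟨R2, h1.trans g1, g2, g2', ?_, ?_⟩
    · intro q hq
      rcases List.mem_cons.1 hq with rfl | hq
      · exact g3
      · obtain ⟨r, hr⟩ := h3 q hq
        exact ⟨r, g1 hr⟩
    · simp only [List.length_cons]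
      omega

end Src
end Pool.Agent.W_MP_5f6b2a_lc.Logic
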