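import Mathlib

/-!
Existence of finite bipartite graphs with the extension property in both directions.
-/

namespace Pool.Agent.W_MP_5f6b2a_lc.Logic

open Finset Filter Topology

theorem match_card (X : Type) [Fintype X] [DecidableEq X] (F : Finset X) (σ : X → Bool) :
    ((univ.filter fun h : X → Bool => ∀ u ∈ F, h u = σ u).card : ℝ)
      = (1 / 2) ^ F.card * Fintype.card (X → Bool) := by
  have h1 : (univ.filter fun h : X → Bool => ∀ u ∈ F, h u = σ u)
      = Fintype.piFinset fun u => if u ∈ F then {σ u} else univ := by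
    ext h
    simp only [mem_filter, mem_univ, true_and, Fintype.mem_piFinset]
    refine ⟨fun hh u => ?_, fun hh u hu => ?_⟩
    · by_cases hu : u ∈ F
      · simp [hu, hh u hu]
      · simp [hu]
    · have := hh u
      simpa [hu] using this
  rw [h1, Fintype.card_piFinset, Fintype.card_pi]
  push_cast
  have h2 : ∀ u : X, (((if u ∈ F then {σ u} else univ : Finset Bool).card : ℕ) : ℝ)
      = (if u ∈ F then (1 / 2 : ℝ) else 1) * (Fintype.card Bool : ℝ) := by
    intro u
    by_cases hu : u ∈ F <;> simp [hu]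
  simp_rw [h2]
  rw [prod_mul_distrib, prod_ite, prod_const_one, mul_one, prod_const]
  congr 2
  congr 1
  ext u
  simp

theorem bad_card (X Y : Type) [Fintype X] [DecidableEq X] [Fintype Y] [DecidableEq Y]
    (T : Finset Y) (F : Finset X) (σ : X → Bool) :
    ((univ.filter fun H : Y → X → Bool => ∀ y ∈ T, ¬ ∀ u ∈ F, H y u = σ u).card : ℝ)
      = (1 - (1 / 2) ^ F.card) ^ T.card * Fintype.card (Y → X → Bool) := by
  have h1 : (univ.filter fun H : Y → X → Bool => ∀ y ∈ T, ¬ ∀ u ∈ F, H y u = σ u)
      = Fintype.piFinset fun y =>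
        if y ∈ T then (univ.filter fun h : X → Bool => ¬ ∀ u ∈ F, h u = σ u) else univ := by
    ext H
    simp only [mem_filter, mem_univ, true_and, Fintype.mem_piFinset]
    refine ⟨fun hh y => ?_, fun hh y hy => ?_⟩
    · by_cases hy : y ∈ T
      · simpa [hy] using hh y hy
      · simp [hy]
    · have := hh y
      simpa [hy] using this
  rw [h1, Fintype.card_piFinset, Fintype.card_pi]
  push_cast
  have h3 : ((univ.filter fun h : X → Bool => ¬ ∀ u ∈ F, h u = σ u).card : ℝ)
      = (1 - (1 / 2) ^ F.card) * Fintype.card (X → Bool) := by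
    have h4 := match_card X F σ
    have h5 := card_filter_add_card_filter_not (s := (univ : Finset (X → Bool)))
      (fun h : X → Bool => ∀ u ∈ F, h u = σ u)
    have h6 : (((univ.filter fun h : X → Bool => ∀ u ∈ F, h u = σ u).card : ℝ)
        + ((univ.filter fun h : X → Bool => ¬ ∀ u ∈ F, h u = σ u).card : ℝ))
        = Fintype.card (X → Bool) := by
      rw [← Nat.cast_add, h5, card_univ]
    rw [h4] at h6
    linarith
  have h2 : ∀ y : Y, (((if y ∈ T then (univ.filter fun h : X → Bool => ¬ ∀ u ∈ F, h u = σ u)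
      else univ : Finset (X → Bool)).card : ℕ) : ℝ)
      = (if y ∈ T then (1 - (1 / 2) ^ F.card : ℝ) else 1) * (Fintype.card (X → Bool) : ℝ) := by
    intro y
    by_cases hy : y ∈ T
    · simp only [hy, if_true]
      exact h3
    · simp [hy]
  simp_rw [h2]
  rw [prod_mul_distrib, prod_ite, prod_const_one, mul_one, prod_const]
  congr 2
  congr 1
  ext y
  simp

/-- The set and the pattern coded by `f`. -/
theorem exists_code {X : Type} [DecidableEq X] {M : ℕ} (F : Finset X) (hF : F.card ≤ M)
    (σ : X → Bool) : ∃ f : Fin M → Option (X × Bool), ∀ u, u ∈ F ↔ ∃ i b, f i = some (u, b) ∧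
      b = σ u := by
  classical
  let e := F.equivFin
  refine ⟨fun i => if h : i.1 < F.card then some ((e.symm ⟨i.1, h⟩ : F).1, σ (e.symm ⟨i.1, h⟩ : F).1)
    else none, fun u => ⟨fun hu => ?_, ?_⟩⟩
  · refine ⟨⟨(e ⟨u, hu⟩).1, (e ⟨u, hu⟩).2.trans_le hF⟩, σ u, ?_, rfl⟩
    have h : (e ⟨u, hu⟩).1 < F.card := (e ⟨u, hu⟩).2
    simp only [h, dite_true]
    simp
  · rintro ⟨i, b, hi, -⟩
    by_cases h : i.1 < F.card
    · simp only [h, dite_true, Option.some.injEq, Prod.mk.injEq] at hi
      rw [← hi.1]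
      exact (e.symm ⟨i.1, h⟩).2
    · simp [h] at hi

open scoped Classical in
/-- The extension property of the first factor. -/
theorem one_side (R Γ : Type) [Fintype R] [Fintype Γ] [DecidableEq R] [DecidableEq Γ] (M n : ℕ) :
    ((univ.filter fun H : (Γ × Fin n) → (R × Fin n) → Bool =>
      ¬ ∀ (F : Finset (R × Fin n)), F.card ≤ M → ∀ (σ : R × Fin n → Bool) (γ : Γ),
        ∃ y : Fin n, ∀ u ∈ F, H (γ, y) u = σ u).card : ℝ) ≤
      Fintype.card Γ * (2 * (Fintype.card R * n) + 1) ^ M * (1 - (1 / 2) ^ M) ^ n *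
        Fintype.card ((Γ × Fin n) → (R × Fin n) → Bool) := by
  classical
  let X := R × Fin n
  let FF : (Fin M → Option (X × Bool)) → Finset X := fun f =>
    univ.filter fun u => ∃ i b, f i = some (u, b)
  let SS : (Fin M → Option (X × Bool)) → X → Bool := fun f u =>
    decide (∃ i, f i = some (u, true))
  let T : Γ → Finset (Γ × Fin n) := fun γ => univ.filter fun y => y.1 = γ
  have hT : ∀ γ, (T γ).card = n := by
    intro γ
    have : T γ = (univ : Finset (Fin n)).image fun y => (γ, y) := by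
      ext ⟨a, b⟩
      simp [T, eq_comm]
    rw [this, card_image_of_injective _ fun a b h => (Prod.mk.inj h).2]
    simp
  have hFF : ∀ f, (FF f).card ≤ M := by
    intro f
    have : (FF f).card ≤ (univ : Finset (Fin M)).card := by
      have hsub : (FF f).map ⟨some, Option.some_injective _⟩ ⊆
          (univ : Finset (Fin M)).image fun i => (f i).map Prod.fst := by
        intro x hx
        obtain ⟨u, hu, rfl⟩ := mem_map.1 hx
        obtain ⟨i, b, hi⟩ := (mem_filter.1 hu).2
        exact mem_image.2 ⟨i, mem_univ _, by simp [hi]⟩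
      have h1 := card_le_card hsub
      rw [card_map] at h1
      exact h1.trans card_image_le
    simpa using this
  have hsub : (univ.filter fun H : (Γ × Fin n) → (R × Fin n) → Bool =>
      ¬ ∀ (F : Finset (R × Fin n)), F.card ≤ M → ∀ (σ : R × Fin n → Bool) (γ : Γ),
        ∃ y : Fin n, ∀ u ∈ F, H (γ, y) u = σ u) ⊆
      (univ : Finset (Γ × (Fin M → Option (X × Bool)))).biUnion fun q =>
        univ.filter fun H : (Γ × Fin n) → X → Bool => ∀ y ∈ T q.1, ¬ ∀ u ∈ FF q.2,
          H y u = SS q.2 u := by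
    intro H hH
    simp only [mem_filter, mem_univ, true_and] at hH
    push Not at hH
    obtain ⟨F, hF, σ, γ, h⟩ := hH
    obtain ⟨f, hf⟩ := exists_code F hF σ
    rw [mem_biUnion]
    -- restrict f to the consistent entries
    refine ⟨(γ, fun i => match f i with
      | some (u, b) => if b = σ u then some (u, b) else none
      | none => none), mem_univ _, ?_⟩
    simp only [mem_filter, mem_univ, true_and]
    intro y hy hall
    have hy' : y.1 = γ := (mem_filter.1 hy).2
    obtain ⟨u, hu, hne⟩ := h y.2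
    apply hne
    obtain ⟨i, b, hi, hb⟩ := (hf u).1 hu
    have hmem : u ∈ FF fun i => match f i with
      | some (u, b) => if b = σ u then some (u, b) else none
      | none => none := by
      refine mem_filter.2 ⟨mem_univ _, i, b, ?_⟩
      simp [hi, hb]
    have h2 := hall u hmem
    rw [← hy', h2]
    by_cases hs : σ u = true
    · rw [hs]
      simp only [SS, decide_eq_true_eq]
      exact ⟨i, by simp [hi, hb, hs]⟩
    · simp only [Bool.not_eq_true] at hs
      rw [hs]
      simp only [SS, decide_eq_false_iff_not]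
      rintro ⟨j, hj⟩
      rcases hfj : f j with _ | ⟨u', b'⟩
      · simp [hfj] at hj
      · simp only [hfj] at hj
        split at hj
        · rename_i h3
          simp only [Option.some.injEq, Prod.mk.injEq] at hj
          rw [hj.1, hj.2, hs] at h3
          simp at h3
        · simp at hj
  have h1 : ((univ.filter fun H : (Γ × Fin n) → (R × Fin n) → Bool =>
      ¬ ∀ (F : Finset (R × Fin n)), F.card ≤ M → ∀ (σ : R × Fin n → Bool) (γ : Γ),
        ∃ y : Fin n, ∀ u ∈ F, H (γ, y) u = σ u).card : ℝ) ≤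
      ∑ q : Γ × (Fin M → Option (X × Bool)),
        ((univ.filter fun H : (Γ × Fin n) → X → Bool => ∀ y ∈ T q.1, ¬ ∀ u ∈ FF q.2,
          H y u = SS q.2 u).card : ℝ) := by
    exact_mod_cast (card_le_card hsub).trans card_biUnion_le
  refine h1.trans ?_
  calc ∑ q : Γ × (Fin M → Option (X × Bool)),
        ((univ.filter fun H : (Γ × Fin n) → X → Bool => ∀ y ∈ T q.1, ¬ ∀ u ∈ FF q.2,
          H y u = SS q.2 u).card : ℝ)
      ≤ ∑ q : Γ × (Fin M → Option (X × Bool)), (1 - (1 / 2 : ℝ) ^ M) ^ n *
        Fintype.card ((Γ × Fin n) → X → Bool) := by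
        refine sum_le_sum fun q _ => ?_
        rw [bad_card, hT]
        refine mul_le_mul_of_nonneg_right ?_ (by positivity)
        refine pow_le_pow_left₀ ?_ ?_ n
        · have : (1 / 2 : ℝ) ^ (FF q.2).card ≤ 1 := pow_le_one₀ (by norm_num) (by norm_num)
          linarith
        · have : (1 / 2 : ℝ) ^ M ≤ (1 / 2 : ℝ) ^ (FF q.2).card :=
            pow_le_pow_of_le_one (by norm_num) (by norm_num) (hFF _)
          linarith
    _ = _ := by
        rw [sum_const, nsmul_eq_mul, card_univ]
        have : (Fintype.card (Γ × (Fin M → Option (X × Bool))) : ℝ)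
            = Fintype.card Γ * (2 * (Fintype.card R * n) + 1) ^ M := by
          rw [Fintype.card_prod, Fintype.card_fun, Fintype.card_option, Fintype.card_prod,
            Fintype.card_prod, Fintype.card_bool, Fintype.card_fin, Fintype.card_fin]
          push_cast
          ring
        rw [this]
        ring

theorem tendsto_aux (a b : ℝ) (M : ℕ) (ha : 0 ≤ a) (hb : 0 ≤ b) {r : ℝ} (hr0 : 0 ≤ r) (hr : r < 1) :
    Tendsto (fun n : ℕ => a * (2 * (b * n) + 1) ^ M * r ^ n) atTop (𝓝 0) := by
  have h1 : Tendsto (fun n : ℕ => (a * (2 * b + 1) ^ M) * ((n : ℝ) ^ M * r ^ n)) atTop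
      (𝓝 ((a * (2 * b + 1) ^ M) * 0)) :=
    (tendsto_pow_const_mul_const_pow_of_abs_lt_one M (by rwa [abs_of_nonneg hr0])).const_mul _
  rw [mul_zero] at h1
  refine squeeze_zero' (Eventually.of_forall fun n => by positivity) ?_ h1
  filter_upwards [eventually_ge_atTop 1] with n hn
  have hn' : (1 : ℝ) ≤ n := by exact_mod_cast hn
  have h2 : 2 * (b * n) + 1 ≤ (2 * b + 1) * n := by nlinarith
  calc a * (2 * (b * n) + 1) ^ M * r ^ n ≤ a * ((2 * b + 1) * n) ^ M * r ^ n := by
        gcongr
    _ = _ := by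
        rw [mul_pow]
        ring

theorem exists_generic (R Γ : Type) [Fintype R] [Fintype Γ] [DecidableEq R] [DecidableEq Γ]
    (M : ℕ) : ∃ (n : ℕ) (H : (R × Fin n) → (Γ × Fin n) → Bool),
      (∀ (F : Finset (R × Fin n)), F.card ≤ M → ∀ (σ : R × Fin n → Bool) (γ : Γ),
        ∃ y : Fin n, ∀ u ∈ F, H u (γ, y) = σ u) ∧
      (∀ (F : Finset (Γ × Fin n)), F.card ≤ M → ∀ (σ : Γ × Fin n → Bool) (r : R),
        ∃ x : Fin n, ∀ j ∈ F, H (r, x) j = σ j) := by
  classical
  have hr0 : (0 : ℝ) ≤ 1 - (1 / 2) ^ M := by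
    have : (1 / 2 : ℝ) ^ M ≤ 1 := pow_le_one₀ (by norm_num) (by norm_num)
    linarith
  have hr1 : (1 : ℝ) - (1 / 2) ^ M < 1 := by
    have : (0 : ℝ) < (1 / 2 : ℝ) ^ M := by positivity
    linarith
  have t1 := tendsto_aux (Fintype.card Γ) (Fintype.card R) M (by positivity) (by positivity) hr0 hr1
  have t2 := tendsto_aux (Fintype.card R) (Fintype.card Γ) M (by positivity) (by positivity) hr0 hr1
  have t3 := t1.add t2
  rw [add_zero] at t3
  obtain ⟨n, hn⟩ := (t3.eventually (gt_mem_nhds one_pos)).exists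
  refine ⟨n, ?_⟩
  by_contra hcon
  push Not at hcon
  let Ω := (Γ × Fin n) → (R × Fin n) → Bool
  let B1 : Finset Ω := univ.filter fun H : (Γ × Fin n) → (R × Fin n) → Bool =>
      ¬ ∀ (F : Finset (R × Fin n)), F.card ≤ M → ∀ (σ : R × Fin n → Bool) (γ : Γ),
        ∃ y : Fin n, ∀ u ∈ F, H (γ, y) u = σ u
  let B2 : Finset ((R × Fin n) → (Γ × Fin n) → Bool) := univ.filter
    fun H : (R × Fin n) → (Γ × Fin n) → Bool =>
      ¬ ∀ (F : Finset (Γ × Fin n)), F.card ≤ M → ∀ (σ : Γ × Fin n → Bool) (γ : R),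
        ∃ y : Fin n, ∀ u ∈ F, H (γ, y) u = σ u
  have b1 : (B1.card : ℝ) ≤ _ := one_side R Γ M n
  have b2 : (B2.card : ℝ) ≤ _ := one_side Γ R M n
  have hΩ : (Fintype.card ((R × Fin n) → (Γ × Fin n) → Bool) : ℝ) = Fintype.card Ω := by
    have := Fintype.card_congr (Equiv.piComm fun (_ : R × Fin n) (_ : Γ × Fin n) => Bool)
    exact_mod_cast this
  rw [hΩ] at b2
  have hpos : (0 : ℝ) < Fintype.card Ω := by
    have : 0 < Fintype.card Ω := Fintype.card_pos
    exact_mod_cast this
  have hcover : Fintype.card Ω ≤ B1.card + B2.card := by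
    have hsub : (univ : Finset Ω) ⊆ B1 ∪ B2.image Function.swap := by
      intro H _
      rw [mem_union]
      by_cases h1 : H ∈ B1
      · exact Or.inl h1
      · right
        refine mem_image.2 ⟨Function.swap H, ?_, rfl⟩
        refine mem_filter.2 ⟨mem_univ _, ?_⟩
        have h1' : ∀ (F : Finset (R × Fin n)), F.card ≤ M → ∀ (σ : R × Fin n → Bool) (γ : Γ),
            ∃ y : Fin n, ∀ u ∈ F, H (γ, y) u = σ u := by
          by_contra h2
          exact h1 (mem_filter.2 ⟨mem_univ _, h2⟩)
        obtain ⟨F, hF, σ, r, h3⟩ := hcon (Function.swap H) h1'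
        push Not
        exact ⟨F, hF, σ, r, h3⟩
    calc Fintype.card Ω = (univ : Finset Ω).card := (card_univ).symm
      _ ≤ _ := card_le_card hsub
      _ ≤ B1.card + (B2.image Function.swap).card := card_union_le _ _
      _ ≤ B1.card + B2.card := by
          gcongr
          exact card_image_le
  have hcover' : (Fintype.card Ω : ℝ) ≤ B1.card + B2.card := by exact_mod_cast hcover
  have : (Fintype.card Ω : ℝ) ≤ (Fintype.card Γ * (2 * (Fintype.card R * n) + 1) ^ M *
      (1 - (1 / 2) ^ M) ^ n + Fintype.card R * (2 * (Fintype.card Γ * n) + 1) ^ M *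
      (1 - (1 / 2) ^ M) ^ n) * Fintype.card Ω := by
    calc (Fintype.card Ω : ℝ) ≤ B1.card + B2.card := hcover'
      _ ≤ _ := add_le_add b1 b2
      _ = _ := by
          ring
  nlinarith

end Pool.Agent.W_MP_5f6b2a_lc.Logic
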