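import Pool.Agent.W_MP_5f6b2a_lc.LExt

/-!
Invariance of bounded-variable infinitary logic under partial isomorphisms.
-/

namespace Pool.Agent.W_MP_5f6b2a_lc.Logic
namespace Src

open Finset

variable {t k K n : ℕ} {H : (Fin K × Fin n) → Leaf t k K n → Bool} {κ κ' : Bool}
  {R : Finset (Pt t k K n × Pt t k K n)} {N : ℕ}

/-- matching optional gates -/
def OM (R : Finset (Pt t k K n × Pt t k K n)) (a b : Option (Gate t k K n)) : Prop :=
  (a = none ∧ b = none) ∨ ∃ g g', a = some g ∧ b = some g' ∧ GM R g g'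

theorem GM.swap {g g' : Gate t k K n} (h : GM R g g') : GM (R.image Prod.swap) g' g :=
  ⟨h.1.symm, mem_image.2 ⟨_, h.2, rfl⟩⟩

theorem OM.swap {a b : Option (Gate t k K n)} (h : OM R a b) : OM (R.image Prod.swap) b a := by
  rcases h with ⟨h1, h2⟩ | ⟨g, g', h1, h2, h3⟩
  · exact Or.inl ⟨h2, h1⟩
  · exact Or.inr ⟨g', g, h2, h1, h3.swap⟩

theorem GM.mono {R' : Finset (Pt t k K n × Pt t k K n)} (hs : R ⊆ R') {g g' : Gate t k K n}
    (h : GM R g g') : GM R' g g' := ⟨h.1, hs h.2⟩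

theorem OM.mono {R' : Finset (Pt t k K n × Pt t k K n)} (hs : R ⊆ R')
    {a b : Option (Gate t k K n)} (h : OM R a b) : OM R' a b := by
  rcases h with h | ⟨g, g', h1, h2, h3⟩
  · exact Or.inl h
  · exact Or.inr ⟨g, g', h1, h2, h3.mono hs⟩

theorem OM.some_left {g : Gate t k K n} {b : Option (Gate t k K n)} (h : OM R (some g) b) :
    ∃ g', b = some g' ∧ GM R g g' := by
  rcases h with ⟨h1, -⟩ | ⟨g1, g', h1, h2, h3⟩
  · simp at h1
  · obtain rfl := Option.some.inj h1
    exact ⟨g', h2, h3⟩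

theorem PI.exists_gm (h : PI H κ κ' R) {g : Gate t k K n} {q : Pt t k K n}
    (hq : (g.pt, q) ∈ R) : ∃ g', GM R g g' := by
  rcases g with p | w
  · exact ⟨.base q, rfl, hq⟩
  · obtain ⟨w', rfl, -⟩ := h.w_image hq
    exact ⟨.neg w', rfl, hq⟩

theorem rel_inv (h : PI H κ κ' R) (r : CSym) (a b : Fin (cVoc.ar r) → Gate t k K n)
    (hab : ∀ i, GM R (a i) (b i)) (ha : (circ H κ).rel r a) : (circ H κ').rel r b := by
  rcases r with c | _ | _
  · have h1 : knd (a (0 : Fin 1)) = c := ha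
    show knd (b (0 : Fin 1)) = c
    rw [← h1]
    exact ((hab (0 : Fin 1)).knd_eq h).symm
  · have h1 : a (0 : Fin 1) = .base (.w root) := ha
    show b (0 : Fin 1) = .base (.w root)
    exact ((hab (0 : Fin 1)).out_iff h).1 h1
  · have h1 : wr H κ (a (0 : Fin 2)) (a (1 : Fin 2)) := ha
    show wr H κ' (b (0 : Fin 2)) (b (1 : Fin 2))
    exact (GM.wr_iff h (hab (0 : Fin 2)) (hab (1 : Fin 2))).1 h1

/-- the points of a partial assignment -/
noncomputable def pts {X : Type} (s : Finset X) (a : X → Option (Gate t k K n)) :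
    Finset (Pt t k K n) := s.biUnion fun x => ((a x).map Gate.pt).toFinset

theorem mem_pts {X : Type} {s : Finset X} {a : X → Option (Gate t k K n)} {x : X} (hx : x ∈ s)
    {g : Gate t k K n} (h : a x = some g) : g.pt ∈ pts s a := by
  refine mem_biUnion.2 ⟨x, hx, ?_⟩
  simp [h]

theorem card_pts_le {X : Type} (s : Finset X) (a : X → Option (Gate t k K n)) :
    (pts s a).card ≤ s.card := by
  unfold pts
  refine card_biUnion_le.trans ?_
  calc ∑ x ∈ s, ((a x).map Gate.pt).toFinset.card ≤ ∑ x ∈ s, 1 := by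
        refine sum_le_sum fun x _ => ?_
        rcases a x with _ | g <;> simp
    _ = s.card := by simp

theorem OM.res {X : Type} {s : Finset X} {a b : X → Option (Gate t k K n)}
    (h : ∀ x ∈ s, OM R (a x) (b x)) : ∀ x ∈ s, OM (Src.res R (pts s a)) (a x) (b x) := by
  intro x hx
  rcases h x hx with h | ⟨g, g', h1, h2, h3⟩
  · exact Or.inl h
  · refine Or.inr ⟨g, g', h1, h2, h3.1, mem_filter.2 ⟨h3.2, subset_cl _ (mem_pts hx h1)⟩⟩

theorem holds_inv (hG : Gen H N) {X : Type} [Fintype X] [DecidableEq X]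
    (hk : Fintype.card X ≤ k) (hN : Fintype.card X * (t + 2) + 1 ≤ N) (φ : Fml cVoc X) :
    ∀ (κ κ' : Bool) (R : Finset (Pt t k K n × Pt t k K n)) (a b : X → Option (Gate t k K n)),
      PI H κ κ' R → (∀ x, OM R (a x) (b x)) → φ.Holds (circ H κ) a → φ.Holds (circ H κ') b := by
  induction φ with
  | eq x y =>
    rintro κ κ' R a b hR hab ⟨g, h1, h2⟩
    obtain ⟨g1, h3, h4⟩ := (h1 ▸ hab x).some_left
    obtain ⟨g2, h5, h6⟩ := (h2 ▸ hab y).some_left
    have : g1 = g2 := (GM.eq_iff hR h4 h6).1 rfl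
    exact ⟨g1, h3, by rw [h5, this]⟩
  | rel r x =>
    rintro κ κ' R a b hR hab ⟨g, h1, h2⟩
    have h3 : ∀ i, ∃ g', b (x i) = some g' ∧ GM R (g i) g' := fun i =>
      (h1 i ▸ hab (x i)).some_left
    choose g' h4 h5 using h3
    exact ⟨g', h4, rel_inv hR r g g' h5 h2⟩
  | neg φ ih =>
    intro κ κ' R a b hR hab hn hb
    exact hn (ih κ' κ _ b a hR.symm (fun x => (hab x).swap) hb)
  | conj φ ih =>
    intro κ κ' R a b hR hab hall i
    exact ih i κ κ' R a b hR hab (hall i)
  | ex x φ ih =>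
    rintro κ κ' R a b hR hab ⟨g, hg⟩
    have hcx : (univ.erase x).card + 1 = Fintype.card X := by
      rw [card_erase_of_mem (mem_univ _), card_univ]
      have : 0 < Fintype.card X := Fintype.card_pos_iff.2 ⟨x⟩
      omega
    have hR0 := hR.res (pts (univ.erase x) a)
    have hc := hR.card_res_le (pts (univ.erase x) a)
    have hv := hR.vc_res_le (pts (univ.erase x) a)
    have hp := card_pts_le (univ.erase x) a
    have h1 : (pts (univ.erase x) a).card * (t + 2) ≤ (univ.erase x).card * (t + 2) :=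
      Nat.mul_le_mul_right _ hp
    have h2 : Fintype.card X * (t + 2) = (univ.erase x).card * (t + 2) + (t + 2) := by
      rw [← hcx]; ring
    obtain ⟨R1, h3, h4, ⟨q, h5⟩, -, -, -⟩ := hR0.extend hG ∅ (by simp) (by omega) (by omega) g.pt
    obtain ⟨g', hg'⟩ := h4.exists_gm h5
    refine ⟨g', ih κ κ' R1 _ _ h4 (fun y => ?_) hg⟩
    by_cases hy : y = x
    · subst hy
      rw [Function.update_self, Function.update_self]
      exact Or.inr ⟨g, g', rfl, rfl, hg'⟩
    · rw [Function.update_of_ne hy, Function.update_of_ne hy]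
      exact (OM.res (s := univ.erase x) (fun z _ => hab z) y (mem_erase.2 ⟨hy, mem_univ _⟩)).mono h3

theorem holds_iff (hG : Gen H N) {X : Type} [Fintype X] [DecidableEq X]
    (hk : Fintype.card X ≤ k) (hN : Fintype.card X * (t + 2) + 1 ≤ N) (φ : Fml cVoc X)
    {a b : X → Option (Gate t k K n)} (hR : PI H κ κ' R) (hab : ∀ x, OM R (a x) (b x)) :
    φ.Holds (circ H κ) a ↔ φ.Holds (circ H κ') b :=
  ⟨holds_inv hG hk hN φ κ κ' R a b hR hab,
    holds_inv hG hk hN φ κ' κ _ b a hR.symm fun x => (hab x).swap⟩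

end Src
end Pool.Agent.W_MP_5f6b2a_lc.Logic
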