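import Pool.Agent.W_MP_5f6b2a_lc.LSource

/-!
Strictness of the W-hierarchy under slicewise bounded-variable infinitary reductions.
-/

namespace Pool.Agent.W_MP_5f6b2a_lc.Logic

open Finset Src

/-- `p-WSAT(C_{t+2,2t+2})` is not reducible to `p-WSAT(C_{s,d})` if `s ≤ t + 1`. -/
theorem not_reducible (t s d : ℕ) (hs : s ≤ t + 1) :
    ¬ Reducible (pWSAT (t + 2) (2 * t + 2)) (pWSAT s d) := by
  classical
  rintro ⟨m, c, g, h⟩
  let k := m * (t + 8) + c + 1
  obtain ⟨I, κ, hκ1, hκ2, hκ3⟩ := h k
  let N := ((k + 1) * (t + 2) + k * (t + 1) + 1) + (k + 1 + (g k + 1 + d) * (m * (t + 1))) + k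
  let K := 2 * N + 1
  have : Fintype {w : List (Stp K) // w.length = t + 1} := Fintype.ofFinite _
  obtain ⟨n, H, ha, hb⟩ := exists_generic (Fin K) (LG t K × (Fin k → Bool)) N
  have hG : Gen (H : (Fin K × Fin n) → Leaf t k K n → Bool) N := by
    refine ⟨?_, ?_, by omega⟩
    · intro F hF σ γ
      exact ha F hF σ γ
    · intro F hF σ r
      exact hb F hF σ r
  have hk : 0 < k := by omega
  have hB : Bnd t k m c N := ⟨le_rfl, by omega⟩
  have hX : Fintype.card (Fin c) ≤ k := by
    rw [Fintype.card_fin]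
    omega
  have hXN : Fintype.card (Fin c) * (t + 2) + 1 ≤ N := by
    rw [Fintype.card_fin]
    rw [Fintype.card_fin] at hX
    exact hB.sizeN hX
  obtain ⟨ψ, hψ⟩ := hκ2 (κ (circ H false))
  have h1 : ψ.Holds (circ H false) fun _ => none := (hψ _ _).1 rfl
  have h2 : ψ.Holds (circ H true) fun _ => none :=
    (holds_iff hG hX hXN ψ (pi_root H false true) (fun _ => Or.inl ⟨rfl, rfl⟩)).1 h1
  have h3 : κ (circ H true) = κ (circ H false) := (hψ _ _).2 h2
  have hg := hκ1 _ (circ H false)
  have h4 : (pWSAT (t + 2) (2 * t + 2)).Q (circ H false) k :=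
    ⟨inClass hG (by omega), wsat_false hG hk⟩
  have h5 : Circ.InClass (I.target (circ H false)) s d ∧
      Circ.WSat (I.target (circ H false)) (κ (circ H false)) := (hκ3 _ _).1 h4
  have h6 : (κ (circ H false) + 1 + d) * (m * (t + 1)) ≤ (g k + 1 + d) * (m * (t + 1)) :=
    Nat.mul_le_mul_right _ (by omega)
  have h7 := transfer hG hB hs (k' := κ (circ H false)) (by omega) h5.1 h5.2
  rw [← h3] at h7
  have h8 : (pWSAT (t + 2) (2 * t + 2)).Q (circ H true) k := (hκ3 _ _).2 h7
  exact not_wsat_true hG hk (by omega) h8.2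

/-- every problem is reducible to itself -/
theorem Reducible.refl (P : Problem) : Reducible P P := by
  refine ⟨1, 0, id, fun k => ?_⟩
  let I : Interp P.L P.L 1 0 :=
    { Z := Unit
      fin := inferInstance
      dom := fun _ => .eq (Sum.inl 0) (Sum.inl 0)
      rel := fun r _ => .rel r fun i => Sum.inl (i, 0) }
  refine ⟨I, fun _ => k, fun _ _ _ => le_rfl, fun j => ?_, fun A _ S => ?_⟩
  · by_cases hj : k = j
    · exact ⟨.conj (ι := Empty) Empty.elim, fun A _ S =>
        ⟨fun _ i => i.elim, fun _ => hj⟩⟩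
    · exact ⟨.neg (.conj (ι := Empty) Empty.elim), fun A _ S =>
        ⟨fun h => absurd h hj, fun h => absurd (fun i : Empty => i.elim) h⟩⟩
  · have hdom : ∀ p : Unit × (Fin 1 → Option A), (I.dom p.1).Holds S
        (Sum.elim p.2 fun _ => none) ↔ ∃ a, p.2 0 = some a := by
      intro p
      constructor
      · rintro ⟨a, ha, -⟩
        exact ⟨a, ha⟩
      · rintro ⟨a, ha⟩
        exact ⟨a, ha, ha⟩
    let e : A ≃ I.Univ S :=
      { toFun := fun a => ⟨((), fun _ => some a), (hdom _).2 ⟨a, rfl⟩⟩
        invFun := fun p => ((hdom p.1).1 p.2).choose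
        left_inv := by
          intro a
          have h := ((hdom ((), fun _ => some a)).1 ((hdom _).2 ⟨a, rfl⟩)).choose_spec
          exact (Option.some.inj h).symm
        right_inv := by
          intro p
          have h := ((hdom p.1).1 p.2).choose_spec
          apply Subtype.ext
          refine Prod.ext rfl ?_
          funext j
          have hj : j = 0 := Subsingleton.elim _ _
          subst hj
          exact h.symm }
    have hS : I.target S = S.map e := by
      unfold Interp.target Str.map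
      congr 1
      funext r p
      apply propext
      have hp : ∀ i, (p i).1.2 0 = some (e.symm (p i)) := fun i =>
        ((hdom (p i).1).1 (p i).2).choose_spec
      constructor
      · rintro ⟨a, ha, hr⟩
        have : a = fun i => e.symm (p i) := by
          funext i
          have h1 : (p i).1.2 0 = some (a i) := ha i
          rw [hp i] at h1
          exact (Option.some.inj h1).symm
        rw [← this]
        exact hr
      · intro hr
        exact ⟨fun i => e.symm (p i), hp, hr⟩
    rw [hS]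
    exact (P.iso e S k).symm

theorem pWSAT_mem_W (t d : ℕ) (hd : 1 ≤ d) : pWSAT t d ∈ W t :=
  ⟨t, le_rfl, d, hd, Reducible.refl _⟩

theorem W_mono {s t : ℕ} (h : s ≤ t) : W s ⊆ W t := by
  rintro P ⟨s', hs', d, hd, hr⟩
  exact ⟨s', hs'.trans h, d, hd, hr⟩

/-- The W-hierarchy is strict for these reductions. -/
theorem W_strict (t : ℕ) (ht : 1 ≤ t) :
    W t ⊂ W (t + 1) ∧ ∀ s ≤ t, ∀ d, ¬ Reducible (pWSAT (t + 1) (2 * t)) (pWSAT s d) := by
  obtain ⟨t, rfl⟩ : ∃ t', t = t' + 1 := ⟨t - 1, by omega⟩
  refine ⟨⟨W_mono (Nat.le_succ _), fun h => ?_⟩, fun s hs d =>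
    not_reducible t s d hs⟩
  obtain ⟨s, hs, d, -, hr⟩ := h (pWSAT_mem_W (t + 1 + 1) (2 * t + 2) (by omega))
  exact not_reducible t s d hs hr

end Pool.Agent.W_MP_5f6b2a_lc.Logic
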