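import Pool.Agent.W_MP_5f6b2a_lc.LDefs
import Pool.Agent.W_MP_5f6b2a_lc.CProb

/-!
The W-hierarchy for the reductions `Reducible`.
-/

namespace Pool.Agent.W_MP_5f6b2a_lc.Logic

/-- The analogue of `W[t]` for the reductions `Reducible`: the closure of the problems
`p-WSAT(C_{s,d})`, `s ≤ t`, `d ≥ 1`. -/
def W (t : ℕ) : Set Problem := {P | ∃ s ≤ t, ∃ d, 1 ≤ d ∧ Reducible P (pWSAT s d)}

end Pool.Agent.W_MP_5f6b2a_lc.Logic
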