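import Pool.Agent.W_MP_5f6b2a_lc.LEval

/-!
The circuits `circ H κ` are correct, their weft and depth, and their weighted satisfiability.
-/

namespace Pool.Agent.W_MP_5f6b2a_lc.Logic

namespace Circ

theorem chain_count {G : Type} {r : G → G → Prop} {P : G → Bool} {ρ : G → ℕ}
    (h : ∀ g g', r g g' → ρ g + (if P g' then 1 else 0) ≤ ρ g') (c : ℕ) (p : List G) :
    p.IsChain r → (∀ g, p.head? = some g → (if P g then 1 else 0) ≤ ρ g + c) →
    ∀ e, p.getLast? = some e → (p.filter P).length ≤ ρ e + c := by
  induction p using List.reverseRecOn with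
  | nil => intro _ _ e he; simp at he
  | append_singleton p x ih =>
    intro hch hh e he
    simp only [List.getLast?_append, List.getLast?_singleton, Option.some_or,
      Option.some.injEq] at he
    subst he
    rw [List.isChain_append] at hch
    rw [List.filter_append, List.length_append]
    have hx : ([x].filter P).length = if P x then 1 else 0 := by
      by_cases hP : P x <;> simp [hP]
    rw [hx]
    rcases hp : p.getLast? with _ | y
    · rw [List.getLast?_eq_none_iff] at hp
      subst hp
      simpa using hh x (by simp)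
    · have h1 := ih hch.1 (by
        intro g hg
        exact hh g (by rw [List.head?_append, hg]; rfl)) y hp
      have h2 := h y x (hch.2.2 y hp x (by simp))
      omega

theorem valuation_unique {G : Type} {C : Str cVoc G} (hc : Correct C) {v v' : G → Bool}
    (hv : IsValuation C v) (hv' : IsValuation C v')
    (hi : ∀ g, IsKind C Kind.input g → v g = v' g) (g : G) : v g = v' g := by
  induction g using hc.2.2.1.induction with
  | _ g ih =>
    by_cases hg : IsKind C Kind.input g
    · exact hi g hg
    · exact val_step hc hv hv' (fun κ => Iff.rfl) hg (fun h hh => ⟨h, hh, ih h hh⟩)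
        fun h hh => ⟨h, hh, ih h hh⟩

end Circ

namespace Src

open Finset

variable {t k K n : ℕ} {H : (Fin K × Fin n) → Leaf t k K n → Bool} {κ : Bool} {N : ℕ}

theorem circ_kind (c : Kind) (g : Gate t k K n) :
    Circ.IsKind (circ H κ) c g ↔ knd g = c := Iff.rfl

theorem circ_out (g : Gate t k K n) :
    Circ.IsOut (circ H κ) g ↔ g = .base (.w root) := Iff.rfl

theorem circ_wire (g h : Gate t k K n) :
    Circ.Wire (circ H κ) g h ↔ wr H κ g h := Iff.rfl

/-- rank -/
def rk : Gate t k K n → ℕ
  | .base (.v _) => 0
  | .base (.l _) => 1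
  | .base (.w w) => 2 + 2 * (t - w.1.length)
  | .neg w => 3 + 2 * (t - w.1.length)

/-- rank counting only AND and OR gates -/
def lr : Gate t k K n → ℕ
  | .base (.v _) => 0
  | .base (.l _) => 1
  | .base (.w w) => 2 + (t - w.1.length)
  | .neg w => 2 + (t - w.1.length)

/-- AND and OR gates -/
def big : Gate t k K n → Bool
  | .base (.v _) => false
  | .base (.l _) => true
  | .base (.w _) => true
  | .neg _ => false

theorem ne_root {w : Node t K} : w ≠ root ↔ w.1 ≠ [] := by
  rw [ne_eq, Subtype.ext_iff]
  rfl

theorem par_w_eq {w w' : Node t K} (h : par (.w w' : Pt t k K n) = .w w) : w.1 = w'.1.tail := by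
  simp only [par, Pt.w.injEq] at h
  rw [← h]

theorem par_l_eq {l : Leaf t k K n} {w : Node t K} (h : par (.l l : Pt t k K n) = .w w) :
    w.1 = [] ∨ ∃ w' : {w : List (Stp K) // w.length = t + 1}, l.1.1 = .inr w' ∧
      w.1 = w'.1.tail := by
  rcases l with ⟨⟨i | w', τ⟩, y⟩
  · left
    simp only [par, Pt.w.injEq] at h
    rw [← h]
    rfl
  · right
    simp only [par, Pt.w.injEq] at h
    exact ⟨w', rfl, by rw [← h]⟩

theorem rk_lt {g h : Gate t k K n} (hw : wr H κ g h) : rk g + 1 ≤ rk h := by
  rcases g with ((a | w | l) | w) <;> rcases h with ((b | u | m) | u) <;>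
    simp only [wr] at hw <;> simp only [rk]
  · omega
  · subst hw
    omega
  · omega
  · obtain ⟨h1, h2⟩ := hw
    rw [ne_root] at h1
    have h3 := par_w_eq h2
    have h4 : 0 < w.1.length := List.length_pos_iff.2 h1
    have h5 : u.1.length = w.1.length - 1 := by rw [h3, List.length_tail]
    have := w.2
    omega

theorem lr_le {g h : Gate t k K n} (hw : wr H κ g h) :
    lr g + (if big h then 1 else 0) ≤ lr h := by
  rcases g with ((a | w | l) | w) <;> rcases h with ((b | u | m) | u) <;>
    simp only [wr] at hw <;> simp only [lr, big]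
  · simp
  · subst hw
    simp
  · simp
  · obtain ⟨h1, h2⟩ := hw
    rw [ne_root] at h1
    have h3 := par_w_eq h2
    have h4 : 0 < w.1.length := List.length_pos_iff.2 h1
    have h5 : u.1.length = w.1.length - 1 := by rw [h3, List.length_tail]
    have := w.2
    simp
    omega

theorem wf_wire : WellFounded (Circ.Wire (circ H κ)) := by
  refine Subrelation.wf (r := InvImage (· < ·) rk) ?_ (InvImage.wf _ wellFounded_lt)
  intro g h hw
  have := rk_lt ((circ_wire g h).1 hw)
  change rk g < rk h
  omega

theorem n_pos (hG : Gen H N) : 0 < n := by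
  have hK := hG.hK
  obtain ⟨y, -⟩ := hG.ha ∅ (by simp) (fun _ => true) (.inl ⟨0, by omega⟩, fun _ => true)
  exact y.pos

theorem K_pos (hG : Gen H N) : 0 < K := by
  have := hG.hK
  omega

/-- inner nodes have children of every flavour -/
theorem exists_child (hG : Gen H N) (w : Node t K) (b : Bool) :
    ∃ x : Stp K, x.1 = b ∧ ((∃ h : (x :: w.1).length ≤ t,
      wr H κ (.neg ⟨x :: w.1, h⟩) (.base (.w w))) ∨
      ∃ h : (x :: w.1).length = t + 1, ∀ τ y,
        wr H κ (.base (.l ((.inr ⟨x :: w.1, h⟩, τ), y))) (.base (.w w))) := by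
  have hK := K_pos hG
  refine ⟨(b, ⟨0, hK⟩), rfl, ?_⟩
  by_cases h : (((b, ⟨0, hK⟩) : Stp K) :: w.1).length ≤ t
  · left
    refine ⟨h, ?_, ?_⟩
    · rw [ne_root]
      simp
    · simp [par]
  · right
    have h1 := w.2
    simp only [List.length_cons] at h
    refine ⟨by simp only [List.length_cons]; omega, fun τ y => ?_⟩
    simp [wr, par]

theorem correct (hG : Gen H N) (hN : 1 ≤ N) : Circ.Correct (circ H κ) := by
  refine ⟨fun g => ⟨knd g, rfl, fun c hc => hc.symm⟩, ⟨.base (.w root), rfl, fun g hg => hg⟩,
    wf_wire, fun g hg => ?_, fun g hg => ?_, fun g hg => ?_⟩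
  · rw [circ_kind] at hg
    unfold Circ.fanIn
    rw [Set.ncard_eq_zero]
    ext h
    simp only [Set.mem_ofPred_eq, circ_wire, Set.mem_empty_iff_false, iff_false]
    rcases g with ((b | u | m) | u) <;> simp only [knd, reduceCtorEq] at hg
    rcases h with ((a | w | l) | w) <;> simp [wr]
  · rw [circ_kind] at hg
    unfold Circ.fanIn
    rcases g with ((b | u | m) | u) <;> simp only [knd, reduceCtorEq] at hg
    rw [Set.ncard_eq_one]
    refine ⟨.base (.w u), ?_⟩
    ext h
    simp only [Set.mem_ofPred_eq, circ_wire, Set.mem_singleton_iff]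
    rcases h with ((a | w | l) | w) <;> simp [wr]
  · simp only [circ_kind] at hg
    unfold Circ.fanIn
    have h1 : ∃ h, wr H κ h g := by
      rcases g with ((b | u | m) | u) <;> simp only [knd, reduceCtorEq, or_self] at hg
      · obtain ⟨x, -, ⟨h, h2⟩ | ⟨h, h2⟩⟩ := exists_child (κ := κ) hG u true
        · exact ⟨_, h2⟩
        · exact ⟨_, h2 (fun _ => true) ⟨0, n_pos hG⟩⟩
      · obtain ⟨x, hx⟩ := hG.hb {m} (by simpa using hN) (fun _ => true) ⟨0, K_pos hG⟩
        exact ⟨.base (.v (.inr (_, x))), hx m (by simp)⟩
    obtain ⟨h, hh⟩ := h1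
    exact (Set.ncard_pos (Set.toFinite _)).2 ⟨h, hh⟩

theorem inClass (hG : Gen H N) (hN : 1 ≤ N) :
    Circ.InClass (circ H κ) (t + 2) (2 * t + 2) := by
  classical
  refine ⟨correct hG hN, fun p hp => ?_⟩
  obtain ⟨h1, ⟨g, h2, h3⟩, e, h4, h5⟩ := hp
  rw [circ_out] at h5
  subst h5
  constructor
  · have := Circ.chain_count (P := fun _ => true) (ρ := rk) (r := Circ.Wire (circ H κ))
      (fun g g' hw => by simpa using rk_lt ((circ_wire g g').1 hw)) 1 p h1 (by simp) _ h4
    simp only [List.filter_true, rk, root, List.length_nil] at this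
    omega
  · have h6 := Circ.chain_count (P := big) (ρ := lr) (r := Circ.Wire (circ H κ))
      (fun g g' hw => lr_le ((circ_wire g g').1 hw)) 0 p h1 (by
        intro g' hg'
        rw [h2] at hg'
        simp only [Option.some.injEq] at hg'
        subst hg'
        rw [circ_kind] at h3
        rcases g with ((b | u | m) | u) <;> simp only [knd, reduceCtorEq] at h3
        simp [big]) _ h4
    simp only [lr, root, List.length_nil] at h6
    have h7 : (p.filter fun g => decide (Circ.Large (circ H κ) g)).length
        ≤ (p.filter big).length := by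
      rw [← List.countP_eq_length_filter, ← List.countP_eq_length_filter]
      refine List.countP_mono_left fun g _ hg => ?_
      have hg := of_decide_eq_true hg
      have hg1 := hg.1
      simp only [circ_kind] at hg1
      rcases g with ((b | u | m) | u) <;> simp only [knd, reduceCtorEq, or_self] at hg1 <;> rfl
    omega

/-- the values of the gates when exactly the inputs `inl d` are true -/
def val (κ : Bool) : Gate t k K n → Bool
  | .base (.v (.inl _)) => true
  | .base (.v (.inr _)) => false
  | .base (.l l) => lab κ l.1.1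
  | .base (.w w) => !kd κ w.1
  | .neg w => kd κ w.1

theorem kd_cons_true {w : List (Stp K)} (x : Stp K) (h : kd κ w = false) :
    kd κ (x :: w) = true := by
  simp [kd, h]

theorem kd_cons_false {w : List (Stp K)} (x : Stp K) (hx : x.1 = false) (h : kd κ w = true) :
    kd κ (x :: w) = false := by
  simp [kd, h, hx]

theorem val_isValuation (hG : Gen H N) (hk : 0 < k) :
    Circ.IsValuation (circ H κ) (val κ : Gate t k K n → Bool) := by
  refine ⟨fun g hg => ?_, fun g hg => ?_, fun g hg => ?_⟩
  · rw [circ_kind] at hg
    rcases g with ((b | u | m) | u) <;> simp only [knd, reduceCtorEq] at hg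
    constructor
    · intro h
      refine ⟨.base (.w u), ?_, ?_⟩
      · rw [circ_wire]
        rfl
      · simpa [val] using h
    · rintro ⟨h, h1, h2⟩
      rw [circ_wire] at h1
      rcases h with ((a | w | l) | w) <;> simp only [wr] at h1
      subst h1
      simpa [val] using h2
  · rw [circ_kind] at hg
    rcases g with ((b | u | m) | u) <;> simp only [knd, reduceCtorEq] at hg
    constructor
    · intro h h' hw
      rw [circ_wire] at hw
      have hu : kd κ u.1 = false := by simpa [val] using h
      rcases h' with ((a | w | l) | w) <;> simp only [wr] at hw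
      · rcases l with ⟨⟨i | w', τ⟩, y⟩
        · rfl
        · simp only [par, Pt.w.injEq] at hw
          have h1 : u.1 = w'.1.tail := by rw [← hw]
          have h2 := w'.2
          obtain ⟨x, w0, hxw⟩ : ∃ x w0, w'.1 = x :: w0 := by
            rcases hh : w'.1 with _ | ⟨x, w0⟩
            · rw [hh] at h2
              simp at h2
            · exact ⟨x, w0, rfl⟩
          simp only [val, lab]
          rw [hxw] at h1 ⊢
          rw [List.tail_cons] at h1
          rw [h1] at hu
          exact kd_cons_true x hu
      · obtain ⟨hw1, hw2⟩ := hw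
        rw [ne_root] at hw1
        have h1 := par_w_eq hw2
        obtain ⟨x, w0, hxw⟩ := List.exists_cons_of_ne_nil hw1
        simp only [val]
        rw [hxw] at h1 ⊢
        rw [List.tail_cons] at h1
        rw [h1] at hu
        exact kd_cons_true x hu
    · intro hall
      by_contra hne
      have hu : kd κ u.1 = true := by simpa [val] using hne
      obtain ⟨x, hx, ⟨h, h2⟩ | ⟨h, h2⟩⟩ := exists_child (κ := κ) hG u false
      · have := hall (.neg ⟨x :: u.1, h⟩) h2
        simp only [val] at this
        rw [kd_cons_false x hx hu] at this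
        simp at this
      · have := hall (.base (.l ((.inr ⟨x :: u.1, h⟩, fun _ => true), ⟨0, n_pos hG⟩)))
          (h2 (fun _ => true) ⟨0, n_pos hG⟩)
        simp only [val, lab] at this
        rw [kd_cons_false x hx hu] at this
        simp at this
  · rw [circ_kind] at hg
    rcases g with ((b | u | m) | u) <;> simp only [knd, reduceCtorEq] at hg
    constructor
    · intro h
      have hl : lab κ m.1.1 = true := h
      obtain ⟨d, hd⟩ := exists_adj (H := H) hk hl
      exact ⟨.base (.v (.inl d)), hd, rfl⟩
    · rintro ⟨h, h1, h2⟩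
      rw [circ_wire] at h1
      rcases h with ((a | w | l) | w) <;> simp only [wr] at h1
      rcases a with d | u
      · simp only [adj, Bool.and_eq_true] at h1
        exact h1.1
      · simp [val] at h2

theorem wsat_false (hG : Gen H N) (hk : 0 < k) : Circ.WSat (circ H false) k := by
  refine ⟨val false, val_isValuation hG hk, fun g hg => ?_, ?_⟩
  · rw [circ_out] at hg
    subst hg
    simp [val, root, kd]
  · have h1 : {g : Gate t k K n | Circ.IsKind (circ H false) Kind.input g ∧ val false g = true}
        = (fun d : Fin k => (.base (.v (.inl d)) : Gate t k K n)) '' Set.univ := by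
      ext g
      simp only [Set.mem_ofPred_eq, circ_kind, Set.image_univ, Set.mem_range]
      constructor
      · rintro ⟨h1, h2⟩
        rcases g with ((b | u | m) | u) <;> simp only [knd, reduceCtorEq] at h1
        rcases b with d | u
        · exact ⟨d, rfl⟩
        · simp [val] at h2
      · rintro ⟨d, rfl⟩
        exact ⟨rfl, rfl⟩
    rw [h1, Set.ncard_image_of_injective, Set.ncard_univ, Nat.card_eq_fintype_card,
      Fintype.card_fin]
    intro d d' h
    simpa using h

theorem not_wsat_true (hG : Gen H N) (hk : 0 < k) (hkN : k ≤ N) :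
    ¬ Circ.WSat (circ H true) k := by
  classical
  rintro ⟨v, hv, hout, hcard⟩
  have hroot : v (.base (.w root)) = true := hout _ rfl
  have hchild := (hv.2.1 (.base (.w root)) rfl).1 hroot
  set T : Set (Gate t k K n) :=
    {g | Circ.IsKind (circ H true) Kind.input g ∧ v g = true} with hT
  have hTf : T.Finite := Set.toFinite _
  -- all the special inputs are true
  have h1 : ∀ d : Fin k, v (.base (.v (.inl d))) = true := by
    intro d
    by_contra hd
    let F : Finset (Fin K × Fin n) := univ.filter fun u =>
      (.base (.v (.inr u)) : Gate t k K n) ∈ T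
    have hF : F.card ≤ N := by
      refine le_trans ?_ hkN
      rw [← hcard, Set.ncard_eq_toFinset_card _ hTf]
      refine card_le_card_of_injOn (fun u => (.base (.v (.inr u)) : Gate t k K n)) ?_ ?_
      · intro u hu
        exact (Set.Finite.mem_toFinset hTf).2 (mem_filter.1 hu).2
      · intro a _ b _ h
        simpa using h
    obtain ⟨y, hy⟩ := hG.ha F hF (fun _ => false) (.inl ⟨0, K_pos hG⟩, fun d' => decide (d' = d))
    have h2 := hchild (.base (.l ((.inl ⟨0, K_pos hG⟩, fun d' => decide (d' = d)), y))) rfl
    obtain ⟨h, h3, h4⟩ := (hv.2.2 (.base (.l ((.inl ⟨0, K_pos hG⟩,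
      fun d' => decide (d' = d)), y))) rfl).1 h2
    rw [circ_wire] at h3
    rcases h with ((a | w | l) | w) <;> simp only [wr] at h3
    rcases a with d' | u
    · simp only [adj, Bool.and_eq_true, Bool.or_eq_true, decide_eq_true_eq,
        decide_eq_false_iff_not] at h3
      rcases h3.2 with h5 | h5
      · subst h5
        exact hd h4
      · exact h5 d rfl
    · have hu : u ∈ F := mem_filter.2 ⟨mem_univ _, rfl, h4⟩
      have := hy u hu
      simp only [adj] at h3
      rw [this] at h3
      simp at h3
  -- and no other input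
  have h2 : T = Set.range fun d : Fin k => (.base (.v (.inl d)) : Gate t k K n) := by
    symm
    refine Set.eq_of_subset_of_ncard_le ?_ ?_ hTf
    · rintro _ ⟨d, rfl⟩
      exact ⟨rfl, h1 d⟩
    · rw [hcard, ← Set.image_univ, Set.ncard_image_of_injective, Set.ncard_univ,
        Nat.card_eq_fintype_card, Fintype.card_fin]
      intro d d' h
      simpa using h
  have h3 := Circ.valuation_unique (correct hG (by omega)) hv (val_isValuation hG hk) (by
    intro g hg
    have hg' := hg
    rw [circ_kind] at hg
    rcases g with ((b | u | m) | u) <;> simp only [knd, reduceCtorEq] at hg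
    rcases b with d | u
    · rw [h1 d]
      rfl
    · have : v (.base (.v (.inr u))) ≠ true := by
        intro h4
        have h5 : (.base (.v (.inr u)) : Gate t k K n) ∈ T := ⟨hg', h4⟩
        rw [h2] at h5
        obtain ⟨d, hd⟩ := h5
        simp at hd
      simp only [val]
      simpa using this) (.base (.w root))
  rw [hroot] at h3
  simp [val, root, kd] at h3

end Src
end Pool.Agent.W_MP_5f6b2a_lc.Logic
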