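import Pool.Agent.W_MP_5f6b2a_lc.LMirror
import Pool.Agent.W_MP_5f6b2a_lc.LGen

/-!
The circuits used for the lower bound and their partial isomorphisms.
-/

namespace Pool.Agent.W_MP_5f6b2a_lc.Logic
namespace Src

open Finset

/-- one step in the tree -/
abbrev Stp (K : ℕ) := Bool × Fin K

/-- inner nodes of the tree: paths (last step first) of length at most `t` -/
abbrev Node (t K : ℕ) := {w : List (Stp K) // w.length ≤ t}

/-- groups of leaves: extra groups at the root, and the paths of length `t + 1` -/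
abbrev LG (t K : ℕ) := Fin K ⊕ {w : List (Stp K) // w.length = t + 1}

/-- inputs -/
abbrev Inp (k K n : ℕ) := Fin k ⊕ (Fin K × Fin n)

/-- leaves -/
abbrev Leaf (t k K n : ℕ) := (LG t K × (Fin k → Bool)) × Fin n

/-- points -/
inductive Pt (t k K n : ℕ)
  | v (a : Inp k K n)
  | w (w : Node t K)
  | l (l : Leaf t k K n)

/-- gates -/
inductive Gate (t k K n : ℕ)
  | base (p : Pt t k K n)
  | neg (w : Node t K)

variable {t k K n : ℕ}

noncomputable instance : DecidableEq (Pt t k K n) := Classical.decEq _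

instance : Finite (Node t K) := List.finite_length_le (Stp K) t

instance : Finite {w : List (Stp K) // w.length = t + 1} := List.finite_length_eq (Stp K) (t + 1)

instance : Finite (Pt t k K n) :=
  Finite.of_injective
    (fun p => match p with
      | .v a => (Sum.inl a : Inp k K n ⊕ (Node t K ⊕ Leaf t k K n))
      | .w w => Sum.inr (Sum.inl w)
      | .l l => Sum.inr (Sum.inr l))
    (by intro a b h; cases a <;> cases b <;> simp_all)

instance : Finite (Gate t k K n) :=
  Finite.of_injective
    (fun p => match p with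
      | .base a => (Sum.inl a : Pt t k K n ⊕ Node t K)
      | .neg w => Sum.inr w)
    (by intro a b h; cases a <;> cases b <;> simp_all)

/-- the kind (value) of the nodes, given the kind of the root -/
def kd (κ : Bool) : List (Stp K) → Bool
  | [] => κ
  | x :: w => x.1 || !kd κ w

/-- the label of the leaves of a group -/
def lab (κ : Bool) : LG t K → Bool
  | .inl _ => true
  | .inr w => kd κ w.1

/-- adjacency of inputs and leaves -/
def adj (H : (Fin K × Fin n) → Leaf t k K n → Bool) (κ : Bool) : Inp k K n → Leaf t k K n → Bool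
  | .inl d, l => lab κ l.1.1 && (l.1.2 d || decide (∀ d', l.1.2 d' = false))
  | .inr u, l => H u l

/-- the root -/
def root : Node t K := ⟨[], Nat.zero_le _⟩

/-- the parent -/
def par : Pt t k K n → Pt t k K n
  | .v _ => .w root
  | .w w => .w ⟨w.1.tail, by have := w.2; simp only [List.length_tail]; omega⟩
  | .l l => match l.1.1 with
    | .inl _ => .w root
    | .inr w => .w ⟨w.1.tail, by have := w.2; simp only [List.length_tail]; omega⟩

/-- the sort -/
def sort : Pt t k K n → ℕ
  | .v _ => 0
  | .w w => 3 + w.1.length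
  | .l l => match l.1.1 with
    | .inl _ => 1
    | .inr _ => 2

/-- the point below a gate -/
def Gate.pt : Gate t k K n → Pt t k K n
  | .base p => p
  | .neg w => .w w

/-- the flag of a gate -/
def Gate.fl : Gate t k K n → Bool
  | .base _ => false
  | .neg _ => true

/-- kinds of the gates -/
def knd : Gate t k K n → Kind
  | .base (.v _) => .input
  | .base (.w _) => .conj
  | .base (.l _) => .disj
  | .neg _ => .neg

/-- wires -/
def wr (H : (Fin K × Fin n) → Leaf t k K n → Bool) (κ : Bool) :
    Gate t k K n → Gate t k K n → Prop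
  | .base (.v a), .base (.l l) => adj H κ a l = true
  | .base (.l l), .base (.w w) => par (.l l : Pt t k K n) = .w w
  | .neg w', .base (.w w) => w' ≠ root ∧ par (.w w' : Pt t k K n) = .w w
  | .base (.w w'), .neg w => w' = w
  | _, _ => False

/-- The circuit. -/
def circ (H : (Fin K × Fin n) → Leaf t k K n → Bool) (κ : Bool) : Str cVoc (Gate t k K n) :=
  ⟨fun r => match r with
    | .kind c => fun x => knd (x (0 : Fin 1)) = c
    | .out => fun x => x (0 : Fin 1) = .base (.w root)
    | .wire => fun x => wr H κ (x (0 : Fin 2)) (x (1 : Fin 2))⟩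

/-- Partial isomorphisms between the structures with root kinds `κ` and `κ'`. -/
structure PI (H : (Fin K × Fin n) → Leaf t k K n → Bool) (κ κ' : Bool)
    (R : Finset (Pt t k K n × Pt t k K n)) : Prop where
  rt : (.w root, .w root) ∈ R
  st : ∀ p ∈ R, sort p.1 = sort p.2
  pr : ∀ p ∈ R, (par p.1, par p.2) ∈ R
  ij : ∀ p ∈ R, ∀ q ∈ R, (p.1 = q.1 ↔ p.2 = q.2)
  aj : ∀ a b l l', (.v a, .v b) ∈ R → (.l l, .l l') ∈ R → adj H κ a l = adj H κ' b l'

variable {H : (Fin K × Fin n) → Leaf t k K n → Bool} {κ κ' : Bool}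
  {R : Finset (Pt t k K n × Pt t k K n)}

theorem PI.symm (h : PI H κ κ' R) : PI H κ' κ (R.image Prod.swap) where
  rt := mem_image.2 ⟨_, h.rt, rfl⟩
  st p hp := by
    obtain ⟨q, hq, rfl⟩ := mem_image.1 hp
    exact (h.st q hq).symm
  pr p hp := by
    obtain ⟨q, hq, rfl⟩ := mem_image.1 hp
    exact mem_image.2 ⟨_, h.pr q hq, rfl⟩
  ij p hp q hq := by
    obtain ⟨p', hp', rfl⟩ := mem_image.1 hp
    obtain ⟨q', hq', rfl⟩ := mem_image.1 hq
    exact (h.ij p' hp' q' hq').symm
  aj a b l l' h1 h2 := by
    obtain ⟨p, hp, hpe⟩ := mem_image.1 h1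
    obtain ⟨q, hq, hqe⟩ := mem_image.1 h2
    obtain ⟨p1, p2⟩ := p
    obtain ⟨q1, q2⟩ := q
    simp only [Prod.swap_prod_mk, Prod.mk.injEq] at hpe hqe
    obtain ⟨rfl, rfl⟩ := hpe
    obtain ⟨rfl, rfl⟩ := hqe
    exact (h.aj b a l' l hp hq).symm

/-- inserting a pair -/
theorem PI.ins (h : PI H κ κ' R) {p q : Pt t k K n} (hs : Src.sort p = Src.sort q)
    (hpar : (Src.par p, Src.par q) ∈ R) (hp : ∀ r, (p, r) ∉ R) (hq : ∀ r, (r, q) ∉ R)
    (ha : ∀ a b l l', p = .v a → q = .v b → (.l l, .l l') ∈ R → Src.adj H κ a l = Src.adj H κ' b l')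
    (hb : ∀ a b l l', (.v a, .v b) ∈ R → p = .l l → q = .l l' →
      Src.adj H κ a l = Src.adj H κ' b l') :
    PI H κ κ' (insert (p, q) R) where
  rt := mem_insert_of_mem h.rt
  st r hr := by
    rcases mem_insert.1 hr with rfl | hr
    · exact hs
    · exact h.st r hr
  pr r hr := by
    rcases mem_insert.1 hr with rfl | hr
    · exact mem_insert_of_mem hpar
    · exact mem_insert_of_mem (h.pr r hr)
  ij r hr s hs := by
    rcases mem_insert.1 hr with rfl | hr <;> rcases mem_insert.1 hs with rfl | hs
    · simp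
    · constructor
      · intro he
        exact absurd (show (p, s.2) ∈ R by rw [show p = s.1 from he]; exact hs) (hp _)
      · intro he
        exact absurd (show (s.1, q) ∈ R by rw [show q = s.2 from he]; exact hs) (hq _)
    · constructor
      · intro he
        exact absurd (show (p, r.2) ∈ R by rw [show p = r.1 from he.symm]; exact hr) (hp _)
      · intro he
        exact absurd (show (r.1, q) ∈ R by rw [show q = r.2 from he.symm]; exact hr) (hq _)
    · exact h.ij r hr s hs
  aj a b l l' h1 h2 := by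
    rcases mem_insert.1 h1 with h1 | h1 <;> rcases mem_insert.1 h2 with h2 | h2
    · simp only [Prod.mk.injEq] at h1 h2
      exact absurd (h1.1.trans h2.1.symm) (by simp)
    · simp only [Prod.mk.injEq] at h1
      exact ha a b l l' h1.1.symm h1.2.symm h2
    · simp only [Prod.mk.injEq] at h2
      exact hb a b l l' h1 h2.1.symm h2.2.symm
    · exact h.aj a b l l' h1 h2

/-- matching gates -/
def GM (R : Finset (Pt t k K n × Pt t k K n)) (g g' : Gate t k K n) : Prop :=
  g.fl = g'.fl ∧ (g.pt, g'.pt) ∈ R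

theorem gate_eq_iff (g h : Gate t k K n) : g = h ↔ g.fl = h.fl ∧ g.pt = h.pt := by
  cases g <;> cases h <;> simp [Gate.fl, Gate.pt]

theorem GM.eq_iff (hR : PI H κ κ' R) {g g' h h' : Gate t k K n} (h1 : GM R g g')
    (h2 : GM R h h') : g = h ↔ g' = h' := by
  rw [gate_eq_iff, gate_eq_iff, h1.1, h2.1]
  exact and_congr_right fun _ => hR.ij _ h1.2 _ h2.2

theorem root_iff (hR : PI H κ κ' R) {p q : Pt t k K n} (h : (p, q) ∈ R) :
    p = .w root ↔ q = .w root := hR.ij _ h _ hR.rt

theorem GM.out_iff (hR : PI H κ κ' R) {g g' : Gate t k K n} (h1 : GM R g g') :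
    g = .base (.w root) ↔ g' = .base (.w root) :=
  GM.eq_iff hR h1 (h := .base (.w root)) (h' := .base (.w root)) ⟨rfl, hR.rt⟩

theorem GM.knd_eq (hR : PI H κ κ' R) {g g' : Gate t k K n} (h1 : GM R g g') :
    knd g = knd g' := by
  obtain ⟨h2, h3⟩ := h1
  have h4 := hR.st _ h3
  rcases g with ((a | w | l) | w) <;> rcases g' with ((a' | w' | l') | w') <;>
    simp only [Gate.fl, Gate.pt, Src.sort, knd] at h2 h4 ⊢ <;>
    first
    | rfl
    | (exfalso; revert h4; first | omega | (split <;> omega))
    | (exfalso; revert h2; simp)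

theorem GM.wr_iff (hR : PI H κ κ' R) {g g' h h' : Gate t k K n} (h1 : GM R g g')
    (h2 : GM R h h') : wr H κ g h ↔ wr H κ' g' h' := by
  have k1 := h1.knd_eq hR
  have k2 := h2.knd_eq hR
  obtain ⟨f1, m1⟩ := h1
  obtain ⟨f2, m2⟩ := h2
  rcases g with ((a | w | l) | w) <;> rcases g' with ((a' | w' | l') | w') <;>
    simp only [knd, reduceCtorEq] at k1 <;>
    rcases h with ((b | u | m) | u) <;> rcases h' with ((b' | u' | m') | u') <;>
    simp only [knd, reduceCtorEq] at k2 <;>
    simp only [wr, Gate.pt] at m1 m2 ⊢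
  · rw [hR.aj a a' m m' m1 m2]
  · rw [show w = u ↔ w' = u' by simpa using hR.ij _ m1 _ m2]
  · exact hR.ij _ (hR.pr _ m1) _ m2
  · have h3 := root_iff hR m1
    have h4 := hR.ij _ (hR.pr _ m1) _ m2
    simp only [Pt.w.injEq] at h3
    rw [ne_eq, ne_eq, h3, h4]

/-- `n`-th ancestors of nodes -/
theorem par_iter_w (i : ℕ) (w : Node t K) :
    par^[i] (.w w : Pt t k K n) = .w ⟨w.1.drop i, by
      have := w.2; simp only [List.length_drop]; omega⟩ := by
  induction i with
  | zero => rfl
  | succ i ih =>
    rw [Function.iterate_succ_apply', ih]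
    simp [par]

theorem par_root : par (.w root : Pt t k K n) = .w root := by
  simp [par, root]

theorem par_iter_root (i : ℕ) : par^[i] (.w root : Pt t k K n) = .w root :=
  Function.iterate_fixed par_root i

theorem par_iter_top (p : Pt t k K n) : par^[t + 1] p = .w root := by
  rcases p with a | w | l
  · rw [Function.iterate_succ_apply]
    exact par_iter_root t
  · rw [par_iter_w]
    congr 1
    apply Subtype.ext
    have := w.2
    simp only [root]
    apply List.drop_eq_nil_of_le
    omega
  · rw [Function.iterate_succ_apply]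
    have : ∃ w : Node t K, par (.l l : Pt t k K n) = .w w := by
      rcases l with ⟨⟨i | w, τ⟩, y⟩
      · exact ⟨_, rfl⟩
      · exact ⟨_, rfl⟩
    obtain ⟨w, hw⟩ := this
    rw [hw, par_iter_w]
    congr 1
    apply Subtype.ext
    have := w.2
    simp only [root]
    apply List.drop_eq_nil_of_le
    omega

/-- the closure of a finite set of points under parents -/
noncomputable def cl (s : Finset (Pt t k K n)) : Finset (Pt t k K n) :=
  insert (.w root) (s.biUnion fun p => (range (t + 2)).image fun i => par^[i] p)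

theorem subset_cl (s : Finset (Pt t k K n)) : s ⊆ cl s := by
  intro p hp
  refine mem_insert_of_mem (mem_biUnion.2 ⟨p, hp, mem_image.2 ⟨0, by simp, rfl⟩⟩)

theorem par_mem_cl {s : Finset (Pt t k K n)} {p : Pt t k K n} (hp : p ∈ cl s) : par p ∈ cl s := by
  rcases mem_insert.1 hp with rfl | hp
  · rw [par_root]
    exact mem_insert_self _ _
  · obtain ⟨q, hq, hp⟩ := mem_biUnion.1 hp
    obtain ⟨i, hi, rfl⟩ := mem_image.1 hp
    rw [← Function.iterate_succ_apply' par i q]
    by_cases h : i + 1 < t + 2
    · exact mem_insert_of_mem (mem_biUnion.2 ⟨q, hq, mem_image.2 ⟨i + 1, by simpa using h, rfl⟩⟩)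
    · have : i = t + 1 := by
        have := mem_range.1 hi
        omega
      subst this
      rw [Function.iterate_succ_apply', par_iter_top, par_root]
      exact mem_insert_self _ _

theorem iter_mem_cl {s : Finset (Pt t k K n)} {p : Pt t k K n} (hp : p ∈ cl s) (i : ℕ) :
    par^[i] p ∈ cl s := by
  induction i with
  | zero => exact hp
  | succ i ih =>
    rw [Function.iterate_succ_apply']
    exact par_mem_cl ih

theorem cl_le {s s' : Finset (Pt t k K n)} (h : s ⊆ cl s') : cl s ⊆ cl s' := by
  intro p hp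
  rcases mem_insert.1 hp with rfl | hp
  · exact mem_insert_self _ _
  · obtain ⟨q, hq, hp⟩ := mem_biUnion.1 hp
    obtain ⟨i, hi, rfl⟩ := mem_image.1 hp
    exact iter_mem_cl (h hq) i

theorem cl_mono {s s' : Finset (Pt t k K n)} (h : s ⊆ s') : cl s ⊆ cl s' :=
  cl_le (h.trans (subset_cl _))

theorem card_cl_le (s : Finset (Pt t k K n)) : (cl s).card ≤ s.card * (t + 2) + 1 := by
  unfold cl
  refine (card_insert_le _ _).trans ?_
  gcongr
  refine card_biUnion_le.trans ?_
  refine (sum_le_sum fun p _ => (card_image_le.trans (card_range _).le)).trans ?_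
  simp

theorem sort_par_ne (p : Pt t k K n) : sort (par p) ≠ 0 := by
  rcases p with a | w | l
  · simp [par, sort]
  · simp [par, sort]
  · rcases l with ⟨⟨i | w, τ⟩, y⟩
    · simp [par, sort]
    · simp [par, sort]

theorem mem_of_mem_cl_sort {s : Finset (Pt t k K n)} {p : Pt t k K n} (hp : p ∈ cl s)
    (h0 : sort p = 0) : p ∈ s := by
  rcases mem_insert.1 hp with rfl | hp
  · simp [sort] at h0
  · obtain ⟨q, hq, hp⟩ := mem_biUnion.1 hp
    obtain ⟨i, hi, rfl⟩ := mem_image.1 hp
    cases i with
    | zero => exact hq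
    | succ i =>
      rw [Function.iterate_succ_apply'] at h0
      exact absurd h0 (sort_par_ne _)

/-- restriction of a relation to the closure of a set -/
noncomputable def res (R : Finset (Pt t k K n × Pt t k K n)) (s : Finset (Pt t k K n)) :
    Finset (Pt t k K n × Pt t k K n) := R.filter fun p => p.1 ∈ cl s

theorem PI.res (h : PI H κ κ' R) (s : Finset (Pt t k K n)) : PI H κ κ' (res R s) where
  rt := mem_filter.2 ⟨h.rt, mem_insert_self _ _⟩
  st p hp := h.st p (mem_filter.1 hp).1
  pr p hp := mem_filter.2 ⟨h.pr p (mem_filter.1 hp).1, par_mem_cl (mem_filter.1 hp).2⟩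
  ij p hp q hq := h.ij p (mem_filter.1 hp).1 q (mem_filter.1 hq).1
  aj a b l l' h1 h2 := h.aj a b l l' (mem_filter.1 h1).1 (mem_filter.1 h2).1

/-- number of pairs of inputs -/
noncomputable def vc (R : Finset (Pt t k K n × Pt t k K n)) : ℕ :=
  (R.filter fun p => sort p.1 = 0).card

theorem PI.injOn (h : PI H κ κ' R) : Set.InjOn Prod.fst (R : Set (Pt t k K n × Pt t k K n)) := by
  intro p hp q hq he
  exact Prod.ext he ((h.ij p hp q hq).1 he)

theorem PI.card_res_le (h : PI H κ κ' R) (s : Finset (Pt t k K n)) :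
    (Src.res R s).card ≤ s.card * (t + 2) + 1 := by
  refine le_trans ?_ (card_cl_le s)
  refine card_le_card_of_injOn Prod.fst (fun p hp => (mem_filter.1 hp).2) ?_
  exact h.injOn.mono fun p hp => mem_coe.2 (mem_filter.1 (mem_coe.1 hp)).1

theorem PI.vc_res_le (h : PI H κ κ' R) (s : Finset (Pt t k K n)) : vc (Src.res R s) ≤ s.card := by
  unfold vc
  refine card_le_card_of_injOn Prod.fst (fun p hp => ?_) ?_
  · obtain ⟨h1, h2⟩ := mem_filter.1 hp
    exact mem_of_mem_cl_sort (mem_filter.1 h1).2 h2
  · refine h.injOn.mono fun p hp => ?_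
    have h1 := mem_filter.1 (mem_coe.1 hp)
    exact mem_coe.2 (mem_filter.1 h1.1).1

end Src
end Pool.Agent.W_MP_5f6b2a_lc.Logic
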