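import Pool.Agent.W_MP_5f6b2a_lc.LInv

/-!
Interpreted circuits: matched elements, back-and-forth, small gates.
-/

namespace Pool.Agent.W_MP_5f6b2a_lc.Logic
namespace Src

open Finset

variable {t k K n : ℕ} {H : (Fin K × Fin n) → Leaf t k K n → Bool} {κ κ' : Bool}
  {R : Finset (Pt t k K n × Pt t k K n)} {N m c : ℕ} {I : Interp cVoc cVoc m c}

/-- numerical assumptions -/
structure Bnd (t k m c N : ℕ) : Prop where
  hk : m * (t + 8) + c + 1 ≤ k
  hN : (k + 1) * (t + 2) + k * (t + 1) + 1 ≤ N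

theorem Bnd.two (hB : Bnd t k m c N) : 2 * m + c ≤ k := by
  have := hB.hk
  have e : m * (t + 8) = m * t + 8 * m := by ring
  omega

theorem Bnd.k_pos (hB : Bnd t k m c N) : 0 < k := by
  have := hB.hk
  omega

theorem Bnd.sizeN (hB : Bnd t k m c N) {x : ℕ} (hx : x ≤ k) : x * (t + 2) + 1 ≤ N := by
  have h1 := hB.hN
  have h2 : x * (t + 2) ≤ k * (t + 2) := Nat.mul_le_mul_right _ hx
  have e : (k + 1) * (t + 2) = k * (t + 2) + (t + 2) := by ring
  omega

theorem Bnd.size2 (hB : Bnd t k m c N) {x y : ℕ} (hx : x ≤ k) (hy : y ≤ k) :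
    x * (t + 2) + 1 + y * (t + 1) ≤ N := by
  have h1 := hB.hN
  have h2 : x * (t + 2) ≤ k * (t + 2) := Nat.mul_le_mul_right _ hx
  have h3 : y * (t + 1) ≤ k * (t + 1) := Nat.mul_le_mul_right _ hy
  have e : (k + 1) * (t + 2) = k * (t + 2) + (t + 2) := by ring
  omega

/-- matched elements of the interpreted structures -/
def EM (R : Finset (Pt t k K n × Pt t k K n)) (e : I.Univ (circ H κ)) (e' : I.Univ (circ H κ')) :
    Prop := e.1.1 = e'.1.1 ∧ ∀ j, OM R (e.1.2 j) (e'.1.2 j)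

/-- the points of an element -/
noncomputable def ep (e : I.Univ (circ H κ)) : Finset (Pt t k K n) := pts univ e.1.2

theorem card_ep_le (e : I.Univ (circ H κ)) : (ep e).card ≤ m := by
  refine (card_pts_le _ _).trans ?_
  simp

theorem mem_ep {e : I.Univ (circ H κ)} {j : Fin m} {g : Gate t k K n} (h : e.1.2 j = some g) :
    g.pt ∈ ep e := mem_pts (mem_univ j) h

theorem exists_of_mem_ep {e : I.Univ (circ H κ)} {p : Pt t k K n} (h : p ∈ ep e) :
    ∃ j g, e.1.2 j = some g ∧ g.pt = p := by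
  obtain ⟨j, -, hj⟩ := mem_biUnion.1 h
  rcases he : e.1.2 j with _ | g
  · rw [he] at hj
    simp at hj
  · rw [he] at hj
    exact ⟨j, g, he, by simpa [eq_comm] using hj⟩

theorem EM.swap {e : I.Univ (circ H κ)} {e' : I.Univ (circ H κ')} (h : EM R e e') :
    EM (R.image Prod.swap) e' e := ⟨h.1.symm, fun j => (h.2 j).swap⟩

theorem EM.mono {R' : Finset (Pt t k K n × Pt t k K n)} (hs : R ⊆ R') {e : I.Univ (circ H κ)}
    {e' : I.Univ (circ H κ')} (h : EM R e e') : EM R' e e' := ⟨h.1, fun j => (h.2 j).mono hs⟩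

theorem EM.dom {e : I.Univ (circ H κ)} {e' : I.Univ (circ H κ')} (h : EM R e e') :
    ∀ p ∈ ep e, ∃ q, (p, q) ∈ R := by
  intro p hp
  obtain ⟨j, g, hj, rfl⟩ := exists_of_mem_ep hp
  obtain ⟨g', -, h2⟩ := (hj ▸ h.2 j).some_left
  exact ⟨_, h2.2⟩

theorem EM.res {e : I.Univ (circ H κ)} {e' : I.Univ (circ H κ')} (h : EM R e e')
    {s : Finset (Pt t k K n)} (hs : ep e ⊆ s) : EM (Src.res R s) e e' := by
  refine ⟨h.1, fun j => ?_⟩
  rcases h.2 j with h1 | ⟨g, g', h1, h2, h3⟩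
  · exact Or.inl h1
  · exact Or.inr ⟨g, g', h1, h2, h3.1, mem_filter.2 ⟨h3.2, subset_cl _ (hs (mem_ep h1))⟩⟩

theorem OM.eq_iff (hR : PI H κ κ' R) {a b a' b' : Option (Gate t k K n)} (h1 : OM R a a')
    (h2 : OM R b b') : a = b ↔ a' = b' := by
  rcases h1 with ⟨rfl, rfl⟩ | ⟨g, g', rfl, rfl, h3⟩ <;>
    rcases h2 with ⟨rfl, rfl⟩ | ⟨h, h', rfl, rfl, h4⟩
  · simp
  · simp
  · simp
  · rw [Option.some.injEq, Option.some.injEq]
    exact GM.eq_iff hR h3 h4

theorem EM.eq_iff (hR : PI H κ κ' R) {e f : I.Univ (circ H κ)} {e' f' : I.Univ (circ H κ')}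
    (h1 : EM R e e') (h2 : EM R f f') : e = f ↔ e' = f' := by
  constructor
  · rintro rfl
    refine Subtype.ext (Prod.ext (h1.1.symm.trans h2.1) (funext fun j => ?_))
    exact (OM.eq_iff hR (h1.2 j) (h2.2 j)).1 rfl
  · rintro rfl
    refine Subtype.ext (Prod.ext (h1.1.trans h2.1.symm) (funext fun j => ?_))
    exact (OM.eq_iff hR (h1.2 j) (h2.2 j)).2 rfl

theorem exists_em (hG : Gen H N) (hB : Bnd t k m c N) (hR : PI H κ κ' R) (e : I.Univ (circ H κ))
    (he : ∀ p ∈ ep e, ∃ q, (p, q) ∈ R) : ∃ e' : I.Univ (circ H κ'), EM R e e' := by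
  have h1 : ∀ j, ∃ b, OM R (e.1.2 j) b := by
    intro j
    rcases hj : e.1.2 j with _ | g
    · exact ⟨none, Or.inl ⟨rfl, rfl⟩⟩
    · obtain ⟨q, hq⟩ := he _ (mem_ep hj)
      obtain ⟨g', hg'⟩ := hR.exists_gm hq
      exact ⟨some g', Or.inr ⟨g, g', rfl, rfl, hg'⟩⟩
  choose x' hx' using h1
  have hX : Fintype.card (Fin m ⊕ Fin c) ≤ k := by
    have := hB.two
    simp only [Fintype.card_sum, Fintype.card_fin]
    omega
  have h2 : (I.dom e.1.1).Holds (circ H κ') (Sum.elim x' fun _ => none) := by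
    refine (holds_iff hG hX (hB.sizeN hX) (I.dom e.1.1) hR ?_).1 e.2
    rintro (j | j)
    · exact hx' j
    · exact Or.inl ⟨rfl, rfl⟩
  exact ⟨⟨(e.1.1, x'), h2⟩, rfl, hx'⟩

theorem ar_le (r : CSym) : cVoc.ar r ≤ 2 := by
  rcases r with κ | _ | _
  · show 1 ≤ 2; norm_num
  · show 1 ≤ 2; norm_num
  · show 2 ≤ 2; norm_num

theorem tgt_rel_iff (hG : Gen H N) (hB : Bnd t k m c N) (hR : PI H κ κ' R) (r : CSym)
    (p : Fin (cVoc.ar r) → I.Univ (circ H κ)) (p' : Fin (cVoc.ar r) → I.Univ (circ H κ'))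
    (h : ∀ i, EM R (p i) (p' i)) :
    (I.target (circ H κ)).rel r p ↔ (I.target (circ H κ')).rel r p' := by
  have hz : (fun i => (p i).1.1) = fun i => (p' i).1.1 := funext fun i => (h i).1
  have hX : Fintype.card ((Fin (cVoc.ar r) × Fin m) ⊕ Fin c) ≤ k := by
    have h1 := hB.two
    have h2 := Nat.mul_le_mul_right m (ar_le r)
    simp only [Fintype.card_sum, Fintype.card_prod, Fintype.card_fin]
    omega
  show (I.rel r fun i => (p i).1.1).Holds _ _ ↔ (I.rel r fun i => (p' i).1.1).Holds _ _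
  rw [hz]
  refine holds_iff hG hX (hB.sizeN hX) _ hR ?_
  rintro (j | j)
  · exact (h j.1).2 j.2
  · exact Or.inl ⟨rfl, rfl⟩

theorem EM.wire_iff (hG : Gen H N) (hB : Bnd t k m c N) (hR : PI H κ κ' R)
    {e f : I.Univ (circ H κ)} {e' f' : I.Univ (circ H κ')} (h1 : EM R e e') (h2 : EM R f f') :
    Circ.Wire (I.target (circ H κ)) e f ↔ Circ.Wire (I.target (circ H κ')) e' f' := by
  refine tgt_rel_iff hG hB hR CSym.wire (![e, f] : Fin 2 → _) (![e', f'] : Fin 2 → _) ?_
  intro i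
  change Fin 2 at i
  fin_cases i
  · exact h1
  · exact h2

theorem EM.kind_iff (hG : Gen H N) (hB : Bnd t k m c N) (hR : PI H κ κ' R)
    {e : I.Univ (circ H κ)} {e' : I.Univ (circ H κ')} (h1 : EM R e e') (κ₀ : Kind) :
    Circ.IsKind (I.target (circ H κ)) κ₀ e ↔ Circ.IsKind (I.target (circ H κ')) κ₀ e' :=
  tgt_rel_iff hG hB hR (CSym.kind κ₀) (fun _ => e) (fun _ => e') fun _ => h1

theorem EM.out_iff (hG : Gen H N) (hB : Bnd t k m c N) (hR : PI H κ κ' R)
    {e : I.Univ (circ H κ)} {e' : I.Univ (circ H κ')} (h1 : EM R e e') :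
    Circ.IsOut (I.target (circ H κ)) e ↔ Circ.IsOut (I.target (circ H κ')) e' :=
  tgt_rel_iff hG hB hR CSym.out (fun _ => e) (fun _ => e') fun _ => h1

/-- label-blind extension to an element -/
theorem ext_blind (hG : Gen H N) (hB : Bnd t k m c N) (h : PI H κ κ' R)
    (Z : Finset (Pt t k K n)) (hZ : Z.card ≤ N) (e : I.Univ (circ H κ)) (hv : vc R + m ≤ k)
    (hc : R.card + m * (t + 1) ≤ N) :
    ∃ R', R ⊆ R' ∧ PI H κ κ' R' ∧ (∃ e' : I.Univ (circ H κ'), EM R' e e') ∧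
      ∀ r ∈ R', r ∈ R ∨ (r.2 ∉ Z ∧ r.1 ∈ cl (ep e)) := by
  have hl : (ep e).toList.length ≤ m := by
    rw [length_toList]
    exact card_ep_le e
  have hl' : (ep e).toList.length * (t + 1) ≤ m * (t + 1) := Nat.mul_le_mul_right _ hl
  obtain ⟨R', h1, h2, h3, -, -, h6⟩ := PI.extend_list hG Z hZ (ep e).toList R h (by omega)
    (by omega)
  obtain ⟨e', he'⟩ := exists_em hG hB h2 e fun p hp => h3 p (mem_toList.2 hp)
  refine ⟨R', h1, h2, ⟨e', he'⟩, ?_⟩
  rwa [toList_toFinset] at h6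

/-- label-aware extension to an element -/
theorem ext_good (hG : Gen H N) (hB : Bnd t k m c N) (h : PI H κ κ' R) {s : ℕ}
    (hg : GdP κ κ' s R) (e : I.Univ (circ H κ)) (hc : R.card + m * (t + 1) ≤ N) :
    ∃ R', R ⊆ R' ∧ PI H κ κ' R' ∧ GdP κ κ' s R' ∧ (∃ e' : I.Univ (circ H κ'), EM R' e e') ∧
      R'.card ≤ R.card + m * (t + 1) := by
  have hl : (ep e).toList.length ≤ m := by
    rw [length_toList]
    exact card_ep_le e
  have hl' : (ep e).toList.length * (t + 1) ≤ m * (t + 1) := Nat.mul_le_mul_right _ hl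
  obtain ⟨R', h1, h2, h3, h4, h5⟩ := PI.gextend_list hG hB.k_pos (ep e).toList R h hg (by omega)
  obtain ⟨e', he'⟩ := exists_em hG hB h2 e fun p hp => h4 p (mem_toList.2 hp)
  exact ⟨R', h1, h2, h3, ⟨e', he'⟩, by omega⟩

/-- the points of a list of pairs -/
noncomputable def lp (l : List (I.Univ (circ H κ) × I.Univ (circ H κ'))) : Finset (Pt t k K n) :=
  l.foldr (fun p s => ep p.1 ∪ s) ∅

theorem card_lp_le (l : List (I.Univ (circ H κ) × I.Univ (circ H κ'))) :
    (lp l).card ≤ l.length * m := by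
  induction l with
  | nil => simp [lp]
  | cons p l ih =>
    have h1 : lp (p :: l) = ep p.1 ∪ lp l := rfl
    rw [h1]
    refine (card_union_le _ _).trans ?_
    have h2 := card_ep_le p.1
    have e : (l.length + 1) * m = l.length * m + m := by ring
    simp only [List.length_cons]
    omega

theorem ep_subset_lp {l : List (I.Univ (circ H κ) × I.Univ (circ H κ'))} {p} (hp : p ∈ l) :
    ep p.1 ⊆ lp l := by
  induction l with
  | nil => simp at hp
  | cons q l ih =>
    have h1 : lp (q :: l) = ep q.1 ∪ lp l := rfl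
    rw [h1]
    rcases List.mem_cons.1 hp with rfl | hp
    · exact subset_union_left
    · exact (ih hp).trans subset_union_right

/-- the back-and-forth system -/
def BRel (I : Interp cVoc cVoc m c) (H : (Fin K × Fin n) → Leaf t k K n → Bool) (κ κ' : Bool)
    (l : List (I.Univ (circ H κ) × I.Univ (circ H κ'))) : Prop :=
  ∃ R, PI H κ κ' R ∧ ∀ p ∈ l, EM R p.1 p.2

theorem BRel.swap {l : List (I.Univ (circ H κ) × I.Univ (circ H κ'))} (h : BRel I H κ κ' l) :
    BRel I H κ' κ (l.map Prod.swap) := by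
  obtain ⟨R, h1, h2⟩ := h
  refine ⟨_, h1.symm, fun p hp => ?_⟩
  obtain ⟨q, hq, rfl⟩ := List.mem_map.1 hp
  exact (h2 q hq).swap

theorem brel_forth (hG : Gen H N) (hB : Bnd t k m c N)
    {l : List (I.Univ (circ H κ) × I.Univ (circ H κ'))} (h : BRel I H κ κ' l) (hl : l.length ≤ 3)
    (e : I.Univ (circ H κ)) : ∃ e', BRel I H κ κ' ((e, e') :: l) := by
  obtain ⟨R, h1, h2⟩ := h
  have hlm : l.length * m ≤ 3 * m := Nat.mul_le_mul_right _ hl
  have h3 := card_lp_le l
  have h4 := h1.card_res_le (lp l)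
  have h5 := h1.vc_res_le (lp l)
  have h6 := hB.hk
  have e1 : m * (t + 8) = m * t + 8 * m := by ring
  have h7 : (lp l).card * (t + 2) ≤ 3 * m * (t + 2) := Nat.mul_le_mul_right _ (by omega)
  have h8 := hB.size2 (x := 3 * m) (y := m) (by omega) (by omega)
  obtain ⟨R', g1, g2, ⟨e', g3⟩, -⟩ := ext_blind hG hB (h1.res (lp l)) ∅ (by simp) e (by omega)
    (by omega)
  refine ⟨e', R', g2, fun p hp => ?_⟩
  rcases List.mem_cons.1 hp with rfl | hp
  · exact g3
  · exact ((h2 p hp).res (ep_subset_lp hp)).mono g1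

theorem pi_root (H : (Fin K × Fin n) → Leaf t k K n → Bool) (κ κ' : Bool) :
    PI H κ κ' {(.w root, .w root)} where
  rt := by simp
  st p hp := by
    rw [mem_singleton] at hp
    subst hp
    rfl
  pr p hp := by
    rw [mem_singleton] at hp
    subst hp
    simp [par_root]
  ij p hp q hq := by
    rw [mem_singleton] at hp hq
    subst hp
    subst hq
    simp
  aj a b l l' h1 _ := by simp at h1

theorem bf (hG : Gen H N) (hB : Bnd t k m c N) (κ κ' : Bool) :
    Circ.BF (I.target (circ H κ)) (I.target (circ H κ')) (BRel I H κ κ') where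
  nil := ⟨_, pi_root H κ κ', by simp⟩
  sub l l' hl := fun ⟨R, h1, h2⟩ => ⟨R, h1, fun p hp => h2 p (hl hp)⟩
  forth l h hl e := brel_forth hG hB h hl e
  back l h hl e' := by
    obtain ⟨e, he⟩ := brel_forth hG hB h.swap (by simpa using hl) e'
    refine ⟨e, ?_⟩
    have := he.swap
    simpa using this
  eq l h p hp q hq := by
    obtain ⟨R, h1, h2⟩ := h
    exact EM.eq_iff h1 (h2 p hp) (h2 q hq)
  wire l h p hp q hq := by
    obtain ⟨R, h1, h2⟩ := h
    exact EM.wire_iff hG hB h1 (h2 p hp) (h2 q hq)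
  kind l h p hp κ₀ := by
    obtain ⟨R, h1, h2⟩ := h
    exact EM.kind_iff hG hB h1 (h2 p hp) κ₀
  out l h p hp := by
    obtain ⟨R, h1, h2⟩ := h
    exact EM.out_iff hG hB h1 (h2 p hp)

/-- identities -/
theorem pi_id (H : (Fin K × Fin n) → Leaf t k K n → Bool) (κ : Bool) (s : Finset (Pt t k K n)) :
    PI H κ κ ((cl s).image fun p => (p, p)) where
  rt := mem_image.2 ⟨_, mem_insert_self _ _, rfl⟩
  st p hp := by
    obtain ⟨q, -, rfl⟩ := mem_image.1 hp
    rfl
  pr p hp := by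
    obtain ⟨q, hq, rfl⟩ := mem_image.1 hp
    exact mem_image.2 ⟨_, par_mem_cl hq, rfl⟩
  ij p hp q hq := by
    obtain ⟨p', -, rfl⟩ := mem_image.1 hp
    obtain ⟨q', -, rfl⟩ := mem_image.1 hq
    rfl
  aj a b l l' h1 h2 := by
    obtain ⟨p', -, h3⟩ := mem_image.1 h1
    obtain ⟨q', -, h4⟩ := mem_image.1 h2
    simp only [Prod.mk.injEq] at h3 h4
    have h5 := h3.1.symm.trans h3.2
    have h6 := h4.1.symm.trans h4.2
    simp only [Pt.v.injEq, Pt.l.injEq] at h5 h6
    rw [h5, h6]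

theorem em_id (e : I.Univ (circ H κ)) : EM ((cl (ep e)).image fun p => (p, p)) e e := by
  refine ⟨rfl, fun j => ?_⟩
  rcases hj : e.1.2 j with _ | g
  · exact Or.inl ⟨rfl, rfl⟩
  · exact Or.inr ⟨g, g, rfl, rfl, rfl, mem_image.2 ⟨_, subset_cl _ (mem_ep hj), rfl⟩⟩

/-- The inputs of a gate of fan-in at most two are algebraic over it. -/
theorem algebraic (hG : Gen H N) (hB : Bnd t k m c N) {e h : I.Univ (circ H κ)}
    (hf : Circ.fanIn (I.target (circ H κ)) e ≤ 2) (hw : Circ.Wire (I.target (circ H κ)) h e) :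
    ep h ⊆ cl (ep e) := by
  intro p hp
  by_contra hpe
  have h0 := pi_id H κ (ep e)
  have hcard : ((cl (ep e)).image fun p => (p, p)).card ≤ m * (t + 2) + 1 := by
    refine card_image_le.trans ((card_cl_le _).trans ?_)
    have := Nat.mul_le_mul_right (t + 2) (card_ep_le e)
    omega
  have hvc : vc ((cl (ep e)).image fun p => (p, p)) ≤ m := by
    refine le_trans ?_ (card_ep_le e)
    unfold vc
    refine card_le_card_of_injOn Prod.fst (fun q hq => ?_) (h0.injOn.mono fun q hq => ?_)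
    · obtain ⟨h1, h2⟩ := mem_filter.1 hq
      obtain ⟨q', h3, rfl⟩ := mem_image.1 h1
      exact mem_of_mem_cl_sort h3 h2
    · exact mem_coe.2 (mem_filter.1 (mem_coe.1 hq)).1
  have e1 : m * (t + 8) = m * t + 8 * m := by ring
  have hk := hB.hk
  have hN := hB.size2 (x := m) (y := m) (by omega) (by omega)
  have hmN : 2 * m ≤ N := by
    have := hB.sizeN (x := 2 * m) (by omega)
    have : 2 * m * 1 ≤ 2 * m * (t + 2) := Nat.mul_le_mul_left _ (by omega)
    omega
  obtain ⟨j, g, hj, hgp⟩ := exists_of_mem_ep hp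
  -- a copy of `h` avoiding `Z`
  have copy : ∀ Z : Finset (Pt t k K n), Z.card ≤ N → ∃ h' : I.Univ (circ H κ),
      Circ.Wire (I.target (circ H κ)) h' e ∧ ∃ q ∈ ep h', q ∉ Z := by
    intro Z hZ
    obtain ⟨R', g1, g2, ⟨h', g3⟩, g4⟩ := ext_blind hG hB h0 Z hZ h (by omega) (by omega)
    refine ⟨h', (EM.wire_iff hG hB g2 g3 ((em_id e).mono g1)).1 hw, ?_⟩
    obtain ⟨g', g5, g6⟩ := (hj ▸ g3.2 j).some_left
    refine ⟨g'.pt, mem_ep g5, ?_⟩
    rcases g4 _ g6.2 with g7 | g7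
    · obtain ⟨q, hq, he⟩ := mem_image.1 g7
      simp only [Prod.mk.injEq] at he
      rw [← hgp, ← he.1] at hpe
      exact absurd hq hpe
    · exact g7.1
  obtain ⟨h1, w1, -⟩ := copy ∅ (by simp)
  obtain ⟨h2, w2, q2, hq2, hq2'⟩ := copy (ep h1) ((card_ep_le _).trans (by omega))
  obtain ⟨h3, w3, q3, hq3, hq3'⟩ := copy (ep h1 ∪ ep h2) (by
    have := card_union_le (ep h1) (ep h2)
    have := card_ep_le h1
    have := card_ep_le h2
    omega)
  have n12 : h1 ≠ h2 := fun hh => hq2' (by rw [hh]; exact hq2)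
  have n13 : h1 ≠ h3 := fun hh => hq3' (mem_union_left _ (by rw [hh]; exact hq3))
  have n23 : h2 ≠ h3 := fun hh => hq3' (mem_union_right _ (by rw [hh]; exact hq3))
  have := Circ.le_ncard_of_list (s := {h | Circ.Wire (I.target (circ H κ)) h e}) (Set.toFinite _)
    [h1, h2, h3] (by simp [n12, n13, n23]) (by
      intro x hx
      simp only [List.mem_cons, List.not_mem_nil, or_false] at hx
      rcases hx with rfl | rfl | rfl
      · exact w1
      · exact w2
      · exact w3)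
  unfold Circ.fanIn at hf
  simp only [List.length_cons, List.length_nil] at this
  omega

theorem cl_dom (hR : PI H κ κ' R) {s : Finset (Pt t k K n)} (h : ∀ p ∈ s, ∃ q, (p, q) ∈ R) :
    ∀ p ∈ cl s, ∃ q, (p, q) ∈ R := by
  intro p hp
  rcases mem_insert.1 hp with rfl | hp
  · exact ⟨_, hR.rt⟩
  · obtain ⟨q, hq, hp⟩ := mem_biUnion.1 hp
    obtain ⟨i, -, rfl⟩ := mem_image.1 hp
    have key : ∀ i, ∃ q', (par^[i] q, q') ∈ R := by
      intro i
      induction i with
      | zero => exact h q hq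
      | succ i ih =>
        obtain ⟨q', hq'⟩ := ih
        rw [Function.iterate_succ_apply']
        exact ⟨_, hR.pr _ hq'⟩
    exact key i

end Src
end Pool.Agent.W_MP_5f6b2a_lc.Logic
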