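import Pool.Agent.W_MP_5f6b2a_lc.Good

/-!
The substitution which turns the hard instances into an alternating tree and all functions of
small bounded-depth formulas into shallow decision trees.
-/

namespace Pool.Agent.W_MP_5f6b2a_lc

set_option linter.unusedSectionVars false

open Finset

/-- Leaves. -/
abbrev Leaves (a t G : ℕ) : Type := P a t × (Fin (bfan a t) × Fin G)

section

variable {a t k n' G d : ℕ}

open Classical in
/-- The chosen live vertex of colour `i`. -/
noncomputable def pick [NeZero n'] (l : (Fin k × Fin n') ⊕ Leaves a t G → Fin (d + 1))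
    (i : Fin k) : Fin n' :=
  if h : ∃ γ, (l (Sum.inl (i, γ))).1 = d then h.choose else 0

/-- The planted set. -/
noncomputable def planted [NeZero n'] (l : (Fin k × Fin n') ⊕ Leaves a t G → Fin (d + 1)) :
    Finset (Fin k × Fin n') := univ.image fun i => (i, pick l i)

theorem card_planted [NeZero n'] (l : (Fin k × Fin n') ⊕ Leaves a t G → Fin (d + 1)) :
    (planted l).card = k := by
  rw [planted, Finset.card_image_of_injective _ (fun i j h => (Prod.mk.inj h).1), Finset.card_univ,
    Fintype.card_fin]

def grps (a t k n' G : ℕ) : Fin k ⊕ (P a t × Fin (bfan a t)) →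
    Finset ((Fin k × Fin n') ⊕ Leaves a t G)
  | Sum.inl i => univ.image fun γ : Fin n' => Sum.inl (i, γ)
  | Sum.inr e => univ.image fun γ : Fin G => Sum.inr (e.1, (e.2, γ))

theorem card_grps (g : Fin k ⊕ (P a t × Fin (bfan a t))) {M : ℕ} (h1 : M ≤ n') (h2 : M ≤ G) :
    M ≤ (grps a t k n' G g).card := by
  cases g with
  | inl i =>
    rw [grps, Finset.card_image_of_injective _ (fun a b h => by simpa using h)]
    simpa using h1
  | inr e =>
    rw [grps, Finset.card_image_of_injective _ (fun a b h => by simpa using h)]
    simpa using h2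

theorem exists_sub [NeZero n'] [NeZero k] {q p : ℝ} (hq0 : 0 < q) (hq1 : q ≤ 1 / 2)
    (hp0 : 0 < p) (hp1 : p ≤ 1 / 2)
    (N : ℕ) (hN : 1 ≤ N) (θ : ℝ) (hθ0 : 0 ≤ θ)
    (hθ : ∀ A : Finset (EdgeVar (Fin k × Fin n') (Leaves a t G)), N < A.card →
      A.card ≤ (N + 1) * N → (2 * q) ^ (ends esrc edst A).card * (1 / p) ^ A.card ≤ θ)
    (s M : ℕ) (hM1 : M ≤ n') (hM2 : M ≤ G) {ι : Type} [Fintype ι]
    (f : ι → (EdgeVar (Fin k × Fin n') (Leaves a t G) → Bool) → Prop)
    (hf : ∀ i, AC s d (f i))
    (hsum : Fintype.card ι * ((s + 1) ^ d * ((3 ^ N) ^ (N + 1) * θ)) +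
      Fintype.card (Fin k ⊕ (P a t × Fin (bfan a t))) * (1 - q ^ d) ^ M +
      2 ^ k * ((1 + p ^ (k - 1)) ^ Fintype.card (Fin k × Fin n') - 1) +
      Fintype.card (Leaves a t G) * p ^ k < 1) :
    ∃ sub : (P a t × Fin (bfan a t) → Bool) → EdgeVar (Fin k × Fin n') (Leaves a t G) → Bool,
      (∀ i, DTle N fun y => f i (sub y)) ∧
      ∀ y, Src a t k (sub y) ↔ treeB a t fun l => y l = true := by
  classical
  obtain ⟨ω, g1, g2, g3, g4⟩ := exists_good hq0 hq1 hp0 hp1 N hN θ hθ0 hθ s k M d
    (grps a t k n' G) (fun g => card_grps g hM1 hM2) planted card_planted f hf hsum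
  -- live vertices
  set lv : (Fin k × Fin n') ⊕ Leaves a t G → Prop := fun v => (ω.1 v).1 = d with hlv
  have hU : ∀ v ∈ planted ω.1, lv (Sum.inl v) := by
    intro v hv
    obtain ⟨i, _, rfl⟩ := Finset.mem_image.1 hv
    have h : ∃ γ, (ω.1 (Sum.inl (i, γ))).1 = d := by
      obtain ⟨w, hw1, hw2⟩ := g2 (Sum.inl i)
      simp only [grps, mem_image, mem_univ, true_and] at hw1
      obtain ⟨γ, rfl⟩ := hw1
      exact ⟨γ, hw2⟩
    simp only [hlv, pick, dif_pos h]
    exact h.choose_spec
  have hch : ∀ e : P a t × Fin (bfan a t), ∃ γ, lv (Sum.inr (e.1, (e.2, γ))) := by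
    intro e
    obtain ⟨w, hw1, hw2⟩ := g2 (Sum.inr e)
    simp only [grps, mem_image, mem_univ, true_and] at hw1
    obtain ⟨γ, rfl⟩ := hw1
    exact ⟨γ, hw2⟩
  choose c hc using hch
  -- designated planted vertex
  set v0 : Fin k × Fin n' := (0, pick ω.1 0) with hv0
  have hv0m : v0 ∈ planted ω.1 := Finset.mem_image_of_mem _ (mem_univ _)
  set φ : (P a t × Fin (bfan a t) → Bool) → EdgeVar (Fin k × Fin n') (Leaves a t G) → Bool :=
    fun y x => match x with
      | Sum.inl e => decide (e.1 ∈ planted ω.1 ∧ e.2 ∈ planted ω.1)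
      | Sum.inr e =>
        if e.1 ∈ planted ω.1 ∧ e.2.2.2 = c (e.2.1, e.2.2.1) then
          (if e.1 = v0 then (if Even t then !(y (e.2.1, e.2.2.1)) else y (e.2.1, e.2.2.1))
            else true)
        else false with hφ
  refine ⟨fun y => fill (rho esrc edst d ω) (φ y), fun i => ?_, fun y => ?_⟩
  · refine DTle.subst (g1 i) ?_
    rintro (e | e)
    · exact Or.inl ⟨_, fun y => rfl⟩
    · simp only [hφ]
      by_cases h1 : e.1 ∈ planted ω.1 ∧ e.2.2.2 = c (e.2.1, e.2.2.1)
      · by_cases h2 : e.1 = v0
        · right
          refine ⟨(e.2.1, e.2.2.1), !(decide (Even t)), fun y => ?_⟩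
          rw [if_pos h1, if_pos h2]
          by_cases ht : Even t
          · simp [ht]
          · simp [ht]
        · exact Or.inl ⟨true, fun y => by rw [if_pos h1, if_neg h2]⟩
      · exact Or.inl ⟨false, fun y => by rw [if_neg h1]⟩
  · set X := fill (rho esrc edst d ω) (φ y) with hX
    -- level bound
    have hle : ∀ v, (ω.1 v).1 ≤ d := fun v => Nat.lt_succ_iff.1 (ω.1 v).2
    have hlive : ∀ x, lv (esrc x) → lv (edst x) → X x = φ y x := by
      intro x h1 h2
      simp only [hX, fill, rho, hlv] at *
      rw [if_pos ⟨h1.ge, h2.ge⟩]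
      rfl
    have hdead : ∀ x, ¬ (lv (esrc x) ∧ lv (edst x)) → X x = ω.2 x := by
      intro x h
      simp only [hX, fill, rho, hlv] at *
      rw [if_neg]
      · rfl
      · rintro ⟨h1, h2⟩
        exact h ⟨le_antisymm (hle _) h1, le_antisymm (hle _) h2⟩
    -- common neighbours of the planted set
    have hCN : ∀ (e : P a t × Fin (bfan a t)) (γ : Fin G),
        (∀ v ∈ planted ω.1, X (Sum.inr (v, (e.1, (e.2, γ)))) = true) ↔
          γ = c e ∧ (y e = true ↔ ¬ Even t) := by
      intro e γ
      by_cases hj : lv (Sum.inr (e.1, (e.2, γ)))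
      · have h1 : ∀ v ∈ planted ω.1, X (Sum.inr (v, (e.1, (e.2, γ)))) =
            φ y (Sum.inr (v, (e.1, (e.2, γ)))) := fun v hv =>
          hlive _ (hU v hv) hj
        by_cases hγ : γ = c e
        · constructor
          · intro h
            refine ⟨hγ, ?_⟩
            have h2 := h v0 hv0m
            rw [h1 v0 hv0m] at h2
            simp only [hφ] at h2
            rw [if_pos ⟨hv0m, hγ⟩, if_pos trivial] at h2
            by_cases ht : Even t
            · simp only [ht, if_true] at h2
              simp at h2
              simp [ht, h2]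
            · simp only [ht, if_false] at h2
              simp [ht, h2]
          · rintro ⟨-, h⟩ v hv
            rw [h1 v hv]
            simp only [hφ]
            rw [if_pos ⟨hv, hγ⟩]
            by_cases hvv : v = v0
            · rw [if_pos hvv]
              by_cases ht : Even t
              · simp only [ht, not_true, iff_false] at h
                simp only [Bool.not_eq_true] at h
                simp [ht, h]
              · simp only [ht, not_false_iff, iff_true] at h
                simp [ht, h]
            · rw [if_neg hvv]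
        · constructor
          · intro h
            have h2 := h v0 hv0m
            rw [h1 v0 hv0m] at h2
            simp only [hφ] at h2
            rw [if_neg (fun h3 => hγ h3.2)] at h2
            simp at h2
          · rintro ⟨h, -⟩
            exact absurd h hγ
      · constructor
        · intro h
          obtain ⟨v, hv, hv2⟩ := g4 (e.1, (e.2, γ))
          have h2 := h v hv
          rw [hdead (Sum.inr (v, (e.1, (e.2, γ)))) (fun h3 => hj h3.2), hv2] at h2
          simp at h2
        · rintro ⟨h, -⟩
          rw [h] at hj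
          exact absurd (hc e) hj
    have htree : (treeB a t fun l : Leaves a t G =>
        ((∀ v ∈ planted ω.1, X (Sum.inr (v, l)) = true) ↔ ¬ Even t)) ↔
        treeB a t fun l => y l = true := by
      unfold treeB
      have : (fun p : P a t => if Even t then
          ∀ u : Fin (bfan a t) × Fin G,
            ((∀ v ∈ planted ω.1, X (Sum.inr (v, (p, u))) = true) ↔ ¬ Even t)
          else ∃ u : Fin (bfan a t) × Fin G,
            ((∀ v ∈ planted ω.1, X (Sum.inr (v, (p, u))) = true) ↔ ¬ Even t)) =
          fun p => if Even t then ∀ u, y (p, u) = true else ∃ u, y (p, u) = true := by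
        funext p
        apply propext
        by_cases ht : Even t
        · rw [if_pos ht, if_pos ht]
          constructor
          · intro h u
            have h1 := h (u, c (p, u))
            rw [hCN (p, u)] at h1
            simp only [true_and, ht, not_true, iff_false] at h1
            simpa using h1
          · rintro h ⟨u, γ⟩
            rw [hCN (p, u)]
            simp [ht, h u]
        · rw [if_neg ht, if_neg ht]
          constructor
          · rintro ⟨⟨u, γ⟩, h⟩
            rw [hCN (p, u)] at h
            simp only [ht, not_false_iff, iff_true] at h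
            exact ⟨u, h.2⟩
          · rintro ⟨u, h⟩
            refine ⟨(u, c (p, u)), ?_⟩
            rw [hCN (p, u)]
            simp [ht, h]
      rw [this]
    rw [← htree]
    unfold Src
    constructor
    · rintro ⟨S, hS1, hS2, hS3⟩
      have hSU : S = planted ω.1 := by
        by_contra hne
        obtain ⟨v, hv, v', hv', hvv, hb⟩ := g3 S hS1 hne
        have h1 : X (Sum.inl (v, v')) = true := hS2 v (Finset.mem_sdiff.1 hv).1 v' hv' hvv
        by_cases hl : lv (Sum.inl v) ∧ lv (Sum.inl v')
        · rw [show X (Sum.inl (v, v')) = φ y (Sum.inl (v, v')) from hlive _ hl.1 hl.2] at h1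
          simp only [hφ, decide_eq_true_eq] at h1
          exact (Finset.mem_sdiff.1 hv).2 h1.1
        · rw [show X (Sum.inl (v, v')) = ω.2 (Sum.inl (v, v')) from hdead _ hl, hb] at h1
          simp at h1
      rw [← hSU]
      exact hS3
    · intro h
      refine ⟨planted ω.1, card_planted _, ?_, h⟩
      intro v hv v' hv' _
      show X (Sum.inl (v, v')) = true
      rw [show X (Sum.inl (v, v')) = φ y (Sum.inl (v, v')) from
        hlive _ (hU v hv) (hU v' hv')]
      simp [hφ, hv, hv']

end

end Pool.Agent.W_MP_5f6b2a_lc
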