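import Pool.Agent.W_MP_5f6b2a_lc.Switch
import Pool.Agent.W_MP_5f6b2a_lc.ACTools

/-!
Random vertex restrictions: all functions of a bounded-depth formula become shallow decision
trees.
-/

namespace Pool.Agent.W_MP_5f6b2a_lc

set_option linter.unusedSectionVars false

open Finset

variable {X : Type}

/-! ### Terms of a decision tree -/

/-- The paths to the leaves with label `true`. -/
def DTree.terms : DTree X → List (List (X × Bool))
  | leaf true => [[]]
  | leaf false => []
  | node x l r => l.terms.map (fun T => (x, false) :: T) ++ r.terms.map (fun T => (x, true) :: T)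

theorem DTree.length_terms (T : DTree X) : ∀ S ∈ T.terms, S.length ≤ T.depth := by
  induction T with
  | leaf b => cases b <;> simp [DTree.terms]
  | node x l r ihl ihr =>
    intro S hS
    simp only [DTree.terms, List.mem_append, List.mem_map] at hS
    rcases hS with ⟨S', h, rfl⟩ | ⟨S', h, rfl⟩
    · have := ihl _ h
      simp only [DTree.depth, List.length_cons]; omega
    · have := ihr _ h
      simp only [DTree.depth, List.length_cons]; omega

theorem TSat_cons {x : X} {b : Bool} {T : List (X × Bool)} {z : X → Bool} :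
    TSat ((x, b) :: T) z ↔ z x = b ∧ TSat T z := by
  simp [TSat]

theorem DTree.terms_iff (T : DTree X) (z : X → Bool) :
    (∃ S ∈ T.terms, TSat S z) ↔ T.eval z = true := by
  induction T with
  | leaf b => cases b <;> simp [DTree.terms, DTree.eval, TSat]
  | node x l r ihl ihr =>
    simp only [DTree.terms, List.mem_append, List.mem_map, DTree.eval]
    constructor
    · rintro ⟨S, ⟨S', h, rfl⟩ | ⟨S', h, rfl⟩, hS⟩
      · rw [TSat_cons] at hS
        rw [if_neg (by simp [hS.1])]
        exact ihl.1 ⟨S', h, hS.2⟩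
      · rw [TSat_cons] at hS
        rw [if_pos hS.1]
        exact ihr.1 ⟨S', h, hS.2⟩
    · intro h
      split_ifs at h with hx
      · obtain ⟨S, h1, h2⟩ := ihr.2 h
        exact ⟨_, Or.inr ⟨S, h1, rfl⟩, TSat_cons.2 ⟨hx, h2⟩⟩
      · obtain ⟨S, h1, h2⟩ := ihl.2 h
        exact ⟨_, Or.inl ⟨S, h1, rfl⟩, TSat_cons.2 ⟨by simpa using hx, h2⟩⟩

/-- The OR of finitely many shallow decision trees is a narrow DNF. -/
theorem exists_dnf {N m : ℕ} (g : Fin m → (X → Bool) → Prop) (hg : ∀ i, DTle N (g i)) :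
    ∃ F : List (List (X × Bool)), (∀ T ∈ F, T.length ≤ N) ∧
      ∀ z, (∃ T ∈ F, TSat T z) ↔ ∃ i, g i z := by
  choose T hT1 hT2 using hg
  refine ⟨(List.finRange m).flatMap fun i => (T i).terms, ?_, ?_⟩
  · intro S hS
    rw [List.mem_flatMap] at hS
    obtain ⟨i, _, hi⟩ := hS
    exact ((T i).length_terms S hi).trans (hT1 i)
  · intro z
    constructor
    · rintro ⟨S, hS, hz⟩
      rw [List.mem_flatMap] at hS
      obtain ⟨i, _, hi⟩ := hS
      exact ⟨i, (hT2 i z).1 ((T i).terms_iff z |>.1 ⟨S, hi, hz⟩)⟩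
    · rintro ⟨i, hi⟩
      obtain ⟨S, h1, h2⟩ := (T i).terms_iff z |>.2 ((hT2 i z).2 hi)
      exact ⟨S, List.mem_flatMap.2 ⟨i, List.mem_finRange i, h1⟩, h2⟩

/-! ### Sums over events -/

open Classical in
/-- The total weight of an event. -/
noncomputable def wsum {Ω : Type*} [Fintype Ω] (w : Ω → ℝ) (E : Ω → Prop) : ℝ :=
  ∑ ω ∈ univ.filter E, w ω

section wsum

variable {Ω : Type*} [Fintype Ω] {w : Ω → ℝ} {E E' : Ω → Prop}

open Classical in
theorem wsum_eq : wsum w E = ∑ ω, if E ω then w ω else 0 := by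
  rw [wsum, Finset.sum_filter]

theorem ite_nonneg {P : Prop} [Decidable P] {r : ℝ} (hr : 0 ≤ r) : 0 ≤ if P then r else 0 := by
  split_ifs
  exacts [hr, le_rfl]

theorem wsum_mono (hw : ∀ ω, 0 ≤ w ω) (h : ∀ ω, E ω → E' ω) : wsum w E ≤ wsum w E' := by
  classical
  refine Finset.sum_le_sum_of_subset_of_nonneg ?_ fun ω _ _ => hw ω
  intro ω hω
  simp only [mem_filter, mem_univ, true_and] at hω ⊢
  exact h ω hω

theorem wsum_congr (h : ∀ ω, E ω ↔ E' ω) : wsum w E = wsum w E' := by
  have : E = E' := funext fun ω => propext (h ω)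
  rw [this]

theorem wsum_nonneg (hw : ∀ ω, 0 ≤ w ω) : 0 ≤ wsum w E :=
  Finset.sum_nonneg fun ω _ => hw ω

theorem wsum_or (hw : ∀ ω, 0 ≤ w ω) : wsum w (fun ω => E ω ∨ E' ω) ≤ wsum w E + wsum w E' := by
  classical
  rw [wsum_eq, wsum_eq, wsum_eq, ← Finset.sum_add_distrib]
  refine Finset.sum_le_sum fun ω _ => ?_
  have := hw ω
  by_cases h1 : E ω <;> by_cases h2 : E' ω <;> simp [h1, h2, this]

theorem wsum_exists {ι : Type*} [Fintype ι] (hw : ∀ ω, 0 ≤ w ω) (G : ι → Ω → Prop) :
    wsum w (fun ω => ∃ i, G i ω) ≤ ∑ i, wsum w (G i) := by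
  classical
  simp only [wsum_eq]
  rw [Finset.sum_comm]
  refine Finset.sum_le_sum fun ω _ => ?_
  split_ifs with h
  · obtain ⟨i, hi⟩ := h
    calc w ω = if G i ω then w ω else 0 := by rw [if_pos hi]
      _ ≤ _ := Finset.single_le_sum (f := fun i => if G i ω then w ω else 0)
        (fun i _ => ite_nonneg (hw ω)) (mem_univ i)
  · exact Finset.sum_nonneg fun i _ => by split_ifs; exacts [hw ω, le_rfl]

theorem wsum_le_sum (hw : ∀ ω, 0 ≤ w ω) (S : Finset Ω) (h : ∀ ω, E ω → ω ∈ S) :
    wsum w E ≤ ∑ ω ∈ S, w ω := by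
  classical
  refine Finset.sum_le_sum_of_subset_of_nonneg ?_ fun ω _ _ => hw ω
  intro ω hω
  simp only [mem_filter, mem_univ, true_and] at hω
  exact h ω hω

theorem wsum_false (h : ∀ ω, ¬ E ω) : wsum w E = 0 := by
  classical
  rw [wsum, Finset.filter_eq_empty_iff.2 fun ω _ => h ω, Finset.sum_empty]

/-- If the total weight of an event is less than the weight of the space, there is a point outside
it. -/
theorem exists_not_of_wsum_lt (h : wsum w E < ∑ ω, w ω) : ∃ ω, ¬ E ω := by
  classical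
  by_contra hcon
  push Not at hcon
  rw [wsum, Finset.filter_true_of_mem fun ω _ => hcon ω] at h
  exact lt_irrefl _ h

end wsum

/-- The abstract switching lemma in terms of `wsum`. -/
theorem switching' {Ω X : Type} [Fintype Ω] [Fintype X] [DecidableEq X] (w N : ℕ)
    (wt : Ω → ℝ) (hwt : ∀ ω, 0 ≤ wt ω) (ρ : Ω → X → Option Bool)
    (F : Ω → List (List (X × Bool))) (hF : ∀ ω, ∀ T ∈ F ω, T.length ≤ w)
    (kill : Ω → Finset X → (X → Bool) → Ω)
    (K1 : ∀ ω A σ, (∀ x ∈ A, ρ ω x = none) → ∀ x b, ρ ω x = some b → ρ (kill ω A σ) x = some b)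
    (K2 : ∀ ω A σ, (∀ x ∈ A, ρ ω x = none) → ∀ x ∈ A, ρ (kill ω A σ) x = some (σ x))
    (K3 : ∀ ω A σ, (∀ x ∈ A, ρ ω x = none) → F (kill ω A σ) = F ω)
    (θ : ℝ) (hθ : 0 ≤ θ)
    (K4 : ∀ (A : Finset X) (ω' : Ω), N < A.card → A.card ≤ (N + 1) * w →
      wsum wt (fun ω => (∀ x ∈ A, ρ ω x = none) ∧ ∃ σ, kill ω A σ = ω') ≤ θ * wt ω') :
    wsum wt (fun ω => ¬ DTle N fun z => ∃ T ∈ F ω, TSat T (fill (ρ ω) z))
      ≤ (3 ^ w) ^ (N + 1) * θ * ∑ ω, wt ω := by
  have h := switching w N wt hwt ρ F hF kill K1 K2 K3 θ hθ fun A ω' h1 h2 => by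
    have := K4 A ω' h1 h2
    unfold wsum at this
    convert this
  unfold wsum
  convert h

/-! ### The probability space -/

variable {U : Type} {d : ℕ}

/-- Weight of a level. -/
noncomputable def wL (d : ℕ) (q : ℝ) (i : Fin (d + 1)) : ℝ :=
  if i.1 = d then q ^ d else q ^ i.1 * (1 - q)

/-- Weight of a bit. -/
noncomputable def wB (p : ℝ) (b : Bool) : ℝ := if b = true then p else 1 - p

theorem sum_wB (p : ℝ) : ∑ b, wB p b = 1 := by
  simp [wB]

theorem sum_wL_ge (q : ℝ) : ∀ (d j : ℕ), j ≤ d →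
    ∑ i ∈ univ.filter (fun i : Fin (d + 1) => j ≤ i.1), wL d q i = q ^ j := by
  intro d j hj
  have h1 : ∑ i ∈ univ.filter (fun i : Fin (d + 1) => j ≤ i.1), wL d q i =
      ∑ i ∈ Finset.Ico j (d + 1), if i = d then q ^ d else q ^ i * (1 - q) := by
    refine Finset.sum_bij (fun i _ => i.1) ?_ ?_ ?_ ?_
    · intro i hi
      simp only [mem_filter, mem_univ, true_and] at hi
      simp only [Finset.mem_Ico]
      exact ⟨hi, i.2⟩
    · intro i _ i' _ h
      exact Fin.ext h
    · intro i hi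
      simp only [Finset.mem_Ico] at hi
      exact ⟨⟨i, hi.2⟩, by simpa using hi.1, rfl⟩
    · intro i _
      rfl
  rw [h1, Finset.sum_Ico_succ_top hj, if_pos rfl]
  have h2 : ∑ i ∈ Finset.Ico j d, (if i = d then q ^ d else q ^ i * (1 - q)) =
      ∑ i ∈ Finset.Ico j d, q ^ i * (1 - q) := by
    refine Finset.sum_congr rfl fun i hi => ?_
    rw [if_neg (by simp only [Finset.mem_Ico] at hi; omega)]
  rw [h2]
  clear h1 h2
  induction d, hj using Nat.le_induction with
  | base => simp
  | succ d hd ih =>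
    rw [Finset.sum_Ico_succ_top hd]
    have : q ^ (d + 1) = q ^ d * q := pow_succ _ _
    rw [this]
    linarith

theorem sum_wL (q : ℝ) (d : ℕ) : ∑ i, wL d q i = 1 := by
  have := sum_wL_ge q d 0 (Nat.zero_le _)
  simpa using this

theorem wL_nonneg {q : ℝ} (hq0 : 0 ≤ q) (hq1 : q ≤ 1) (i : Fin (d + 1)) : 0 ≤ wL d q i := by
  unfold wL
  split_ifs
  · positivity
  · exact mul_nonneg (by positivity) (by linarith)

theorem wB_nonneg {p : ℝ} (hp0 : 0 ≤ p) (hp1 : p ≤ 1) (b : Bool) : 0 ≤ wB p b := by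
  unfold wB
  split_ifs <;> linarith

/-- A point of the probability space: the levels of the vertices and the values of the
variables. -/
abbrev Om (U X : Type) (d : ℕ) := (U → Fin (d + 1)) × (X → Bool)

noncomputable def wt [Fintype U] [Fintype X] (q p : ℝ) (ω : Om U X d) : ℝ :=
  (∏ v, wL d q (ω.1 v)) * ∏ x, wB p (ω.2 x)

section

variable [Fintype U] [Fintype X]

theorem wt_nonneg {q p : ℝ} (hq0 : 0 ≤ q) (hq1 : q ≤ 1) (hp0 : 0 ≤ p) (hp1 : p ≤ 1)
    (ω : Om U X d) : 0 ≤ wt q p ω :=
  mul_nonneg (Finset.prod_nonneg fun _ _ => wL_nonneg hq0 hq1 _)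
    (Finset.prod_nonneg fun _ _ => wB_nonneg hp0 hp1 _)

theorem sum_prod_piFinset [DecidableEq U] {α : Type} [DecidableEq α] [Fintype α]
    (S : U → Finset α) (g : U → α → ℝ) :
    ∑ f ∈ Fintype.piFinset S, ∏ v, g v (f v) = ∏ v, ∑ i ∈ S v, g v i :=
  (Finset.prod_univ_sum S g).symm

theorem sum_levels [DecidableEq U] (q : ℝ) : ∑ l : U → Fin (d + 1), ∏ v, wL d q (l v) = 1 := by
  rw [← Fintype.piFinset_univ, sum_prod_piFinset]
  simp [sum_wL]

theorem sum_bits [DecidableEq X] (p : ℝ) : ∑ f : X → Bool, ∏ x, wB p (f x) = 1 := by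
  rw [← Fintype.piFinset_univ, sum_prod_piFinset, Finset.prod_congr rfl fun x _ => sum_wB p]
  simp

theorem sum_wt [DecidableEq U] [DecidableEq X] (q p : ℝ) : ∑ ω : Om U X d, wt q p ω = 1 := by
  rw [Fintype.sum_prod_type]
  simp only [wt]
  have : ∀ l : U → Fin (d + 1), ∑ f : X → Bool, (∏ v, wL d q (l v)) * ∏ x, wB p (f x) =
      ∏ v, wL d q (l v) := by
    intro l
    rw [← Finset.mul_sum, sum_bits, mul_one]
  simp only [this]
  exact sum_levels q

end

/-! ### Restrictions -/

variable (src dst : X → U)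

/-- The stage `j` restriction. -/
def rho (j : ℕ) (ω : Om U X d) : X → Option Bool := fun x =>
  if j ≤ (ω.1 (src x)).1 ∧ j ≤ (ω.1 (dst x)).1 then none else some (ω.2 x)

theorem rho_mono {j j' : ℕ} (hj : j ≤ j') (ω : Om U X d) {x : X} {b : Bool}
    (h : rho src dst j ω x = some b) : rho src dst j' ω x = some b := by
  unfold rho at h ⊢
  split_ifs at h with h1
  rw [if_neg (fun h2 => h1 ⟨hj.trans h2.1, hj.trans h2.2⟩)]
  exact h

theorem fill_fill {ρ ρ' : X → Option Bool} (h : ∀ x b, ρ x = some b → ρ' x = some b)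
    (z : X → Bool) : fill ρ (fill ρ' z) = fill ρ' z := by
  funext x
  unfold fill
  cases hx : ρ x with
  | none => simp
  | some b => simp [h x b hx]

variable [DecidableEq U] [DecidableEq X]

/-- End points of the variables in `A`. -/
def ends (A : Finset X) : Finset U := A.image src ∪ A.image dst

variable {src dst}

theorem card_le_ends (hinj : Function.Injective fun x => (src x, dst x)) (A : Finset X) :
    A.card ≤ (ends src dst A).card ^ 2 := by
  rw [pow_two, ← Finset.card_product]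
  refine Finset.card_le_card_of_injOn (fun x => (src x, dst x)) ?_ hinj.injOn
  intro x hx
  have hx' : x ∈ A := hx
  simp only [ends, Finset.coe_product, Set.mem_prod, Finset.mem_coe, Finset.mem_union,
    Finset.mem_image]
  exact ⟨Or.inl ⟨x, hx', rfl⟩, Or.inr ⟨x, hx', rfl⟩⟩

variable (src dst) in
/-- The kill operation for stage `j + 1`. -/
def kill (j : Fin (d + 1)) (ω : Om U X d) (A : Finset X) (σ : X → Bool) : Om U X d :=
  (fun v => if v ∈ ends src dst A then j else ω.1 v, fun x => if x ∈ A then σ x else ω.2 x)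

theorem src_mem {A : Finset X} {x : X} (hx : x ∈ A) : src x ∈ ends src dst A :=
  Finset.mem_union_left _ (Finset.mem_image_of_mem _ hx)

theorem dst_mem {A : Finset X} {x : X} (hx : x ∈ A) : dst x ∈ ends src dst A :=
  Finset.mem_union_right _ (Finset.mem_image_of_mem _ hx)

theorem rho_none {j : ℕ} {ω : Om U X d} {x : X} :
    rho src dst j ω x = none ↔ j ≤ (ω.1 (src x)).1 ∧ j ≤ (ω.1 (dst x)).1 := by
  unfold rho
  split_ifs with h <;> simp [h]

theorem ends_level {j : ℕ} {ω : Om U X d} {A : Finset X}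
    (hA : ∀ x ∈ A, rho src dst j ω x = none) {v : U} (hv : v ∈ ends src dst A) :
    j ≤ (ω.1 v).1 := by
  simp only [ends, Finset.mem_union, Finset.mem_image] at hv
  rcases hv with ⟨x, hx, rfl⟩ | ⟨x, hx, rfl⟩
  · exact (rho_none.1 (hA x hx)).1
  · exact (rho_none.1 (hA x hx)).2

theorem kill_K1 (j : Fin (d + 1)) (ω : Om U X d) (A : Finset X) (σ : X → Bool)
    (hA : ∀ x ∈ A, rho src dst (j.1 + 1) ω x = none) (x : X) (b : Bool)
    (h : rho src dst (j.1 + 1) ω x = some b) :
    rho src dst (j.1 + 1) (kill src dst j ω A σ) x = some b := by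
  have hxA : x ∉ A := fun hx => by rw [hA x hx] at h; simp at h
  unfold rho at h
  split_ifs at h with h1
  unfold rho kill
  simp only [hxA, if_false]
  rw [if_neg]
  · exact h
  · rintro ⟨h2, h3⟩
    apply h1
    constructor
    · split_ifs at h2 with h4
      · omega
      · exact h2
    · split_ifs at h3 with h4
      · omega
      · exact h3

theorem kill_K2 (j : Fin (d + 1)) (ω : Om U X d) (A : Finset X) (σ : X → Bool) (x : X)
    (hx : x ∈ A) : rho src dst (j.1 + 1) (kill src dst j ω A σ) x = some (σ x) := by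
  unfold rho kill
  simp only [hx, src_mem hx, if_true]
  rw [if_neg]
  omega

theorem kill_K3 (j : Fin (d + 1)) (ω : Om U X d) (A : Finset X) (σ : X → Bool)
    (hA : ∀ x ∈ A, rho src dst (j.1 + 1) ω x = none) :
    rho src dst j.1 (kill src dst j ω A σ) = rho src dst j.1 ω := by
  have key : ∀ v, j.1 ≤ ((kill src dst j ω A σ).1 v).1 ↔ j.1 ≤ (ω.1 v).1 := by
    intro v
    simp only [kill]
    split_ifs with hv
    · have := ends_level hA hv
      constructor
      · intro _; omega
      · intro _; exact le_rfl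
    · rfl
  funext x
  unfold rho
  simp only [key]
  split_ifs with h1
  · rfl
  · have hxA : x ∉ A := by
      intro hx
      have := rho_none.1 (hA x hx)
      exact h1 ⟨by omega, by omega⟩
    simp [kill, hxA]

section weights

variable [Fintype U] [Fintype X]

theorem kill_K4 {q p : ℝ} (hq0 : 0 < q) (hq1 : q ≤ 1 / 2) (hp0 : 0 < p) (hp1 : p ≤ 1 / 2)
    (j : Fin (d + 1)) (hj : j.1 < d) (A : Finset X) (ω' : Om U X d) :
    wsum (wt q p) (fun ω => (∀ x ∈ A, rho src dst (j.1 + 1) ω x = none) ∧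
      ∃ σ, kill src dst j ω A σ = ω') ≤
      ((2 * q) ^ (ends src dst A).card * (1 / p) ^ A.card) * wt q p ω' := by
  have hnn : 0 ≤ wt q p ω' := wt_nonneg hq0.le (by linarith) hp0.le (by linarith) ω'
  by_cases hex : ∃ ω : Om U X d, (∀ x ∈ A, rho src dst (j.1 + 1) ω x = none) ∧
      ∃ σ, kill src dst j ω A σ = ω'
  swap
  · rw [wsum_false fun ω hω => hex ⟨ω, hω⟩]
    positivity
  obtain ⟨ω0, h0A, σ0, h0⟩ := hex
  set SL : U → Finset (Fin (d + 1)) := fun v =>
    if v ∈ ends src dst A then univ.filter (fun i => j.1 + 1 ≤ i.1) else {ω'.1 v} with hSL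
  set SB : X → Finset Bool := fun x => if x ∈ A then univ else {ω'.2 x} with hSB
  have hsub : ∀ ω : Om U X d, ((∀ x ∈ A, rho src dst (j.1 + 1) ω x = none) ∧
      ∃ σ, kill src dst j ω A σ = ω') → ω ∈ Fintype.piFinset SL ×ˢ Fintype.piFinset SB := by
    rintro ω ⟨h1, σ, h2⟩
    rw [Finset.mem_product]
    constructor
    · rw [Fintype.mem_piFinset]
      intro v
      simp only [hSL]
      split_ifs with hv
      · simp only [mem_filter, mem_univ, true_and]
        exact ends_level h1 hv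
      · rw [Finset.mem_singleton, ← h2]
        simp [kill, hv]
    · rw [Fintype.mem_piFinset]
      intro x
      simp only [hSB]
      split_ifs with hx
      · exact mem_univ _
      · rw [Finset.mem_singleton, ← h2]
        simp [kill, hx]
  refine (wsum_le_sum (wt_nonneg hq0.le (by linarith) hp0.le (by linarith)) _ hsub).trans ?_
  rw [Finset.sum_product]
  have h3 : ∑ l ∈ Fintype.piFinset SL, ∑ f ∈ Fintype.piFinset SB,
      wt (d := d) q p ((l, f) : Om U X d) =
      (∏ v, ∑ i ∈ SL v, wL d q i) * ∏ x, ∑ b ∈ SB x, wB p b := by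
    rw [← sum_prod_piFinset SL fun _ i => wL d q i, ← sum_prod_piFinset SB fun _ b => wB p b,
      Finset.sum_mul_sum]
    rfl
  rw [h3]
  have h4 : ∏ v, ∑ i ∈ SL v, wL d q i ≤ (2 * q) ^ (ends src dst A).card *
      ∏ v, wL d q (ω'.1 v) := by
    have : (2 * q) ^ (ends src dst A).card = ∏ v, if v ∈ ends src dst A then 2 * q else 1 := by
      rw [Finset.prod_ite_mem, Finset.univ_inter, Finset.prod_const]
    rw [this, ← Finset.prod_mul_distrib]
    refine Finset.prod_le_prod (fun v _ => Finset.sum_nonneg fun i _ =>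
      wL_nonneg hq0.le (by linarith) i) fun v _ => ?_
    simp only [hSL]
    split_ifs with hv
    · rw [sum_wL_ge q d (j.1 + 1) hj]
      have h5 : ω'.1 v = j := by
        rw [← h0]; simp [kill, hv]
      rw [h5]
      unfold wL
      rw [if_neg (by omega), pow_succ]
      have hqj : 0 < q ^ j.1 * q := by positivity
      have h6 := mul_le_mul_of_nonneg_left (show (1 : ℝ) ≤ 2 * (1 - q) by linarith) hqj.le
      calc q ^ j.1 * q = q ^ j.1 * q * 1 := (mul_one _).symm
        _ ≤ q ^ j.1 * q * (2 * (1 - q)) := h6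
        _ = _ := by ring
    · simp
  have h5 : ∏ x, ∑ b ∈ SB x, wB p b ≤ (1 / p) ^ A.card * ∏ x, wB p (ω'.2 x) := by
    have : (1 / p) ^ A.card = ∏ x, if x ∈ A then 1 / p else 1 := by
      rw [Finset.prod_ite_mem, Finset.univ_inter, Finset.prod_const]
    rw [this, ← Finset.prod_mul_distrib]
    refine Finset.prod_le_prod (fun x _ => Finset.sum_nonneg fun b _ =>
      wB_nonneg hp0.le (by linarith) b) fun x _ => ?_
    simp only [hSB]
    split_ifs with hx
    · rw [sum_wB]
      have h6 : p ≤ wB p (ω'.2 x) := by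
        unfold wB
        split_ifs <;> linarith
      rw [div_mul_eq_mul_div, one_mul, le_div_iff₀ hp0]
      linarith
    · simp
  calc (∏ v, ∑ i ∈ SL v, wL d q i) * ∏ x, ∑ b ∈ SB x, wB p b
      ≤ ((2 * q) ^ (ends src dst A).card * ∏ v, wL d q (ω'.1 v)) *
        ((1 / p) ^ A.card * ∏ x, wB p (ω'.2 x)) := by
        refine mul_le_mul h4 h5 ?_ ?_
        · exact Finset.prod_nonneg fun x _ => Finset.sum_nonneg fun b _ =>
            wB_nonneg hp0.le (by linarith) b
        · exact mul_nonneg (by positivity) (Finset.prod_nonneg fun v _ =>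
            wL_nonneg hq0.le (by linarith) _)
    _ = _ := by rw [wt]; ring

/-- One stage: narrow DNFs become shallow decision trees. -/
theorem stage {q p : ℝ} (hq0 : 0 < q) (hq1 : q ≤ 1 / 2) (hp0 : 0 < p) (hp1 : p ≤ 1 / 2)
    (N : ℕ) (θ : ℝ) (hθ0 : 0 ≤ θ)
    (hθ : ∀ A : Finset X, N < A.card → A.card ≤ (N + 1) * N →
      (2 * q) ^ (ends src dst A).card * (1 / p) ^ A.card ≤ θ)
    (j : Fin (d + 1)) (hj : j.1 < d) (F : (X → Option Bool) → List (List (X × Bool)))
    (hF : ∀ ρ, ∀ T ∈ F ρ, T.length ≤ N) :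
    wsum (wt q p) (fun ω : Om U X d => ¬ DTle N fun z =>
      ∃ T ∈ F (rho src dst j.1 ω), TSat T (fill (rho src dst (j.1 + 1) ω) z))
      ≤ (3 ^ N) ^ (N + 1) * θ := by
  have h0 := switching' (Ω := Om U X d) N N (wt q p)
    (wt_nonneg hq0.le (by linarith) hp0.le (by linarith)) (rho src dst (j.1 + 1))
    (fun ω => F (rho src dst j.1 ω)) (fun ω => hF _) (kill src dst j) (kill_K1 j)
    (fun ω A σ _ x hx => kill_K2 j ω A σ x hx)
    (fun ω A σ hA => by rw [kill_K3 j ω A σ hA]) θ hθ0 ?_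
  · rw [sum_wt, mul_one] at h0
    exact h0
  · intro A ω' h1 h2
    refine (kill_K4 hq0 hq1 hp0 hp1 j hj A ω').trans ?_
    exact mul_le_mul_of_nonneg_right (hθ A h1 h2)
      (wt_nonneg hq0.le (by linarith) hp0.le (by linarith) _)

/-- All functions of bounded-depth formulas become shallow decision trees. -/
theorem ac_switch {q p : ℝ} (hq0 : 0 < q) (hq1 : q ≤ 1 / 2) (hp0 : 0 < p) (hp1 : p ≤ 1 / 2)
    (N : ℕ) (hN : 1 ≤ N) (θ : ℝ) (hθ0 : 0 ≤ θ)
    (hθ : ∀ A : Finset X, N < A.card → A.card ≤ (N + 1) * N →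
      (2 * q) ^ (ends src dst A).card * (1 / p) ^ A.card ≤ θ)
    {s j : ℕ} {f : (X → Bool) → Prop} (hf : AC s j f) (hj : j ≤ d) :
    wsum (wt q p) (fun ω : Om U X d => ¬ DTle N fun z => f (fill (rho src dst j ω) z))
      ≤ (s + 1) ^ j * ((3 ^ N) ^ (N + 1) * θ) := by
  have hnn : ∀ ω : Om U X d, 0 ≤ wt q p ω :=
    wt_nonneg hq0.le (by linarith) hp0.le (by linarith)
  have hε : 0 ≤ ((3 : ℝ) ^ N) ^ (N + 1) * θ := by positivity
  -- the step for an OR gate
  have step : ∀ (j : ℕ) (m : ℕ) (_ : m ≤ s) (g : Fin m → (X → Bool) → Prop) (_ : j + 1 ≤ d)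
      (_ : ∀ i, wsum (wt q p) (fun ω : Om U X d => ¬ DTle N fun z =>
        g i (fill (rho src dst j ω) z)) ≤ (s + 1) ^ j * ((3 ^ N) ^ (N + 1) * θ)),
      wsum (wt q p) (fun ω : Om U X d => ¬ DTle N fun z =>
        ∃ i, g i (fill (rho src dst (j + 1) ω) z)) ≤
        (s + 1) ^ (j + 1) * ((3 ^ N) ^ (N + 1) * θ) := by
    intro j m hm g hjd hg
    have hFex : ∀ ρ : X → Option Bool, ∃ F : List (List (X × Bool)), (∀ T ∈ F, T.length ≤ N) ∧
        ((∀ i, DTle N fun z => g i (fill ρ z)) →
          ∀ z, (∃ T ∈ F, TSat T z) ↔ ∃ i, g i (fill ρ z)) := by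
      intro ρ
      by_cases h : ∀ i, DTle N fun z => g i (fill ρ z)
      · obtain ⟨F, h1, h2⟩ := exists_dnf (fun i z => g i (fill ρ z)) h
        exact ⟨F, h1, fun _ => h2⟩
      · exact ⟨[], by simp, fun h' => absurd h' h⟩
    choose F hF1 hF2 using hFex
    have hstage := stage (src := src) (dst := dst) hq0 hq1 hp0 hp1 N θ hθ0 hθ
      ⟨j, by omega⟩ hjd F hF1
    have hsub : ∀ ω : Om U X d, (¬ DTle N fun z => ∃ i, g i (fill (rho src dst (j + 1) ω) z)) →
        (∃ i, ¬ DTle N fun z => g i (fill (rho src dst j ω) z)) ∨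
        ¬ DTle N fun z =>
          ∃ T ∈ F (rho src dst j ω), TSat T (fill (rho src dst (j + 1) ω) z) := by
      intro ω hω
      by_cases h : ∀ i, DTle N fun z => g i (fill (rho src dst j ω) z)
      · right
        intro h'
        apply hω
        refine h'.congr fun z => ?_
        rw [hF2 _ h]
        simp only [fill_fill fun x b hx => rho_mono src dst (Nat.le_succ j) ω hx]
      · left
        simpa using h
    refine (wsum_mono hnn hsub).trans ?_
    refine (wsum_or hnn).trans ?_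
    refine (add_le_add ((wsum_exists hnn _).trans (Finset.sum_le_sum fun i _ => hg i))
      hstage).trans ?_
    rw [Finset.sum_const, Finset.card_univ, Fintype.card_fin, nsmul_eq_mul]
    set ε := ((3 : ℝ) ^ N) ^ (N + 1) * θ
    have h1 : (1 : ℝ) ≤ (s + 1) ^ j := one_le_pow₀ (by linarith [Nat.cast_nonneg (α := ℝ) s])
    have h2 : (m : ℝ) ≤ s := by exact_mod_cast hm
    have h3 : (0 : ℝ) ≤ (s + 1) ^ j * ε := by positivity
    calc (m : ℝ) * ((s + 1) ^ j * ε) + ε ≤ s * ((s + 1) ^ j * ε) + (s + 1) ^ j * ε := by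
          refine add_le_add (mul_le_mul_of_nonneg_right h2 h3) ?_
          exact le_mul_of_one_le_left hε h1
      _ = (s + 1) ^ (j + 1) * ε := by ring
  induction hf with
  | lit x b =>
    rw [wsum_false]
    · positivity
    · intro ω
      rw [not_not]
      refine ((DTle.lit x b).mono hN).congr fun z => ?_
      simp [fill, rho]
  | @ex j m hm g hg ih =>
    exact step j m hm g hj fun i => ih i (by omega)
  | @all j m hm g hg ih =>
    have h1 := step j m hm (fun i z => ¬ g i z) hj fun i => ?_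
    · refine le_trans (le_of_eq ?_) h1
      refine wsum_congr fun ω => ?_
      rw [not_iff_not]
      constructor
      · intro h
        exact h.not.congr fun z => not_forall
      · intro h
        exact h.not.congr fun z => by simp
    · refine le_trans (le_of_eq ?_) (ih i (by omega))
      refine wsum_congr fun ω => ?_
      rw [not_iff_not]
      constructor
      · intro h
        exact h.not.congr fun z => not_not
      · intro h
        exact h.not

end weights

end Pool.Agent.W_MP_5f6b2a_lc
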