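import Pool.Agent.W_MP_5f6b2a_lc.Restrict

/-!
Choice of the parameters.
-/

namespace Pool.Agent.W_MP_5f6b2a_lc

open Finset

theorem card_P (a : ℕ) : ∀ t, Fintype.card (P a t) = a ^ (3 * (2 ^ t - 1))
  | 0 => by
    show Fintype.card Unit = _
    simp
  | t + 1 => by
    have h : Fintype.card (P a (t + 1)) =
        Fintype.card (P a t × (Fin (bfan a t) × Fin (a ^ 2))) := rfl
    rw [h, Fintype.card_prod, Fintype.card_prod, Fintype.card_fin, Fintype.card_fin, card_P a t,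
      bfan, ← pow_add, ← pow_add]
    congr 1
    have : 1 ≤ 2 ^ t := Nat.one_le_two_pow
    rw [pow_succ]
    omega

/-- Exponent of the number of leaves. -/
def kap (t d : ℕ) : ℕ := 6 * (2 ^ t - 1) + d + 2

theorem card_leaves (a t d : ℕ) : Fintype.card (Leaves a t (a ^ (d + 1))) = a ^ kap t d := by
  rw [Fintype.card_prod, Fintype.card_prod, Fintype.card_fin, Fintype.card_fin, card_P, bfan,
    ← pow_add, ← pow_add, kap]
  congr 1
  omega

theorem one_add_pow_sub_one_le {y : ℝ} (hy : 0 ≤ y) (n : ℕ) (h : n * y ≤ 1 / 2) :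
    (1 + y) ^ n - 1 ≤ 2 * (n * y) := by
  have h1 : (1 + y) ^ n ≤ Real.exp (n * y) := by
    rw [Real.exp_nat_mul]
    have := Real.add_one_le_exp y
    exact pow_le_pow_left₀ (by linarith) (by linarith) n
  have h2 : Real.exp (n * y) ≤ 1 + 2 * (n * y) := by
    have h3 := Real.add_one_le_exp (-(n * y))
    have h4 : 0 ≤ (n : ℝ) * y := by positivity
    have h5 : Real.exp (n * y) * Real.exp (-(n * y)) = 1 := by
      rw [← Real.exp_add]; simp
    have h6 := Real.exp_pos (n * y)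
    nlinarith
  linarith

theorem pow_mul_exp_le (a : ℝ) (ha : 0 < a) (κ : ℕ) :
    a ^ κ * Real.exp (-a) ≤ (κ + 1).factorial / a := by
  have h := Real.pow_div_factorial_le_exp a ha.le (κ + 1)
  rw [div_le_iff₀ (by positivity)] at h
  rw [Real.exp_neg, ← div_eq_mul_inv, div_le_div_iff₀ (Real.exp_pos _) ha, ← pow_succ]
  linarith

/-- Main theorem about restrictions. -/
theorem stageC (t d c' : ℕ) : ∃ N k h π₀ : ℕ, 1 ≤ k ∧ 1 ≤ h ∧ ∀ π, π₀ ≤ π →
    ∀ (ι : Type) [Fintype ι] (s : ℕ), Fintype.card ι ≤ (π ^ h) ^ c' → s ≤ (π ^ h) ^ c' →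
    ∀ f : ι → (EdgeVar (Fin k × Fin ((π ^ h) ^ kap t d))
      (Leaves (π ^ h) t ((π ^ h) ^ (d + 1))) → Bool) → Prop, (∀ i, AC s d (f i)) →
    ∃ sub : (P (π ^ h) t × Fin (bfan (π ^ h) t) → Bool) →
      EdgeVar (Fin k × Fin ((π ^ h) ^ kap t d)) (Leaves (π ^ h) t ((π ^ h) ^ (d + 1))) → Bool,
      (∀ i, DTle N fun y => f i (sub y)) ∧
      ∀ y, Src (π ^ h) t k (sub y) ↔ treeB (π ^ h) t fun l => y l = true := by
  set r := c' * d + c' + 3 with hr
  have hr3 : 3 ≤ r := by rw [hr]; exact Nat.le_add_left _ _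
  have hr2 : 9 ≤ r ^ 2 := by
    calc 9 = 3 ^ 2 := by norm_num
      _ ≤ r ^ 2 := Nat.pow_le_pow_left hr3 2
  set N := r ^ 2 - 1 with hN
  have hN1 : N + 1 = r ^ 2 := by omega
  have hN8 : 8 ≤ N := by omega
  set h := N * (N + 1) with hh
  have hh1 : 1 ≤ h := Nat.mul_pos (by omega) (by omega)
  set κ := kap t d with hκ
  set k := h * κ + 3 with hk
  set K : ℕ := (3 ^ N) ^ (N + 1) with hK
  set C : ℕ := 2 ^ d * K * 2 ^ r + (k + 1) * (κ + 1).factorial + 2 ^ k * (2 * k) + 1 with hC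
  clear_value C K k κ h N r
  refine ⟨N, k, h, C + 1 + 4 * k, by omega, hh1, ?_⟩
  intro π hπ
  set a := π ^ h with ha
  clear_value a
  intro ι _ s hι hs f hf
  have hπ4 : 4 * k + 2 ≤ π := by omega
  have hπ2 : 2 ≤ π := by omega
  have hπa : π ≤ a := by rw [ha]; exact Nat.le_self_pow (Nat.pos_iff_ne_zero.1 hh1) π
  have ha2 : 2 ≤ a := hπ2.trans hπa
  have : NeZero (a ^ κ) := ⟨by positivity⟩
  have : NeZero k := ⟨by omega⟩
  -- real versions
  have hπR : (2 : ℝ) ≤ π := by exact_mod_cast hπ2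
  have haR : (2 : ℝ) ≤ a := by exact_mod_cast ha2
  have hπaR : (π : ℝ) ≤ a := by exact_mod_cast hπa
  have hπ0 : (0 : ℝ) < π := by linarith
  have ha0 : (0 : ℝ) < a := by linarith
  have haπ : (a : ℝ) = (π : ℝ) ^ h := by rw [ha]; push_cast; rfl
  have hM1 : a ^ (d + 1) ≤ a ^ κ := Nat.pow_le_pow_right (by omega) (by
    rw [hκ, kap]; omega)
  refine exists_sub (d := d) (q := 1 / a) (p := 1 / π) (by positivity) ?_ (by positivity) ?_ N
    (by omega) ((2 * (1 / a)) ^ r * a) (by positivity) ?_ s (a ^ (d + 1)) hM1 le_rfl f hf ?_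
  · rw [div_le_div_iff₀ ha0 (by norm_num)]; linarith
  · rw [div_le_div_iff₀ hπ0 (by norm_num)]; linarith
  · intro A hA1 hA2
    have hends := card_le_ends (e_inj) A
    have h1 : r ≤ (ends esrc edst A).card := by
      by_contra hlt
      push Not at hlt
      have : (ends (esrc (V := Fin k × Fin (a ^ κ)) (J := Leaves a t (a ^ (d + 1)))) edst A).card ^ 2
        < r ^ 2 := Nat.pow_lt_pow_left hlt (by norm_num)
      omega
    have h2 : (2 * (1 / (a : ℝ))) ≤ 1 := by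
      rw [mul_one_div, div_le_one ha0]; exact haR
    have h3 : (1 / (1 / (π : ℝ))) ^ A.card ≤ a := by
      rw [one_div_one_div, haπ]
      refine pow_le_pow_right₀ (by linarith) ?_
      rw [hh, mul_comm]; exact hA2
    refine mul_le_mul (pow_le_pow_of_le_one (by positivity) h2 h1) h3 (by positivity)
      (by positivity)
  · have hT1 : (Fintype.card ι : ℝ) * (((s : ℝ) + 1) ^ d * (((3 : ℝ) ^ N) ^ (N + 1) *
        ((2 * (1 / a)) ^ r * a))) ≤ (2 ^ d * K * 2 ^ r : ℕ) / π := by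
      have e1 : (Fintype.card ι : ℝ) ≤ (a : ℝ) ^ c' := by exact_mod_cast hι
      have e2 : (s : ℝ) + 1 ≤ 2 * (a : ℝ) ^ c' := by
        have : (s : ℝ) ≤ (a : ℝ) ^ c' := by exact_mod_cast hs
        have h1 : (1 : ℝ) ≤ (a : ℝ) ^ c' := one_le_pow₀ (by linarith)
        linarith
      have e3 : ((s : ℝ) + 1) ^ d ≤ (2 * (a : ℝ) ^ c') ^ d :=
        pow_le_pow_left₀ (by positivity) e2 d
      have e4 : (Fintype.card ι : ℝ) * (((s : ℝ) + 1) ^ d * (((3 : ℝ) ^ N) ^ (N + 1) *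
        ((2 * (1 / a)) ^ r * a))) ≤ (a : ℝ) ^ c' * ((2 * (a : ℝ) ^ c') ^ d *
          (((3 : ℝ) ^ N) ^ (N + 1) * ((2 * (1 / a)) ^ r * a))) := by
        gcongr
      refine e4.trans ?_
      have e5 : (a : ℝ) ^ c' * ((2 * (a : ℝ) ^ c') ^ d *
          (((3 : ℝ) ^ N) ^ (N + 1) * ((2 * (1 / a)) ^ r * a))) =
          (2 ^ d * ((3 : ℝ) ^ N) ^ (N + 1) * 2 ^ r) * ((a : ℝ) ^ (c' * d + c' + 1) * (1 / a) ^ r) := by
        rw [mul_pow, mul_pow, ← pow_mul (a : ℝ) c' d]
        ring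
      rw [e5]
      have e6 : (a : ℝ) ^ (c' * d + c' + 1) * (1 / a) ^ r = (1 / a) ^ 2 := by
        have : r = (c' * d + c' + 1) + 2 := by omega
        rw [this, pow_add (1 / (a : ℝ)), ← mul_assoc, ← mul_pow, mul_one_div_cancel ha0.ne',
          one_pow, one_mul]
      rw [e6]
      have e7 : (1 / (a : ℝ)) ^ 2 ≤ 1 / π := by
        have e8 : 1 / (a : ℝ) ≤ 1 / π := one_div_le_one_div_of_le hπ0 hπaR
        have e9 : 1 / (a : ℝ) ≤ 1 := by rw [div_le_one ha0]; linarith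
        have e10 : 0 ≤ 1 / (a : ℝ) := by positivity
        nlinarith
      have e11 : ((2 ^ d * K * 2 ^ r : ℕ) : ℝ) = 2 ^ d * ((3 : ℝ) ^ N) ^ (N + 1) * 2 ^ r := by
        rw [hK]; push_cast; ring
      rw [e11]
      calc _ ≤ (2 ^ d * ((3 : ℝ) ^ N) ^ (N + 1) * 2 ^ r) * (1 / π) :=
            mul_le_mul_of_nonneg_left e7 (by positivity)
        _ = _ := by ring
    have hT2 : (Fintype.card (Fin k ⊕ (P a t × Fin (bfan a t))) : ℝ) *
        (1 - (1 / (a : ℝ)) ^ d) ^ (a ^ (d + 1)) ≤ ((k + 1) * (κ + 1).factorial : ℕ) / π := by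
      have e1 : (Fintype.card (Fin k ⊕ (P a t × Fin (bfan a t))) : ℝ) ≤ (k + 1) * (a : ℝ) ^ κ := by
        have : Fintype.card (Fin k ⊕ (P a t × Fin (bfan a t))) ≤ (k + 1) * a ^ κ := by
          rw [Fintype.card_sum, Fintype.card_prod, Fintype.card_fin, Fintype.card_fin, card_P,
            bfan, ← pow_add]
          have h1 : a ^ (3 * (2 ^ t - 1) + (3 * (2 ^ t - 1) + 1)) ≤ a ^ κ :=
            Nat.pow_le_pow_right (by omega) (by rw [hκ, kap]; omega)
          have h2 : k * 1 ≤ k * a ^ κ := Nat.mul_le_mul_left _ (Nat.one_le_pow _ _ (by omega))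
          rw [Nat.add_mul, one_mul]
          omega
        exact_mod_cast this
      have e2 : (1 - (1 / (a : ℝ)) ^ d) ^ (a ^ (d + 1)) ≤ Real.exp (-a) := by
        have h1 : (1 / (a : ℝ)) ^ d ≤ 1 := pow_le_one₀ (by positivity) (by
          rw [div_le_one ha0]; linarith)
        have h2 : 1 - (1 / (a : ℝ)) ^ d ≤ Real.exp (-(1 / (a : ℝ)) ^ d) := by
          have := Real.add_one_le_exp (-(1 / (a : ℝ)) ^ d)
          linarith
        refine (pow_le_pow_left₀ (by linarith) h2 _).trans (le_of_eq ?_)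
        rw [← Real.exp_nat_mul]
        congr 1
        push_cast
        rw [pow_succ]
        have : (a : ℝ) ^ d * (1 / (a : ℝ)) ^ d = 1 := by
          rw [← mul_pow, mul_one_div_cancel ha0.ne', one_pow]
        calc (a : ℝ) ^ d * a * -(1 / (a : ℝ)) ^ d = -((a : ℝ) ^ d * (1 / (a : ℝ)) ^ d * a) := by
              ring
          _ = -a := by rw [this, one_mul]
      have e2' : 0 ≤ (1 - (1 / (a : ℝ)) ^ d) ^ (a ^ (d + 1)) := by
        have h1 : (1 / (a : ℝ)) ^ d ≤ 1 := pow_le_one₀ (by positivity) (by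
          rw [div_le_one ha0]; linarith)
        exact pow_nonneg (by linarith) _
      calc _ ≤ ((k + 1) * (a : ℝ) ^ κ) * Real.exp (-a) :=
            mul_le_mul e1 e2 e2' (by positivity)
        _ = (k + 1) * ((a : ℝ) ^ κ * Real.exp (-a)) := by ring
        _ ≤ (k + 1) * ((κ + 1).factorial / a) :=
            mul_le_mul_of_nonneg_left (pow_mul_exp_le a ha0 κ) (by positivity)
        _ ≤ (k + 1) * ((κ + 1).factorial / π) := by
            refine mul_le_mul_of_nonneg_left ?_ (by positivity)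
            exact div_le_div_of_nonneg_left (by positivity) hπ0 hπaR
        _ = _ := by push_cast; ring
    have hy : (1 / (π : ℝ)) ^ (k - 1) * (a : ℝ) ^ κ = (1 / π) ^ 2 := by
      have : k - 1 = h * κ + 2 := by omega
      rw [this, pow_add, haπ, ← pow_mul, mul_comm, ← mul_assoc, ← mul_pow,
        mul_one_div_cancel hπ0.ne', one_pow, one_mul]
    have hπ1 : (1 / (π : ℝ)) ^ 2 ≤ 1 / π := by
      have e9 : 1 / (π : ℝ) ≤ 1 := by rw [div_le_one hπ0]; linarith
      have e10 : 0 ≤ 1 / (π : ℝ) := by positivity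
      nlinarith
    have hT3 : (2 : ℝ) ^ k * ((1 + (1 / (π : ℝ)) ^ (k - 1)) ^
        Fintype.card (Fin k × Fin (a ^ κ)) - 1) ≤ (2 ^ k * (2 * k) : ℕ) / π := by
      have hcard : Fintype.card (Fin k × Fin (a ^ κ)) = k * a ^ κ := by simp
      rw [hcard]
      have e1 : ((k * a ^ κ : ℕ) : ℝ) * (1 / (π : ℝ)) ^ (k - 1) = k * (1 / π) ^ 2 := by
        push_cast
        rw [mul_assoc, mul_comm ((a : ℝ) ^ κ), hy]
      have e2 : (k : ℝ) * (1 / π) ^ 2 ≤ k * (1 / π) :=
        mul_le_mul_of_nonneg_left hπ1 (by positivity)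
      have e3 : (k : ℝ) * (1 / π) ≤ 1 / 2 := by
        rw [mul_one_div, div_le_div_iff₀ hπ0 (by norm_num)]
        have : ((4 * k + 2 : ℕ) : ℝ) ≤ π := by exact_mod_cast hπ4
        push_cast at this
        have hk0 : (0 : ℝ) ≤ k := by positivity
        linarith
      have e4 := one_add_pow_sub_one_le (y := (1 / (π : ℝ)) ^ (k - 1)) (by positivity) (k * a ^ κ)
        (by rw [e1]; linarith)
      rw [e1] at e4
      calc _ ≤ (2 : ℝ) ^ k * (2 * (k * (1 / π) ^ 2)) :=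
            mul_le_mul_of_nonneg_left e4 (by positivity)
        _ ≤ (2 : ℝ) ^ k * (2 * (k * (1 / π))) := by gcongr
        _ = _ := by push_cast; ring
    have hT4 : (Fintype.card (Leaves a t (a ^ (d + 1))) : ℝ) * (1 / (π : ℝ)) ^ k ≤ (1 : ℕ) / π := by
      rw [card_leaves, ← hκ]
      have e1 : k = (k - 1) + 1 := by omega
      rw [e1, pow_succ]
      push_cast
      have e2 : (a : ℝ) ^ κ * ((1 / (π : ℝ)) ^ (k - 1) * (1 / π)) = (1 / π) ^ 2 * (1 / π) := by
        rw [← hy]; ring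
      rw [e2]
      have e9 : 1 / (π : ℝ) ≤ 1 := by rw [div_le_one hπ0]; linarith
      have e10 : 0 ≤ 1 / (π : ℝ) := by positivity
      have e11 : 0 ≤ (1 / (π : ℝ)) ^ 2 := by positivity
      nlinarith
    have hCπ : ((C : ℕ) : ℝ) / π < 1 := by
      rw [div_lt_one hπ0]
      have : C < π := by omega
      exact_mod_cast this
    have hCsum : ((C : ℕ) : ℝ) / π = (2 ^ d * K * 2 ^ r : ℕ) / π +
        ((k + 1) * (κ + 1).factorial : ℕ) / π + (2 ^ k * (2 * k) : ℕ) / π + (1 : ℕ) / π := by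
      rw [hC]
      push_cast
      ring
    linarith

end Pool.Agent.W_MP_5f6b2a_lc
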