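import Pool.Agent.W_MP_5f6b2a_lc.DT

/-!
An abstract switching lemma.
-/

namespace Pool.Agent.W_MP_5f6b2a_lc

open Finset

variable {X : Type}

/-- `z` satisfies the term `T`. -/
def TSat (T : List (X × Bool)) (z : X → Bool) : Prop := ∀ p ∈ T, z p.1 = p.2

/-- The partial assignment `τ` satisfies the term `T`. -/
def PSat (T : List (X × Bool)) (τ : X → Option Bool) : Prop := ∀ p ∈ T, τ p.1 = some p.2

/-- `z` is a total extension of `ρ`. -/
def Exts (ρ : X → Option Bool) (z : X → Bool) : Prop := ∀ x b, ρ x = some b → z x = b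

/-- No total extension of `ρ` satisfies `T`. -/
def Fals (ρ : X → Option Bool) (T : List (X × Bool)) : Prop := ∀ z, Exts ρ z → ¬ TSat T z

theorem exts_fill (ρ : X → Option Bool) (z : X → Bool) : Exts ρ (fill ρ z) := by
  intro x b h
  simp [fill, h]

theorem find_trans {α : Type*} {p p' : α → Bool} {F : List α} {T : α}
    (h : F.find? p = some T) (hp : ∀ S ∈ F, p' S = true → p S = true) (hT : p' T = true) :
    F.find? p' = some T := by
  induction F with
  | nil => simp at h
  | cons S F ih =>
    rw [List.find?_cons] at h ⊢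
    by_cases hS : p S = true
    · rw [hS] at h
      simp only [Option.some.injEq] at h
      subst h
      rw [hT]
    · have hS' : p' S ≠ true := fun h' => hS (hp S (by simp) h')
      have hS1 : p S = false := by simpa using hS
      have hS2 : p' S = false := by simpa using hS'
      rw [hS1] at h
      rw [hS2]
      exact ih h fun S' hS' => hp S' (by simp [hS'])

open Classical in
/-- First term of `F` not falsified by `ρ`. -/
noncomputable def firstNF (F : List (List (X × Bool))) (ρ : X → Option Bool) :
    Option (List (X × Bool)) := F.find? fun T => decide (¬ Fals ρ T)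

open Classical in
/-- First term of `F` satisfied by `τ`. -/
noncomputable def firstSat (F : List (List (X × Bool))) (τ : X → Option Bool) :
    Option (List (X × Bool)) := F.find? fun T => decide (PSat T τ)

/-- Overwrite `ρ` by `π` on `β`. -/
def ovr [DecidableEq X] (ρ : X → Option Bool) (β : Finset X) (π : X → Bool) : X → Option Bool :=
  fun x => if x ∈ β then some (π x) else ρ x

/-- The variables of `T` not set by `ρ`. -/
def stars [DecidableEq X] (ρ : X → Option Bool) (T : List (X × Bool)) : Finset X :=
  (T.map Prod.fst).toFinset.filter fun x => ρ x = none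

theorem mem_stars [DecidableEq X] {ρ : X → Option Bool} {T : List (X × Bool)} {x : X} :
    x ∈ stars ρ T ↔ (∃ b, (x, b) ∈ T) ∧ ρ x = none := by
  simp [stars]

theorem card_stars_le [DecidableEq X] (ρ : X → Option Bool) (T : List (X × Bool)) :
    (stars ρ T).card ≤ T.length := by
  refine (Finset.card_filter_le _ _).trans ?_
  refine (List.toFinset_card_le _).trans ?_
  simp

/-- Code of the part `β` of the term `T` with the values `π`. -/
def enc [DecidableEq X] (w : ℕ) (T : List (X × Bool)) (β : Finset X) (π : X → Bool) :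
    Fin w → Option Bool := fun p =>
  match T[p.1]? with
  | none => none
  | some q => if q.1 ∈ β then some (π q.1) else none

open Classical in
noncomputable def decB [Fintype X] {w : ℕ} (T : List (X × Bool)) (c : Fin w → Option Bool) :
    Finset X := univ.filter fun x => ∃ p : Fin w, ∃ b b', T[p.1]? = some (x, b) ∧ c p = some b'

open Classical in
noncomputable def decP {w : ℕ} (T : List (X × Bool)) (c : Fin w → Option Bool) : X → Bool :=
  fun x => decide (∃ p : Fin w, ∃ b, T[p.1]? = some (x, b) ∧ c p = some true)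

theorem enc_some [DecidableEq X] {w : ℕ} {T : List (X × Bool)} {β : Finset X} {π : X → Bool}
    {p : Fin w} {x : X} {b : Bool} (h : T[p.1]? = some (x, b)) :
    enc w T β π p = if x ∈ β then some (π x) else none := by
  simp [enc, h]

theorem decB_enc [Fintype X] [DecidableEq X] {w : ℕ} {T : List (X × Bool)} {β : Finset X}
    {π : X → Bool} (hT : T.length ≤ w) (hβ : ∀ x ∈ β, ∃ b, (x, b) ∈ T) :
    decB T (enc w T β π) = β := by
  ext x
  simp only [decB, mem_filter, mem_univ, true_and]
  constructor
  · rintro ⟨p, b, b', h1, h2⟩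
    rw [enc_some h1] at h2
    by_contra hx
    simp [hx] at h2
  · intro hx
    obtain ⟨b, hb⟩ := hβ x hx
    obtain ⟨i, hi, hib⟩ := List.getElem_of_mem hb
    refine ⟨⟨i, hi.trans_le hT⟩, b, π x, ?_, ?_⟩
    · rw [List.getElem?_eq_getElem hi, hib]
    · rw [enc_some (b := b) (by rw [List.getElem?_eq_getElem hi, hib]), if_pos hx]

theorem decP_enc [DecidableEq X] {w : ℕ} {T : List (X × Bool)} {β : Finset X}
    {π : X → Bool} (hT : T.length ≤ w) (hβ : ∀ x ∈ β, ∃ b, (x, b) ∈ T) {x : X} (hx : x ∈ β) :
    decP T (enc w T β π) x = π x := by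
  rw [Bool.eq_iff_iff]
  simp only [decP, decide_eq_true_eq]
  constructor
  · rintro ⟨p, b, h1, h2⟩
    rw [enc_some h1, if_pos hx] at h2
    simpa using h2
  · intro hπ
    obtain ⟨b, hb⟩ := hβ x hx
    obtain ⟨i, hi, hib⟩ := List.getElem_of_mem hb
    refine ⟨⟨i, hi.trans_le hT⟩, b, ?_, ?_⟩
    · rw [List.getElem?_eq_getElem hi, hib]
    · rw [enc_some (b := b) (by rw [List.getElem?_eq_getElem hi, hib]), if_pos hx, hπ]

/-- Decoding. -/
noncomputable def decA [Fintype X] [DecidableEq X] {w : ℕ} (F : List (List (X × Bool))) :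
    (s : ℕ) → (X → Option Bool) → (Fin s → Fin w → Option Bool) → Finset X
  | 0, _, _ => ∅
  | s + 1, τ, c =>
    match firstSat F τ with
    | none => ∅
    | some T => decB T (c 0) ∪ decA F s (ovr τ (decB T (c 0)) (decP T (c 0))) (Fin.tail c)

/-- Witnesses for long paths in the canonical decision tree. -/
inductive Wit [DecidableEq X] (w : ℕ) (F : List (List (X × Bool))) :
    (s : ℕ) → (X → Option Bool) → Finset X → (X → Bool) → (Fin s → Fin w → Option Bool) → Prop
  | stop (s : ℕ) (ρ : X → Option Bool) (σ : X → Bool) : Wit w F s ρ ∅ σ fun _ _ => none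
  | step (s : ℕ) (ρ : X → Option Bool) (T : List (X × Bool)) (π : X → Bool) (A : Finset X)
      (σ : X → Bool) (c : Fin s → Fin w → Option Bool) (hT : firstNF F ρ = some T)
      (hσ : ∀ p ∈ T, p.1 ∈ stars ρ T → σ p.1 = p.2)
      (h : Wit w F s (ovr ρ (stars ρ T) π) A σ c) :
      Wit w F (s + 1) ρ (stars ρ T ∪ A) σ (Fin.cons (enc w T (stars ρ T) π) c)

theorem decB_none [Fintype X] {w : ℕ} (T : List (X × Bool)) :
    decB T (fun _ : Fin w => (none : Option Bool)) = ∅ := by
  ext x
  simp [decB]

theorem decA_none [Fintype X] [DecidableEq X] {w : ℕ} (F : List (List (X × Bool))) (s : ℕ) :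
    ∀ τ, decA (w := w) F s τ (fun _ _ => none) = ∅ := by
  induction s with
  | zero => intro τ; rfl
  | succ s ih =>
    intro τ
    rw [decA]
    cases firstSat F τ with
    | none => rfl
    | some T =>
      have : (Fin.tail fun (_ : Fin (s + 1)) (_ : Fin w) => (none : Option Bool)) =
          fun _ _ => none := rfl
      simp only [decB_none, this, ih, Finset.empty_union]

section

variable {w : ℕ} {F : List (List (X × Bool))}

theorem firstNF_mem {ρ : X → Option Bool} {T : List (X × Bool)} (h : firstNF F ρ = some T) :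
    T ∈ F := List.mem_of_find?_eq_some h

theorem firstNF_not {ρ : X → Option Bool} {T : List (X × Bool)} (h : firstNF F ρ = some T) :
    ¬ Fals ρ T := by
  have := List.find?_some h
  simpa using this

variable [DecidableEq X]

theorem Wit.stars {s : ℕ} {ρ : X → Option Bool} {A : Finset X} {σ : X → Bool}
    {c : Fin s → Fin w → Option Bool} (h : Wit w F s ρ A σ c) : ∀ x ∈ A, ρ x = none := by
  induction h with
  | stop s ρ σ => simp
  | step s ρ T π A σ c hT hσ h ih =>
    intro x hx
    rcases Finset.mem_union.1 hx with hx | hx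
    · exact (mem_stars.1 hx).2
    · have := ih x hx
      unfold ovr at this
      split_ifs at this with h'
      exact this

theorem Wit.disjoint {ρ : X → Option Bool} {β A : Finset X} {π : X → Bool}
    (h : ∀ x ∈ A, ovr ρ β π x = none) : Disjoint β A := by
  rw [Finset.disjoint_left]
  intro x hx hxA
  have := h x hxA
  simp [ovr, hx] at this

theorem Wit.card_le {s : ℕ} {ρ : X → Option Bool} {A : Finset X} {σ : X → Bool}
    {c : Fin s → Fin w → Option Bool} (h : Wit w F s ρ A σ c) (hF : ∀ T ∈ F, T.length ≤ w) :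
    A.card ≤ s * w := by
  induction h with
  | stop s ρ σ => simp
  | step s ρ T π A σ c hT hσ h ih =>
    refine (Finset.card_union_le _ _).trans ?_
    have := (card_stars_le ρ T).trans (hF T (firstNF_mem hT))
    rw [Nat.add_mul, one_mul]
    omega

theorem Wit.congr {s : ℕ} {ρ : X → Option Bool} {A : Finset X} {σ σ' : X → Bool}
    {c : Fin s → Fin w → Option Bool} (h : Wit w F s ρ A σ c) (hσ' : ∀ x ∈ A, σ x = σ' x) :
    Wit w F s ρ A σ' c := by
  induction h with
  | stop s ρ σ => exact Wit.stop _ _ _
  | step s ρ T π A σ c hT hσ h ih =>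
    refine Wit.step s ρ T π A σ' c hT ?_ (ih fun x hx => hσ' x (Finset.mem_union_right _ hx))
    intro p hp hps
    rw [← hσ' _ (Finset.mem_union_left _ hps)]
    exact hσ p hp hps

theorem Wit.decode [Fintype X] {s : ℕ} {ρ : X → Option Bool} {A : Finset X} {σ : X → Bool}
    {c : Fin s → Fin w → Option Bool} (h : Wit w F s ρ A σ c) (hF : ∀ T ∈ F, T.length ≤ w) :
    ∀ τ : X → Option Bool, (∀ x b, ρ x = some b → τ x = some b) → (∀ x ∈ A, τ x = some (σ x)) →
      decA F s τ c = A := by
  induction h with
  | stop s ρ σ => intro τ _ _; exact decA_none _ _ _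
  | step s ρ T π A σ c hT hσ h ih =>
    intro τ h1 h2
    have hTw := hF T (firstNF_mem hT)
    have hsub : ∀ x ∈ Pool.Agent.W_MP_5f6b2a_lc.stars ρ T, ∃ b, (x, b) ∈ T :=
      fun x hx => (mem_stars.1 hx).1
    have hsat : PSat T τ := by
      intro p hp
      cases hρ : ρ p.1 with
      | none =>
        have hps : p.1 ∈ Pool.Agent.W_MP_5f6b2a_lc.stars ρ T := mem_stars.2 ⟨⟨p.2, hp⟩, hρ⟩
        rw [h2 _ (Finset.mem_union_left _ hps), hσ p hp hps]
      | some b =>
        rw [h1 _ _ hρ]
        have := firstNF_not hT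
        simp only [Fals, not_forall, not_not] at this
        obtain ⟨z, hz1, hz2⟩ := this
        rw [← hz1 _ _ hρ, hz2 p hp]
    have hfirst : firstSat F τ = some T := by
      refine find_trans hT ?_ (by simpa using hsat)
      intro S _ hS
      simp only [decide_eq_true_eq] at hS ⊢
      intro hfal
      refine hfal (fun x => (τ x).getD false) ?_ ?_
      · intro x b hb
        simp [h1 x b hb]
      · intro p hp
        simp [hS p hp]
    rw [decA, hfirst]
    simp only [Fin.cons_zero, Fin.tail_cons]
    rw [decB_enc hTw hsub]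
    congr 1
    apply ih
    · intro x b hb
      unfold ovr at hb ⊢
      split_ifs at hb ⊢ with hx
      · rw [decP_enc hTw hsub hx]; exact hb
      · exact h1 x b hb
    · intro x hx
      have hn := h.stars x hx
      have hx' : x ∉ Pool.Agent.W_MP_5f6b2a_lc.stars ρ T := by
        intro hx'
        simp [ovr, hx'] at hn
      rw [ovr, if_neg hx']
      exact h2 x (Finset.mem_union_right _ hx)

/-- Either there is a shallow decision tree or a long witness. -/
theorem dichotomy (n : ℕ) : ∀ (s : ℕ) (ρ : X → Option Bool), n < s →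
    (DTle n fun z => ∃ T ∈ F, TSat T (fill ρ z)) ∨
      ∃ A σ c, Wit w F s ρ A σ c ∧ n < A.card := by
  induction n using Nat.strong_induction_on with
  | _ n ih =>
    intro s ρ hs
    obtain ⟨s, rfl⟩ : ∃ s', s = s' + 1 := ⟨s - 1, by omega⟩
    cases hT : firstNF F ρ with
    | none =>
      left
      refine (DTle.const False n).congr fun z => ?_
      refine ⟨False.elim, ?_⟩
      rintro ⟨T, hTF, hsat⟩
      unfold firstNF at hT
      rw [List.find?_eq_none] at hT
      have := hT T hTF
      have hfal : Fals ρ T := by simpa using this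
      exact hfal _ (exts_fill ρ z) hsat
    | some T =>
      have hnf := firstNF_not hT
      simp only [Fals, not_forall, not_not] at hnf
      obtain ⟨z0, hz1, hz2⟩ := hnf
      by_cases hβ : (stars ρ T) = ∅
      · left
        refine (DTle.const True n).congr fun z => ?_
        refine ⟨fun _ => ⟨T, firstNF_mem hT, ?_⟩, fun _ => trivial⟩
        intro p hp
        cases hρ : ρ p.1 with
        | none =>
          have hps : p.1 ∈ stars ρ T := mem_stars.2 ⟨⟨p.2, hp⟩, hρ⟩
          rw [hβ] at hps
          simp at hps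
        | some b =>
          rw [exts_fill ρ z _ _ hρ, ← hz1 _ _ hρ, hz2 p hp]
      · have hβ1 : 1 ≤ (stars ρ T).card := Finset.card_pos.2 (Finset.nonempty_iff_ne_empty.2 hβ)
        by_cases hn : n < (stars ρ T).card
        · right
          refine ⟨_, _, _, Wit.step s ρ T (fun _ => false) ∅ z0 _ hT (fun p hp _ => hz2 p hp)
            (Wit.stop s _ z0), by simpa using hn⟩
        · by_cases hall : ∀ π : X → Bool,
            DTle (n - (stars ρ T).card) fun z => ∃ T' ∈ F, TSat T' (fill (ovr ρ (stars ρ T) π) z)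
          · left
            have := DTle.query (n := n - (stars ρ T).card) (stars ρ T)
              (fun z => ∃ T ∈ F, TSat T (fill ρ z)) fun π => ⟨_, hall π, ?_⟩
            · refine this.mono (by omega)
            · intro z hz
              have : fill (ovr ρ (stars ρ T) π) z = fill ρ z := by
                funext x
                unfold fill ovr
                split_ifs with hx
                · rw [(mem_stars.1 hx).2]
                  simp [hz x hx]
                · rfl
              rw [this]
          · right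
            rw [not_forall] at hall
            obtain ⟨π, hπ⟩ := hall
            obtain ⟨A, σ, c, hw, hA⟩ := (ih (n - (stars ρ T).card) (by omega) s
              (ovr ρ (stars ρ T) π) (by omega)).resolve_left hπ
            have hdisj := Wit.disjoint hw.stars
            classical
            refine ⟨_, fun x => if x ∈ stars ρ T then z0 x else σ x, _,
              Wit.step s ρ T π A _ c hT ?_ (hw.congr ?_), ?_⟩
            · intro p hp hps
              simp only [hps, if_true]
              exact hz2 p hp
            · intro x hx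
              rw [if_neg (Finset.disjoint_right.1 hdisj hx)]
            · rw [Finset.card_union_of_disjoint hdisj]
              omega

end

open Classical in
/-- The abstract switching lemma. -/
theorem switching {Ω X : Type} [Fintype Ω] [Fintype X] [DecidableEq X] (w N : ℕ)
    (wt : Ω → ℝ) (hwt : ∀ ω, 0 ≤ wt ω) (ρ : Ω → X → Option Bool)
    (F : Ω → List (List (X × Bool))) (hF : ∀ ω, ∀ T ∈ F ω, T.length ≤ w)
    (kill : Ω → Finset X → (X → Bool) → Ω)
    (K1 : ∀ ω A σ, (∀ x ∈ A, ρ ω x = none) → ∀ x b, ρ ω x = some b → ρ (kill ω A σ) x = some b)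
    (K2 : ∀ ω A σ, (∀ x ∈ A, ρ ω x = none) → ∀ x ∈ A, ρ (kill ω A σ) x = some (σ x))
    (K3 : ∀ ω A σ, (∀ x ∈ A, ρ ω x = none) → F (kill ω A σ) = F ω)
    (θ : ℝ) (hθ : 0 ≤ θ)
    (K4 : ∀ (A : Finset X) (ω' : Ω), N < A.card → A.card ≤ (N + 1) * w →
      ∑ ω ∈ univ.filter (fun ω => (∀ x ∈ A, ρ ω x = none) ∧ ∃ σ, kill ω A σ = ω'), wt ω
        ≤ θ * wt ω') :
    ∑ ω ∈ univ.filter (fun ω => ¬ DTle N fun z => ∃ T ∈ F ω, TSat T (fill (ρ ω) z)), wt ω
      ≤ (3 ^ w) ^ (N + 1) * θ * ∑ ω, wt ω := by
  set Bad := univ.filter fun ω => ¬ DTle N fun z => ∃ T ∈ F ω, TSat T (fill (ρ ω) z) with hBad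
  have hex : ∀ ω ∈ Bad, ∃ A σ c, Wit w (F ω) (N + 1) (ρ ω) A σ c ∧ N < A.card := by
    intro ω hω
    exact (dichotomy N (N + 1) (ρ ω) (by omega)).resolve_left (by simpa [hBad] using hω)
  choose! A σ c hW hA using hex
  have hmem : ∀ ω ∈ Bad, (c ω, kill ω (A ω) (σ ω)) ∈
      (univ : Finset ((Fin (N + 1) → Fin w → Option Bool) × Ω)) := fun _ _ => mem_univ _
  rw [← Finset.sum_fiberwise_of_maps_to hmem]
  have hdec : ∀ ω ∈ Bad, decA (F (kill ω (A ω) (σ ω))) (N + 1) (ρ (kill ω (A ω) (σ ω))) (c ω) =
      A ω := by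
    intro ω hω
    have hs := (hW ω hω).stars
    rw [K3 ω _ _ hs]
    exact (hW ω hω).decode (hF ω) _ (K1 ω _ _ hs) (K2 ω _ _ hs)
  have hbound : ∀ q : (Fin (N + 1) → Fin w → Option Bool) × Ω,
      ∑ ω ∈ Bad.filter (fun ω => (c ω, kill ω (A ω) (σ ω)) = q), wt ω ≤ θ * wt q.2 := by
    rintro ⟨c', ω'⟩
    rcases (Bad.filter fun ω => (c ω, kill ω (A ω) (σ ω)) = (c', ω')).eq_empty_or_nonempty
      with he | ⟨ω0, hω0⟩
    · rw [he, Finset.sum_empty]
      exact mul_nonneg hθ (hwt _)
    · set A' := decA (F ω') (N + 1) (ρ ω') c' with hA'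
      have hAA : ∀ ω ∈ Bad.filter (fun ω => (c ω, kill ω (A ω) (σ ω)) = (c', ω')), A ω = A' := by
        intro ω hω
        obtain ⟨h1, h2⟩ := Finset.mem_filter.1 hω
        have h3 := congrArg Prod.fst h2
        have h4 := congrArg Prod.snd h2
        simp only at h3 h4
        have h5 := hdec ω h1
        rw [h4, h3] at h5
        exact h5.symm
      have hω0B := (Finset.mem_filter.1 hω0).1
      have hcard : N < A'.card ∧ A'.card ≤ (N + 1) * w := by
        rw [← hAA ω0 hω0]
        exact ⟨hA ω0 hω0B, (hW ω0 hω0B).card_le (hF ω0)⟩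
      refine le_trans ?_ (K4 A' ω' hcard.1 hcard.2)
      refine Finset.sum_le_sum_of_subset_of_nonneg ?_ fun ω _ _ => hwt ω
      intro ω hω
      have hωA := hAA ω hω
      obtain ⟨h1, h2⟩ := Finset.mem_filter.1 hω
      rw [Finset.mem_filter]
      refine ⟨mem_univ _, ?_, σ ω, ?_⟩
      · rw [← hωA]; exact (hW ω h1).stars
      · rw [← hωA]; exact congrArg Prod.snd h2
  refine (Finset.sum_le_sum fun q _ => hbound q).trans ?_
  rw [Fintype.sum_prod_type]
  simp only
  rw [Finset.sum_const, ← Finset.mul_sum, nsmul_eq_mul]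
  have hcards : ((univ : Finset (Fin (N + 1) → Fin w → Option Bool)).card : ℝ) =
      (3 ^ w) ^ (N + 1) := by
    simp [Finset.card_univ]
  rw [hcards]
  exact le_of_eq (by ring)

end Pool.Agent.W_MP_5f6b2a_lc
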