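import Pool.Agent.W_MP_5f6b2a_lc.UpperEval

/-!
Juntas, and the values of nodes of weft at most one as juntas.
-/

set_option autoImplicit false

namespace Pool.Agent.W_MP_5f6b2a_lc

namespace Junta

variable {Z ι : Type} {A : ι → Z → Prop} {D D' : ℕ} {f g : Z → Prop}

theorem congr (h : Junta A D f) (hfg : ∀ z, f z ↔ g z) : Junta A D g := by
  obtain ⟨ξ, β, h⟩ := h
  exact ⟨ξ, β, fun z => (hfg z).symm.trans (h z)⟩

theorem atom (i : ι) : Junta A 1 (A i) := ⟨fun _ => i, fun p => p 0, fun _ => Iff.rfl⟩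

theorem const (b : Prop) : Junta A 0 (fun _ => b) :=
  ⟨fun i => i.elim0, fun _ => b, fun _ => Iff.rfl⟩

theorem not (h : Junta A D f) : Junta A D fun z => ¬ f z := by
  obtain ⟨ξ, β, h⟩ := h
  exact ⟨ξ, fun p => ¬ β p, fun z => not_congr (h z)⟩

theorem and (hf : Junta A D f) (hg : Junta A D' g) : Junta A (D + D') fun z => f z ∧ g z := by
  obtain ⟨ξ, β, h⟩ := hf
  obtain ⟨ξ', β', h'⟩ := hg
  refine ⟨Fin.append ξ ξ', fun p => β (fun i => p (Fin.castAdd D' i)) ∧
    β' (fun i => p (Fin.natAdd D i)), fun z => ?_⟩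
  have e1 := h z
  have e2 := h' z
  simp only [Fin.append_left, Fin.append_right]
  rw [e1, e2]

theorem or (hf : Junta A D f) (hg : Junta A D' g) : Junta A (D + D') fun z => f z ∨ g z :=
  (hf.not.and hg.not).not.congr fun z => by tauto

theorem exists_fintype {κ : Type} [Fintype κ] {F : κ → Z → Prop}
    (h : ∀ c, Junta A D (F c)) : Junta A (Fintype.card κ * D) fun z => ∃ c, F c z := by
  choose ξ β h using h
  let e := Fintype.equivFin κ
  refine ⟨fun i => ξ (e.symm (finProdFinEquiv.symm i).1) (finProdFinEquiv.symm i).2,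
    fun p => ∃ c, β c fun i => p (finProdFinEquiv (e c, i)), fun z => ?_⟩
  refine exists_congr fun c => ?_
  rw [h c z]
  simp

theorem forall_fintype {κ : Type} [Fintype κ] {F : κ → Z → Prop}
    (h : ∀ c, Junta A D (F c)) : Junta A (Fintype.card κ * D) fun z => ∀ c, F c z :=
  (exists_fintype fun c => (h c).not).not.congr fun z => by simp

theorem mono [Nonempty ι] (hD : D ≤ D') (h : Junta A D f) : Junta A D' f := by
  obtain ⟨ξ, β, h⟩ := h
  obtain ⟨i₀⟩ := ‹Nonempty ι›
  refine ⟨fun i => if hi : i.1 < D then ξ ⟨i.1, hi⟩ else i₀,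
    fun p => β fun i => p (Fin.castLE hD i), fun z => ?_⟩
  rw [h z]
  simp

theorem transfer {Z' ι' : Type} {A' : ι' → Z' → Prop} (φ : ι → ι') (h : Junta A D f) :
    ∃ f', Junta A' D f' ∧ ∀ z z', (∀ i, A i z ↔ A' (φ i) z') → (f z ↔ f' z') := by
  obtain ⟨ξ, β, h⟩ := h
  refine ⟨fun z' => β fun i => A' (φ (ξ i)) z', ⟨fun i => φ (ξ i), β, fun _ => Iff.rfl⟩, ?_⟩
  intro z z' hz
  rw [h z]
  have : (fun i => A (ξ i) z) = fun i => A' (φ (ξ i)) z' := funext fun i => propext (hz (ξ i))
  rw [this]

theorem map {Z' ι' : Type} {A' : ι' → Z' → Prop} (φ : ι → ι') (p : Z' → Z)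
    (hφ : ∀ i z', A i (p z') ↔ A' (φ i) z') (h : Junta A D f) :
    Junta A' D fun z' => f (p z') := by
  obtain ⟨f', h1, h2⟩ := transfer (A' := A') φ h
  exact h1.congr fun z' => (h2 (p z') z' fun i => hφ i z').symm

end Junta

namespace Upper

open ValidAux

variable {N : ℕ} {s : ℕ}

theorem evl_AC (hs : 2 ≤ s) (hN : N + 1 ≤ s) (T : Fin (N + 1) → Prop) (l : ℕ) (g : Fin (N + 1)) :
    AC s (6 * l + 2) (fun x : Fin ((N + 1) * (N + 3)) → Bool => evl (decode N x) T l g) := by
  have h1s : 1 ≤ s := by omega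
  induction l generalizing g with
  | zero =>
    refine AC.mono_depth h1s (by norm_num : 1 ≤ 2) ?_
    exact (AC.const_and (T g) le_rfl (kind_AC hs g Kind.input)).congr fun x => by
      simp only [evl]
      exact and_comm
  | succ l ih =>
    have hk : ∀ κ, AC s (6 * l + 4) (fun x : Fin ((N + 1) * (N + 3)) → Bool =>
        (decode N x).kind g = κ) := fun κ => AC.mono_depth h1s (by omega) (kind_AC hs g κ)
    have hw : ∀ h, AC s (6 * l + 2) (fun x : Fin ((N + 1) * (N + 3)) → Bool =>
        (decode N x).wire h g = true) := fun h => AC.mono_depth h1s (by omega) (wire_AC h g)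
    have e1 : AC s (6 * l + 4) (fun x : Fin ((N + 1) * (N + 3)) → Bool =>
        ∃ h, (decode N x).wire h g = true ∧ ¬ evl (decode N x) T l h) :=
      AC.exists_fintype (by simpa using hN) fun h => AC.and hs (hw h) (ih h).not
    have e2 : AC s (6 * l + 4) (fun x : Fin ((N + 1) * (N + 3)) → Bool =>
        ∀ h, (decode N x).wire h g = true → evl (decode N x) T l h) :=
      AC.forall_fintype (by simpa using hN) fun h => AC.imp hs (hw h) (ih h)
    have e3 : AC s (6 * l + 4) (fun x : Fin ((N + 1) * (N + 3)) → Bool =>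
        ∃ h, (decode N x).wire h g = true ∧ evl (decode N x) T l h) :=
      AC.exists_fintype (by simpa using hN) fun h => AC.and hs (hw h) (ih h)
    have a0 : AC s (6 * l + 7) (fun x : Fin ((N + 1) * (N + 3)) → Bool =>
        (decode N x).kind g = Kind.input ∧ T g) :=
      AC.mono_depth h1s (by omega)
        ((AC.const_and (T g) (by omega) (hk Kind.input)).congr fun x => and_comm)
    have a1 := AC.mono_depth h1s (by omega : 6 * l + 5 ≤ 6 * l + 6) (AC.and hs (hk Kind.neg) e1)
    have a2 := AC.and hs (hk Kind.conj) e2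
    have a3 := AC.and hs (hk Kind.disj) e3
    have := AC.or hs a0 (AC.or hs a1 (AC.or hs a2 a3))
    refine (AC.mono_depth h1s (by omega) this).congr fun x => ?_
    simp only [evl]

theorem inn_AC (hs : 2 ≤ s) (hN : N + 1 ≤ s) (T : Fin (N + 1) → Prop) (l : ℕ) (g : Fin (N + 1)) :
    AC s (4 * l + 2) (fun x : Fin ((N + 1) * (N + 3)) → Bool => inn (decode N x) T l g) := by
  have h1s : 1 ≤ s := by omega
  have h0 : ∀ g : Fin (N + 1), AC s 2 (fun x : Fin ((N + 1) * (N + 3)) → Bool =>
      (decode N x).kind g = Kind.input → T g) := fun g =>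
    AC.imp hs (kind_AC hs g Kind.input) (AC.const _ le_rfl)
  induction l generalizing g with
  | zero => exact h0 g
  | succ l ih =>
    have e1 : AC s (4 * l + 4) (fun x : Fin ((N + 1) * (N + 3)) → Bool =>
        ∀ h', (decode N x).wire h' g = true → inn (decode N x) T l h') :=
      AC.forall_fintype (by simpa using hN) fun h' =>
        AC.imp hs (AC.mono_depth h1s (by omega) (wire_AC h' g)) (ih h')
    exact AC.and hs (AC.mono_depth h1s (by omega) (h0 g))
      (AC.or hs (AC.mono_depth h1s (by omega) (kind_AC hs g Kind.input)) e1)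

/-- `h` is the first (`c = false`) or last (`c = true`) child of `g`. -/
def IsCh (C : Circuit N) (c : Bool) (h g : Fin (N + 1)) : Prop :=
  C.wire h g = true ∧ ∀ h', C.wire h' g = true → if c = true then h' ≤ h else h ≤ h'

theorem isCh_unique {C : Circuit N} {c : Bool} {h h' g : Fin (N + 1)} (H : IsCh C c h g)
    (H' : IsCh C c h' g) : h = h' := by
  have h1 := H.2 h' H'.1
  have h2 := H'.2 h H.1
  cases c
  · simp only [Bool.false_eq_true, if_false] at h1 h2
    exact le_antisymm h1 h2
  · simp only [if_true] at h1 h2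
    exact le_antisymm h2 h1

theorem isCh_exists {C : Circuit N} (c : Bool) {g : Fin (N + 1)} (h : ∃ h, C.wire h g = true) :
    ∃ h, IsCh C c h g := by
  classical
  have hne : (Finset.univ.filter fun h => C.wire h g = true).Nonempty := by
    obtain ⟨h, hh⟩ := h
    exact ⟨h, by simpa using hh⟩
  cases c
  · obtain ⟨a, ha, hmin⟩ := Finset.exists_min_image _ id hne
    exact ⟨a, by simpa using ha, fun h' hh' => by simpa using hmin h' (by simpa using hh')⟩
  · obtain ⟨a, ha, hmax⟩ := Finset.exists_max_image _ id hne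
    exact ⟨a, by simpa using ha, fun h' hh' => by simpa using hmax h' (by simpa using hh')⟩

theorem isCh_AC (hs : 2 ≤ s) (hN : N + 1 ≤ s) (c : Bool) (h g : Fin (N + 1)) :
    AC s 3 (fun x : Fin ((N + 1) * (N + 3)) → Bool => IsCh (decode N x) c h g) := by
  have h1s : 1 ≤ s := by omega
  refine AC.and hs (AC.mono_depth h1s (Nat.zero_le _) (wire_AC h g)) ?_
  refine AC.forall_fintype (by simpa using hN) fun h' => ?_
  by_cases hc : if c = true then h' ≤ h else h ≤ h'
  · exact (AC.const_succ True 0).congr fun x => by simp [hc]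
  · exact (AC.succ h1s (wire_AC h' g).not).congr fun x => by simp [hc]

/-- The children of a small gate are its first and its last child. -/
theorem small_two {C : Circuit N} (hC : C.Correct) {g : Fin (N + 1)} (hg : ¬ C.Large g)
    {h₀ h₁ : Fin (N + 1)} (H₀ : IsCh C false h₀ g) (H₁ : IsCh C true h₁ g) (h : Fin (N + 1))
    (hw : C.wire h g = true) : h = h₀ ∨ h = h₁ := by
  obtain ⟨a, b, hab⟩ := small_children hC hg
  have l1 := H₀.2 h hw
  have l2 := H₁.2 h hw
  simp only [Bool.false_eq_true, if_false] at l1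
  simp only [if_true] at l2
  have e0 := hab h₀ H₀.1
  have e1 := hab h₁ H₁.1
  have e2 := hab h hw
  by_cases h01 : h₀ = h₁
  · subst h01
    exact Or.inl (le_antisymm l2 l1)
  · rcases e0 with rfl | rfl
    · rcases e1 with rfl | rfl
      · exact absurd rfl h01
      · exact e2
    · rcases e1 with rfl | rfl
      · exact e2.symm
      · exact absurd rfl h01

theorem children_exists {C : Circuit N} (hC : C.Correct) {g : Fin (N + 1)}
    (hg : C.kind g ≠ Kind.input) : ∃ h, C.wire h g = true := by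
  have hf : 1 ≤ C.fanIn g := by
    cases hkg : C.kind g with
    | input => exact absurd hkg hg
    | neg => exact (hC.2.2.1 g hkg).ge
    | conj => exact hC.2.2.2 g (Or.inl hkg)
    | disj => exact hC.2.2.2 g (Or.inr hkg)
  exact (one_le_fanIn_iff C g).1 hf

end Upper

end Pool.Agent.W_MP_5f6b2a_lc
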