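import Pool.Agent.W_MP_5f6b2a_lc.Valid
import Pool.Agent.W_MP_5f6b2a_lc.Source

/-!
Evaluation of circuits with fuel, weft and depth of nodes, the interval lemma.
-/

set_option autoImplicit false

namespace Pool.Agent.W_MP_5f6b2a_lc

namespace Upper

variable {N : ℕ} (C : Circuit N)

/-- Value of the node `g` (computed with `l` steps) when exactly the input nodes in `S` are
true. -/
def evl (S : Fin (N + 1) → Prop) : ℕ → Fin (N + 1) → Prop
  | 0, g => C.kind g = Kind.input ∧ S g
  | l + 1, g => (C.kind g = Kind.input ∧ S g) ∨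
      (C.kind g = Kind.neg ∧ ∃ h, C.wire h g = true ∧ ¬ evl S l h) ∨
      (C.kind g = Kind.conj ∧ ∀ h, C.wire h g = true → evl S l h) ∨
      (C.kind g = Kind.disj ∧ ∃ h, C.wire h g = true ∧ evl S l h)

/-- `wle C l j g`: all paths from inputs to `g` have length at most `l` and contain at most `j`
large gates. -/
def wle : ℕ → ℕ → Fin (N + 1) → Prop
  | 0, _, g => C.kind g = Kind.input
  | l + 1, j, g => C.kind g = Kind.input ∨
      (C.Large g ∧ 1 ≤ j ∧ ∀ h, C.wire h g = true → wle l (j - 1) h) ∨
      (¬ C.Large g ∧ ∀ h, C.wire h g = true → wle l j h)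

/-- All inputs which are at most `l` steps below `h` satisfy `X`. -/
def inn (X : Fin (N + 1) → Prop) : ℕ → Fin (N + 1) → Prop
  | 0, h => C.kind h = Kind.input → X h
  | l + 1, h => (C.kind h = Kind.input → X h) ∧
      (C.kind h = Kind.input ∨ ∀ h', C.wire h' h = true → inn X l h')

variable {C}

theorem inn_mono {X Y : Fin (N + 1) → Prop} (hXY : ∀ i, X i → Y i) {l : ℕ} {h : Fin (N + 1)}
    (H : inn C X l h) : inn C Y l h := by
  induction l generalizing h with
  | zero => exact fun hk => hXY _ (H hk)
  | succ l ih =>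
    refine ⟨fun hk => hXY _ (H.1 hk), ?_⟩
    rcases H.2 with h1 | h1
    · exact Or.inl h1
    · exact Or.inr fun h' hw => ih (h1 h' hw)

theorem evl_congr {S T : Fin (N + 1) → Prop} {l : ℕ} {h : Fin (N + 1)}
    (H : inn C (fun i => (S i ↔ T i)) l h) : evl C S l h ↔ evl C T l h := by
  induction l generalizing h with
  | zero =>
    simp only [evl]
    exact and_congr_right H
  | succ l ih =>
    simp only [evl]
    by_cases hk : C.kind h = Kind.input
    · simp [hk, H.1 hk]
    · have H2 : ∀ h', C.wire h' h = true → (evl C S l h' ↔ evl C T l h') := fun h' hw =>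
        ih ((H.2.resolve_left hk) h' hw)
      have e1 : (∃ h', C.wire h' h = true ∧ ¬ evl C S l h') ↔
          (∃ h', C.wire h' h = true ∧ ¬ evl C T l h') :=
        exists_congr fun h' => and_congr_right fun hw => not_congr (H2 h' hw)
      have e2 : (∀ h', C.wire h' h = true → evl C S l h') ↔
          (∀ h', C.wire h' h = true → evl C T l h') :=
        forall_congr' fun h' => imp_congr_right fun hw => H2 h' hw
      have e3 : (∃ h', C.wire h' h = true ∧ evl C S l h') ↔
          (∃ h', C.wire h' h = true ∧ evl C T l h') :=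
        exists_congr fun h' => and_congr_right fun hw => H2 h' hw
      rw [e1, e2, e3]
      simp [hk]

theorem evl_valuation {v : Fin (N + 1) → Bool} (hv : C.IsValuation v) {S : Fin (N + 1) → Prop}
    (hS : ∀ g, C.kind g = Kind.input → (S g ↔ v g = true)) {l j : ℕ} {g : Fin (N + 1)}
    (hg : wle C l j g) : evl C S l g ↔ v g = true := by
  induction l generalizing g j with
  | zero =>
    simp only [wle] at hg
    simp only [evl, hg, true_and]
    exact hS g hg
  | succ l ih =>
    have hvg := hv g
    by_cases hk : C.kind g = Kind.input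
    · simp only [evl, hk]
      simpa using hS g hk
    · have H : ∀ h, C.wire h g = true → (evl C S l h ↔ v h = true) := by
        intro h hw
        rcases hg with h1 | ⟨_, _, h1⟩ | ⟨_, h1⟩
        · exact absurd h1 hk
        · exact ih (h1 h hw)
        · exact ih (h1 h hw)
      cases hkg : C.kind g with
      | input => exact absurd hkg hk
      | neg =>
        simp only [hkg] at hvg
        simp only [evl, hkg]
        rw [hvg]
        simp only [reduceCtorEq, false_and, true_and, false_or, or_false]
        refine exists_congr fun h => and_congr_right fun hw => ?_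
        rw [H h hw]
        simp
      | conj =>
        simp only [hkg] at hvg
        simp only [evl, hkg]
        rw [hvg]
        simp only [reduceCtorEq, false_and, true_and, false_or, or_false]
        exact forall_congr' fun h => imp_congr_right fun hw => H h hw
      | disj =>
        simp only [hkg] at hvg
        simp only [evl, hkg]
        rw [hvg]
        simp only [reduceCtorEq, false_and, true_and, false_or, or_false]
        exact exists_congr fun h => and_congr_right fun hw => H h hw

/-- Nodes which are neither input nodes nor large gates have at most two children. -/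
theorem small_children (hC : C.Correct) {g : Fin (N + 1)} (hg : ¬ C.Large g) :
    ∃ h₁ h₂, ∀ h, C.wire h g = true → h = h₁ ∨ h = h₂ := by
  classical
  have hf : C.fanIn g ≤ 2 := by
    cases hk : C.kind g with
    | input => rw [hC.2.1 g hk]; omega
    | neg => rw [hC.2.2.1 g hk]; omega
    | conj =>
      by_contra hlt
      exact hg ⟨Or.inl hk, by omega⟩
    | disj =>
      by_contra hlt
      exact hg ⟨Or.inr hk, by omega⟩
  by_contra hcon
  push Not at hcon
  obtain ⟨a, ha, -, -⟩ := hcon 0 0
  obtain ⟨b, hb, hba, -⟩ := hcon a a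
  obtain ⟨c, hc, hca, hcb⟩ := hcon a b
  have : 2 < C.fanIn g := by
    unfold Circuit.fanIn
    rw [Finset.two_lt_card_iff]
    exact ⟨a, b, c, by simpa using ha, by simpa using hb, by simpa using hc, hba.symm, hca.symm,
      hcb.symm⟩
  omega

/-- The inputs below a node of weft 0 and depth at most `l`. -/
theorem exists_cover (hC : C.Correct) {l : ℕ} {h : Fin (N + 1)} (hh : wle C l 0 h) :
    ∃ R : Finset (Fin (N + 1)), R.card ≤ 2 ^ l ∧ inn C (fun i => i ∈ R) l h := by
  classical
  induction l generalizing h with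
  | zero => exact ⟨{h}, by simp, fun _ => by simp⟩
  | succ l ih =>
    by_cases hk : C.kind h = Kind.input
    · refine ⟨{h}, ?_, fun _ => by simp, Or.inl hk⟩
      rw [Finset.card_singleton]
      exact Nat.one_le_two_pow
    · rcases hh with h1 | ⟨_, h1, _⟩ | ⟨hL, h1⟩
      · exact absurd h1 hk
      · omega
      · obtain ⟨h₁, h₂, h12⟩ := small_children hC hL
        have key : ∀ h', ∃ R : Finset (Fin (N + 1)), R.card ≤ 2 ^ l ∧
            (C.wire h' h = true → inn C (fun i => i ∈ R) l h') := by
          intro h'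
          by_cases hw : C.wire h' h = true
          · obtain ⟨R, hR, hi⟩ := ih (h1 h' hw)
            exact ⟨R, hR, fun _ => hi⟩
          · exact ⟨∅, by simp, fun hw' => absurd hw' hw⟩
        obtain ⟨R₁, hR₁, hi₁⟩ := key h₁
        obtain ⟨R₂, hR₂, hi₂⟩ := key h₂
        refine ⟨R₁ ∪ R₂, ?_, fun hk' => absurd hk' hk, Or.inr fun h' hw => ?_⟩
        · calc (R₁ ∪ R₂).card ≤ R₁.card + R₂.card := Finset.card_union_le _ _
            _ ≤ 2 ^ l + 2 ^ l := Nat.add_le_add hR₁ hR₂
            _ = 2 ^ (l + 1) := by ring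
        · rcases h12 h' hw with rfl | rfl
          · exact inn_mono (fun i hi => Finset.mem_union_left _ hi) (hi₁ hw)
          · exact inn_mono (fun i hi => Finset.mem_union_right _ hi) (hi₂ hw)

/-! ### Cells -/

/-- A cell: a point, or an open interval with end points in `α` or infinite. -/
abbrev Cell (α : Type) := α ⊕ (Option α × Option α)

/-- The points selected by a tuple of cells. -/
def pts {m : ℕ} (u : Fin m → Cell (Fin (N + 1))) (i : Fin (N + 1)) : Prop :=
  ∃ j, u j = Sum.inl i

/-- The points in the intervals of a tuple of cells. -/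
def ivs {m : ℕ} (u : Fin m → Cell (Fin (N + 1))) (i : Fin (N + 1)) : Prop :=
  ∃ j a b, u j = Sum.inr (a, b) ∧ (∀ a', a = some a' → a' < i) ∧ (∀ b', b = some b' → i < b')

/-- Realization of abstract cells. -/
def real {k : ℕ} (s : Fin k → Fin (N + 1)) : Cell (Fin k) → Cell (Fin (N + 1)) :=
  Sum.map s (Prod.map (Option.map s) (Option.map s))

/-- Validity of a tuple of abstract cells for `s`: the intervals do not meet the range of `s`. -/
def valid {k m : ℕ} (s : Fin k → Fin (N + 1)) (u : Fin m → Cell (Fin k)) : Prop :=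
  ∀ i, ivs (fun j => real s (u j)) i → ∀ j, s j ≠ i

theorem pts_real {k m : ℕ} (s : Fin k → Fin (N + 1)) (u : Fin m → Cell (Fin k))
    (i : Fin (N + 1)) (hi : pts (fun j => real s (u j)) i) : ∃ j, s j = i := by
  obtain ⟨j, hj⟩ := hi
  simp only [real] at hj
  cases hu : u j with
  | inl a =>
    rw [hu] at hj
    exact ⟨a, by simpa using hj⟩
  | inr a =>
    rw [hu] at hj
    simp at hj

/-- The cell of a point. -/
theorem exists_cell {k : ℕ} (s : Fin k → Fin (N + 1)) (i : Fin (N + 1)) :
    (∃ j, s j = i) ∨ ∃ a b : Option (Fin k),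
      (∀ a', a = some a' → s a' < i) ∧ (∀ b', b = some b' → i < s b') ∧
      ∀ j, ¬ ((∀ a', a = some a' → s a' < s j) ∧ (∀ b', b = some b' → s j < s b')) := by
  classical
  by_cases hi : ∃ j, s j = i
  · exact Or.inl hi
  · right
    push Not at hi
    -- largest point below
    have hA : ∃ a : Option (Fin k), (∀ a', a = some a' → s a' < i) ∧
        ∀ j, s j < i → ∃ a', a = some a' ∧ s j ≤ s a' := by
      by_cases he : ∃ j, s j < i
      · obtain ⟨a, ha, hmax⟩ := Finset.exists_max_image (Finset.univ.filter fun j => s j < i) s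
          (by obtain ⟨j, hj⟩ := he; exact ⟨j, by simpa using hj⟩)
        refine ⟨some a, fun a' h => ?_, fun j hj => ⟨a, rfl, hmax j (by simpa using hj)⟩⟩
        obtain rfl := Option.some.inj h
        simpa using ha
      · push Not at he
        exact ⟨none, fun a' h => by simp at h, fun j hj => absurd hj (not_lt.2 (he j))⟩
    have hB : ∃ b : Option (Fin k), (∀ b', b = some b' → i < s b') ∧
        ∀ j, i < s j → ∃ b', b = some b' ∧ s b' ≤ s j := by
      by_cases he : ∃ j, i < s j
      · obtain ⟨a, ha, hmin⟩ := Finset.exists_min_image (Finset.univ.filter fun j => i < s j) s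
          (by obtain ⟨j, hj⟩ := he; exact ⟨j, by simpa using hj⟩)
        refine ⟨some a, fun a' h => ?_, fun j hj => ⟨a, rfl, hmin j (by simpa using hj)⟩⟩
        obtain rfl := Option.some.inj h
        simpa using ha
      · push Not at he
        exact ⟨none, fun a' h => by simp at h, fun j hj => absurd hj (not_lt.2 (he j))⟩
    obtain ⟨a, ha1, ha2⟩ := hA
    obtain ⟨b, hb1, hb2⟩ := hB
    refine ⟨a, b, ha1, hb1, fun j => ?_⟩
    rintro ⟨h1, h2⟩
    rcases lt_trichotomy (s j) i with hlt | heq | hgt
    · obtain ⟨a', rfl, ha'⟩ := ha2 j hlt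
      exact absurd (h1 a' rfl) (not_lt.2 ha')
    · exact hi j heq
    · obtain ⟨b', rfl, hb'⟩ := hb2 j hgt
      exact absurd (h2 b' rfl) (not_lt.2 hb')

/-- Every small set of inputs is covered by the cells of a valid tuple. -/
theorem exists_tuple {k m : ℕ} (s : Fin k → Fin (N + 1))
    (R : Finset (Fin (N + 1))) (hR : R.card ≤ m) :
    ∃ u : Fin m → Cell (Fin k), valid s u ∧
      ∀ i ∈ R, pts (fun j => real s (u j)) i ∨ ivs (fun j => real s (u j)) i := by
  classical
  have hsurj : ∃ f : Fin m → Fin (N + 1), ∀ i ∈ R, ∃ j, f j = i := by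
    refine ⟨fun j => if h : j.1 < R.card then (R.equivFin.symm ⟨j.1, h⟩ : R).1 else 0,
      fun i hi => ?_⟩
    refine ⟨⟨(R.equivFin ⟨i, hi⟩).1, lt_of_lt_of_le (R.equivFin ⟨i, hi⟩).2 hR⟩, ?_⟩
    simp
  obtain ⟨f, hf⟩ := hsurj
  have hcell : ∀ i : Fin (N + 1), ∃ c : Cell (Fin k),
      (real s c = Sum.inl i) ∨ (∃ a b, real s c = Sum.inr (a, b) ∧
        (∀ a', a = some a' → a' < i) ∧ (∀ b', b = some b' → i < b') ∧
        ∀ j, ¬ ((∀ a', a = some a' → a' < s j) ∧ (∀ b', b = some b' → s j < b'))) := by
    intro i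
    rcases exists_cell s i with ⟨j, hj⟩ | ⟨a, b, h1, h2, h3⟩
    · exact ⟨Sum.inl j, Or.inl (by simp [real, hj])⟩
    · refine ⟨Sum.inr (a, b), Or.inr ⟨a.map s, b.map s, by simp [real], ?_, ?_, ?_⟩⟩
      · intro a' ha'
        obtain ⟨a'', h, rfl⟩ := Option.map_eq_some_iff.1 ha'
        exact h1 a'' h
      · intro b' hb'
        obtain ⟨b'', h, rfl⟩ := Option.map_eq_some_iff.1 hb'
        exact h2 b'' h
      · intro j hj
        apply h3 j
        refine ⟨fun a' ha' => hj.1 _ ?_, fun b' hb' => hj.2 _ ?_⟩
        · rw [ha']; rfl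
        · rw [hb']; rfl
  choose c hc using hcell
  refine ⟨fun j => c (f j), ?_, ?_⟩
  · rintro i ⟨j, a, b, hj, ha, hb⟩ j' rfl
    rcases hc (f j) with h | ⟨a2, b2, h, -, -, h3⟩
    · simp only [h] at hj
      exact absurd hj (by simp)
    · simp only [h] at hj
      obtain ⟨rfl, rfl⟩ := Prod.mk.inj (Sum.inr.inj hj)
      exact h3 j' ⟨ha, hb⟩
  · intro i hi
    obtain ⟨j, rfl⟩ := hf i hi
    rcases hc (f j) with h | ⟨a2, b2, h, h1, h2, -⟩
    · exact Or.inl ⟨j, h⟩
    · exact Or.inr ⟨j, a2, b2, h, h1, h2⟩

/-- The interval lemma. -/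
theorem interval_lemma (hC : C.Correct) {k l m : ℕ} (hm : 2 ^ l ≤ m) (s : Fin k → Fin (N + 1))
    (G : Fin (N + 1)) (b : Prop) (hG : ∀ h, C.wire h G = true → wle C l 0 h) :
    (∃ h, C.wire h G = true ∧ (evl C (fun i => ∃ j, s j = i) l h ↔ b)) ↔
      ∃ u : Fin m → Cell (Fin k), valid s u ∧ ∃ h, C.wire h G = true ∧
        inn C (fun i => pts (fun j => real s (u j)) i ∨ ivs (fun j => real s (u j)) i) l h ∧
        (evl C (pts fun j => real s (u j)) l h ↔ b) := by
  have key : ∀ (u : Fin m → Cell (Fin k)), valid s u → ∀ h,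
      inn C (fun i => pts (fun j => real s (u j)) i ∨ ivs (fun j => real s (u j)) i) l h →
      (evl C (fun i => ∃ j, s j = i) l h ↔ evl C (pts fun j => real s (u j)) l h) := by
    intro u hu h hin
    refine evl_congr (inn_mono ?_ hin)
    intro i hi
    constructor
    · intro hs
      rcases hi with hi | hi
      · exact hi
      · obtain ⟨j, hj⟩ := hs
        exact absurd hj (hu i hi j)
    · intro hp
      exact pts_real s u i hp
  constructor
  · rintro ⟨h, hw, hb⟩
    obtain ⟨R, hR, hin⟩ := exists_cover hC (hG h hw)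
    obtain ⟨u, hu, hcov⟩ := exists_tuple s R (hR.trans hm)
    have hin' := inn_mono hcov hin
    exact ⟨u, hu, h, hw, hin', by rw [← key u hu h hin']; exact hb⟩
  · rintro ⟨u, hu, h, hw, hin, hb⟩
    exact ⟨h, hw, by rw [key u hu h hin]; exact hb⟩

end Upper

end Pool.Agent.W_MP_5f6b2a_lc
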