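import Pool.Agent.W_MP_5f6b2a_lc.UpperUB

/-!
Closure properties of levelled formulas over juntas, in families indexed by `N`.
-/

set_option autoImplicit false
set_option linter.unusedSectionVars false

namespace Pool.Agent.W_MP_5f6b2a_lc

namespace Lv

variable {Z : Type} {𝓑 𝓑' : (Z → Prop) → Prop} {M M' t : ℕ} {b : Bool} {f g : Z → Prop}

theorem congr (h : Lv 𝓑 M t b f) (hfg : ∀ z, f z ↔ g z) : Lv 𝓑 M t b g := by
  have : f = g := funext fun z => propext (hfg z)
  exact this ▸ h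

theorem mono (hB : ∀ f, 𝓑 f → 𝓑' f) (hM : M ≤ M') (h : Lv 𝓑 M t b f) : Lv 𝓑' M' t b f := by
  induction t generalizing b f with
  | zero => exact hB _ h
  | succ t ih =>
    cases b
    · obtain ⟨m, g, hm, hg, he⟩ := h
      exact ⟨m, g, hm.trans hM, fun i => ih (hg i), he⟩
    · obtain ⟨m, g, hm, hg, he⟩ := h
      exact ⟨m, g, hm.trans hM, fun i => ih (hg i), he⟩

theorem all {κ : Type} [Fintype κ] {F : κ → Z → Prop} (hM : Fintype.card κ ≤ M)
    (h : ∀ i, Lv 𝓑 M t false (F i)) : Lv 𝓑 M (t + 1) true fun z => ∀ i, F i z := by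
  let e := Fintype.equivFin κ
  refine ⟨_, fun j => F (e.symm j), hM, fun j => h _, fun z => ?_⟩
  exact ⟨fun H j => H _, fun H i => by simpa using H (e i)⟩

theorem ex {κ : Type} [Fintype κ] {F : κ → Z → Prop} (hM : Fintype.card κ ≤ M)
    (h : ∀ i, Lv 𝓑 M t true (F i)) : Lv 𝓑 M (t + 1) false fun z => ∃ i, F i z := by
  let e := Fintype.equivFin κ
  refine ⟨_, fun j => F (e.symm j), hM, fun j => h _, fun z => ?_⟩
  exact ⟨fun ⟨i, H⟩ => ⟨e i, by simpa using H⟩, fun ⟨j, H⟩ => ⟨_, H⟩⟩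

theorem not (hB : ∀ f, 𝓑 f → 𝓑 fun z => ¬ f z) (h : Lv 𝓑 M t b f) :
    Lv 𝓑 M t (!b) fun z => ¬ f z := by
  induction t generalizing b f with
  | zero => exact hB _ h
  | succ t ih =>
    cases b
    · obtain ⟨m, g, hm, hg, he⟩ := h
      refine ⟨m, fun i z => ¬ g i z, hm, fun i => ih (hg i), fun z => ?_⟩
      show ¬ f z ↔ ∀ i, ¬ g i z
      rw [he z]
      push Not
      rfl
    · obtain ⟨m, g, hm, hg, he⟩ := h
      refine ⟨m, fun i z => ¬ g i z, hm, fun i => ih (hg i), fun z => ?_⟩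
      show ¬ f z ↔ ∃ i, ¬ g i z
      rw [he z]
      push Not
      rfl

theorem lift' (hM : 1 ≤ M) (h : Lv 𝓑 M t b f) : Lv 𝓑 M (t + 1) (!b) f := by
  cases b
  · exact (all (κ := Unit) (F := fun _ => f) (by simpa using hM) fun _ => h).congr
      fun z => by simp
  · exact (ex (κ := Unit) (F := fun _ => f) (by simpa using hM) fun _ => h).congr
      fun z => by simp

theorem lift (hM : 1 ≤ M) (h : Lv 𝓑 M t b f) : Lv 𝓑 M (t + 1) b f := by
  induction t generalizing b f with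
  | zero =>
    cases b
    · exact (ex (κ := Unit) (F := fun _ => f) (by simpa using hM) fun _ => h).congr
        fun z => by simp
    · exact (all (κ := Unit) (F := fun _ => f) (by simpa using hM) fun _ => h).congr
        fun z => by simp
  | succ t ih =>
    cases b
    · obtain ⟨m, g, hm, hg, he⟩ := h
      exact ⟨m, g, hm, fun i => ih (hg i), he⟩
    · obtain ⟨m, g, hm, hg, he⟩ := h
      exact ⟨m, g, hm, fun i => ih (hg i), he⟩

theorem merge_ex {κ : Type} [Fintype κ] {F : κ → Z → Prop} (hM : Fintype.card κ * M ≤ M')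
    (h : ∀ i, Lv 𝓑 M (t + 1) false (F i)) : Lv 𝓑 M' (t + 1) false fun z => ∃ i, F i z := by
  choose m g hm hg he using h
  by_cases hκ : Nonempty κ
  · have hMM : M ≤ M' := by
      have : 1 ≤ Fintype.card κ := Fintype.card_pos
      nlinarith
    refine (ex (κ := Σ i, Fin (m i)) (F := fun p => g p.1 p.2) ?_ ?_).congr ?_
    · rw [Fintype.card_sigma]
      calc ∑ i, Fintype.card (Fin (m i)) ≤ ∑ _i : κ, M :=
            Finset.sum_le_sum fun i _ => by simpa using hm i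
        _ = Fintype.card κ * M := by simp
        _ ≤ M' := hM
    · intro p
      exact mono (fun _ h => h) hMM (hg p.1 p.2)
    · intro z
      constructor
      · rintro ⟨p, hp⟩
        exact ⟨p.1, (he p.1 z).2 ⟨p.2, hp⟩⟩
      · rintro ⟨i, hi⟩
        obtain ⟨j, hj⟩ := (he i z).1 hi
        exact ⟨⟨i, j⟩, hj⟩
  · refine ⟨0, fun i _ => False, Nat.zero_le _, fun i => i.elim0, fun z => ?_⟩
    constructor
    · rintro ⟨i, _⟩
      exact absurd ⟨i⟩ hκ
    · rintro ⟨i, _⟩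
      exact i.elim0

end Lv

section JuntaLv

variable {Z ι : Type} {A : ι → Z → Prop}

theorem lvJ_not {D M t : ℕ} {b : Bool} {f : Z → Prop} (h : Lv (Junta A D) M t b f) :
    Lv (Junta A D) M t (!b) fun z => ¬ f z := Lv.not (fun _ h => h.not) h

theorem lvJ_mono [Nonempty ι] {D D' M M' t : ℕ} {b : Bool} {f : Z → Prop} (hD : D ≤ D')
    (hM : M ≤ M') (h : Lv (Junta A D) M t b f) : Lv (Junta A D') M' t b f :=
  Lv.mono (fun _ h => h.mono hD) hM h

theorem lvJ_and [Nonempty ι] {D D' M t : ℕ} (hM : 2 ≤ M) {b : Bool} {f g : Z → Prop}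
    (hf : Lv (Junta A D) M t b f) (hg : Lv (Junta A D') M t b g) :
    Lv (Junta A (D + D')) (M * M) t b fun z => f z ∧ g z := by
  have hMM : M ≤ M * M := by nlinarith
  induction t generalizing b f g with
  | zero => exact Junta.and hf hg
  | succ t ih =>
    cases b
    · obtain ⟨m, F, hm, hF, he⟩ := hf
      obtain ⟨m', G, hm', hG, he'⟩ := hg
      refine (Lv.ex (κ := Fin m × Fin m') (F := fun p z => F p.1 z ∧ G p.2 z) ?_ ?_).congr ?_
      · simpa using Nat.mul_le_mul hm hm'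
      · exact fun p => ih (hF p.1) (hG p.2)
      · intro z
        rw [he z, he' z]
        constructor
        · rintro ⟨p, h1, h2⟩
          exact ⟨⟨p.1, h1⟩, ⟨p.2, h2⟩⟩
        · rintro ⟨⟨i, h1⟩, ⟨j, h2⟩⟩
          exact ⟨(i, j), h1, h2⟩
    · obtain ⟨m, F, hm, hF, he⟩ := hf
      obtain ⟨m', G, hm', hG, he'⟩ := hg
      refine (Lv.all (κ := Fin m ⊕ Fin m') (F := fun p => Sum.elim F G p) ?_ ?_).congr ?_
      · simp only [Fintype.card_sum, Fintype.card_fin]
        nlinarith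
      · rintro (i | j)
        · exact lvJ_mono (by omega) hMM (hF i)
        · exact lvJ_mono (by omega) hMM (hG j)
      · intro z
        rw [he z, he' z]
        constructor
        · intro h
          exact ⟨fun i => h (Sum.inl i), fun j => h (Sum.inr j)⟩
        · rintro ⟨h1, h2⟩ (i | j)
          · exact h1 i
          · exact h2 j

theorem lvJ_of_junta {D M t : ℕ} (hM : 1 ≤ M) {b : Bool} {f : Z → Prop} (h : Junta A D f) :
    Lv (Junta A D) M t b f := by
  induction t with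
  | zero => exact h
  | succ t ih => exact Lv.lift hM ih

end JuntaLv

namespace Upper

section PL

variable {ι : ℕ → Type} [hne : ∀ N, Nonempty (ι N)] (𝔸 : ∀ N, ι N → Str N → Prop)

/-- Families of levelled formulas of polynomial size. -/
def PL (j : ℕ) (b : Bool) {α : ℕ → Type} (F : ∀ N, α N → Str N → Prop) : Prop :=
  ∃ e D : ℕ, ∀ N p, Lv (Junta (𝔸 N) D) ((N + 2) ^ e) j b (F N p)

variable {𝔸} {j : ℕ} {b : Bool} {α : ℕ → Type} {F G : ∀ N, α N → Str N → Prop}

theorem PL.congr (h : PL 𝔸 j b F) (hFG : ∀ N p x, F N p x ↔ G N p x) : PL 𝔸 j b G := by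
  obtain ⟨e, D, h⟩ := h
  exact ⟨e, D, fun N p => (h N p).congr (hFG N p)⟩

theorem PL.not (h : PL 𝔸 j b F) : PL 𝔸 j (!b) fun N p x => ¬ F N p x := by
  obtain ⟨e, D, h⟩ := h
  exact ⟨e, D, fun N p => lvJ_not (h N p)⟩

theorem PL.of_junta (D : ℕ) (h : ∀ N p, Junta (𝔸 N) D (F N p)) : PL 𝔸 j b F :=
  ⟨0, D, fun N p => lvJ_of_junta (by simp) (h N p)⟩

theorem PL.lift (h : PL 𝔸 j b F) : PL 𝔸 (j + 1) b F := by
  obtain ⟨e, D, h⟩ := h
  exact ⟨e, D, fun N p => Lv.lift (Nat.one_le_pow _ _ (by omega)) (h N p)⟩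

theorem PL.lift' (h : PL 𝔸 j b F) : PL 𝔸 (j + 1) (!b) F := by
  obtain ⟨e, D, h⟩ := h
  exact ⟨e, D, fun N p => Lv.lift' (Nat.one_le_pow _ _ (by omega)) (h N p)⟩

theorem PL.and (hF : PL 𝔸 j b F) (hG : PL 𝔸 j b G) :
    PL 𝔸 j b fun N p x => F N p x ∧ G N p x := by
  obtain ⟨e, D, hF⟩ := hF
  obtain ⟨e', D', hG⟩ := hG
  refine ⟨(e + e' + 1) + (e + e' + 1), D + D', fun N p => ?_⟩
  rw [pow_add]
  refine lvJ_and ?_ (lvJ_mono le_rfl (Nat.pow_le_pow_right (by omega) (by omega)) (hF N p))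
    (lvJ_mono le_rfl (Nat.pow_le_pow_right (by omega) (by omega)) (hG N p))
  calc 2 ≤ N + 2 := by omega
    _ = (N + 2) ^ 1 := (pow_one _).symm
    _ ≤ (N + 2) ^ (e + e' + 1) := Nat.pow_le_pow_right (by omega) (by omega)

theorem PL.or (hF : PL 𝔸 j b F) (hG : PL 𝔸 j b G) :
    PL 𝔸 j b fun N p x => F N p x ∨ G N p x := by
  have := ((hF.not.and hG.not).not).congr (G := fun N p x => F N p x ∨ G N p x)
    fun N p x => by tauto
  simpa using this

theorem PL.ex {β : ℕ → Type} [∀ N, Fintype (β N)] (c : ℕ)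
    (hc : ∀ N, Fintype.card (β N) ≤ (N + 2) ^ c) {F : ∀ N, α N × β N → Str N → Prop}
    (h : PL 𝔸 (j + 1) false F) : PL 𝔸 (j + 1) false fun N p x => ∃ q, F N (p, q) x := by
  obtain ⟨e, D, h⟩ := h
  refine ⟨c + e, D, fun N p => Lv.merge_ex ?_ fun q => h N (p, q)⟩
  rw [pow_add]
  exact Nat.mul_le_mul_right _ (hc N)

theorem PL.all {β : ℕ → Type} [∀ N, Fintype (β N)] (c : ℕ)
    (hc : ∀ N, Fintype.card (β N) ≤ (N + 2) ^ c) {F : ∀ N, α N × β N → Str N → Prop}
    (h : PL 𝔸 (j + 1) true F) : PL 𝔸 (j + 1) true fun N p x => ∀ q, F N (p, q) x := by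
  have h1 : PL 𝔸 (j + 1) false fun N p x => ¬ F N p x := h.not
  have h2 := (PL.ex c hc h1).not
  exact h2.congr fun N p x => by simp

theorem PL.pull {α' : ℕ → Type} (φ : ∀ N, α' N → α N) (h : PL 𝔸 j b F) :
    PL 𝔸 j b fun N p => F N (φ N p) := by
  obtain ⟨e, D, h⟩ := h
  exact ⟨e, D, fun N p => h N (φ N p)⟩

end PL

end Upper

end Pool.Agent.W_MP_5f6b2a_lc
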