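import Pool.Agent.W_MP_5f6b2a_lc.UpperBase

/-!
Values of nodes of weft at most one are juntas over a polynomial family of AC functions.
-/

set_option autoImplicit false

namespace Pool.Agent.W_MP_5f6b2a_lc

namespace Upper

open ValidAux

/-- Strings coding circuits with `N + 1` nodes. -/
abbrev Str (N : ℕ) : Type := Fin ((N + 1) * (N + 3)) → Bool

abbrev Idx (N l : ℕ) (ι : Type) : Type :=
  (Bool × Bool) ⊕ (Unit ⊕ (Fin (N + 1) ⊕ ((Bool × ι) ⊕
    ((Fin (2 ^ l) → Cell (Fin (N + 1))) × Bool))))

def atoms (N l : ℕ) {ι : Type} (A : ι → Fin (N + 1) × Str N → Prop) :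
    Idx N l ι → Fin (N + 1) × Str N → Prop
  | Sum.inl b, z => (decode N z.2).kind z.1 = kindOf b.1 b.2
  | Sum.inr (Sum.inl _), z => (decode N z.2).Large z.1
  | Sum.inr (Sum.inr (Sum.inl i)), z => z.1 = i
  | Sum.inr (Sum.inr (Sum.inr (Sum.inl p))), z =>
      ∃ h, IsCh (decode N z.2) p.1 h z.1 ∧ A p.2 (h, z.2)
  | Sum.inr (Sum.inr (Sum.inr (Sum.inr p))), z =>
      ∃ h, (decode N z.2).wire h z.1 = true ∧
        inn (decode N z.2) (fun i => pts p.1 i ∨ ivs p.1 i) l h ∧
        (evl (decode N z.2) (pts p.1) l h ↔ p.2 = true)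

theorem card_cell (N : ℕ) : Fintype.card (Cell (Fin (N + 1))) ≤ (N + 2) ^ 3 := by
  simp only [Fintype.card_sum, Fintype.card_prod, Fintype.card_option, Fintype.card_fin]
  nlinarith [Nat.zero_le N, sq_nonneg N, Nat.zero_le (N ^ 3)]

theorem card_idx (N l c : ℕ) (ι : Type) [Fintype ι] (h : Fintype.card ι ≤ (N + 2) ^ c) :
    Fintype.card (Idx N l ι) ≤ (N + 2) ^ (c + 3 * 2 ^ l + 6) := by
  have h2 : 2 ≤ N + 2 := by omega
  have hc := card_cell N
  have h3 : (Fintype.card (Cell (Fin (N + 1)))) ^ (2 ^ l) ≤ (N + 2) ^ (3 * 2 ^ l) := by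
    rw [pow_mul]
    exact Nat.pow_le_pow_left hc _
  simp only [Fintype.card_sum, Fintype.card_prod, Fintype.card_fun, Fintype.card_fin,
    Fintype.card_bool, Fintype.card_unit] at h3 ⊢
  set X := (N + 1 + Fintype.card (Option (Fin (N + 1))) * Fintype.card (Option (Fin (N + 1))))
    ^ (2 ^ l) with hX
  have hpos1 : 1 ≤ (N + 2) ^ c := Nat.one_le_pow _ _ (by omega)
  have hpos2 : 1 ≤ (N + 2) ^ (3 * 2 ^ l) := Nat.one_le_pow _ _ (by omega)
  have hp : 1 ≤ (N + 2) ^ c * (N + 2) ^ (3 * 2 ^ l) := Nat.mul_le_mul hpos1 hpos2
  have e : (N + 2) ^ (c + 3 * 2 ^ l + 6) = (N + 2) ^ c * (N + 2) ^ (3 * 2 ^ l) * (N + 2) ^ 6 := by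
    rw [pow_add, pow_add]
  rw [e]
  set a := (N + 2) ^ c
  set b := (N + 2) ^ (3 * 2 ^ l)
  have hab : a ≤ a * b := Nat.le_mul_of_pos_right _ hpos2
  have hba : b ≤ a * b := Nat.le_mul_of_pos_left _ hpos1
  have h6 : N + 12 ≤ (N + 2) ^ 6 := by
    calc N + 12 ≤ (N + 2) * 32 := by omega
      _ = (N + 2) * 2 ^ 5 := by norm_num
      _ ≤ (N + 2) * (N + 2) ^ 5 := Nat.mul_le_mul_left _ (Nat.pow_le_pow_left h2 5)
      _ = (N + 2) ^ 6 := by ring
  calc 2 * 2 + (1 + (N + 1 + (2 * Fintype.card ι + X * 2)))
      ≤ 4 + (1 + (N + 1 + (2 * a + b * 2))) := by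
        have := h
        nlinarith
    _ ≤ 4 * (a * b) + (1 * (a * b) + ((N + 1) * (a * b) + (2 * (a * b) + (a * b) * 2))) := by
        nlinarith
    _ ≤ a * b * (N + 12) := by nlinarith
    _ ≤ a * b * (N + 2) ^ 6 := Nat.mul_le_mul_left _ h6

theorem atoms_AC (N l c : ℕ) {ι : Type} (A : ι → Fin (N + 1) × Str N → Prop)
    (hA : ∀ i g, AC ((N + 2) ^ c) c fun x => A i (g, x)) (i : Idx N l ι) (g : Fin (N + 1)) :
    AC ((N + 2) ^ (c + 3 * 2 ^ l + 6 * l + 20)) (c + 3 * 2 ^ l + 6 * l + 20)
      fun x => atoms N l A i (g, x) := by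
  set e := c + 3 * 2 ^ l + 6 * l + 20 with he
  set s := (N + 2) ^ e with hsdef
  have hs : 2 ≤ s := le_trans (by rw [pow_one]; omega : 2 ≤ (N + 2) ^ 1)
    (Nat.pow_le_pow_right (by omega) (by omega))
  have hN : N + 1 ≤ s := le_trans (by rw [pow_one]; omega : N + 1 ≤ (N + 2) ^ 1)
    (Nat.pow_le_pow_right (by omega) (by omega))
  have hs3 : (N + 1) ^ 3 ≤ s := le_trans (Nat.pow_le_pow_left (by omega : N + 1 ≤ N + 2) 3)
    (Nat.pow_le_pow_right (by omega) (by omega))
  have hsc : (N + 2) ^ c ≤ s := Nat.pow_le_pow_right (by omega) (by omega)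
  have h1s : 1 ≤ s := by omega
  rcases i with b | u | i | p | p
  · exact AC.mono_depth h1s (by omega) (kind_AC hs g (kindOf b.1 b.2))
  · exact AC.mono_depth h1s (by omega) (large_AC hs hs3 g)
  · exact AC.const (g = i) (by omega)
  · have h1 : AC s (c + 5) fun x : Str N => ∃ h, IsCh (decode N x) p.1 h g ∧ A p.2 (h, x) := by
      refine AC.exists_fintype (by simpa using hN) fun h => AC.and hs ?_ ?_
      · exact AC.mono_depth h1s (by omega) (isCh_AC hs hN p.1 h g)
      · exact AC.mono h1s hsc (by omega) (hA p.2 h)
    exact AC.mono_depth h1s (by omega) h1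
  · have h1 : AC s (6 * l + 7) fun x : Str N => ∃ h, (decode N x).wire h g = true ∧
        inn (decode N x) (fun i => pts p.1 i ∨ ivs p.1 i) l h ∧
        (evl (decode N x) (pts p.1) l h ↔ p.2 = true) := by
      refine AC.exists_fintype (by simpa using hN) fun h => AC.and hs ?_ (AC.and hs ?_ ?_)
      · exact AC.mono_depth h1s (by omega) (wire_AC h g)
      · exact AC.mono_depth h1s (by omega) (inn_AC hs hN _ l h)
      · have h2 := evl_AC hs hN (pts p.1) l h
        cases hp : p.2
        · exact (AC.mono_depth h1s (by omega : 6 * l + 2 ≤ 6 * l + 4) h2.not).congr fun x => by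
            simp
        · exact (AC.mono_depth h1s (by omega : 6 * l + 2 ≤ 6 * l + 4) h2).congr fun x => by
            simp
    exact AC.mono_depth h1s (by omega) h1

theorem UB (l : ℕ) : ∃ (c : ℕ) (Df : ℕ → ℕ), ∀ N : ℕ, ∃ (ι : Type) (_ : Fintype ι) (_ : Nonempty ι)
    (A : ι → Fin (N + 1) × Str N → Prop), Fintype.card ι ≤ (N + 2) ^ c ∧
      (∀ i g, AC ((N + 2) ^ c) c fun x => A i (g, x)) ∧
      ∀ (k : ℕ) (s : Fin k → Fin (N + 1)), ∃ f, Junta A (Df k) f ∧
        ∀ g x, (decode N x).Correct → wle (decode N x) l 1 g →
          (evl (decode N x) (fun i => ∃ j, s j = i) l g ↔ f (g, x)) := by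
  classical
  induction l with
  | zero =>
    refine ⟨1, fun k => k * 1, fun N => ⟨Fin (N + 1), inferInstance, inferInstance,
      fun i z => z.1 = i, ?_, ?_, ?_⟩⟩
    · simp
    · intro i g
      exact AC.const (g = i) le_rfl
    · intro k s
      refine ⟨fun z => ∃ j : Fin k, z.1 = s j, ?_, ?_⟩
      · have := Junta.exists_fintype (κ := Fin k) (D := 1)
          (A := fun (i : Fin (N + 1)) (z : Fin (N + 1) × Str N) => z.1 = i)
          (F := fun j z => z.1 = s j) fun j => Junta.atom (s j)
        simpa using this
      · intro g x _ hg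
        simp only [wle] at hg
        simp only [evl, hg, true_and]
        exact exists_congr fun j => eq_comm
  | succ l ih =>
    obtain ⟨c, Df, H⟩ := ih
    refine ⟨c + 3 * 2 ^ l + 6 * l + 20, fun k => (1 + Fintype.card (Fin k) * 1) + ((1 + Df k) +
      ((1 + (1 + (Df k + Df k))) + ((1 + (1 + (Df k + Df k))) +
        ((1 + (1 + Fintype.card (Fin (2 ^ l) → Cell (Fin k)) * 1)) +
          (1 + (1 + Fintype.card (Fin (2 ^ l) → Cell (Fin k)) * 1)))))), fun N => ?_⟩
    obtain ⟨ι, hι, hne, A, hcard, hAC, HJ⟩ := H N
    refine ⟨Idx N l ι, inferInstance, inferInstance, atoms N l A, ?_, ?_, ?_⟩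
    · exact (card_idx N l c ι hcard).trans (Nat.pow_le_pow_right (by omega) (by omega))
    · exact atoms_AC N l c A hAC
    · intro k s
      obtain ⟨f, hfJ, hf⟩ := HJ k s
      -- the pointer functions
      have ptr : ∀ cb : Bool, ∃ f', Junta (atoms N l A) (Df k) f' ∧
          ∀ (z z' : Fin (N + 1) × Str N),
            (∀ i, A i z ↔ atoms N l A (Sum.inr (Sum.inr (Sum.inr (Sum.inl (cb, i))))) z') →
            (f z ↔ f' z') := fun cb =>
        Junta.transfer (A' := atoms N l A)
          (fun i => Sum.inr (Sum.inr (Sum.inr (Sum.inl (cb, i))))) hfJ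
      choose p hpJ hp using ptr
      have hptr : ∀ (cb : Bool) (g h : Fin (N + 1)) (x : Str N), IsCh (decode N x) cb h g →
          (f (h, x) ↔ p cb (g, x)) := by
        intro cb g h x hch
        apply hp cb
        intro i
        constructor
        · intro hi
          exact ⟨h, hch, hi⟩
        · rintro ⟨h', hch', hi⟩
          have := isCh_unique hch hch'
          subst this
          exact hi
      let kd : Bool → Bool → Fin (N + 1) × Str N → Prop := fun b1 b2 =>
        atoms N l A (Sum.inl (b1, b2))
      let lg : Fin (N + 1) × Str N → Prop := atoms N l A (Sum.inr (Sum.inl ()))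
      let eqn : Fin (N + 1) × Str N → Prop := fun z =>
        ∃ j : Fin k, atoms N l A (Sum.inr (Sum.inr (Sum.inl (s j)))) z
      let iv : Bool → Fin (N + 1) × Str N → Prop := fun b z =>
        ∃ u : Fin (2 ^ l) → Cell (Fin k), valid s u ∧
          atoms N l A (Sum.inr (Sum.inr (Sum.inr (Sum.inr ((fun j => real s (u j)), b))))) z
      have hkd : ∀ b1 b2, Junta (atoms N l A) 1 (kd b1 b2) := fun b1 b2 => Junta.atom _
      have hlg : Junta (atoms N l A) 1 lg := Junta.atom _
      have heqn : Junta (atoms N l A) (Fintype.card (Fin k) * 1) eqn :=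
        Junta.exists_fintype fun j => Junta.atom _
      have hiv : ∀ b, Junta (atoms N l A)
          (Fintype.card (Fin (2 ^ l) → Cell (Fin k)) * 1) (iv b) := by
        intro b
        refine Junta.exists_fintype fun u => ?_
        by_cases hu : valid s u
        · exact (Junta.atom (A := atoms N l A)
            (Sum.inr (Sum.inr (Sum.inr (Sum.inr ((fun j => real s (u j)), b)))))).congr
            fun z => by simp [hu]
        · exact (Junta.mono (Nat.zero_le 1) (Junta.const (A := atoms N l A) False)).congr
            fun z => by simp [hu]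
      refine ⟨fun z => (kd true true z ∧ eqn z) ∨ (kd true false z ∧ ¬ p false z) ∨
        (¬ lg z ∧ kd false true z ∧ p false z ∧ p true z) ∨
        (¬ lg z ∧ kd false false z ∧ (p false z ∨ p true z)) ∨
        (lg z ∧ kd false true z ∧ ¬ iv false z) ∨ (lg z ∧ kd false false z ∧ iv true z), ?_, ?_⟩
      · exact Junta.or ((hkd _ _).and heqn) (Junta.or ((hkd _ _).and (hpJ false).not)
          (Junta.or (hlg.not.and ((hkd _ _).and ((hpJ false).and (hpJ true))))
            (Junta.or (hlg.not.and ((hkd _ _).and ((hpJ false).or (hpJ true))))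
              (Junta.or (hlg.and ((hkd _ _).and (hiv false).not))
                (hlg.and ((hkd _ _).and (hiv true)))))))
      · intro g x hC hg
        have hk1 : ∀ b1 b2, kd b1 b2 (g, x) ↔ (decode N x).kind g = kindOf b1 b2 := fun _ _ =>
          Iff.rfl
        have hl1 : lg (g, x) ↔ (decode N x).Large g := Iff.rfl
        simp only [hk1, hl1, kindOf]
        by_cases hk : (decode N x).kind g = Kind.input
        · simp only [evl, hk, true_and, reduceCtorEq, false_and, or_false, and_false]
          show _ ↔ ∃ j : Fin k, g = s j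
          exact exists_congr fun j => eq_comm
        · rcases hg with h1 | ⟨hL, _, h1⟩ | ⟨hL, h1⟩
          · exact absurd h1 hk
          · -- large gate
            have h1' : ∀ h, (decode N x).wire h g = true → wle (decode N x) l 0 h := h1
            have hiv1 : ∀ b : Bool, iv b (g, x) ↔ ∃ h, (decode N x).wire h g = true ∧
                (evl (decode N x) (fun i => ∃ j, s j = i) l h ↔ b = true) := by
              intro b
              rw [interval_lemma hC (m := 2 ^ l) le_rfl s g (b = true) h1']
              rfl
            rw [hiv1, hiv1]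
            rcases hL.1 with hkc | hkc
            · simp only [evl, hkc, true_and, reduceCtorEq, false_and, or_false, and_false,
                false_or, hL, not_true]
              push Not
              refine forall_congr' fun h => imp_congr_right fun hw => ?_
              simp
            · simp only [evl, hkc, true_and, reduceCtorEq, false_and, or_false, and_false,
                false_or, hL, not_true]
              refine exists_congr fun h => and_congr_right fun hw => ?_
              simp
          · -- small gate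
            have hch := children_exists hC hk
            obtain ⟨h₀, H₀⟩ := isCh_exists false hch
            obtain ⟨h₁, H₁⟩ := isCh_exists true hch
            have p0 := hptr false g h₀ x H₀
            have p1 := hptr true g h₁ x H₁
            have e0 := hf h₀ x hC (h1 h₀ H₀.1)
            have e1 := hf h₁ x hC (h1 h₁ H₁.1)
            rw [← p0, ← p1, ← e0, ← e1]
            have two := small_two hC hL H₀ H₁
            cases hkg : (decode N x).kind g with
            | input => exact absurd hkg hk
            | neg =>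
              have hone := (fanIn_eq_one_iff _ g).1 (hC.2.2.1 g hkg)
              simp only [evl, hkg, true_and, reduceCtorEq, false_and, or_false, and_false,
                false_or]
              constructor
              · rintro ⟨h, hw, hn⟩
                have := hone.2 (h, h₀) hw H₀.1
                simp only at this
                rwa [← this]
              · intro hn
                exact ⟨h₀, H₀.1, hn⟩
            | conj =>
              simp only [evl, hkg, true_and, reduceCtorEq, false_and, or_false, and_false,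
                false_or, hL, not_false_eq_true]
              constructor
              · intro h
                exact ⟨h h₀ H₀.1, h h₁ H₁.1⟩
              · rintro ⟨a0, a1⟩ h hw
                rcases two h hw with rfl | rfl
                · exact a0
                · exact a1
            | disj =>
              simp only [evl, hkg, true_and, reduceCtorEq, false_and, or_false, and_false,
                false_or, hL, not_false_eq_true]
              constructor
              · rintro ⟨h, hw, ha⟩
                rcases two h hw with rfl | rfl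
                · exact Or.inl ha
                · exact Or.inr ha
              · rintro (a0 | a1)
                · exact ⟨h₀, H₀.1, a0⟩
                · exact ⟨h₁, H₁.1, a1⟩

end Upper

end Pool.Agent.W_MP_5f6b2a_lc
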